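import Pool.Agent.H2.TCR.H98.Dbar.Basic

/-! The parts of this file: H98.Dbar.Basic_1, H98.Dbar.Conv, H98.Dbar.Dens1, H98.Dbar.Dens2, H98.Dbar.Ex, H98.Dbar.Kernel, H98.Dbar.Mixed, H98.Dbar.Mom2, H98.Dbar.Mom3, H98.Dbar.Nec4, H98.Dbar.Ops, H98.Dbar.Nec, H98.Dbar.Suff, H98.Dbar.Per1, H98.Dbar.Suff3, H98.Dbar.Per2. -/

section

/-! # Basic definitions for the d-bar problem on indicator functions -/

open MeasureTheory Complex Metric Set Filter Topology
open scoped ContDiff ENNReal NNReal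

namespace H98.Dbar

lemma dbar_add {f g : ℂ → ℂ} {z : ℂ} (hf : DifferentiableAt ℝ f z)
    (hg : DifferentiableAt ℝ g z) :
    dbar (fun w => f w + g w) z = dbar f z + dbar g z := by
  unfold dbar
  rw [show (fun w => f w + g w) = f + g from rfl, fderiv_add hf hg]
  simp only [add_apply]
  ring

lemma dbar_sub {f g : ℂ → ℂ} {z : ℂ} (hf : DifferentiableAt ℝ f z)
    (hg : DifferentiableAt ℝ g z) :
    dbar (fun w => f w - g w) z = dbar f z - dbar g z := by
  unfold dbar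
  rw [show (fun w => f w - g w) = f - g from rfl, fderiv_sub hf hg]
  simp only [sub_apply]
  ring

lemma dbar_mul {f g : ℂ → ℂ} {z : ℂ} (hf : DifferentiableAt ℝ f z)
    (hg : DifferentiableAt ℝ g z) :
    dbar (fun w => f w * g w) z = dbar f z * g z + f z * dbar g z := by
  unfold dbar
  rw [show (fun w => f w * g w) = f * g from rfl, fderiv_mul hf hg]
  simp only [add_apply, smul_apply, smul_eq_mul]
  ring

lemma dbar_const_mul {g : ℂ → ℂ} {z : ℂ} (c : ℂ) (hg : DifferentiableAt ℝ g z) :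
    dbar (fun w => c * g w) z = c * dbar g z := by
  unfold dbar
  rw [show (fun w => c * g w) = c • g from rfl, fderiv_const_smul hg]
  simp only [smul_apply, smul_eq_mul]
  ring

lemma dbar_const_smul {g : ℂ → ℂ} {z : ℂ} (c : ℂ) (hg : DifferentiableAt ℝ g z) :
    dbar (c • g) z = c * dbar g z := dbar_const_mul c hg

lemma dbar_congr {f g : ℂ → ℂ} {z : ℂ} (h : f =ᶠ[𝓝 z] g) : dbar f z = dbar g z := by
  unfold dbar
  rw [h.fderiv_eq]

lemma dbar_const (c z : ℂ) : dbar (fun _ => c) z = 0 := by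
  unfold dbar
  simp

lemma dbar_holo {f : ℂ → ℂ} {z : ℂ} (hf : DifferentiableAt ℂ f z) : dbar f z = 0 := by
  unfold dbar
  have h1 : fderiv ℝ f z = (fderiv ℂ f z).restrictScalars ℝ := by
    exact (hf.hasFDerivAt.restrictScalars ℝ).fderiv
  rw [h1]
  simp only [ContinuousLinearMap.coe_restrictScalars']
  have : fderiv ℂ f z I = I * fderiv ℂ f z 1 := by
    rw [← smul_eq_mul, ← ContinuousLinearMap.map_smul]; simp
  rw [this, ← mul_assoc, I_mul_I]
  ring

lemma norm_dbar_le (f : ℂ → ℂ) (z : ℂ) : ‖dbar f z‖ ≤ ‖fderiv ℝ f z‖ := by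
  unfold dbar
  have h1 : ‖fderiv ℝ f z 1‖ ≤ ‖fderiv ℝ f z‖ := by
    simpa using (fderiv ℝ f z).le_opNorm 1
  have h2 : ‖fderiv ℝ f z I‖ ≤ ‖fderiv ℝ f z‖ := by
    simpa using (fderiv ℝ f z).le_opNorm I
  calc ‖(1 / 2 : ℂ) * (fderiv ℝ f z 1 + I * fderiv ℝ f z I)‖
      = (1/2) * ‖fderiv ℝ f z 1 + I * fderiv ℝ f z I‖ := by
        rw [norm_mul]; norm_num
    _ ≤ (1/2) * (‖fderiv ℝ f z 1‖ + ‖I * fderiv ℝ f z I‖) := by
        gcongr; exact norm_add_le _ _
    _ = (1/2) * (‖fderiv ℝ f z 1‖ + ‖fderiv ℝ f z I‖) := by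
        rw [norm_mul, Complex.norm_I, one_mul]
    _ ≤ (1/2) * (‖fderiv ℝ f z‖ + ‖fderiv ℝ f z‖) := by gcongr
    _ = ‖fderiv ℝ f z‖ := by ring

lemma contDiff_dbar {f : ℂ → ℂ} (hf : ContDiff ℝ ∞ f) : ContDiff ℝ ∞ (dbar f) := by
  have h := hf.fderiv_right (m := ∞) (by simp)
  unfold dbar
  fun_prop

lemma hasCompactSupport_dbar {f : ℂ → ℂ} (hf : HasCompactSupport f) :
    HasCompactSupport (dbar f) := by
  have h := hf.fderiv ℝ
  refine h.mono ?_
  intro z hz
  rw [Function.mem_support] at hz ⊢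
  contrapose! hz
  unfold dbar
  rw [hz]; simp

end H98.Dbar

end

section

/-! # Convolution with test functions -/

open MeasureTheory Complex Metric Set Filter Topology
open scoped ContDiff ENNReal NNReal Convolution

namespace H98.Dbar

/-- Convolution of complex functions. -/
noncomputable def cv (κ F : ℂ → ℂ) (z : ℂ) : ℂ := ∫ w, κ w * F (z - w)

lemma cv_eq_conv (κ F : ℂ → ℂ) :
    cv κ F = MeasureTheory.convolution κ F (ContinuousLinearMap.mul ℝ ℂ) volume := by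
  ext z
  rw [MeasureTheory.convolution_def]
  rfl

lemma cv_swap (κ F : ℂ → ℂ) (z : ℂ) : cv κ F z = ∫ w, κ (z - w) * F w := by
  rw [cv_eq_conv, MeasureTheory.convolution_eq_swap]
  rfl

lemma cv_comm (κ F : ℂ → ℂ) : cv κ F = cv F κ := by
  ext z
  rw [cv_swap]
  unfold cv
  congr 1
  ext w
  ring

/-- Test functions. -/
def V : Submodule ℂ (ℂ → ℂ) where
  carrier := {f | ContDiff ℝ ∞ f ∧ HasCompactSupport f}
  add_mem' := by
    rintro f g ⟨hf, hf'⟩ ⟨hg, hg'⟩
    exact ⟨hf.add hg, hf'.add hg'⟩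
  zero_mem' := ⟨contDiff_const, HasCompactSupport.zero⟩
  smul_mem' := by
    rintro c f ⟨hf, hf'⟩
    refine ⟨hf.const_smul c, ?_⟩
    exact hf'.smul_left (f := fun _ => c)

lemma V_cont {f : ℂ → ℂ} (hf : f ∈ V) : Continuous f := hf.1.continuous

lemma V_integrable {f : ℂ → ℂ} (hf : f ∈ V) : Integrable f :=
  hf.1.continuous.integrable_of_hasCompactSupport hf.2

lemma V_differentiable {f : ℂ → ℂ} (hf : f ∈ V) : Differentiable ℝ f :=
  hf.1.differentiable (by simp)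

/-- Bounded measurable functions. -/
structure Bm (F : ℂ → ℂ) (M : ℝ) : Prop where
  meas : Measurable F
  bd : ∀ z, ‖F z‖ ≤ M

lemma Bm.locInt {F : ℂ → ℂ} {M : ℝ} (hF : Bm F M) : LocallyIntegrable F := by
  apply MeasureTheory.LocallyIntegrable.mono (g := F) (f := fun _ : ℂ => M)
  · exact locallyIntegrable_const M
  · exact hF.meas.aestronglyMeasurable
  · filter_upwards with z
    exact (hF.bd z).trans (le_abs_self M)

lemma cv_mem_V {κ F : ℂ → ℂ} (hκ : κ ∈ V) (hF : LocallyIntegrable F)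
    (hFc : HasCompactSupport F) : cv κ F ∈ V := by
  refine ⟨?_, ?_⟩
  · rw [cv_eq_conv]
    exact hκ.2.contDiff_convolution_left _ hκ.1 hF
  · rw [cv_eq_conv]
    exact HasCompactSupport.convolution _ hκ.2 hFc

lemma cv_contDiff {κ F : ℂ → ℂ} (hκ : κ ∈ V) (hF : LocallyIntegrable F) :
    ContDiff ℝ ∞ (cv κ F) := by
  rw [cv_eq_conv]
  exact hκ.2.contDiff_convolution_left _ hκ.1 hF

lemma cv_integrand {κ F : ℂ → ℂ} (hκ : κ ∈ V) (hF : LocallyIntegrable F) (z : ℂ) :
    Integrable (fun w => κ w * F (z - w)) := by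
  have := hκ.2.convolutionExists_left (ContinuousLinearMap.mul ℝ ℂ) hκ.1.continuous hF z
  exact this

lemma cv_integrand' {κ F : ℂ → ℂ} (hκ : κ ∈ V) (hF : LocallyIntegrable F) (z : ℂ) :
    Integrable (fun w => κ (z - w) * F w) := by
  have := (hκ.2.convolutionExists_left (ContinuousLinearMap.mul ℝ ℂ) hκ.1.continuous hF z).integrable_swap
  exact this

lemma cv_bound {κ F : ℂ → ℂ} {M : ℝ} (hκ : Integrable κ) (hF : ∀ z, ‖F z‖ ≤ M) (z : ℂ) :
    ‖cv κ F z‖ ≤ (∫ w, ‖κ w‖) * M := by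
  unfold cv
  rw [← integral_mul_const]
  apply norm_integral_le_of_norm_le (hκ.norm.mul_const M)
  filter_upwards with w
  rw [norm_mul]
  gcongr
  exact hF _

lemma cv_add_right {κ F G : ℂ → ℂ} (hκ : κ ∈ V) (hF : LocallyIntegrable F)
    (hG : LocallyIntegrable G) : cv κ (F + G) = cv κ F + cv κ G := by
  ext z
  unfold cv
  simp only [Pi.add_apply, mul_add]
  exact integral_add (cv_integrand hκ hF z) (cv_integrand hκ hG z)

lemma cv_smul_right {κ F : ℂ → ℂ} (c : ℂ) : cv κ (c • F) = c • cv κ F := by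
  ext z
  unfold cv
  simp only [Pi.smul_apply, smul_eq_mul]
  rw [← integral_const_mul]
  congr 1; ext w; ring

lemma cv_sub_left {κ κ' F : ℂ → ℂ} (hκ : κ ∈ V) (hκ' : κ' ∈ V) (hF : LocallyIntegrable F)
    (z : ℂ) : cv (fun w => κ w - κ' w) F z = cv κ F z - cv κ' F z := by
  unfold cv
  simp only [sub_mul]
  exact integral_sub (cv_integrand hκ hF z) (cv_integrand hκ' hF z)

lemma fderiv_cv {κ F : ℂ → ℂ} (hκ : κ ∈ V) (hF : LocallyIntegrable F) (z v : ℂ) :
    fderiv ℝ (cv κ F) z v = ∫ w, fderiv ℝ κ w v * F (z - w) := by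
  have hκ1 : ContDiff ℝ 1 κ := hκ.1.of_le (by simp)
  have h1 := hκ.2.hasFDerivAt_convolution_left (ContinuousLinearMap.mul ℝ ℂ) hκ1 hF z
  rw [← cv_eq_conv] at h1
  rw [h1.fderiv, MeasureTheory.convolution_def]
  rw [ContinuousLinearMap.integral_apply]
  · rfl
  · have h2 := (hκ.2.fderiv ℝ).convolutionExists_left ((ContinuousLinearMap.mul ℝ ℂ).precompL ℂ)
      (hκ1.continuous_fderiv (by simp)) hF z
    exact h2

lemma dbar_cv_left {κ F : ℂ → ℂ} (hκ : κ ∈ V) (hF : LocallyIntegrable F) (z : ℂ) :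
    dbar (cv κ F) z = cv (dbar κ) F z := by
  unfold dbar
  rw [fderiv_cv hκ hF, fderiv_cv hκ hF]
  unfold cv
  rw [← integral_const_mul, ← integral_add, ← integral_const_mul]
  · congr 1
    ext w
    ring
  · have hκ1 : ContDiff ℝ ∞ (fun w => fderiv ℝ κ w 1) := by
      have h := hκ.1.fderiv_right (m := ∞) (by simp)
      fun_prop
    have hκ2 : HasCompactSupport (fun w => fderiv ℝ κ w 1) := hκ.2.fderiv_apply (𝕜 := ℝ) 1
    exact cv_integrand ⟨hκ1, hκ2⟩ hF z
  · have hκ1 : ContDiff ℝ ∞ (fun w => fderiv ℝ κ w I) := by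
      have h := hκ.1.fderiv_right (m := ∞) (by simp)
      fun_prop
    have hκ2 : HasCompactSupport (fun w => fderiv ℝ κ w I) := hκ.2.fderiv_apply (𝕜 := ℝ) I
    exact (cv_integrand ⟨hκ1, hκ2⟩ hF z).const_mul I

lemma dbar_mem_V {f : ℂ → ℂ} (hf : f ∈ V) : dbar f ∈ V :=
  ⟨contDiff_dbar hf.1, hasCompactSupport_dbar hf.2⟩

lemma V_locInt {f : ℂ → ℂ} (hf : f ∈ V) : LocallyIntegrable f :=
  (V_integrable hf).locallyIntegrable

lemma dbar_cv_right {κ F : ℂ → ℂ} (hκ : κ ∈ V) (hF : F ∈ V) (z : ℂ) :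
    dbar (cv κ F) z = cv κ (dbar F) z := by
  rw [cv_comm, dbar_cv_left hF (V_locInt hκ), cv_comm]

/-- Adjointness. -/
lemma adj {κ F G : ℂ → ℂ} {M : ℝ} (hκ : κ ∈ V) (hF : Bm F M) (hG : Integrable G) :
    ∫ z, F z * cv κ G z = ∫ w, cv (fun u => κ (-u)) F w * G w := by
  have h1 : Integrable (fun p : ℂ × ℂ => G p.2 * κ (p.1 - p.2)) (volume.prod volume) :=
    hG.convolution_integrand (ContinuousLinearMap.mul ℝ ℂ) (V_integrable hκ)
  have h2 : Integrable (fun p : ℂ × ℂ => F p.1 * (G p.2 * κ (p.1 - p.2))) (volume.prod volume) := by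
    refine h1.bdd_mul (c := M) ?_ ?_
    · exact (hF.meas.comp measurable_fst).aestronglyMeasurable
    · filter_upwards with p
      exact hF.bd _
  have h3 := MeasureTheory.integral_integral_swap (f := fun z w => F z * (G w * κ (z - w))) h2
  have e1 : ∀ z, F z * cv κ G z = ∫ w, F z * (G w * κ (z - w)) := by
    intro z
    rw [cv_swap, ← integral_const_mul]
    congr 1; ext w; ring
  have e2 : ∀ w, cv (fun u => κ (-u)) F w * G w = ∫ z, F z * (G w * κ (z - w)) := by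
    intro w
    rw [cv_swap, ← integral_mul_const]
    congr 1; ext z
    rw [neg_sub]; ring
  simp_rw [e1, e2]
  exact h3

/-- Associativity-commutativity for test kernels. -/
lemma cv_cv_comm {κ μ F : ℂ → ℂ} (hκ : κ ∈ V) (hμ : μ ∈ V) (hF : F ∈ V) :
    cv κ (cv μ F) = cv μ (cv κ F) := by
  have key : ∀ {κ μ F : ℂ → ℂ}, κ ∈ V → μ ∈ V → F ∈ V → cv κ (cv μ F) = cv (cv κ μ) F := by
    intro κ μ F hκ hμ hF
    ext z
    have hc : HasCompactSupport (fun x => ‖κ x‖) := hκ.2.norm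
    rw [cv_eq_conv (cv κ μ), cv_eq_conv κ μ, cv_eq_conv κ (cv μ F), cv_eq_conv μ F]
    rw [MeasureTheory.convolution_assoc (ContinuousLinearMap.mul ℝ ℂ) (ContinuousLinearMap.mul ℝ ℂ)
      (ContinuousLinearMap.mul ℝ ℂ) (ContinuousLinearMap.mul ℝ ℂ)]
    · intro x y z; simp [mul_assoc]
    · exact (V_cont hκ).aestronglyMeasurable
    · exact (V_cont hμ).aestronglyMeasurable
    · exact (V_cont hF).aestronglyMeasurable
    · filter_upwards with x
      exact hκ.2.convolutionExists_left (ContinuousLinearMap.mul ℝ ℂ) (V_cont hκ) (V_locInt hμ) x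
    · filter_upwards with x
      exact (hμ.2.norm).convolutionExists_left (ContinuousLinearMap.mul ℝ ℝ) (V_cont hμ).norm
        (V_integrable hF).norm.locallyIntegrable x
    · exact (hκ.2.norm).convolutionExists_left (ContinuousLinearMap.mul ℝ ℝ) (V_cont hκ).norm
        (by
          have : Continuous ((fun x => ‖μ x‖) ⋆[ContinuousLinearMap.mul ℝ ℝ, volume] fun x => ‖F x‖) :=
            (hμ.2.norm).continuous_convolution_left _ (V_cont hμ).norm (V_integrable hF).norm.locallyIntegrable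
          exact this.locallyIntegrable) z
  rw [key hκ hμ hF, key hμ hκ hF, cv_comm κ μ]

end H98.Dbar

end

section

/-!
# Comparison of two families of averages: the algebraic part
-/

open scoped ENNReal NNReal

namespace H98.Dens

section abs

variable {A M : Type*} [CommRing A] [AddCommGroup M] [Module A M]

/-- Extended seminorms. -/
structure ESN (p : M → ℝ≥0∞) : Prop where
  zero : p 0 = 0
  add : ∀ x y, p (x + y) ≤ p x + p y
  neg : ∀ x, p (-x) = p x

/-- `T` is bounded by `c`. -/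
def OP (p : M → ℝ≥0∞) (T : A) (c : ℝ≥0∞) : Prop := ∀ x : M, p (T • x) ≤ c * p x

variable {p : M → ℝ≥0∞}

lemma ESN.sub (hp : ESN p) (x y : M) : p (x - y) ≤ p x + p y := by
  rw [sub_eq_add_neg, ← hp.neg y]
  exact hp.add _ _

lemma ESN.sum (hp : ESN p) {ι : Type*} (s : Finset ι) (f : ι → M) :
    p (∑ i ∈ s, f i) ≤ ∑ i ∈ s, p (f i) := by
  classical
  induction s using Finset.induction_on with
  | empty => simp [hp.zero]
  | insert a s ha ih =>
    rw [Finset.sum_insert ha, Finset.sum_insert ha]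
    exact (hp.add _ _).trans (add_le_add le_rfl ih)

lemma OP.one (p : M → ℝ≥0∞) : OP p (1 : A) 1 := fun x => by simp

lemma OP.mono {T : A} {c d : ℝ≥0∞} (h : OP p T c) (hcd : c ≤ d) : OP p T d := fun x =>
  (h x).trans (mul_le_mul_left hcd _)

lemma OP.add (hp : ESN p) {S T : A} {c d : ℝ≥0∞} (hS : OP p S c) (hT : OP p T d) :
    OP p (S + T) (c + d) := fun x => by
  rw [add_smul, add_mul]
  exact (hp.add _ _).trans (add_le_add (hS x) (hT x))

lemma OP.sub (hp : ESN p) {S T : A} {c d : ℝ≥0∞} (hS : OP p S c) (hT : OP p T d) :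
    OP p (S - T) (c + d) := fun x => by
  rw [sub_smul, add_mul]
  exact (hp.sub _ _).trans (add_le_add (hS x) (hT x))

lemma OP.mul {S T : A} {c d : ℝ≥0∞} (hS : OP p S c) (hT : OP p T d) :
    OP p (S * T) (c * d) := fun x => by
  rw [mul_smul, mul_assoc]
  exact (hS _).trans (mul_le_mul_right (hT x) _)

/-- The reproducing element. -/
def Kq (a : A) : A := 1 - (1 - a) ^ 2

lemma Kq_bd (hp : ESN p) {a : A} (ha : OP p a 1) : OP p (Kq a) 5 := by
  have h1 : OP p (1 - a) 2 := ((OP.one p).sub hp ha).mono (by norm_num)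
  have h2 : OP p ((1 - a) ^ 2) 4 := by
    rw [pow_two]
    exact (h1.mul h1).mono (by norm_num)
  exact ((OP.one p).sub hp h2).mono (by norm_num)

/-- High frequencies. -/
lemma high (hp : ESN p) {a a' b b' : A} (ha : OP p a 1) (ha' : OP p a' 1) {c : ℝ≥0∞}
    (h1 : OP p ((1 - a) * b) c) (h2 : OP p ((1 - a) * b') (2 * c))
    (h3 : OP p ((1 - a') * b) c) (h4 : OP p ((1 - a') * b') (2 * c)) (x : M) :
    p (((b' - b) * (Kq a' ^ 2 - Kq a ^ 2)) • x) ≤ 60 * c * p ((a' - a) • x) := by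
  have e : (b' - b) * (Kq a' ^ 2 - Kq a ^ 2) =
      (((1 - a) * b' - (1 - a) * b) + ((1 - a') * b' - (1 - a') * b)) * (Kq a' + Kq a) *
        (a' - a) := by
    unfold Kq; ring
  rw [e, mul_smul]
  have h5 := ((h2.sub hp h1).add hp (h4.sub hp h3)).mul
    ((Kq_bd hp ha').add hp (Kq_bd hp ha))
  refine (h5.mono (le_of_eq ?_)) _
  ring

/-- Low frequencies. -/
lemma low (hp : ESN p) {a a' b b' : A} (ha : OP p a 1) (ha' : OP p a' 1) {c : ℝ≥0∞}
    (h1 : OP p ((1 - b) * a) c) (h2 : OP p ((1 - b) * a') (2 * c))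
    (h3 : OP p ((1 - b') * a) c) (h4 : OP p ((1 - b') * a') (2 * c)) (x : M) :
    p (((b' - b) * (Kq a' ^ 2 - Kq a ^ 2)) • x) ≤ 72 * c * p ((a' - a) • x) := by
  have h0 : OP p (1 - a) 2 := ((OP.one p).sub hp ha).mono (by norm_num)
  have h0' : OP p (1 - a') 2 := ((OP.one p).sub hp ha').mono (by norm_num)
  have e : (b' - b) * (Kq a' ^ 2 - Kq a ^ 2) =
      (((1 - b) * a' - (1 - b') * a') * (1 + (1 - a')) +
        ((1 - b) * a - (1 - b') * a) * (1 + (1 - a))) * ((1 - a) + (1 - a')) *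
        (a' - a) := by
    unfold Kq; ring
  rw [e, mul_smul]
  have h5 := (((h2.sub hp h4).mul ((OP.one p).add hp h0')).add hp
    ((h1.sub hp h3).mul ((OP.one p).add hp h0))).mul (h0.add hp h0')
  refine (h5.mono (le_of_eq ?_)) _
  ring

/-- The lowest frequency. -/
lemma lowest (hp : ESN p) {a b b' : A} (ha : OP p a 1) {c : ℝ≥0∞}
    (h1 : OP p ((1 - b) * a) c) (h3 : OP p ((1 - b') * a) c) (x : M) :
    p (((b' - b) * Kq a ^ 2) • x) ≤ 30 * c * p x := by
  have h0 : OP p (1 - a) 2 := ((OP.one p).sub hp ha).mono (by norm_num)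
  have e : (b' - b) * Kq a ^ 2 =
      (((1 - b) * a - (1 - b') * a) * (1 + (1 - a))) * Kq a := by
    unfold Kq; ring
  rw [e]
  have h5 := ((h1.sub hp h3).mul ((OP.one p).add hp h0)).mul (Kq_bd hp ha)
  refine (h5.mono (le_of_eq ?_)) _
  ring

/-- The error of the reproducing formula. -/
lemma err (hp : ESN p) {a b b' : A} (ha : OP p a 1) {c : ℝ≥0∞}
    (h1 : OP p ((1 - a) * b) c) (h3 : OP p ((1 - a) * b') (2 * c)) (x : M) :
    p (((b' - b) * (1 - Kq a ^ 2)) • x) ≤ 36 * c * p x := by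
  have h0 : OP p (1 - a) 2 := ((OP.one p).sub hp ha).mono (by norm_num)
  have e : (b' - b) * (1 - Kq a ^ 2) =
      (((1 - a) * b' - (1 - a) * b) * (1 - a)) * (1 + Kq a) := by
    unfold Kq; ring
  rw [e]
  have h5 := ((h3.sub hp h1).mul h0).mul ((OP.one p).add hp (Kq_bd hp ha))
  refine (h5.mono (le_of_eq ?_)) _
  ring

/-- `2^{-|i-j|}` -/
noncomputable def dec (i j : ℕ) : ℝ≥0∞ := min (2 ^ i * 2⁻¹ ^ j) (2 ^ j * 2⁻¹ ^ i)

/-- The abstract comparison at the scale `j`. -/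
theorem compare (hp : ESN p) (a b : ℕ → A) (ha : ∀ i, OP p (a i) 1) {C : ℝ≥0∞}
    (h1 : ∀ i j, OP p ((1 - a i) * b j) (C * (2 ^ j * 2⁻¹ ^ i)))
    (h2 : ∀ i j, OP p ((1 - b j) * a i) (C * (2 ^ i * 2⁻¹ ^ j))) (x : M) (J j : ℕ) :
    p (((b (j + 1) - b j) * Kq (a J) ^ 2) • x) ≤
      30 * C * 2⁻¹ ^ j * p x +
      ∑ i ∈ Finset.range J, 72 * C * dec i j * p ((a (i + 1) - a i) • x) := by
  have hsplit : (b (j + 1) - b j) * Kq (a J) ^ 2 = (b (j + 1) - b j) * Kq (a 0) ^ 2 +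
      ∑ i ∈ Finset.range J, (b (j + 1) - b j) * (Kq (a (i + 1)) ^ 2 - Kq (a i) ^ 2) := by
    rw [← Finset.mul_sum, Finset.sum_range_sub (fun i => Kq (a i) ^ 2)]
    ring
  rw [hsplit, add_smul, Finset.sum_smul]
  have hhalf : (2⁻¹ : ℝ≥0∞) ≤ 1 := by simp
  refine (hp.add _ _).trans (add_le_add ?_ ((hp.sum _ _).trans (Finset.sum_le_sum ?_)))
  · have h3 := lowest hp (ha 0) (c := C * 2⁻¹ ^ j) ((h2 0 j).mono (by simp))
      ((h2 0 (j + 1)).mono (by
        rw [pow_zero, one_mul, pow_succ]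
        exact mul_le_mul_right ((mul_le_mul_right hhalf _).trans (by simp)) _)) x
    refine h3.trans (le_of_eq ?_)
    ring
  · intro i _
    unfold dec
    rcases min_choice ((2:ℝ≥0∞) ^ i * 2⁻¹ ^ j) (2 ^ j * 2⁻¹ ^ i) with hm | hm
    · rw [hm]
      have h3 := low hp (ha i) (ha (i + 1)) (b := b j) (b' := b (j + 1))
        (c := C * (2 ^ i * 2⁻¹ ^ j)) (h2 i j)
        ((h2 (i + 1) j).mono (le_of_eq (by rw [pow_succ]; ring)))
        ((h2 i (j + 1)).mono (by
          rw [pow_succ (2⁻¹ : ℝ≥0∞)]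
          refine mul_le_mul_right (mul_le_mul_right ?_ _) _
          exact (mul_le_mul_right hhalf _).trans (by simp)))
        ((h2 (i + 1) (j + 1)).mono (by
          rw [pow_succ (2⁻¹ : ℝ≥0∞), pow_succ (2 : ℝ≥0∞)]
          have : C * (2 ^ i * 2 * (2⁻¹ ^ j * 2⁻¹)) = 2 * (C * (2 ^ i * 2⁻¹ ^ j)) * 2⁻¹ := by ring
          rw [this]
          exact (mul_le_mul_right hhalf _).trans (by simp))) x
      refine h3.trans (le_of_eq ?_)
      ring
    · rw [hm]
      have h3 := high hp (ha i) (ha (i + 1)) (b := b j) (b' := b (j + 1))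
        (c := C * (2 ^ j * 2⁻¹ ^ i)) (h1 i j)
        ((h1 i (j + 1)).mono (le_of_eq (by rw [pow_succ]; ring)))
        ((h1 (i + 1) j).mono (by
          rw [pow_succ (2⁻¹ : ℝ≥0∞)]
          refine mul_le_mul_right (mul_le_mul_right ?_ _) _
          exact (mul_le_mul_right hhalf _).trans (by simp)))
        ((h1 (i + 1) (j + 1)).mono (by
          rw [pow_succ (2⁻¹ : ℝ≥0∞), pow_succ (2 : ℝ≥0∞)]
          have : C * (2 ^ j * 2 * (2⁻¹ ^ i * 2⁻¹)) = 2 * (C * (2 ^ j * 2⁻¹ ^ i)) * 2⁻¹ := by ring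
          rw [this]
          exact (mul_le_mul_right hhalf _).trans (by simp))) x
      refine h3.trans ?_
      rw [← mul_assoc 60 C]
      gcongr
      norm_num

end abs

/-- The weights. -/
noncomputable def wt (α : ℝ) (j : ℕ) : ℝ≥0∞ := ENNReal.ofReal ((2:ℝ) ^ ((1 - α) * j))

lemma wt_half (α : ℝ) (j : ℕ) : wt α j * 2⁻¹ ^ j = ENNReal.ofReal (((2:ℝ) ^ (-α)) ^ j) := by
  have h2 : (2⁻¹ : ℝ≥0∞) ^ j = ENNReal.ofReal ((2:ℝ) ^ (-(j:ℝ))) := by
    rw [Real.rpow_neg (by norm_num), Real.rpow_natCast, ← inv_pow,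
      ENNReal.ofReal_pow (by norm_num), ENNReal.ofReal_inv_of_pos (by norm_num)]
    norm_num
  unfold wt
  rw [h2, ← ENNReal.ofReal_mul (by positivity), ← Real.rpow_add (by norm_num),
    ← Real.rpow_natCast, ← Real.rpow_mul (by norm_num)]
  congr 2; ring

lemma geom_fin {q : ℝ} (h0 : 0 < q) (h1 : q < 1) : ∑' m : ℕ, ENNReal.ofReal (q ^ m) < ⊤ := by
  rw [← ENNReal.ofReal_tsum_of_nonneg (fun n => by positivity)
    (summable_geometric_of_lt_one h0.le h1)]
  exact ENNReal.ofReal_lt_top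

lemma rpow_lt_one' {β : ℝ} (hβ : 0 < β) : (2:ℝ) ^ (-β) < 1 :=
  Real.rpow_lt_one_of_one_lt_of_neg (by norm_num) (by linarith)

/-- Schur's bound for the weights. -/
lemma schur {α : ℝ} (h0 : 0 < α) (h2 : α < 2) : ∃ S : ℝ≥0∞, S < ⊤ ∧
    ∀ i : ℕ, ∑' j : ℕ, wt α j * dec i j ≤ S * wt α i := by
  set q : ℝ := (2:ℝ) ^ (-α) with hq
  set r : ℝ := (2:ℝ) ^ (-(2 - α)) with hr
  have hq0 : 0 < q := by positivity
  have hr0 : 0 < r := by positivity
  refine ⟨∑' m : ℕ, ENNReal.ofReal (r ^ m) + ∑' m : ℕ, ENNReal.ofReal (q ^ m),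
    ENNReal.add_lt_top.2 ⟨geom_fin hr0 (rpow_lt_one' (by linarith)),
      geom_fin hq0 (rpow_lt_one' h0)⟩, ?_⟩
  intro i
  have hpow : ∀ n : ℕ, (2 : ℝ≥0∞) ^ n = ENNReal.ofReal ((2:ℝ) ^ (n : ℝ)) := by
    intro n
    rw [Real.rpow_natCast, ENNReal.ofReal_pow (by norm_num)]
    norm_num
  have hpow' : ∀ n : ℕ, (2⁻¹ : ℝ≥0∞) ^ n = ENNReal.ofReal ((2:ℝ) ^ (-(n : ℝ))) := by
    intro n
    rw [Real.rpow_neg (by norm_num), Real.rpow_natCast, ← inv_pow,
      ENNReal.ofReal_pow (by norm_num), ENNReal.ofReal_inv_of_pos (by norm_num)]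
    norm_num
  rw [← Summable.sum_add_tsum_nat_add' (f := fun j => wt α j * dec i j) (k := i)
    ENNReal.summable, add_mul]
  apply add_le_add
  · calc ∑ j ∈ Finset.range i, wt α j * dec i j
        = ∑ m ∈ Finset.range i, wt α (i - 1 - m) * dec i (i - 1 - m) :=
          (Finset.sum_range_reflect (fun j => wt α j * dec i j) i).symm
      _ ≤ ∑ m ∈ Finset.range i, ENNReal.ofReal (r ^ m) * wt α i := by
          apply Finset.sum_le_sum
          intro m hm
          rw [Finset.mem_range] at hm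
          refine (mul_le_mul_right (min_le_right _ _) _).trans ?_
          unfold wt
          rw [hpow, hpow', ← ENNReal.ofReal_mul (by positivity),
            ← ENNReal.ofReal_mul (by positivity), ← ENNReal.ofReal_mul (by positivity)]
          apply ENNReal.ofReal_le_ofReal
          rw [hr, ← Real.rpow_natCast, ← Real.rpow_mul (by norm_num),
            ← Real.rpow_add (by norm_num), ← Real.rpow_add (by norm_num),
            ← Real.rpow_add (by norm_num)]
          apply Real.rpow_le_rpow_of_exponent_le (by norm_num)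
          have e1 : ((i - 1 - m : ℕ) : ℝ) = (i:ℝ) - 1 - m := by
            have : i - 1 - m = i - (1 + m) := by omega
            rw [this, Nat.cast_sub (by omega)]
            push_cast; ring
          rw [e1]
          nlinarith
      _ = (∑ m ∈ Finset.range i, ENNReal.ofReal (r ^ m)) * wt α i := by
          rw [Finset.sum_mul]
      _ ≤ _ := by
          gcongr
          exact ENNReal.sum_le_tsum _
  · rw [← ENNReal.tsum_mul_right]
    apply ENNReal.tsum_le_tsum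
    intro m
    refine (mul_le_mul_right (min_le_left _ _) _).trans (le_of_eq ?_)
    unfold wt
    rw [hpow, hpow', ← ENNReal.ofReal_mul (by positivity),
      ← ENNReal.ofReal_mul (by positivity), ← ENNReal.ofReal_mul (by positivity)]
    congr 1
    rw [hq, ← Real.rpow_natCast, ← Real.rpow_mul (by norm_num),
      ← Real.rpow_add (by norm_num), ← Real.rpow_add (by norm_num),
      ← Real.rpow_add (by norm_num)]
    congr 1
    push_cast
    ring

end H98.Dens

end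

section

/-!
# Convolution operators on bounded measurable functions
-/

open MeasureTheory Metric Set Filter Topology
open scoped ENNReal NNReal

namespace H98.Dens

/-- Bounded measurable real functions. -/
def BM : Submodule ℝ (ℂ → ℝ) where
  carrier := {F | Measurable F ∧ ∃ M : ℝ, ∀ z, ‖F z‖ ≤ M}
  add_mem' := by
    rintro F G ⟨hF, M, hM⟩ ⟨hG, N, hN⟩
    exact ⟨hF.add hG, M + N, fun z => (norm_add_le _ _).trans (add_le_add (hM z) (hN z))⟩
  zero_mem' := ⟨measurable_const, 0, fun z => by simp⟩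
  smul_mem' := by
    rintro c F ⟨hF, M, hM⟩
    refine ⟨hF.const_smul c, ‖c‖ * M, fun z => ?_⟩
    rw [Pi.smul_apply, norm_smul]
    exact mul_le_mul_of_nonneg_left (hM z) (norm_nonneg _)

/-- Integrable kernels. -/
structure Ik (κ : ℂ → ℝ) : Prop where
  meas : Measurable κ
  int : Integrable κ

/-- Convolution. -/
noncomputable def cr (κ F : ℂ → ℝ) (z : ℂ) : ℝ := ∫ w, κ w * F (z - w)

lemma cr_integrand {κ F : ℂ → ℝ} (hκ : Ik κ) (hF : F ∈ BM) (z : ℂ) :
    Integrable (fun w => κ w * F (z - w)) := by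
  obtain ⟨hm, M, hM⟩ := hF
  exact hκ.int.mul_bdd (c := M)
    (hm.comp (measurable_const.sub measurable_id)).aestronglyMeasurable
    (Eventually.of_forall fun w => hM _)

lemma cr_mem {κ F : ℂ → ℝ} (hκ : Ik κ) (hF : F ∈ BM) : cr κ F ∈ BM := by
  refine ⟨?_, ?_⟩
  · have h1 : StronglyMeasurable (fun p : ℂ × ℂ => κ p.2 * F (p.1 - p.2)) :=
      ((hκ.meas.comp measurable_snd).mul
        (hF.1.comp (measurable_fst.sub measurable_snd))).stronglyMeasurable
    exact h1.integral_prod_right'.measurable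
  · obtain ⟨hm, M, hM⟩ := hF
    refine ⟨(∫ w, ‖κ w‖) * M, fun z => ?_⟩
    unfold cr
    rw [← integral_mul_const]
    apply norm_integral_le_of_norm_le (hκ.int.norm.mul_const M)
    filter_upwards with w
    rw [norm_mul]
    exact mul_le_mul_of_nonneg_left (hM _) (norm_nonneg _)

/-- The convolution operator. -/
noncomputable def crOp {κ : ℂ → ℝ} (hκ : Ik κ) : Module.End ℝ BM where
  toFun F := ⟨cr κ F.1, cr_mem hκ F.2⟩
  map_add' F G := by
    apply Subtype.ext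
    ext z
    change cr κ (F.1 + G.1) z = cr κ F.1 z + cr κ G.1 z
    unfold cr
    simp only [Pi.add_apply, mul_add]
    exact integral_add (cr_integrand hκ F.2 z) (cr_integrand hκ G.2 z)
  map_smul' c F := by
    apply Subtype.ext
    ext z
    change cr κ (c • F.1) z = c * cr κ F.1 z
    unfold cr
    rw [← integral_const_mul]
    congr 1
    ext w
    simp only [Pi.smul_apply, smul_eq_mul]
    ring

lemma cr_comm {κ μ F : ℂ → ℝ} (hκ : Ik κ) (hμ : Ik μ) (hF : F ∈ BM) :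
    cr κ (cr μ F) = cr μ (cr κ F) := by
  ext z
  unfold cr
  simp_rw [← integral_const_mul]
  rw [integral_integral_swap]
  · congr 1
    ext v
    congr 1
    ext w
    rw [show z - w - v = z - v - w by ring]
    ring
  · obtain ⟨hm, M, hM⟩ := hF
    have h1 : Integrable (fun p : ℂ × ℂ => κ p.1 * μ p.2) (volume.prod volume) :=
      hκ.int.mul_prod hμ.int
    have h2 := h1.mul_bdd (c := M) (g := fun p : ℂ × ℂ => F (z - p.1 - p.2))
      (hm.comp ((measurable_const.sub measurable_fst).sub measurable_snd)).aestronglyMeasurable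
      (Eventually.of_forall fun w => hM _)
    refine h2.congr (Eventually.of_forall fun p => ?_)
    simp only [Function.uncurry]
    ring

lemma crOp_comm {κ μ : ℂ → ℝ} (hκ : Ik κ) (hμ : Ik μ) : crOp hκ * crOp hμ = crOp hμ * crOp hκ := by
  apply LinearMap.ext
  intro F
  apply Subtype.ext
  exact cr_comm hκ hμ F.2

/-- Translation. -/
def tauB (w : ℂ) (F : BM) : BM :=
  ⟨fun z => F.1 (z - w), F.2.1.comp (measurable_id.sub_const w), by
    obtain ⟨M, hM⟩ := F.2.2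
    exact ⟨M, fun z => hM _⟩⟩

/-- `L¹` norm. -/
noncomputable def NB (F : BM) : ℝ≥0∞ := ∫⁻ z, ‖F.1 z‖ₑ

/-- sup norm. -/
noncomputable def SB (F : BM) : ℝ≥0∞ := ⨆ z, ‖F.1 z‖ₑ

lemma NB_esn : ESN NB where
  zero := by simp [NB]
  add F G := by
    unfold NB
    rw [← lintegral_add_left F.2.1.enorm]
    exact lintegral_mono fun z => enorm_add_le _ _
  neg F := by
    unfold NB
    congr 1
    ext z
    change ‖-F.1 z‖ₑ = _
    rw [enorm_neg]

lemma SB_esn : ESN SB where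
  zero := by simp [SB]
  add F G := by
    unfold SB
    apply iSup_le
    intro z
    calc ‖F.1 z + G.1 z‖ₑ ≤ ‖F.1 z‖ₑ + ‖G.1 z‖ₑ := enorm_add_le _ _
      _ ≤ _ := add_le_add (le_iSup (fun z => ‖F.1 z‖ₑ) z) (le_iSup (fun z => ‖G.1 z‖ₑ) z)
  neg F := by
    unfold SB
    congr 1
    ext z
    change ‖-F.1 z‖ₑ = _
    rw [enorm_neg]

lemma SB_lt (F : BM) : SB F < ⊤ := by
  obtain ⟨M, hM⟩ := F.2.2
  refine lt_of_le_of_lt (iSup_le fun z => ?_) (ENNReal.ofReal_lt_top (r := M))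
  rw [← ofReal_norm]
  exact ENNReal.ofReal_le_ofReal (hM z)

/-- The norms we use. -/
def Good (p : BM → ℝ≥0∞) : Prop := p = NB ∨ p = SB

lemma Good.esn {p : BM → ℝ≥0∞} (h : Good p) : ESN p := by
  rcases h with rfl | rfl
  · exact NB_esn
  · exact SB_esn

/-- Young's inequality. -/
lemma young {p : BM → ℝ≥0∞} (hp : Good p) {κ : ℂ → ℝ} (hκ : Ik κ) (F : BM) :
    p (crOp hκ F) ≤ (∫⁻ w, ‖κ w‖ₑ) * p F := by
  have h0 : ∀ z, ‖(crOp hκ F).1 z‖ₑ ≤ ∫⁻ w, ‖κ w‖ₑ * ‖F.1 (z - w)‖ₑ := by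
    intro z
    refine (enorm_integral_le_lintegral_enorm _).trans (le_of_eq ?_)
    congr 1
    ext w
    exact enorm_mul _ _
  rcases hp with rfl | rfl
  · calc ∫⁻ z, ‖(crOp hκ F).1 z‖ₑ ≤ ∫⁻ z, ∫⁻ w, ‖κ w‖ₑ * ‖F.1 (z - w)‖ₑ := lintegral_mono h0
      _ = ∫⁻ w, ∫⁻ z, ‖κ w‖ₑ * ‖F.1 (z - w)‖ₑ := by
          rw [lintegral_lintegral_swap]
          exact ((hκ.meas.comp measurable_snd).enorm.mul
            (F.2.1.comp (measurable_fst.sub measurable_snd)).enorm).aemeasurable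
      _ = ∫⁻ w, ‖κ w‖ₑ * NB F := by
          congr 1
          ext w
          have hm : Measurable (fun z => ‖F.1 (z - w)‖ₑ) :=
            (F.2.1.comp (measurable_id.sub_const w)).enorm
          rw [lintegral_const_mul _ hm]
          congr 1
          exact lintegral_sub_right_eq_self (fun z => ‖F.1 z‖ₑ) w
      _ = _ := lintegral_mul_const _ hκ.meas.enorm
  · apply iSup_le
    intro z
    refine (h0 z).trans ?_
    rw [← lintegral_mul_const _ hκ.meas.enorm]
    apply lintegral_mono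
    intro w
    exact mul_le_mul_right (le_iSup (fun z => ‖F.1 z‖ₑ) _) _

/-- Averages of small differences are small. -/
lemma avg {p : BM → ℝ≥0∞} (hp : Good p) {κ : ℂ → ℝ} (hκ : Ik κ) (h1 : ∫ w, κ w = 1)
    (h0 : ∀ w, 0 ≤ κ w) {ρ : ℝ} (hs : ∀ w, ρ < ‖w‖ → κ w = 0) (F : BM) {D : ℝ≥0∞}
    (hD : ∀ w, ‖w‖ ≤ ρ → p (F - tauB w F) ≤ D) : p ((1 - crOp hκ) F) ≤ D := by
  have hmass : ∫⁻ w, ‖κ w‖ₑ = 1 := by
    have e : ∀ w, ‖κ w‖ₑ = ENNReal.ofReal (κ w) := fun w => Real.enorm_of_nonneg (h0 w)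
    simp_rw [e]
    rw [← ofReal_integral_eq_lintegral_ofReal hκ.int (Eventually.of_forall h0), h1]
    simp
  have hz : ∀ z, ‖((1 - crOp hκ) F).1 z‖ₑ ≤ ∫⁻ w, ‖κ w‖ₑ * ‖(F - tauB w F).1 z‖ₑ := by
    intro z
    have e1 : ((1 - crOp hκ) F).1 z = ∫ w, κ w * (F - tauB w F).1 z := by
      change F.1 z - cr κ F.1 z = ∫ w, κ w * (F.1 z - F.1 (z - w))
      simp_rw [mul_sub]
      rw [integral_sub (hκ.int.mul_const _) (cr_integrand hκ F.2 z), integral_mul_const, h1,
        one_mul]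
      rfl
    rw [e1]
    refine (enorm_integral_le_lintegral_enorm _).trans (le_of_eq ?_)
    congr 1
    ext w
    exact enorm_mul _ _
  have hw : ∀ w, ‖κ w‖ₑ * p (F - tauB w F) ≤ ‖κ w‖ₑ * D := by
    intro w
    by_cases h : ‖w‖ ≤ ρ
    · exact mul_le_mul_right (hD w h) _
    · rw [hs w (not_le.1 h)]
      simp
  rcases hp with rfl | rfl
  · calc ∫⁻ z, ‖((1 - crOp hκ) F).1 z‖ₑ
        ≤ ∫⁻ z, ∫⁻ w, ‖κ w‖ₑ * ‖(F - tauB w F).1 z‖ₑ := lintegral_mono hz
      _ = ∫⁻ w, ∫⁻ z, ‖κ w‖ₑ * ‖(F - tauB w F).1 z‖ₑ := by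
          rw [lintegral_lintegral_swap]
          exact ((hκ.meas.comp measurable_snd).enorm.mul
            ((F.2.1.comp measurable_fst).sub
              (F.2.1.comp (measurable_fst.sub measurable_snd))).enorm).aemeasurable
      _ = ∫⁻ w, ‖κ w‖ₑ * NB (F - tauB w F) := by
          congr 1
          ext w
          exact lintegral_const_mul _ (F - tauB w F).2.1.enorm
      _ ≤ ∫⁻ w, ‖κ w‖ₑ * D := lintegral_mono hw
      _ = D := by rw [lintegral_mul_const _ hκ.meas.enorm, hmass, one_mul]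
  · apply iSup_le
    intro z
    calc ‖((1 - crOp hκ) F).1 z‖ₑ ≤ ∫⁻ w, ‖κ w‖ₑ * ‖(F - tauB w F).1 z‖ₑ := hz z
      _ ≤ ∫⁻ w, ‖κ w‖ₑ * SB (F - tauB w F) := by
          apply lintegral_mono
          intro w
          exact mul_le_mul_right (le_iSup (fun z => ‖(F - tauB w F).1 z‖ₑ) _) _
      _ ≤ ∫⁻ w, ‖κ w‖ₑ * D := lintegral_mono hw
      _ = D := by rw [lintegral_mul_const _ hκ.meas.enorm, hmass, one_mul]

/-- Averages vary slowly. -/
lemma shift {p : BM → ℝ≥0∞} (hp : Good p) {κ : ℂ → ℝ} (hκ : Ik κ) (w : ℂ) (F : BM) :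
    p (crOp hκ F - tauB w (crOp hκ F)) ≤ (∫⁻ v, ‖κ (v - w) - κ v‖ₑ) * p F := by
  have hκ' : Ik (fun v => κ v - κ (v - w)) :=
    ⟨hκ.meas.sub (hκ.meas.comp (measurable_id.sub_const w)), hκ.int.sub (hκ.int.comp_sub_right w)⟩
  have e : crOp hκ F - tauB w (crOp hκ F) = crOp hκ' F := by
    apply Subtype.ext
    ext z
    change cr κ F.1 z - cr κ F.1 (z - w) = cr (fun v => κ v - κ (v - w)) F.1 z
    have e1 : cr κ F.1 (z - w) = ∫ v, κ (v - w) * F.1 (z - v) := by
      unfold cr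
      rw [← integral_sub_right_eq_self (fun v => κ v * F.1 (z - w - v)) w]
      congr 1
      ext v
      rw [show z - w - (v - w) = z - v by ring]
    rw [e1]
    unfold cr
    simp_rw [sub_mul]
    rw [integral_sub (cr_integrand hκ F.2 z)]
    have hκ2 : Ik (fun v => κ (v - w)) :=
      ⟨hκ.meas.comp (measurable_id.sub_const w), hκ.int.comp_sub_right w⟩
    exact cr_integrand hκ2 F.2 z
  rw [e]
  refine (young hp hκ' F).trans (le_of_eq ?_)
  congr 1
  congr 1
  ext v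
  rw [← enorm_neg, neg_sub]

/-- A family of averages at the scales `2^{-j}`. -/
structure Fam (κ : ℕ → ℂ → ℝ) (C : ℝ≥0∞) : Prop where
  meas : ∀ j, Measurable (κ j)
  int : ∀ j, Integrable (κ j)
  one : ∀ j, ∫ w, κ j w = 1
  nonneg : ∀ j w, 0 ≤ κ j w
  supp : ∀ j w, (1 / 2 : ℝ) ^ j < ‖w‖ → κ j w = 0
  lip : ∀ j w, ∫⁻ v, ‖κ j (v - w) - κ j v‖ₑ ≤ C * (2 ^ j * ‖w‖ₑ)

/-- All convolution operators. -/
def crSet : Set (Module.End ℝ BM) := {T | ∃ (κ : ℂ → ℝ) (hκ : Ik κ), T = crOp hκ}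

lemma crSet_comm : ∀ S ∈ crSet, ∀ T ∈ crSet, S * T = T * S := by
  rintro _ ⟨κ, hκ, rfl⟩ _ ⟨μ, hμ, rfl⟩
  exact crOp_comm hκ hμ

/-- The commutative ring of convolution operators. -/
abbrev CR : Type := Subring.closure crSet

noncomputable instance : CommRing CR :=
  { (inferInstance : Ring (Subring.closure crSet)) with
    mul_comm := (Subring.isMulCommutative_closure crSet_comm).is_comm.comm }

section fam

variable {κ : ℕ → ℂ → ℝ} {C : ℝ≥0∞}

lemma Fam.ik (h : Fam κ C) (j : ℕ) : Ik (κ j) := ⟨h.meas j, h.int j⟩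

/-- The average at the scale `j`. -/
noncomputable def Fam.op (h : Fam κ C) (j : ℕ) : CR :=
  ⟨crOp (h.ik j), Subring.subset_closure ⟨κ j, h.ik j, rfl⟩⟩

noncomputable instance : Module CR BM := inferInstance

lemma Fam.op_smul (h : Fam κ C) (j : ℕ) (F : BM) : h.op j • F = crOp (h.ik j) F := rfl

lemma Fam.mass (h : Fam κ C) (j : ℕ) : ∫⁻ w, ‖κ j w‖ₑ = 1 := by
  have e : ∀ w, ‖κ j w‖ₑ = ENNReal.ofReal (κ j w) := fun w => Real.enorm_of_nonneg (h.nonneg j w)
  simp_rw [e]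
  rw [← ofReal_integral_eq_lintegral_ofReal (h.int j) (Eventually.of_forall (h.nonneg j)), h.one j]
  simp

lemma Fam.op_le {p : BM → ℝ≥0∞} (hp : Good p) (h : Fam κ C) (j : ℕ) : OP p (h.op j) 1 := by
  intro F
  rw [h.op_smul, ← h.mass j]
  exact young hp (h.ik j) F

lemma Fam.mixed {p : BM → ℝ≥0∞} (hp : Good p) (h : Fam κ C) {μ : ℕ → ℂ → ℝ} {D : ℝ≥0∞}
    (h' : Fam μ D) (i j : ℕ) : OP p ((1 - h.op i) * h'.op j) (D * (2 ^ j * 2⁻¹ ^ i)) := by
  intro F
  rw [mul_smul, h'.op_smul]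
  change p ((1 - crOp (h.ik i)) (crOp (h'.ik j) F)) ≤ _
  apply avg hp (h.ik i) (h.one i) (h.nonneg i) (h.supp i)
  intro w hw
  refine (shift hp (h'.ik j) w F).trans ?_
  gcongr
  refine (h'.lip j w).trans ?_
  gcongr
  rw [← ofReal_norm]
  refine (ENNReal.ofReal_le_ofReal hw).trans (le_of_eq ?_)
  rw [one_div, ENNReal.ofReal_pow (by norm_num), ENNReal.ofReal_inv_of_pos (by norm_num)]
  norm_num

end fam

end H98.Dens

end

section

/-! # For `α > 1` there are admissible sets with infinite area and infinite co-area -/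

open MeasureTheory Complex Metric Set Filter Topology
open scoped ContDiff ENNReal NNReal Convolution

namespace H98.Dbar

variable {H : ℝ → ℝ}

/-- number of stripes in a cell -/
def Nc (c : ℤ × ℤ) : ℕ := 2 ^ (c.1.natAbs + c.2.natAbs)

/-- left stripes -/
def Lc (c : ℤ × ℤ) : Set ℂ :=
  {z | ⌊z.re⌋ = c.1 ∧ ⌊z.im⌋ = c.2 ∧ Int.fract ((Nc c : ℝ) * z.re) < 1 / 2}

/-- the translation -/
noncomputable def hc (c : ℤ × ℤ) : ℝ := 1 / (2 * Nc c)

end H98.Dbar

end

section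

/-! # The radial kernels -/

open MeasureTheory Complex Metric Set Filter Topology
open scoped ContDiff ENNReal NNReal

namespace H98.Dbar

variable {H : ℝ → ℝ}

lemma IsProfile.deriv_smooth (hH : IsProfile H) : ContDiff ℝ ∞ (deriv H) := by
  have := hH.smooth
  exact (contDiff_infty_iff_deriv.1 this).2

lemma IsProfile.deriv_nonneg (hH : IsProfile H) (s : ℝ) : 0 ≤ deriv H s :=
  hH.mono.deriv_nonneg

lemma IsProfile.deriv_zero (hH : IsProfile H) : ∃ s₀ : ℝ, 0 < s₀ ∧ ∀ s < s₀, deriv H s = 0 := by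
  obtain ⟨s₀, h0, h⟩ := hH.zero
  refine ⟨s₀, h0, fun s hs => ?_⟩
  have : H =ᶠ[𝓝 s] fun _ => (0 : ℝ) := by
    filter_upwards [Iio_mem_nhds hs] with x hx
    exact h x (le_of_lt hx)
  rw [this.deriv_eq]; simp

lemma IsProfile.deriv_one (hH : IsProfile H) {s : ℝ} (hs : 1 < s) : deriv H s = 0 := by
  have : H =ᶠ[𝓝 s] fun _ => (1 : ℝ) := by
    filter_upwards [Ioi_mem_nhds hs] with x hx
    exact hH.one x (le_of_lt hx)
  rw [this.deriv_eq]; simp

lemma bump_contDiff (hH : IsProfile H) : ContDiff ℝ ∞ (bump H) := by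
  unfold bump
  have h1 : ContDiff ℝ ∞ (fun z : ℂ => ‖z‖ ^ 2) := contDiff_norm_sq ℝ
  exact (hH.deriv_smooth.comp h1).div_const _

lemma bump_nonneg (hH : IsProfile H) (z : ℂ) : 0 ≤ bump H z :=
  div_nonneg (hH.deriv_nonneg _) Real.pi_pos.le

lemma bump_eq_zero (hH : IsProfile H) {z : ℂ} (hz : 1 < ‖z‖) : bump H z = 0 := by
  unfold bump
  rw [hH.deriv_one]; · simp
  nlinarith

lemma bump_hasCompactSupport (hH : IsProfile H) : HasCompactSupport (bump H) := by
  refine HasCompactSupport.of_support_subset_isCompact (isCompact_closedBall (0:ℂ) 1) ?_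
  intro z hz
  rw [Function.mem_support] at hz
  rw [mem_closedBall, dist_zero_right]
  by_contra h
  exact hz (bump_eq_zero hH (not_le.1 h))

lemma bump_neg (z : ℂ) : bump H (-z) = bump H z := by unfold bump; simp

lemma integral_bump (hH : IsProfile H) : ∫ z, bump H z = 1 := by
  unfold bump
  rw [MeasureTheory.integral_fun_norm_addHaar (E := ℂ) (μ := volume)
    (fun r : ℝ => deriv H (r ^ 2) / Real.pi)]
  rw [Complex.finrank_real_complex]
  have hball : (volume : Measure ℂ).real (ball 0 1) = Real.pi := by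
    rw [measureReal_def, Complex.volume_ball]
    simp
  rw [hball]
  -- integral over Ioi 0
  have hI : ∫ y in Ioi (0:ℝ), y ^ (2 - 1) • (deriv H (y ^ 2) / Real.pi) = 1 / (2 * Real.pi) := by
    have hd : ∀ x : ℝ, HasDerivAt (fun y : ℝ => H (y ^ 2) / (2 * Real.pi))
        (x ^ (2 - 1) • (deriv H (x ^ 2) / Real.pi)) x := by
      intro x
      have h1 : HasDerivAt (fun y : ℝ => y ^ 2) (2 * x) x := by
        simpa using hasDerivAt_pow 2 x
      have h2 : HasDerivAt H (deriv H (x ^ 2)) (x ^ 2) :=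
        ((hH.smooth.differentiable (by simp)) _).hasDerivAt
      have h3 := (HasDerivAt.comp (h₂ := H) (h := fun y : ℝ => y ^ 2) x h2 h1).div_const (2 * Real.pi)
      refine h3.congr_deriv ?_
      simp only [Nat.add_one_sub_one, pow_one, smul_eq_mul]
      have := Real.pi_pos
      field_simp
    have hlim : Tendsto (fun y : ℝ => H (y ^ 2) / (2 * Real.pi)) atTop (𝓝 (1 / (2 * Real.pi))) := by
      apply tendsto_const_nhds.congr'
      filter_upwards [eventually_ge_atTop (1:ℝ)] with y hy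
      rw [hH.one]
      nlinarith
    have hint : IntegrableOn (fun y : ℝ => y ^ (2 - 1) • (deriv H (y ^ 2) / Real.pi)) (Ioi 0) := by
      apply integrableOn_Ioi_deriv_of_nonneg (g := fun y : ℝ => H (y ^ 2) / (2 * Real.pi))
        (l := 1 / (2 * Real.pi))
      · exact (hd 0).continuousAt.continuousWithinAt
      · intro x _; exact hd x
      · intro x hx
        have hx' : (0:ℝ) < x := hx
        have := hH.deriv_nonneg (x ^ 2)
        simp only [Nat.add_one_sub_one, pow_one, smul_eq_mul]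
        have := Real.pi_pos
        positivity
      · exact hlim
    rw [integral_Ioi_of_hasDerivAt_of_tendsto (f := fun y : ℝ => H (y ^ 2) / (2 * Real.pi))
      ((hd 0).continuousAt.continuousWithinAt) (fun x _ => hd x) hint hlim]
    obtain ⟨s₀, h0, h⟩ := hH.zero
    rw [show (0:ℝ) ^ 2 = 0 by norm_num, h 0 h0.le]
    simp
  rw [hI]
  simp only [smul_eq_mul, nsmul_eq_mul, Nat.cast_ofNat]
  field_simp

lemma bumpAt_contDiff (hH : IsProfile H) (j : ℕ) : ContDiff ℝ ∞ (bumpAt H j) := by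
  unfold bumpAt
  have h : ContDiff ℝ ∞ (fun z : ℂ => (2:ℂ) ^ j * z) := by fun_prop
  exact ((bump_contDiff hH).comp h).const_smul ((4:ℝ) ^ j)

lemma bumpAt_nonneg (hH : IsProfile H) (j : ℕ) (z : ℂ) : 0 ≤ bumpAt H j z :=
  mul_nonneg (by positivity) (bump_nonneg hH _)

lemma bumpAt_eq_zero (hH : IsProfile H) (j : ℕ) {z : ℂ} (hz : (1 / 2 : ℝ) ^ j < ‖z‖) :
    bumpAt H j z = 0 := by
  unfold bumpAt
  rw [bump_eq_zero hH, mul_zero]
  rw [norm_mul, norm_pow, Complex.norm_ofNat]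
  rw [one_div, inv_pow] at hz
  have h2 : (0:ℝ) < 2 ^ j := by positivity
  calc (1:ℝ) = 2 ^ j * (2 ^ j)⁻¹ := by field_simp
    _ < 2 ^ j * ‖z‖ := by gcongr

lemma bumpAt_neg (j : ℕ) (z : ℂ) : bumpAt H j (-z) = bumpAt H j z := by
  unfold bumpAt
  rw [mul_neg, bump_neg]

lemma bumpAt_hasCompactSupport (hH : IsProfile H) (j : ℕ) : HasCompactSupport (bumpAt H j) := by
  refine HasCompactSupport.of_support_subset_isCompact (isCompact_closedBall (0:ℂ) ((1/2)^j)) ?_
  intro z hz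
  rw [Function.mem_support] at hz
  rw [mem_closedBall, dist_zero_right]
  by_contra h
  exact hz (bumpAt_eq_zero hH j (not_le.1 h))

lemma integral_comp_two_pow_mul {F : Type*} [NormedAddCommGroup F] [NormedSpace ℝ F]
    (f : ℂ → F) (j : ℕ) :
    ∫ z, f ((2:ℂ) ^ j * z) = ((4:ℝ) ^ j)⁻¹ • ∫ z, f z := by
  have h := MeasureTheory.Measure.integral_comp_smul (volume : Measure ℂ) f ((2:ℝ) ^ j)
  rw [Complex.finrank_real_complex] at h
  have e1 : ∀ z : ℂ, (2:ℂ) ^ j * z = (2:ℝ) ^ j • z := by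
    intro z; rw [Complex.real_smul]; push_cast; rfl
  simp_rw [e1]
  rw [h]
  congr 1
  rw [abs_of_nonneg (by positivity), ← pow_mul, mul_comm j 2, pow_mul]
  norm_num

lemma integral_bumpAt (hH : IsProfile H) (j : ℕ) : ∫ z, bumpAt H j z = 1 := by
  unfold bumpAt
  rw [integral_const_mul, integral_comp_two_pow_mul (bump H) j, integral_bump hH]
  simp

/-- The complex-valued kernel. -/
noncomputable def bumpC (H : ℝ → ℝ) (j : ℕ) (z : ℂ) : ℂ := (bumpAt H j z : ℂ)

/-- The compactly supported kernel with `∂K = φ₁ - φ₀`. -/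
noncomputable def ker (H : ℝ → ℝ) (z : ℂ) : ℂ :=
  ((H (4 * ‖z‖ ^ 2) - H (‖z‖ ^ 2) : ℝ) : ℂ) / (Real.pi * z)

/-- `K_j(z) = 2^j K(2^j z)`. -/
noncomputable def kerAt (H : ℝ → ℝ) (j : ℕ) (z : ℂ) : ℂ := 2 ^ j * ker H (2 ^ j * z)

lemma bumpC_contDiff (hH : IsProfile H) (j : ℕ) : ContDiff ℝ ∞ (bumpC H j) :=
  Complex.ofRealCLM.contDiff.comp (bumpAt_contDiff hH j)

lemma bumpC_hasCompactSupport (hH : IsProfile H) (j : ℕ) : HasCompactSupport (bumpC H j) :=
  (bumpAt_hasCompactSupport hH j).comp_left (g := fun x : ℝ => (x : ℂ)) (by simp)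

lemma bumpC_neg (j : ℕ) (z : ℂ) : bumpC H j (-z) = bumpC H j z := by
  unfold bumpC; rw [bumpAt_neg]

lemma ker_eventually_zero (hH : IsProfile H) : ker H =ᶠ[𝓝 0] fun _ => (0:ℂ) := by
  obtain ⟨s₀, h0, h⟩ := hH.zero
  have hc : ContinuousAt (fun z : ℂ => 4 * ‖z‖ ^ 2) 0 := by fun_prop
  have : ∀ᶠ z : ℂ in 𝓝 0, 4 * ‖z‖ ^ 2 < s₀ := by
    apply hc.eventually_lt continuousAt_const
    simpa using h0
  filter_upwards [this] with z hz
  unfold ker
  rw [h _ hz.le, h (‖z‖^2) (by nlinarith [sq_nonneg ‖z‖])]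
  simp

lemma ker_contDiff (hH : IsProfile H) : ContDiff ℝ ∞ (ker H) := by
  rw [contDiff_iff_contDiffAt]
  intro z
  by_cases hz : z = 0
  · subst hz
    exact contDiffAt_const.congr_of_eventuallyEq (ker_eventually_zero hH)
  · unfold ker
    have h1 : ContDiff ℝ ∞ (fun z : ℂ => ‖z‖ ^ 2) := contDiff_norm_sq ℝ
    have h2 : ContDiff ℝ ∞ (fun z : ℂ => H (4 * ‖z‖ ^ 2)) :=
      hH.smooth.comp (contDiff_const.mul h1)
    have h3 : ContDiff ℝ ∞ (fun z : ℂ => H (‖z‖ ^ 2)) := hH.smooth.comp h1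
    have h4 : ContDiff ℝ ∞ (fun z : ℂ => ((H (4 * ‖z‖ ^ 2) - H (‖z‖ ^ 2) : ℝ) : ℂ)) :=
      Complex.ofRealCLM.contDiff.comp (h2.sub h3)
    have h5 : ContDiff ℝ ∞ (fun z : ℂ => (Real.pi : ℂ) * z) := by fun_prop
    have h6 : (Real.pi : ℂ) * z ≠ 0 := by
      have : (Real.pi : ℂ) ≠ 0 := by exact_mod_cast Real.pi_pos.ne'
      exact mul_ne_zero this hz
    have h7 : ContDiffAt ℝ ∞ (fun z : ℂ => ((Real.pi : ℂ) * z)⁻¹) z := h5.contDiffAt.inv h6
    simp_rw [div_eq_mul_inv]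
    exact h4.contDiffAt.mul h7

lemma ker_eq_zero (hH : IsProfile H) {z : ℂ} (hz : 1 ≤ ‖z‖) : ker H z = 0 := by
  unfold ker
  rw [hH.one (‖z‖ ^ 2) (by nlinarith), hH.one (4 * ‖z‖ ^ 2) (by nlinarith)]
  simp

lemma ker_hasCompactSupport (hH : IsProfile H) : HasCompactSupport (ker H) := by
  refine HasCompactSupport.of_support_subset_isCompact (isCompact_closedBall (0:ℂ) 1) ?_
  intro z hz
  rw [Function.mem_support] at hz
  rw [mem_closedBall, dist_zero_right]
  by_contra h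
  exact hz (ker_eq_zero hH (not_le.1 h).le)

lemma fderiv_norm_sq (z : ℂ) : HasFDerivAt (fun w : ℂ => ‖w‖ ^ 2)
    ((2 * z.re) • Complex.reCLM + (2 * z.im) • Complex.imCLM : ℂ →L[ℝ] ℝ) z := by
  have e : (fun w : ℂ => ‖w‖ ^ 2) = fun w : ℂ => w.re ^ 2 + w.im ^ 2 := by
    ext w
    rw [← Complex.normSq_eq_norm_sq, Complex.normSq_apply]; ring
  rw [e]
  have h1 : HasFDerivAt (fun w : ℂ => w.re) Complex.reCLM z := Complex.reCLM.hasFDerivAt
  have h2 : HasFDerivAt (fun w : ℂ => w.im) Complex.imCLM z := Complex.imCLM.hasFDerivAt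
  have h3 := (h1.pow 2).add (h2.pow 2)
  refine h3.congr_fderiv ?_
  ext <;> simp

lemma dbar_radial {G : ℝ → ℝ} (hG : Differentiable ℝ G) (c : ℝ) (z : ℂ) :
    dbar (fun w => ((G (c * ‖w‖ ^ 2) : ℝ) : ℂ)) z = (deriv G (c * ‖z‖ ^ 2) * c : ℝ) * z := by
  have h1 := fderiv_norm_sq z
  have h2 : HasFDerivAt (fun w : ℂ => c * ‖w‖ ^ 2)
      (c • ((2 * z.re) • Complex.reCLM + (2 * z.im) • Complex.imCLM : ℂ →L[ℝ] ℝ)) z := h1.const_mul c
  have h3 : HasDerivAt G (deriv G (c * ‖z‖ ^ 2)) (c * ‖z‖ ^ 2) := (hG _).hasDerivAt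
  have h4 := h3.comp_hasFDerivAt z h2
  have h5 := Complex.ofRealCLM.hasFDerivAt.comp z h4
  have h6 : fderiv ℝ (fun w : ℂ => ((G (c * ‖w‖ ^ 2) : ℝ) : ℂ)) z = _ := h5.fderiv
  unfold dbar
  rw [h6]
  simp only [ContinuousLinearMap.comp_apply, smul_apply, add_apply,
    Complex.ofRealCLM_apply, smul_eq_mul, Complex.reCLM_apply, Complex.imCLM_apply,
    Complex.one_re, Complex.one_im, Complex.I_re, Complex.I_im]
  apply Complex.ext <;> simp <;> ring

lemma dbar_ker (hH : IsProfile H) (z : ℂ) :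
    dbar (ker H) z = bumpC H 1 z - bumpC H 0 z := by
  by_cases hz : z = 0
  · subst hz
    rw [dbar_congr (ker_eventually_zero hH), dbar_const]
    obtain ⟨s₀, h0, h⟩ := hH.deriv_zero
    unfold bumpC bumpAt bump
    simp only [pow_one, mul_zero, norm_zero, ne_eq, OfNat.ofNat_ne_zero, not_false_eq_true,
      zero_pow, pow_zero, one_mul]
    rw [h 0 h0]; simp
  · have hpi : (Real.pi : ℂ) ≠ 0 := by exact_mod_cast Real.pi_pos.ne'
    have hdH : Differentiable ℝ H := hH.smooth.differentiable (by simp)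
    have h1 : ContDiff ℝ ∞ (fun z : ℂ => ‖z‖ ^ 2) := contDiff_norm_sq ℝ
    have h2 : ContDiff ℝ ∞ (fun z : ℂ => ((H (4 * ‖z‖ ^ 2) : ℝ) : ℂ)) :=
      Complex.ofRealCLM.contDiff.comp (hH.smooth.comp (contDiff_const.mul h1))
    have h3 : ContDiff ℝ ∞ (fun z : ℂ => ((H (1 * ‖z‖ ^ 2) : ℝ) : ℂ)) :=
      Complex.ofRealCLM.contDiff.comp (hH.smooth.comp (contDiff_const.mul h1))
    have e : ker H = fun w => (((H (4 * ‖w‖ ^ 2) : ℝ) : ℂ) - ((H (1 * ‖w‖ ^ 2) : ℝ) : ℂ)) *
        ((Real.pi : ℂ) * w)⁻¹ := by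
      ext w; unfold ker; rw [div_eq_mul_inv]; push_cast; simp
    have hd1 : DifferentiableAt ℝ (fun z : ℂ => ((H (4 * ‖z‖ ^ 2) : ℝ) : ℂ)) z :=
      (h2.differentiable (by simp)) z
    have hd2 : DifferentiableAt ℝ (fun z : ℂ => ((H (1 * ‖z‖ ^ 2) : ℝ) : ℂ)) z :=
      (h3.differentiable (by simp)) z
    have hd3 : DifferentiableAt ℂ (fun w : ℂ => ((Real.pi : ℂ) * w)⁻¹) z := by
      apply DifferentiableAt.inv
      · fun_prop
      · exact mul_ne_zero hpi hz
    have hd12 : DifferentiableAt ℝ (fun w : ℂ => ((H (4 * ‖w‖ ^ 2) : ℝ) : ℂ) -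
      ((H (1 * ‖w‖ ^ 2) : ℝ) : ℂ)) z := hd1.sub hd2
    rw [e, dbar_mul hd12 (hd3.restrictScalars ℝ), dbar_sub hd1 hd2, dbar_holo hd3,
      dbar_radial hdH, dbar_radial hdH]
    unfold bumpC bumpAt bump
    have e4 : ‖(2:ℂ) ^ 1 * z‖ ^ 2 = 4 * ‖z‖ ^ 2 := by
      rw [norm_mul, norm_pow, Complex.norm_ofNat]; ring
    rw [e4]
    simp only [pow_zero, one_mul, mul_one]
    push_cast
    field_simp
    ring

lemma dbar_comp_scale {f : ℂ → ℂ} (hf : Differentiable ℝ f) (r : ℝ) (z : ℂ) :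
    dbar (fun w => f ((r : ℂ) * w)) z = r * dbar f (r * z) := by
  have h1 : HasFDerivAt (fun w : ℂ => (r : ℂ) * w) ((r : ℂ) • ContinuousLinearMap.id ℝ ℂ) z := by
    exact (hasFDerivAt_id z).const_mul (r : ℂ)
  have h2 := ((hf ((r:ℂ) * z)).hasFDerivAt).comp z h1
  have h3 : fderiv ℝ (fun w => f ((r : ℂ) * w)) z = _ := h2.fderiv
  unfold dbar
  rw [h3]
  simp only [ContinuousLinearMap.comp_apply, smul_apply, ContinuousLinearMap.id_apply,
    smul_eq_mul, mul_one]
  have e1 : ∀ v : ℂ, fderiv ℝ f ((r:ℂ) * z) ((r : ℂ) * v) = (r : ℂ) * fderiv ℝ f ((r:ℂ) * z) v := by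
    intro v
    rw [← Complex.real_smul (x := r) (z := v), map_smul, Complex.real_smul]
  have e2 := e1 1
  rw [mul_one] at e2
  rw [e1, e2]
  ring

lemma dbar_kerAt (hH : IsProfile H) (j : ℕ) (z : ℂ) :
    dbar (kerAt H j) z = bumpC H (j + 1) z - bumpC H j z := by
  have hdk : Differentiable ℝ (ker H) := (ker_contDiff hH).differentiable (by simp)
  have e : kerAt H j = fun w => (2:ℂ) ^ j * (fun w => ker H (((2 ^ j : ℝ) : ℂ) * w)) w := by
    ext w; unfold kerAt; push_cast; rfl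
  rw [e, dbar_const_mul, dbar_comp_scale hdk, dbar_ker hH]
  · unfold bumpC bumpAt
    push_cast
    have : (2:ℂ) ^ 1 * ((2:ℂ) ^ j * z) = 2 ^ (j + 1) * z := by ring
    rw [this]
    have h4 : (4:ℂ) ^ j = 2 ^ j * 2 ^ j := by rw [← mul_pow]; norm_num
    rw [pow_succ (4:ℂ) j, h4]
    simp only [pow_zero, one_mul, pow_one]
    ring
  · have : ContDiff ℝ ∞ (fun w : ℂ => ((2 ^ j : ℝ) : ℂ) * w) := by fun_prop
    exact (((ker_contDiff hH).comp this).differentiable (by simp)) z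

lemma kerAt_contDiff (hH : IsProfile H) (j : ℕ) : ContDiff ℝ ∞ (kerAt H j) := by
  unfold kerAt
  have h : ContDiff ℝ ∞ (fun z : ℂ => (2:ℂ) ^ j * z) := by fun_prop
  exact contDiff_const.mul ((ker_contDiff hH).comp h)

lemma kerAt_hasCompactSupport (hH : IsProfile H) (j : ℕ) : HasCompactSupport (kerAt H j) := by
  refine HasCompactSupport.of_support_subset_isCompact (isCompact_closedBall (0:ℂ) 1) ?_
  intro z hz
  rw [Function.mem_support] at hz
  rw [mem_closedBall, dist_zero_right]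
  by_contra h
  apply hz
  unfold kerAt
  rw [ker_eq_zero hH, mul_zero]
  rw [norm_mul, norm_pow, Complex.norm_ofNat]
  have h2 : (1:ℝ) ≤ 2 ^ j := one_le_pow₀ (by norm_num)
  nlinarith [not_le.1 h]

end H98.Dbar

end

section

/-! # Mixed differences (Kemperman's identity) -/

open MeasureTheory Complex Metric Set Filter Topology
open scoped ContDiff ENNReal NNReal Convolution

namespace H98.Dbar

/-- A probability kernel with small support. -/
structure Prob (κ : V) (ρ : ℝ) : Prop where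
  intNorm : ∫ w, ‖κ.1 w‖ = 1
  int : ∫ w, κ.1 w = 1
  supp : ∀ w, ρ < ‖w‖ → κ.1 w = 0

end H98.Dbar

end

section

/-!
# Operators: convolutions and translations
-/

open MeasureTheory Metric Set Filter Topology
open scoped ENNReal NNReal

namespace H98.Dens

/-- Translation as a linear map. -/
noncomputable def tauL (w : ℂ) : Module.End ℝ BM where
  toFun F := tauB w F
  map_add' _ _ := rfl
  map_smul' _ _ := rfl

lemma tau_tau (w v : ℂ) : tauL w * tauL v = tauL v * tauL w := by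
  apply LinearMap.ext
  intro F
  apply Subtype.ext
  ext z
  change F.1 (z - w - v) = F.1 (z - v - w)
  rw [sub_right_comm]

lemma tau_cr (w : ℂ) {κ : ℂ → ℝ} (hκ : Ik κ) : tauL w * crOp hκ = crOp hκ * tauL w := by
  apply LinearMap.ext
  intro F
  apply Subtype.ext
  ext z
  change ∫ v, κ v * F.1 (z - w - v) = ∫ v, κ v * F.1 (z - v - w)
  congr 1
  ext v
  rw [sub_right_comm]

/-- Convolutions and translations. -/
def opSet : Set (Module.End ℝ BM) := crSet ∪ Set.range tauL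

lemma opSet_comm : ∀ S ∈ opSet, ∀ T ∈ opSet, S * T = T * S := by
  rintro S (hS | ⟨w, rfl⟩) T (hT | ⟨v, rfl⟩)
  · exact crSet_comm S hS T hT
  · obtain ⟨κ, hκ, rfl⟩ := hS
    exact (tau_cr v hκ).symm
  · obtain ⟨κ, hκ, rfl⟩ := hT
    exact tau_cr w hκ
  · exact tau_tau w v

/-- The commutative ring of operators. -/
abbrev CT : Type := Subring.closure opSet

noncomputable instance : CommRing CT :=
  { (inferInstance : Ring (Subring.closure opSet)) with
    mul_comm := (Subring.isMulCommutative_closure opSet_comm).is_comm.comm }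

noncomputable instance : Module CT BM := inferInstance

/-- Convolution. -/
noncomputable def kop {κ : ℂ → ℝ} (hκ : Ik κ) : CT :=
  ⟨crOp hκ, Subring.subset_closure (Or.inl ⟨κ, hκ, rfl⟩)⟩

/-- Translation. -/
noncomputable def top (w : ℂ) : CT := ⟨tauL w, Subring.subset_closure (Or.inr ⟨w, rfl⟩)⟩

lemma kop_smul {κ : ℂ → ℝ} (hκ : Ik κ) (F : BM) : kop hκ • F = crOp hκ F := rfl

lemma top_smul (w : ℂ) (F : BM) : top w • F = tauB w F := rfl

lemma ct_ext {S T : CT} (h : ∀ F : BM, S • F = T • F) : S = T :=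
  Subtype.ext (LinearMap.ext h)

lemma one_sub_top (w : ℂ) (T : CT) (F : BM) :
    ((1 - top w) * T) • F = T • F - tauB w (T • F) := by
  rw [mul_smul, sub_smul, one_smul, top_smul]

lemma kop_bd {p : BM → ℝ≥0∞} (hp : Good p) {κ : ℂ → ℝ} (hκ : Ik κ) :
    OP p (kop hκ) (∫⁻ w, ‖κ w‖ₑ) := fun F => young hp hκ F

/-- Averages. -/
lemma avgs {p : BM → ℝ≥0∞} (hp : Good p) {κ : ℂ → ℝ} (hκ : Ik κ) {s : ℝ} (h1 : ∫ w, κ w = s)
    {ρ : ℝ} (hs : ∀ w, ρ < ‖w‖ → κ w = 0) (F : BM) {D : ℝ≥0∞}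
    (hD : ∀ w, ‖w‖ ≤ ρ → p (F - tauB w F) ≤ D) :
    p (s • F - crOp hκ F) ≤ (∫⁻ w, ‖κ w‖ₑ) * D := by
  have hz : ∀ z, ‖(s • F - crOp hκ F).1 z‖ₑ ≤ ∫⁻ w, ‖κ w‖ₑ * ‖(F - tauB w F).1 z‖ₑ := by
    intro z
    have e1 : (s • F - crOp hκ F).1 z = ∫ w, κ w * (F - tauB w F).1 z := by
      change s * F.1 z - cr κ F.1 z = ∫ w, κ w * (F.1 z - F.1 (z - w))
      simp_rw [mul_sub]
      rw [integral_sub (hκ.int.mul_const _) (cr_integrand hκ F.2 z), integral_mul_const, h1]
      rfl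
    rw [e1]
    refine (enorm_integral_le_lintegral_enorm _).trans (le_of_eq ?_)
    congr 1
    ext w
    exact enorm_mul _ _
  have hw : ∀ w, ‖κ w‖ₑ * p (F - tauB w F) ≤ ‖κ w‖ₑ * D := by
    intro w
    by_cases h : ‖w‖ ≤ ρ
    · exact mul_le_mul_right (hD w h) _
    · rw [hs w (not_le.1 h)]
      simp
  rcases hp with rfl | rfl
  · calc ∫⁻ z, ‖(s • F - crOp hκ F).1 z‖ₑ
        ≤ ∫⁻ z, ∫⁻ w, ‖κ w‖ₑ * ‖(F - tauB w F).1 z‖ₑ := lintegral_mono hz
      _ = ∫⁻ w, ∫⁻ z, ‖κ w‖ₑ * ‖(F - tauB w F).1 z‖ₑ := by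
          rw [lintegral_lintegral_swap]
          exact ((hκ.meas.comp measurable_snd).enorm.mul
            ((F.2.1.comp measurable_fst).sub
              (F.2.1.comp (measurable_fst.sub measurable_snd))).enorm).aemeasurable
      _ = ∫⁻ w, ‖κ w‖ₑ * NB (F - tauB w F) := by
          congr 1
          ext w
          exact lintegral_const_mul _ (F - tauB w F).2.1.enorm
      _ ≤ ∫⁻ w, ‖κ w‖ₑ * D := lintegral_mono hw
      _ = _ := by rw [lintegral_mul_const _ hκ.meas.enorm]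
  · apply iSup_le
    intro z
    calc ‖(s • F - crOp hκ F).1 z‖ₑ ≤ ∫⁻ w, ‖κ w‖ₑ * ‖(F - tauB w F).1 z‖ₑ := hz z
      _ ≤ ∫⁻ w, ‖κ w‖ₑ * SB (F - tauB w F) := by
          apply lintegral_mono
          intro w
          exact mul_le_mul_right (le_iSup (fun z => ‖(F - tauB w F).1 z‖ₑ) _) _
      _ ≤ ∫⁻ w, ‖κ w‖ₑ * D := lintegral_mono hw
      _ = _ := by rw [lintegral_mul_const _ hκ.meas.enorm]

/-- `A` is bounded by differences at the scale `ρ`. -/
def Av (p : BM → ℝ≥0∞) (ρ : ℝ) (A : CT) : Prop := ∀ (T : CT) (c : ℝ≥0∞),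
  (∀ w, ‖w‖ ≤ ρ → OP p ((1 - top w) * T) c) → OP p (A * T) c

/-- Mean zero kernels. -/
lemma avg0 {p : BM → ℝ≥0∞} (hp : Good p) {κ : ℂ → ℝ} (hκ : Ik κ) (h1 : ∫ w, κ w = 0)
    {ρ : ℝ} (hs : ∀ w, ρ < ‖w‖ → κ w = 0) (F : BM) {D : ℝ≥0∞}
    (hD : ∀ w, ‖w‖ ≤ ρ → p (F - tauB w F) ≤ D) : p (kop hκ • F) ≤ (∫⁻ w, ‖κ w‖ₑ) * D := by
  have h := avgs hp hκ h1 hs F hD
  rwa [zero_smul, zero_sub, hp.esn.neg] at h

/-- Averaging kernels. -/
lemma avg1 {p : BM → ℝ≥0∞} (hp : Good p) {κ : ℂ → ℝ} (hκ : Ik κ) (h1 : ∫ w, κ w = 1)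
    (h0 : ∀ w, 0 ≤ κ w) {ρ : ℝ} (hs : ∀ w, ρ < ‖w‖ → κ w = 0) : Av p ρ (1 - kop hκ) := by
  intro T c hT F
  have hmass : ∫⁻ w, ‖κ w‖ₑ = 1 := by
    have e : ∀ w, ‖κ w‖ₑ = ENNReal.ofReal (κ w) := fun w => Real.enorm_of_nonneg (h0 w)
    simp_rw [e]
    rw [← ofReal_integral_eq_lintegral_ofReal hκ.int (Eventually.of_forall h0), h1]
    simp
  have h := avgs hp hκ h1 hs (T • F) (D := c * p F) (fun w hw => by
    have := hT w hw F
    rwa [one_sub_top] at this)
  rw [hmass, one_mul, one_smul] at h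
  rw [mul_smul, sub_smul, one_smul]
  exact h

/-- Regularity of operators at the scale `2^{-j}`. -/
def Rg (p : BM → ℝ≥0∞) (j : ℕ) : ℕ → CT → ℝ≥0∞ → Prop
  | 0, T, B => OP p T B
  | n + 1, T, B => ∀ w, Rg p j n ((1 - top w) * T) (B * (2 ^ j * ‖w‖ₑ))

lemma prod_le {p : BM → ℝ≥0∞} {j : ℕ} {ρ : ℝ} (l : List CT) (hl : ∀ A ∈ l, Av p ρ A) :
    ∀ (T : CT) (B : ℝ≥0∞), Rg p j l.length T B →
      OP p (l.prod * T) (B * (2 ^ j * ENNReal.ofReal ρ) ^ l.length) := by
  induction l with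
  | nil =>
    intro T B h
    have h' : OP p T B := h
    simpa using h'
  | cons A l ih =>
    intro T B h
    rw [List.prod_cons, mul_assoc]
    apply hl A (by simp)
    intro w hw
    have e : (1 - top w) * (l.prod * T) = l.prod * ((1 - top w) * T) := by ring
    rw [e]
    have h3 := ih (fun A hA => hl A (by simp [hA])) _ _ (h w)
    refine h3.mono ?_
    have hw' : ‖w‖ₑ ≤ ENNReal.ofReal ρ := by
      rw [← ofReal_norm]
      exact ENNReal.ofReal_le_ofReal hw
    calc B * (2 ^ j * ‖w‖ₑ) * (2 ^ j * ENNReal.ofReal ρ) ^ l.length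
        ≤ B * (2 ^ j * ENNReal.ofReal ρ) * (2 ^ j * ENNReal.ofReal ρ) ^ l.length := by gcongr
      _ = _ := by
        rw [List.length_cons, pow_succ]
        ring

lemma pows_le {p : BM → ℝ≥0∞} {j n : ℕ} {ρ : ℝ} {A A' : CT} (hA : Av p ρ A) (hA' : Av p ρ A')
    {T : CT} {B : ℝ≥0∞} (h : Rg p j n T B) {l : ℕ} (hl : l ≤ n) :
    OP p (A ^ l * A' ^ (n - l) * T) (B * (2 ^ j * ENNReal.ofReal ρ) ^ n) := by
  have h1 := prod_le (p := p) (j := j) (ρ := ρ) (List.replicate l A ++ List.replicate (n - l) A')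
    (by
      intro X hX
      rw [List.mem_append] at hX
      rcases hX with hX | hX
      · rw [List.eq_of_mem_replicate hX]; exact hA
      · rw [List.eq_of_mem_replicate hX]; exact hA') T B
    (by
      rw [List.length_append, List.length_replicate, List.length_replicate,
        Nat.add_sub_cancel' hl]
      exact h)
  rw [List.prod_append, List.prod_replicate, List.prod_replicate, List.length_append,
    List.length_replicate, List.length_replicate, Nat.add_sub_cancel' hl] at h1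
  exact h1

/-! ### Regularity of kernels -/

/-- `L¹`-regularity of order `n`. -/
def Rk : ℕ → (ℂ → ℝ) → ℝ≥0∞ → Prop
  | 0, f, B => ∫⁻ z, ‖f z‖ₑ ≤ B
  | n + 1, f, B => ∀ w : ℂ, Rk n (fun z => f z - f (z - w)) (B * ‖w‖ₑ)

lemma Rk.mono {n : ℕ} : ∀ {f : ℂ → ℝ} {B B' : ℝ≥0∞}, Rk n f B → B ≤ B' → Rk n f B' := by
  induction n with
  | zero => intro f B B' h hB; exact h.trans hB
  | succ n ih => intro f B B' h hB w; exact ih (h w) (mul_le_mul_left hB _)

/-- Scaling. -/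
noncomputable def sc (j : ℕ) (f : ℂ → ℝ) (w : ℂ) : ℝ := 4 ^ j * f (2 ^ j * w)

lemma lintegral_sc (j : ℕ) {f : ℂ → ℝ} (hf : Measurable f) :
    ∫⁻ w, ‖sc j f w‖ₑ = ∫⁻ w, ‖f w‖ₑ := by
  have h2 : (0:ℝ) < 2 ^ j := by positivity
  have e : ∀ w, ‖sc j f w‖ₑ = 4 ^ j * ‖f ((2:ℝ) ^ j • w)‖ₑ := by
    intro w
    unfold sc
    rw [enorm_mul, Complex.real_smul]
    congr 1
    · rw [enorm_pow]
      congr 1
      rw [Real.enorm_of_nonneg (by norm_num)]
      norm_num
    · push_cast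
      rfl
  simp_rw [e]
  have hm : Measurable (fun w : ℂ => ‖f ((2:ℝ) ^ j • w)‖ₑ) :=
    (hf.comp (measurable_const_smul _)).enorm
  rw [lintegral_const_mul _ hm]
  have h3 : ∫⁻ a : ℂ, ‖f ((2:ℝ) ^ j • a)‖ₑ =
      ENNReal.ofReal |(((2:ℝ) ^ j) ^ 2)⁻¹| * ∫⁻ w, ‖f w‖ₑ := by
    have h5 := MeasureTheory.Measure.map_addHaar_smul (volume : Measure ℂ) h2.ne'
    rw [Complex.finrank_real_complex] at h5
    have h6 := lintegral_map (μ := (volume : Measure ℂ)) hf.enorm
      (measurable_const_smul ((2:ℝ) ^ j))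
    rw [h5, lintegral_smul_measure] at h6
    exact h6.symm
  rw [h3, ← mul_assoc]
  have h4 : (4:ℝ≥0∞) ^ j * ENNReal.ofReal |(((2:ℝ) ^ j) ^ 2)⁻¹| = 1 := by
    rw [abs_of_nonneg (by positivity), ← pow_mul, mul_comm j 2, pow_mul,
      ENNReal.ofReal_inv_of_pos (by positivity), ENNReal.ofReal_pow (by norm_num)]
    norm_num
    exact ENNReal.mul_inv_cancel (by simp) (by simp)
  rw [h4, one_mul]

lemma sc_ik (j : ℕ) {f : ℂ → ℝ} (hf : Ik f) : Ik (sc j f) := by
  have h2 : (2:ℝ) ^ j ≠ 0 := by positivity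
  refine ⟨?_, ?_⟩
  · unfold sc
    exact (hf.meas.comp (measurable_const_mul _)).const_mul _
  · have h := (hf.int.comp_smul h2).const_mul ((4:ℝ) ^ j)
    refine h.congr (Eventually.of_forall fun w => ?_)
    simp only [sc]
    rw [Complex.real_smul]
    push_cast
    rfl

lemma diff_ik {f : ℂ → ℝ} (hf : Ik f) (w : ℂ) : Ik (fun z => f z - f (z - w)) :=
  ⟨hf.meas.sub (hf.meas.comp (measurable_id.sub_const w)), hf.int.sub (hf.int.comp_sub_right w)⟩

lemma one_sub_top_kop {κ : ℂ → ℝ} (hκ : Ik κ) (w : ℂ) :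
    (1 - top w) * kop hκ = kop (diff_ik hκ w) := by
  apply ct_ext
  intro F
  rw [one_sub_top, kop_smul, kop_smul]
  apply Subtype.ext
  ext z
  change cr κ F.1 z - cr κ F.1 (z - w) = cr (fun v => κ v - κ (v - w)) F.1 z
  have e1 : cr κ F.1 (z - w) = ∫ v, κ (v - w) * F.1 (z - v) := by
    unfold cr
    rw [← integral_sub_right_eq_self (fun v => κ v * F.1 (z - w - v)) w]
    congr 1
    ext v
    rw [show z - w - (v - w) = z - v by ring]
  rw [e1]
  unfold cr
  simp_rw [sub_mul]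
  rw [integral_sub (cr_integrand hκ F.2 z)]
  have hκ2 : Ik (fun v => κ (v - w)) :=
    ⟨hκ.meas.comp (measurable_id.sub_const w), hκ.int.comp_sub_right w⟩
  exact cr_integrand hκ2 F.2 z

lemma kop_congr {κ μ : ℂ → ℝ} (hκ : Ik κ) (hμ : Ik μ) (h : κ = μ) : kop hκ = kop hμ := by
  subst h; rfl

lemma rg_of_rk {p : BM → ℝ≥0∞} (hp : Good p) (j : ℕ) {n : ℕ} : ∀ {f : ℂ → ℝ} {B : ℝ≥0∞}
    (hf : Ik f), Rk n f B → Rg p j n (kop (sc_ik j hf)) B := by
  induction n with
  | zero =>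
    intro f B hf h
    refine (kop_bd hp (sc_ik j hf)).mono ?_
    rw [lintegral_sc j hf.meas]
    exact h
  | succ n ih =>
    intro f B hf h w
    have h1 := ih (diff_ik hf (2 ^ j * w)) (h (2 ^ j * w))
    have e : (1 - top w) * kop (sc_ik j hf) = kop (sc_ik j (diff_ik hf (2 ^ j * w))) := by
      rw [one_sub_top_kop]
      apply kop_congr
      ext z
      unfold sc
      rw [mul_sub, mul_sub]
    rw [e]
    have e2 : ‖(2:ℂ) ^ j * w‖ₑ = 2 ^ j * ‖w‖ₑ := by
      rw [enorm_mul, enorm_pow]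
      congr 2
      rw [← ofReal_norm, Complex.norm_ofNat]
      norm_num
    rw [← e2]
    exact h1

end H98.Dens

end

section

/-!
# Regularity of kernels
-/

open MeasureTheory Metric Set Filter Topology
open scoped ContDiff ENNReal NNReal

namespace H98.Dens

/-- Measurable and bounded. -/
structure Mb (f : ℂ → ℝ) : Prop where
  meas : Measurable f
  bd : ∃ M : ℝ, ∀ z, ‖f z‖ ≤ M

/-- `f` is the integral of `fx`, `fy`. -/
def Rep (f fx fy : ℂ → ℝ) : Prop := ∀ z h : ℂ,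
  f z - f (z - h) = ∫ t in (0:ℝ)..1, (h.re * fx (z - t * h) + h.im * fy (z - t * h))

lemma Mb.diff {f : ℂ → ℝ} (h : Mb f) (w : ℂ) : Mb (fun z => f z - f (z - w)) := by
  obtain ⟨hm, M, hM⟩ := h
  exact ⟨hm.sub (hm.comp (measurable_id.sub_const w)), M + M,
    fun z => (norm_sub_le _ _).trans (add_le_add (hM _) (hM _))⟩

lemma line_int {fx fy : ℂ → ℝ} (hx : Mb fx) (hy : Mb fy) (c1 c2 : ℝ) (h z : ℂ) :
    IntervalIntegrable (fun t : ℝ => c1 * fx (z - t * h) + c2 * fy (z - t * h)) volume 0 1 := by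
  obtain ⟨hxm, M, hM⟩ := hx
  obtain ⟨hym, M', hM'⟩ := hy
  have hl : Measurable (fun t : ℝ => z - (t:ℂ) * h) := by fun_prop
  have hm : Measurable (fun t : ℝ => c1 * fx (z - t * h) + c2 * fy (z - t * h)) :=
    ((hxm.comp hl).const_mul c1).add ((hym.comp hl).const_mul c2)
  rw [intervalIntegrable_iff]
  refine Measure.integrableOn_of_bounded (M := |c1| * M + |c2| * M') (by simp)
    hm.aestronglyMeasurable (Eventually.of_forall fun t => ?_)
  calc ‖c1 * fx (z - t * h) + c2 * fy (z - t * h)‖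
      ≤ ‖c1 * fx (z - t * h)‖ + ‖c2 * fy (z - t * h)‖ := norm_add_le _ _
    _ ≤ _ := by
      rw [norm_mul, norm_mul, Real.norm_eq_abs c1, Real.norm_eq_abs c2]
      exact add_le_add (mul_le_mul_of_nonneg_left (hM _) (abs_nonneg _))
        (mul_le_mul_of_nonneg_left (hM' _) (abs_nonneg _))

lemma rk_avg (n : ℕ) : ∀ {fx fy : ℂ → ℝ} {B B' : ℝ≥0∞}, Mb fx → Mb fy → Rk n fx B → Rk n fy B' →
    ∀ (c1 c2 : ℝ) (h : ℂ),
      Rk n (fun z => ∫ t in (0:ℝ)..1, (c1 * fx (z - t * h) + c2 * fy (z - t * h)))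
        (‖c1‖ₑ * B + ‖c2‖ₑ * B') := by
  induction n with
  | zero =>
    intro fx fy B B' hx hy hB hB' c1 c2 h
    have hB1 : ∫⁻ z, ‖fx z‖ₑ ≤ B := hB
    have hB2 : ∫⁻ z, ‖fy z‖ₑ ≤ B' := hB'
    change ∫⁻ z, ‖∫ t in (0:ℝ)..1, (c1 * fx (z - t * h) + c2 * fy (z - t * h))‖ₑ ≤ _
    have hl : Measurable (fun p : ℂ × ℝ => p.1 - (p.2:ℂ) * h) := by fun_prop
    have hm : Measurable (fun p : ℂ × ℝ =>
        ‖c1‖ₑ * ‖fx (p.1 - p.2 * h)‖ₑ + ‖c2‖ₑ * ‖fy (p.1 - p.2 * h)‖ₑ) :=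
      ((hx.meas.comp hl).enorm.const_mul _).add ((hy.meas.comp hl).enorm.const_mul _)
    calc ∫⁻ z, ‖∫ t in (0:ℝ)..1, (c1 * fx (z - t * h) + c2 * fy (z - t * h))‖ₑ
        ≤ ∫⁻ z, ∫⁻ t in Ioc (0:ℝ) 1,
            (‖c1‖ₑ * ‖fx (z - t * h)‖ₑ + ‖c2‖ₑ * ‖fy (z - t * h)‖ₑ) := by
          apply lintegral_mono
          intro z
          simp only
          rw [intervalIntegral.integral_of_le zero_le_one]
          refine (enorm_integral_le_lintegral_enorm _).trans (lintegral_mono fun t => ?_)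
          refine (enorm_add_le _ _).trans (le_of_eq ?_)
          rw [enorm_mul, enorm_mul]
      _ = ∫⁻ t in Ioc (0:ℝ) 1, ∫⁻ z,
            (‖c1‖ₑ * ‖fx (z - t * h)‖ₑ + ‖c2‖ₑ * ‖fy (z - t * h)‖ₑ) := by
          rw [lintegral_lintegral_swap]
          exact hm.aemeasurable
      _ ≤ ∫⁻ _ in Ioc (0:ℝ) 1, (‖c1‖ₑ * B + ‖c2‖ₑ * B') := by
          apply lintegral_mono
          intro t
          simp only
          have hm1 : Measurable (fun z : ℂ => ‖fx (z - t * h)‖ₑ) :=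
            (hx.meas.comp (measurable_id.sub_const _)).enorm
          have hm2 : Measurable (fun z : ℂ => ‖fy (z - t * h)‖ₑ) :=
            (hy.meas.comp (measurable_id.sub_const _)).enorm
          rw [lintegral_add_left (hm1.const_mul _), lintegral_const_mul _ hm1,
            lintegral_const_mul _ hm2,
            lintegral_sub_right_eq_self (fun z => ‖fx z‖ₑ) ((t:ℂ) * h),
            lintegral_sub_right_eq_self (fun z => ‖fy z‖ₑ) ((t:ℂ) * h)]
          gcongr
      _ = _ := by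
          rw [setLIntegral_const]
          simp
  | succ n ih =>
    intro fx fy B B' hx hy hB hB' c1 c2 h w
    have h1 := ih (hx.diff w) (hy.diff w) (hB w) (hB' w) c1 c2 h
    have e : (fun z => (∫ t in (0:ℝ)..1, (c1 * fx (z - t * h) + c2 * fy (z - t * h))) -
        ∫ t in (0:ℝ)..1, (c1 * fx (z - w - t * h) + c2 * fy (z - w - t * h))) =
        fun z => ∫ t in (0:ℝ)..1, (c1 * (fx (z - t * h) - fx (z - t * h - w)) +
          c2 * (fy (z - t * h) - fy (z - t * h - w))) := by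
      ext z
      rw [← intervalIntegral.integral_sub (line_int hx hy c1 c2 h z)
        (line_int hx hy c1 c2 h (z - w))]
      congr 1
      ext t
      rw [sub_right_comm z w]
      ring
    change Rk n (fun z => (∫ t in (0:ℝ)..1, (c1 * fx (z - t * h) + c2 * fy (z - t * h))) -
        ∫ t in (0:ℝ)..1, (c1 * fx (z - w - t * h) + c2 * fy (z - w - t * h))) _
    rw [e]
    refine h1.mono (le_of_eq ?_)
    ring

lemma rk_step {n : ℕ} {f fx fy : ℂ → ℝ} {B B' : ℝ≥0∞} (hr : Rep f fx fy) (hx : Mb fx)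
    (hy : Mb fy) (hB : Rk n fx B) (hB' : Rk n fy B') : Rk (n + 1) f (B + B') := by
  intro h
  have h1 := rk_avg n hx hy hB hB' h.re h.im h
  have e : (fun z => f z - f (z - h)) =
      fun z => ∫ t in (0:ℝ)..1, (h.re * fx (z - t * h) + h.im * fy (z - t * h)) := by
    ext z
    exact hr z h
  rw [e]
  refine h1.mono ?_
  have h2 : ‖h.re‖ₑ ≤ ‖h‖ₑ := by
    rw [← ofReal_norm, ← ofReal_norm]
    exact ENNReal.ofReal_le_ofReal (Complex.abs_re_le_norm h)
  have h3 : ‖h.im‖ₑ ≤ ‖h‖ₑ := by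
    rw [← ofReal_norm, ← ofReal_norm]
    exact ENNReal.ofReal_le_ofReal (Complex.abs_im_le_norm h)
  calc ‖h.re‖ₑ * B + ‖h.im‖ₑ * B' ≤ ‖h‖ₑ * B + ‖h‖ₑ * B' := by gcongr
    _ = _ := by ring

/-! ### Smooth kernels -/

lemma clm_parts (T : ℂ →L[ℝ] ℝ) (w : ℂ) : T w = w.re * T 1 + w.im * T Complex.I := by
  conv_lhs => rw [← Complex.re_add_im w]
  rw [map_add]
  have e1 : ((w.re : ℂ)) = w.re • (1 : ℂ) := by simp
  have e2 : ((w.im : ℂ)) * Complex.I = w.im • Complex.I := by simp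
  rw [e1, e2, map_smul, map_smul]
  simp

lemma line_hasDeriv (z h : ℂ) (t : ℝ) : HasDerivAt (fun s : ℝ => z - (s:ℂ) * h) (-h) t := by
  have h1 : HasDerivAt (fun s : ℝ => (s:ℂ)) 1 t := Complex.ofRealCLM.hasDerivAt
  have h2 := (h1.mul_const h).const_sub z
  simpa using h2

lemma smooth_rep {f : ℂ → ℝ} (hf : ContDiff ℝ ∞ f) :
    Rep f (fun z => fderiv ℝ f z 1) (fun z => fderiv ℝ f z Complex.I) := by
  intro z h
  have hd : ∀ t ∈ uIcc (0:ℝ) 1, HasDerivAt (fun s : ℝ => f (z - (s:ℂ) * h))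
      (-(h.re * fderiv ℝ f (z - t * h) 1 + h.im * fderiv ℝ f (z - t * h) Complex.I)) t := by
    intro t _
    have h1 := ((hf.differentiable (by simp)) (z - (t:ℂ) * h)).hasFDerivAt.comp_hasDerivAt t
      (line_hasDeriv z h t)
    rw [map_neg, clm_parts] at h1
    exact h1
  have hc : Continuous (fun t : ℝ =>
      -(h.re * fderiv ℝ f (z - t * h) 1 + h.im * fderiv ℝ f (z - t * h) Complex.I)) := by
    have h2 : Continuous (fun z => fderiv ℝ f z) := hf.continuous_fderiv (by simp)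
    have h3 : Continuous (fun t : ℝ => z - (t:ℂ) * h) := by fun_prop
    have h4 := h2.comp h3
    exact ((continuous_const.mul (h4.clm_apply continuous_const)).add
      (continuous_const.mul (h4.clm_apply continuous_const))).neg
  have h5 := intervalIntegral.integral_eq_sub_of_hasDerivAt hd (hc.intervalIntegrable _ _)
  rw [intervalIntegral.integral_neg] at h5
  have h6 : ∫ t in (0:ℝ)..1, (h.re * fderiv ℝ f (z - t * h) 1 +
      h.im * fderiv ℝ f (z - t * h) Complex.I) = f (z - ((0:ℝ):ℂ) * h) - f (z - ((1:ℝ):ℂ) * h) := by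
    linarith
  rw [h6]
  simp

lemma smooth_mb {f : ℂ → ℝ} (hf : Continuous f) (hc : HasCompactSupport f) : Mb f := by
  obtain ⟨M, hM⟩ := hc.exists_bound_of_continuous hf
  exact ⟨hf.measurable, M, hM⟩

lemma smooth_ik {f : ℂ → ℝ} (hf : Continuous f) (hc : HasCompactSupport f) : Ik f :=
  ⟨hf.measurable, hf.integrable_of_hasCompactSupport hc⟩

lemma fd_smooth {f : ℂ → ℝ} (hf : ContDiff ℝ ∞ f) (v : ℂ) :
    ContDiff ℝ ∞ (fun z => fderiv ℝ f z v) := by
  have h := hf.fderiv_right (m := ∞) (by simp)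
  fun_prop

lemma fd_supp {f : ℂ → ℝ} (hc : HasCompactSupport f) (v : ℂ) :
    HasCompactSupport (fun z => fderiv ℝ f z v) := by
  refine (hc.fderiv ℝ).mono ?_
  intro z hz
  rw [Function.mem_support] at hz ⊢
  contrapose! hz
  rw [hz]
  rfl

lemma rk_smooth (n : ℕ) : ∀ {f : ℂ → ℝ}, ContDiff ℝ ∞ f → HasCompactSupport f →
    ∃ B : ℝ≥0∞, B < ⊤ ∧ Rk n f B := by
  induction n with
  | zero =>
    intro f hf hc
    exact ⟨_, (smooth_ik hf.continuous hc).int.2, le_rfl⟩
  | succ n ih =>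
    intro f hf hc
    obtain ⟨B, hB, h1⟩ := ih (fd_smooth hf 1) (fd_supp hc 1)
    obtain ⟨B', hB', h2⟩ := ih (fd_smooth hf Complex.I) (fd_supp hc Complex.I)
    exact ⟨B + B', ENNReal.add_lt_top.2 ⟨hB, hB'⟩, rk_step (smooth_rep hf)
      (smooth_mb (fd_smooth hf 1).continuous (fd_supp hc 1))
      (smooth_mb (fd_smooth hf Complex.I).continuous (fd_supp hc Complex.I)) h1 h2⟩

/-! ### The kernels `(1 - |z|²)₊ⁿ P` -/

/-- `(1 - |z|²)₊ⁿ P(z)` -/
noncomputable def wP (n : ℕ) (P : ℂ → ℝ) (z : ℂ) : ℝ :=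
  (ball (0:ℂ) 1).indicator (fun z => (1 - ‖z‖ ^ 2) ^ n * P z) z

lemma wP_out {n : ℕ} {P : ℂ → ℝ} {z : ℂ} (hz : 1 ≤ ‖z‖) : wP n P z = 0 := by
  unfold wP
  apply indicator_of_notMem
  rw [mem_ball, dist_zero_right]
  linarith

lemma wP_in {n : ℕ} {P : ℂ → ℝ} {z : ℂ} (hz : ‖z‖ < 1) : wP n P z = (1 - ‖z‖ ^ 2) ^ n * P z := by
  unfold wP
  apply indicator_of_mem
  rwa [mem_ball, dist_zero_right]

lemma wP_mb {n : ℕ} {P : ℂ → ℝ} (hP : Continuous P) : Mb (wP n P) := by
  obtain ⟨M, hM⟩ := (isCompact_closedBall (0:ℂ) 1).exists_bound_of_continuousOn hP.continuousOn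
  refine ⟨?_, M, fun z => ?_⟩
  · unfold wP
    apply Measurable.indicator _ measurableSet_ball
    exact ((measurable_const.sub (measurable_norm.pow_const 2)).pow_const n).mul hP.measurable
  · have hM0 : 0 ≤ M := (norm_nonneg _).trans (hM 0 (by simp))
    by_cases hz : ‖z‖ < 1
    · rw [wP_in hz, norm_mul]
      have h1 : ‖(1 - ‖z‖ ^ 2) ^ n‖ ≤ 1 := by
        have h2 : 0 ≤ 1 - ‖z‖ ^ 2 := by nlinarith [norm_nonneg z]
        rw [Real.norm_of_nonneg (by positivity)]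
        exact pow_le_one₀ h2 (by nlinarith [sq_nonneg ‖z‖])
      have h3 := hM z (by rw [mem_closedBall, dist_zero_right]; exact hz.le)
      calc ‖(1 - ‖z‖ ^ 2) ^ n‖ * ‖P z‖ ≤ 1 * M := by gcongr
        _ = M := one_mul M
    · rw [wP_out (not_lt.1 hz), norm_zero]
      exact hM0

lemma wP_ik {n : ℕ} {P : ℂ → ℝ} (hP : Continuous P) : Ik (wP n P) := by
  obtain ⟨hm, M, hM⟩ := wP_mb (n := n) hP
  refine ⟨hm, ?_⟩
  have h1 : IntegrableOn (wP n P) (ball (0:ℂ) 1) :=
    Measure.integrableOn_of_bounded measure_ball_lt_top.ne hm.aestronglyMeasurable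
      (Eventually.of_forall hM)
  rw [← integrable_indicator_iff measurableSet_ball] at h1
  refine h1.congr (Eventually.of_forall fun z => ?_)
  by_cases hz : z ∈ ball (0:ℂ) 1
  · rw [indicator_of_mem hz]
  · rw [indicator_of_notMem hz]
    rw [mem_ball, dist_zero_right, not_lt] at hz
    exact (wP_out hz).symm

lemma wP_cont {n : ℕ} {P : ℂ → ℝ} (hP : Continuous P) : Continuous (wP (n + 1) P) := by
  have e : wP (n + 1) P = fun z => (max 0 (1 - ‖z‖ ^ 2)) ^ (n + 1) * P z := by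
    ext z
    by_cases hz : ‖z‖ < 1
    · rw [wP_in hz, max_eq_right]
      nlinarith [norm_nonneg z]
    · rw [wP_out (not_lt.1 hz), max_eq_left]
      · rw [zero_pow (by omega), zero_mul]
      · nlinarith [not_lt.1 hz]
  rw [e]
  fun_prop

/-- the factor of the derivative in the direction `x` -/
noncomputable def Px (n : ℕ) (P : ℂ → ℝ) (z : ℂ) : ℝ :=
  (1 - ‖z‖ ^ 2) * fderiv ℝ P z 1 - 2 * (n + 1) * z.re * P z

/-- the factor of the derivative in the direction `y` -/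
noncomputable def Py (n : ℕ) (P : ℂ → ℝ) (z : ℂ) : ℝ :=
  (1 - ‖z‖ ^ 2) * fderiv ℝ P z Complex.I - 2 * (n + 1) * z.im * P z

lemma Px_smooth {n : ℕ} {P : ℂ → ℝ} (hP : ContDiff ℝ ∞ P) : ContDiff ℝ ∞ (Px n P) := by
  unfold Px
  have h1 := fd_smooth hP 1
  have h2 : ContDiff ℝ ∞ (fun z : ℂ => ‖z‖ ^ 2) := contDiff_norm_sq ℝ
  have h3 : ContDiff ℝ ∞ (fun z : ℂ => z.re) := Complex.reCLM.contDiff
  exact ((contDiff_const.sub h2).mul h1).sub ((contDiff_const.mul h3).mul hP)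

lemma Py_smooth {n : ℕ} {P : ℂ → ℝ} (hP : ContDiff ℝ ∞ P) : ContDiff ℝ ∞ (Py n P) := by
  unfold Py
  have h1 := fd_smooth hP Complex.I
  have h2 : ContDiff ℝ ∞ (fun z : ℂ => ‖z‖ ^ 2) := contDiff_norm_sq ℝ
  have h3 : ContDiff ℝ ∞ (fun z : ℂ => z.im) := Complex.imCLM.contDiff
  exact ((contDiff_const.sub h2).mul h1).sub ((contDiff_const.mul h3).mul hP)

lemma circle_countable (z : ℂ) {h : ℂ} (hh : h ≠ 0) :
    {t : ℝ | ‖z - (t:ℂ) * h‖ = 1}.Countable := by
  set a : ℝ := h.re ^ 2 + h.im ^ 2 with ha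
  set b : ℝ := -(z.re * h.re + z.im * h.im) with hb
  set c : ℝ := z.re ^ 2 + z.im ^ 2 - 1 with hc
  have ha0 : a ≠ 0 := by
    intro h0
    apply hh
    have h1 : h.re = 0 := by nlinarith [sq_nonneg h.re, sq_nonneg h.im]
    have h2 : h.im = 0 := by nlinarith [sq_nonneg h.re, sq_nonneg h.im]
    exact Complex.ext h1 h2
  have hsub : {t : ℝ | ‖z - (t:ℂ) * h‖ = 1} ⊆
      {(Real.sqrt (b ^ 2 - a * c) - b) / a, (-Real.sqrt (b ^ 2 - a * c) - b) / a} := by
    intro t ht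
    have h1 : ‖z - (t:ℂ) * h‖ ^ 2 = 1 := by
      rw [show ‖z - (t:ℂ) * h‖ = 1 from ht]; norm_num
    rw [← Complex.normSq_eq_norm_sq, Complex.normSq_apply] at h1
    simp only [Complex.sub_re, Complex.mul_re, Complex.ofReal_re, Complex.ofReal_im, zero_mul,
      sub_zero, Complex.sub_im, Complex.mul_im, add_zero] at h1
    have h2 : (a * t + b) ^ 2 = b ^ 2 - a * c := by
      have h3 : a * t ^ 2 + 2 * b * t + c = 0 := by
        rw [ha, hb, hc]; nlinarith
      nlinarith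
    have h4 : 0 ≤ b ^ 2 - a * c := by rw [← h2]; positivity
    have h5 : a * t + b = Real.sqrt (b ^ 2 - a * c) ∨ a * t + b = -Real.sqrt (b ^ 2 - a * c) := by
      rw [← sq_eq_sq_iff_eq_or_eq_neg, Real.sq_sqrt h4]
      exact h2
    rw [Set.mem_insert_iff, Set.mem_singleton_iff]
    rcases h5 with h5 | h5
    · left
      rw [eq_div_iff ha0]; linarith
    · right
      rw [eq_div_iff ha0]; linarith
  exact (Set.toFinite _).countable.mono hsub

lemma wP_rep (n : ℕ) {P : ℂ → ℝ} (hP : ContDiff ℝ ∞ P) :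
    Rep (wP (n + 1) P) (wP n (Px n P)) (wP n (Py n P)) := by
  intro z h
  by_cases hh : h = 0
  · subst hh
    simp
  have hmx := wP_mb (n := n) (Px_smooth (n := n) hP).continuous
  have hmy := wP_mb (n := n) (Py_smooth (n := n) hP).continuous
  have hd : ∀ t ∈ Ioo (0:ℝ) 1 \ {t : ℝ | ‖z - (t:ℂ) * h‖ = 1},
      HasDerivAt (fun s : ℝ => wP (n + 1) P (z - (s:ℂ) * h))
        (-(h.re * wP n (Px n P) (z - t * h) + h.im * wP n (Py n P) (z - t * h))) t := by
    rintro t ⟨-, ht⟩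
    have ht' : ‖z - (t:ℂ) * h‖ ≠ 1 := ht
    have hcl : Continuous (fun s : ℝ => ‖z - (s:ℂ) * h‖) := by fun_prop
    rcases lt_or_gt_of_ne ht' with hlt | hgt
    · have hev : (fun s : ℝ => wP (n + 1) P (z - (s:ℂ) * h)) =ᶠ[𝓝 t]
          fun s : ℝ => (1 - ‖z - (s:ℂ) * h‖ ^ 2) ^ (n + 1) * P (z - (s:ℂ) * h) := by
        filter_upwards [hcl.continuousAt.eventually_lt continuousAt_const hlt] with s hs
        exact wP_in hs
      refine HasDerivAt.congr_of_eventuallyEq ?_ hev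
      rw [wP_in hlt, wP_in hlt]
      have h1 : HasDerivAt (fun s : ℝ => ‖z - (s:ℂ) * h‖ ^ 2)
          (-(2 * (h.re * (z - t * h).re + h.im * (z - t * h).im))) t := by
        have e : (fun s : ℝ => ‖z - (s:ℂ) * h‖ ^ 2) =
            fun s : ℝ => (z.re - s * h.re) ^ 2 + (z.im - s * h.im) ^ 2 := by
          ext s
          rw [← Complex.normSq_eq_norm_sq, Complex.normSq_apply]
          simp only [Complex.sub_re, Complex.mul_re, Complex.ofReal_re, Complex.ofReal_im, zero_mul,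
            sub_zero, Complex.sub_im, Complex.mul_im, add_zero]
          ring
        rw [e]
        have h2 : HasDerivAt (fun s : ℝ => z.re - s * h.re) (-h.re) t := by
          simpa using ((hasDerivAt_id t).mul_const h.re).const_sub z.re
        have h3 : HasDerivAt (fun s : ℝ => z.im - s * h.im) (-h.im) t := by
          simpa using ((hasDerivAt_id t).mul_const h.im).const_sub z.im
        have h4 := (h2.pow 2).add (h3.pow 2)
        refine h4.congr_deriv ?_
        simp only [Complex.sub_re, Complex.mul_re, Complex.ofReal_re, Complex.ofReal_im, zero_mul,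
            sub_zero, Complex.sub_im, Complex.mul_im, add_zero]
        norm_num
        ring
      have h5 : HasDerivAt (fun s : ℝ => P (z - (s:ℂ) * h))
          (-(h.re * fderiv ℝ P (z - t * h) 1 + h.im * fderiv ℝ P (z - t * h) Complex.I)) t := by
        have h6 := ((hP.differentiable (by simp)) (z - (t:ℂ) * h)).hasFDerivAt.comp_hasDerivAt t
          (line_hasDeriv z h t)
        rw [map_neg, clm_parts] at h6
        exact h6
      have h7 := ((h1.const_sub 1).pow (n + 1)).mul h5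
      refine h7.congr_deriv ?_
      unfold Px Py
      rw [Pi.pow_apply]
      simp only [Nat.add_sub_cancel]
      push_cast
      ring
    · have hev : (fun s : ℝ => wP (n + 1) P (z - (s:ℂ) * h)) =ᶠ[𝓝 t] fun _ => (0:ℝ) := by
        filter_upwards [continuousAt_const.eventually_lt hcl.continuousAt hgt] with s hs
        exact wP_out hs.le
      refine HasDerivAt.congr_of_eventuallyEq ?_ hev
      rw [wP_out hgt.le, wP_out hgt.le]
      simpa using hasDerivAt_const t (0:ℝ)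
  have hc : ContinuousOn (fun s : ℝ => wP (n + 1) P (z - (s:ℂ) * h)) (Icc 0 1) := by
    have h1 : Continuous (fun s : ℝ => z - (s:ℂ) * h) := by fun_prop
    exact ((wP_cont hP.continuous).comp h1).continuousOn
  have h5 := MeasureTheory.integral_eq_of_hasDerivAt_off_countable_of_le _ _ zero_le_one
    (circle_countable z hh) hc hd (line_int hmx hmy h.re h.im h z).neg
  rw [intervalIntegral.integral_neg] at h5
  have h6 : ∫ t in (0:ℝ)..1, (h.re * wP n (Px n P) (z - t * h) + h.im * wP n (Py n P) (z - t * h)) =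
      wP (n + 1) P (z - ((0:ℝ):ℂ) * h) - wP (n + 1) P (z - ((1:ℝ):ℂ) * h) := by
    linarith
  rw [h6]
  simp

end H98.Dens

end

section

/-! # Necessity of the gradient condition, and the criterion -/

open MeasureTheory Complex Metric Set Filter Topology
open scoped ContDiff ENNReal NNReal Convolution

namespace H98.Dbar

variable {H : ℝ → ℝ}

/-- Real truncated sign. -/
noncomputable def sgr (F : ℂ → ℝ) (R : ℝ) (z : ℂ) : ℝ :=
  if ‖z‖ ≤ R then (if 0 ≤ F z then 1 else -1) else 0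

lemma sgr_meas {F : ℂ → ℝ} (hF : Measurable F) (R : ℝ) : Measurable (sgr F R) := by
  unfold sgr
  apply Measurable.ite (measurableSet_le measurable_norm measurable_const)
  · exact Measurable.ite (measurableSet_le measurable_const hF) measurable_const measurable_const
  · exact measurable_const

lemma cont_mul_sgr_integrable {F : ℂ → ℝ} (hF : Continuous F) {G : ℂ → ℝ} (hG : Measurable G)
    (R : ℝ) : Integrable (fun z => F z * sgr G R z) := by
  have h1 : IntegrableOn F (closedBall (0:ℂ) R) :=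
    hF.continuousOn.integrableOn_compact (isCompact_closedBall _ _)
  rw [← integrable_indicator_iff measurableSet_closedBall] at h1
  refine h1.norm.mono' (hF.measurable.mul (sgr_meas hG R)).aestronglyMeasurable ?_
  filter_upwards with z
  by_cases hz : z ∈ closedBall (0:ℂ) R
  · rw [indicator_of_mem hz, norm_mul]
    calc ‖F z‖ * ‖sgr G R z‖ ≤ ‖F z‖ * 1 := by
          gcongr
          unfold sgr
          split_ifs <;> simp
      _ = ‖F z‖ := mul_one _
  · rw [indicator_of_notMem hz]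
    rw [mem_closedBall, dist_zero_right] at hz
    unfold sgr
    rw [if_neg hz]
    simp

lemma dbar_real (u : ℂ → ℝ) (z : ℂ) (hu : DifferentiableAt ℝ u z) :
    dbar (fun w => (u w : ℂ)) z =
      (1 / 2 : ℂ) * ((fderiv ℝ u z 1 : ℝ) + I * (fderiv ℝ u z I : ℝ)) := by
  have h0 : fderiv ℝ (fun w => (u w : ℂ)) z = Complex.ofRealCLM.comp (fderiv ℝ u z) :=
    (Complex.ofRealCLM.hasFDerivAt.comp z hu.hasFDerivAt).fderiv
  unfold dbar
  rw [h0]; simp

lemma min_one_pow_le {α : ℝ} (hα : 0 < α) {k : ℕ} (hk : α < k) {x : ℝ} (hx : 0 ≤ x) :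
    min 1 (x ^ k) ≤ x ^ α := by
  by_cases h1 : x ≤ 1
  · refine (min_le_right _ _).trans ?_
    rcases hx.eq_or_lt with h0 | h0
    · rw [← h0, Real.zero_rpow hα.ne', zero_pow]
      rintro rfl
      simp at hk
      linarith
    · rw [← Real.rpow_natCast]
      exact Real.rpow_le_rpow_of_exponent_ge h0 h1 hk.le
  · exact (min_le_left _ _).trans (Real.one_le_rpow (not_le.1 h1).le hα.le)

lemma norm_le_parts (T : ℂ →L[ℝ] ℝ) : ‖T‖ ≤ ‖T 1‖ + ‖T I‖ := by
  refine ContinuousLinearMap.opNorm_le_bound _ (by positivity) ?_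
  intro w
  have hw : T w = w.re * T 1 + w.im * T I := by
    conv_lhs => rw [← Complex.re_add_im w]
    rw [map_add]
    have e1 : ((w.re : ℂ)) = w.re • (1 : ℂ) := by simp
    have e2 : ((w.im : ℂ)) * I = w.im • I := by simp
    rw [e1, e2, map_smul, map_smul]
    simp
  rw [hw]
  calc ‖w.re * T 1 + w.im * T I‖ ≤ ‖w.re * T 1‖ + ‖w.im * T I‖ := norm_add_le _ _
    _ ≤ ‖w‖ * ‖T 1‖ + ‖w‖ * ‖T I‖ := by
        rw [norm_mul, norm_mul]
        gcongr
        · exact Complex.abs_re_le_norm w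
        · exact Complex.abs_im_le_norm w
    _ = _ := by ring

end H98.Dbar

end

section

/-! # Operators on test functions -/

open MeasureTheory Complex Metric Set Filter Topology
open scoped ContDiff ENNReal NNReal Convolution

namespace H98.Dbar

/-- Convolution operator on test functions. -/
noncomputable def cvOp (κ : V) : Module.End ℂ V where
  toFun f := ⟨cv κ.1 f.1, cv_mem_V κ.2 (V_locInt f.2) f.2.2⟩
  map_add' f g := by
    apply Subtype.ext
    exact cv_add_right κ.2 (V_locInt f.2) (V_locInt g.2)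
  map_smul' c f := by
    apply Subtype.ext
    exact cv_smul_right c

/-- dbar operator on test functions. -/
noncomputable def dOp : Module.End ℂ V where
  toFun f := ⟨dbar f.1, dbar_mem_V f.2⟩
  map_add' f g := by
    apply Subtype.ext
    ext z
    exact dbar_add (V_differentiable f.2 z) (V_differentiable g.2 z)
  map_smul' c f := by
    apply Subtype.ext
    ext z
    exact dbar_const_smul c (V_differentiable f.2 z)

lemma tau_mem {f : ℂ → ℂ} (hf : f ∈ V) (w : ℂ) : (fun z => f (z - w)) ∈ V := by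
  refine ⟨?_, ?_⟩
  · have : ContDiff ℝ ∞ (fun z : ℂ => z - w) := by fun_prop
    exact hf.1.comp this
  · have := hf.2.comp_homeomorph (Homeomorph.subRight w)
    exact this

/-- Translation operator on test functions. -/
noncomputable def tau (w : ℂ) : Module.End ℂ V where
  toFun f := ⟨fun z => f.1 (z - w), tau_mem f.2 w⟩
  map_add' f g := by apply Subtype.ext; rfl
  map_smul' c f := by apply Subtype.ext; rfl

lemma cvOp_comm (κ μ : V) : Commute (cvOp κ) (cvOp μ) := by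
  apply LinearMap.ext
  intro f
  apply Subtype.ext
  exact cv_cv_comm κ.2 μ.2 f.2

lemma cvOp_dOp (κ : V) : Commute (cvOp κ) dOp := by
  apply LinearMap.ext
  intro f
  apply Subtype.ext
  ext z
  exact (dbar_cv_right κ.2 f.2 z).symm

lemma cvOp_tau (κ : V) (w : ℂ) : Commute (cvOp κ) (tau w) := by
  apply LinearMap.ext
  intro f
  apply Subtype.ext
  ext z
  change cv κ.1 (fun z => f.1 (z - w)) z = cv κ.1 f.1 (z - w)
  unfold cv
  congr 1; ext u
  ring_nf

/-- A bound for an operator with respect to a seminorm. -/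
def OpLe (N : Seminorm ℂ V) (T : Module.End ℂ V) (c : ℝ) : Prop := ∀ f, N (T f) ≤ c * N f

lemma OpLe.one (N : Seminorm ℂ V) : OpLe N 1 1 := fun f => by simp

lemma OpLe.mul {N : Seminorm ℂ V} {S T : Module.End ℂ V} {c d : ℝ} (hS : OpLe N S c)
    (hT : OpLe N T d) (hc : 0 ≤ c) : OpLe N (S * T) (c * d) := fun f => by
  calc N (S (T f)) ≤ c * N (T f) := hS _
    _ ≤ c * (d * N f) := by gcongr; exact hT f
    _ = c * d * N f := by ring

lemma OpLe.add {N : Seminorm ℂ V} {S T : Module.End ℂ V} {c d : ℝ} (hS : OpLe N S c)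
    (hT : OpLe N T d) : OpLe N (S + T) (c + d) := fun f => by
  calc N (S f + T f) ≤ N (S f) + N (T f) := map_add_le_add N _ _
    _ ≤ c * N f + d * N f := add_le_add (hS f) (hT f)
    _ = (c + d) * N f := by ring

lemma OpLe.sub {N : Seminorm ℂ V} {S T : Module.End ℂ V} {c d : ℝ} (hS : OpLe N S c)
    (hT : OpLe N T d) : OpLe N (S - T) (c + d) := fun f => by
  calc N (S f - T f) ≤ N (S f) + N (T f) := map_sub_le_add N _ _
    _ ≤ c * N f + d * N f := add_le_add (hS f) (hT f)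
    _ = (c + d) * N f := by ring

lemma OpLe.pow {N : Seminorm ℂ V} {S : Module.End ℂ V} {c : ℝ} (hS : OpLe N S c)
    (hc : 0 ≤ c) (n : ℕ) : OpLe N (S ^ n) (c ^ n) := by
  induction n with
  | zero => simpa using OpLe.one N
  | succ n ih =>
    rw [pow_succ, pow_succ]
    exact ih.mul hS (by positivity)

lemma OpLe.sum {N : Seminorm ℂ V} {S : ℕ → Module.End ℂ V} {c : ℕ → ℝ} (n : ℕ)
    (hS : ∀ i < n, OpLe N (S i) (c i)) : OpLe N (∑ i ∈ Finset.range n, S i)
      (∑ i ∈ Finset.range n, c i) := by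
  induction n with
  | zero =>
    intro f
    simp
  | succ n ih =>
    rw [Finset.sum_range_succ, Finset.sum_range_succ]
    exact (ih (fun i hi => hS i (by omega))).add (hS n (by omega))

lemma OpLe.mono {N : Seminorm ℂ V} {T : Module.End ℂ V} {c d : ℝ} (hT : OpLe N T c)
    (h : c ≤ d) : OpLe N T d := fun f =>
  (hT f).trans (mul_le_mul_of_nonneg_right h (apply_nonneg N f))

lemma V_bdd (f : V) : BddAbove (Set.range fun z => ‖f.1 z‖) := by
  obtain ⟨C, hC⟩ := f.2.2.exists_bound_of_continuous (V_cont f.2)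
  refine ⟨C, ?_⟩
  rintro _ ⟨z, rfl⟩
  exact hC z

/-- The sup norm. -/
noncomputable def supN : Seminorm ℂ V where
  toFun f := ⨆ z, ‖f.1 z‖
  map_zero' := by simp
  add_le' f g := by
    apply ciSup_le
    intro z
    calc ‖f.1 z + g.1 z‖ ≤ ‖f.1 z‖ + ‖g.1 z‖ := norm_add_le _ _
      _ ≤ _ := add_le_add (le_ciSup (V_bdd f) z) (le_ciSup (V_bdd g) z)
  neg' f := by
    congr 1
    ext z
    exact norm_neg _
  smul' c f := by
    have : ∀ z, ‖(c • f).1 z‖ = ‖c‖ * ‖f.1 z‖ := fun z => norm_mul _ _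
    simp_rw [this]
    rw [Real.mul_iSup_of_nonneg (norm_nonneg c)]

lemma le_supN (f : V) (z : ℂ) : ‖f.1 z‖ ≤ supN f := le_ciSup (V_bdd f) z

lemma supN_le {f : V} {M : ℝ} (h : ∀ z, ‖f.1 z‖ ≤ M) : supN f ≤ M := ciSup_le h

/-- The L1 norm. -/
noncomputable def l1N : Seminorm ℂ V where
  toFun f := ∫ z, ‖f.1 z‖
  map_zero' := by simp
  add_le' f g := by
    rw [← integral_add (V_integrable f.2).norm (V_integrable g.2).norm]
    apply integral_mono (V_integrable (f + g).2).norm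
      ((V_integrable f.2).norm.add (V_integrable g.2).norm)
    intro z
    exact norm_add_le _ _
  neg' f := by
    congr 1
    ext z
    exact norm_neg _
  smul' c f := by
    have : ∀ z, ‖(c • f).1 z‖ = ‖c‖ * ‖f.1 z‖ := fun z => norm_mul _ _
    simp_rw [this]
    rw [integral_const_mul]

lemma l1N_apply (f : V) : l1N f = ∫ z, ‖f.1 z‖ := rfl

lemma cvOp_supN (κ : V) : OpLe supN (cvOp κ) (∫ w, ‖κ.1 w‖) := by
  intro f
  apply supN_le
  intro z
  exact cv_bound (V_integrable κ.2) (le_supN f) z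

lemma cvOp_l1N (κ : V) : OpLe l1N (cvOp κ) (∫ w, ‖κ.1 w‖) := by
  intro f
  have h1 : Integrable (fun p : ℂ × ℂ => κ.1 p.2 * f.1 (p.1 - p.2)) (volume.prod volume) :=
    (V_integrable κ.2).convolution_integrand (ContinuousLinearMap.mul ℝ ℂ) (V_integrable f.2)
  have h2 : Integrable (fun z => ∫ w, ‖κ.1 w * f.1 (z - w)‖) := h1.integral_norm_prod_left
  rw [l1N_apply, l1N_apply]
  calc ∫ z, ‖(cvOp κ f).1 z‖ ≤ ∫ z, ∫ w, ‖κ.1 w * f.1 (z - w)‖ := by
        apply integral_mono (V_integrable (cvOp κ f).2).norm h2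
        intro z
        exact norm_integral_le_integral_norm _
    _ = ∫ w, ∫ z, ‖κ.1 w * f.1 (z - w)‖ := MeasureTheory.integral_integral_swap h1.norm
    _ = ∫ w, ‖κ.1 w‖ * ∫ z, ‖f.1 z‖ := by
        congr 1
        ext w
        simp_rw [norm_mul]
        rw [integral_const_mul]
        congr 1
        exact integral_sub_right_eq_self (fun z => ‖f.1 z‖) w
    _ = (∫ w, ‖κ.1 w‖) * ∫ z, ‖f.1 z‖ := integral_mul_const _ _

lemma tele {R : Type*} [Ring R] {a b : R} (h : Commute a b) (k : ℕ) :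
    (1 - (1 - a) ^ (k + 1)) ^ 2 - (1 - (1 - b) ^ (k + 1)) ^ 2 =
      (a - b) * ((∑ i ∈ Finset.range (k + 1), (1 - b) ^ i * (1 - a) ^ (k - i)) *
        ((1 - (1 - a) ^ (k + 1)) + (1 - (1 - b) ^ (k + 1)))) := by
  have hc : Commute (1 - b) (1 - a) := by
    apply Commute.sub_left
    · exact Commute.one_left _
    · apply Commute.sub_right
      · exact Commute.one_right _
      · exact h.symm
  have h1 := hc.mul_geom_sum₂ (k + 1)
  have hAB : Commute (1 - (1 - a) ^ (k + 1)) (1 - (1 - b) ^ (k + 1)) := by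
    apply Commute.sub_left
    · exact Commute.one_left _
    · apply Commute.sub_right
      · exact Commute.one_right _
      · exact (hc.symm.pow_left _).pow_right _
  have h2 : (1 - (1 - a) ^ (k + 1)) ^ 2 - (1 - (1 - b) ^ (k + 1)) ^ 2 =
      ((1 - (1 - a) ^ (k + 1)) - (1 - (1 - b) ^ (k + 1))) *
        ((1 - (1 - a) ^ (k + 1)) + (1 - (1 - b) ^ (k + 1))) := by
    have := hAB.eq
    rw [sub_mul, mul_add, mul_add, ← sq, ← sq, this]
    abel
  rw [h2]
  have h3 : (1 - (1 - a) ^ (k + 1)) - (1 - (1 - b) ^ (k + 1)) = (1 - b) ^ (k + 1) - (1 - a) ^ (k + 1) := by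
    abel
  rw [h3, ← h1, mul_assoc]
  congr 1
  abel

lemma geo {R : Type*} [Ring R] (a : R) (k : ℕ) :
    1 - (1 - a) ^ (k + 1) = (∑ i ∈ Finset.range (k + 1), (1 - a) ^ i) * a := by
  have := geom_sum_mul_neg (1 - a) (k + 1)
  rw [← this]
  congr 1
  abel

end H98.Dbar

end

section

/-! # Necessity: difference estimates for kernels -/

open MeasureTheory Complex Metric Set Filter Topology
open scoped ContDiff ENNReal NNReal Convolution

namespace H98.Dbar

variable {H : ℝ → ℝ}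

lemma fd_mem_V {f : ℂ → ℂ} (hf : f ∈ V) (h : ℂ) : fwdDiff h f ∈ V := by
  have h1 : (fun z => f (z - (-h))) ∈ V := tau_mem hf (-h)
  have h2 := V.sub_mem h1 hf
  have e : fwdDiff h f = (fun z => f (z - (-h))) - f := by
    ext z
    simp [fwdDiff]
  rw [e]; exact h2

lemma fdk_mem_V {f : ℂ → ℂ} (hf : f ∈ V) (h : ℂ) (k : ℕ) : (fwdDiff h)^[k] f ∈ V := by
  induction k generalizing f with
  | zero => exact hf
  | succ k ih =>
    rw [Function.iterate_succ_apply]
    exact ih (fd_mem_V hf h)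

lemma fderiv_apply_mem_V {f : ℂ → ℂ} (hf : f ∈ V) (v : ℂ) : (fun z => fderiv ℝ f z v) ∈ V := by
  refine ⟨?_, hf.2.fderiv_apply (𝕜 := ℝ) v⟩
  have h := hf.1.fderiv_right (m := ∞) (by simp)
  fun_prop

lemma fderiv_fd {f : ℂ → ℂ} (hf : f ∈ V) (h v : ℂ) :
    (fun z => fderiv ℝ (fwdDiff h f) z v) = fwdDiff h (fun z => fderiv ℝ f z v) := by
  ext z
  have h1 : fderiv ℝ (fwdDiff h f) z = fderiv ℝ f (z + h) - fderiv ℝ f z := by
    have e : fwdDiff h f = fun z => f (z + h) - f z := rfl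
    rw [e]
    have hd : DifferentiableAt ℝ (fun z => f (z + h)) z := by
      have := V_differentiable hf (z + h)
      exact DifferentiableAt.comp (f := fun z : ℂ => z + h) (g := f) z this (by fun_prop)
    rw [show (fun z => f (z + h) - f z) = (fun z => f (z + h)) - f from rfl,
      fderiv_sub hd (V_differentiable hf z)]
    rw [fderiv_comp_add_right]
  rw [h1]
  rfl

lemma fderiv_fdk {f : ℂ → ℂ} (hf : f ∈ V) (h v : ℂ) (k : ℕ) :
    (fun z => fderiv ℝ ((fwdDiff h)^[k] f) z v) = (fwdDiff h)^[k] (fun z => fderiv ℝ f z v) := by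
  induction k generalizing f with
  | zero => rfl
  | succ k ih =>
    rw [Function.iterate_succ_apply, Function.iterate_succ_apply, ih (fd_mem_V hf h),
      fderiv_fd hf]

/-- Taylor bound for iterated differences. -/
lemma fdk_sup {f : ℂ → ℂ} (hf : f ∈ V) (k : ℕ) :
    ∃ M : ℝ, 0 ≤ M ∧ ∀ h z, ‖(fwdDiff h)^[k] f z‖ ≤ M * ‖h‖ ^ k := by
  induction k generalizing f with
  | zero =>
    obtain ⟨C, hC⟩ := hf.2.exists_bound_of_continuous (V_cont hf)
    refine ⟨C, (norm_nonneg _).trans (hC 0), fun h z => by simpa using hC z⟩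
  | succ k ih =>
    obtain ⟨M1, hM1, h1⟩ := ih (fderiv_apply_mem_V hf 1)
    obtain ⟨M2, hM2, h2⟩ := ih (fderiv_apply_mem_V hf I)
    refine ⟨M1 + M2, by positivity, fun h z => ?_⟩
    rw [Function.iterate_succ_apply']
    set G := (fwdDiff h)^[k] f with hG
    have hGV : G ∈ V := fdk_mem_V hf h k
    have hder : ∀ w, ‖fderiv ℝ G w‖ ≤ (M1 + M2) * ‖h‖ ^ k := by
      intro w
      refine ContinuousLinearMap.opNorm_le_bound _ (by positivity) ?_
      intro v
      have hv : fderiv ℝ G w v = v.re * fderiv ℝ G w 1 + v.im * fderiv ℝ G w I := by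
        conv_lhs => rw [← Complex.re_add_im v]
        rw [map_add]
        have e1 : ((v.re : ℂ)) = v.re • (1 : ℂ) := by simp
        have e2 : ((v.im : ℂ)) * I = v.im • I := by simp
        rw [e1, e2, map_smul, map_smul, Complex.real_smul, Complex.real_smul]
        simp
      rw [hv]
      have g1 : ‖fderiv ℝ G w 1‖ ≤ M1 * ‖h‖ ^ k := by
        have := congr_fun (fderiv_fdk hf h 1 k) w
        rw [← hG] at this
        rw [this]
        exact h1 h w
      have g2 : ‖fderiv ℝ G w I‖ ≤ M2 * ‖h‖ ^ k := by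
        have := congr_fun (fderiv_fdk hf h I k) w
        rw [← hG] at this
        rw [this]
        exact h2 h w
      calc ‖v.re * fderiv ℝ G w 1 + v.im * fderiv ℝ G w I‖
          ≤ ‖(v.re : ℂ) * fderiv ℝ G w 1‖ + ‖(v.im : ℂ) * fderiv ℝ G w I‖ := norm_add_le _ _
        _ ≤ ‖v‖ * (M1 * ‖h‖ ^ k) + ‖v‖ * (M2 * ‖h‖ ^ k) := by
            rw [norm_mul, norm_mul]
            gcongr
            · rw [Complex.norm_real]; exact Complex.abs_re_le_norm v
            · rw [Complex.norm_real]; exact Complex.abs_im_le_norm v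
        _ = (M1 + M2) * ‖h‖ ^ k * ‖v‖ := by ring
    have hmv := Convex.norm_image_sub_le_of_norm_fderiv_le (𝕜 := ℝ) (f := G) (s := Set.univ)
      (C := (M1 + M2) * ‖h‖ ^ k) (x := z) (y := z + h)
      (fun x _ => V_differentiable hGV x) (fun x _ => hder x) convex_univ (mem_univ _) (mem_univ _)
    have e3 : z + h - z = h := by ring
    rw [e3] at hmv
    calc ‖fwdDiff h G z‖ = ‖G (z + h) - G z‖ := rfl
      _ ≤ (M1 + M2) * ‖h‖ ^ k * ‖h‖ := hmv
      _ = (M1 + M2) * ‖h‖ ^ (k + 1) := by ring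

lemma fd_l1 {f : ℂ → ℂ} (hf : f ∈ V) (h : ℂ) :
    ∫ z, ‖fwdDiff h f z‖ ≤ 2 * ∫ z, ‖f z‖ := by
  have h1 : Integrable (fun z => f (z + h)) := (V_integrable hf).comp_add_right h
  calc ∫ z, ‖fwdDiff h f z‖ ≤ ∫ z, (‖f (z + h)‖ + ‖f z‖) := by
        apply integral_mono (V_integrable (fd_mem_V hf h)).norm (h1.norm.add (V_integrable hf).norm)
        intro z
        exact norm_sub_le _ _
    _ = (∫ z, ‖f (z + h)‖) + ∫ z, ‖f z‖ := integral_add h1.norm (V_integrable hf).norm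
    _ = 2 * ∫ z, ‖f z‖ := by
        rw [integral_add_right_eq_self (fun z => ‖f z‖) h]; ring

lemma fdk_l1 {f : ℂ → ℂ} (hf : f ∈ V) (h : ℂ) (k : ℕ) :
    ∫ z, ‖(fwdDiff h)^[k] f z‖ ≤ 2 ^ k * ∫ z, ‖f z‖ := by
  induction k generalizing f with
  | zero => simp
  | succ k ih =>
    rw [Function.iterate_succ_apply]
    calc _ ≤ 2 ^ k * ∫ z, ‖fwdDiff h f z‖ := ih (fd_mem_V hf h)
      _ ≤ 2 ^ k * (2 * ∫ z, ‖f z‖) := by gcongr; exact fd_l1 hf h
      _ = _ := by ring

lemma fdk_supp {f : ℂ → ℂ} {R : ℝ} (hf : ∀ z, R < ‖z‖ → f z = 0) (h : ℂ) (k : ℕ) :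
    ∀ z, R + k * ‖h‖ < ‖z‖ → (fwdDiff h)^[k] f z = 0 := by
  induction k with
  | zero => intro z hz; simp at hz; exact hf z hz
  | succ k ih =>
    intro z hz
    rw [Function.iterate_succ_apply']
    push_cast at hz
    have hn := norm_nonneg h
    have h1 : (fwdDiff h)^[k] f z = 0 := ih z (by nlinarith)
    have h2 : (fwdDiff h)^[k] f (z + h) = 0 := by
      apply ih
      have : ‖z‖ ≤ ‖z + h‖ + ‖h‖ := by
        calc ‖z‖ = ‖(z + h) - h‖ := by congr 1; ring
          _ ≤ _ := norm_sub_le _ _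
      nlinarith
    change (fwdDiff h)^[k] f (z + h) - (fwdDiff h)^[k] f z = 0
    rw [h1, h2]; simp

/-- `L¹` bound for iterated differences of a test function. -/
lemma fdk_l1_bound {f : ℂ → ℂ} (hf : f ∈ V) (k : ℕ) :
    ∃ M : ℝ, 0 ≤ M ∧ ∀ h, ∫ z, ‖(fwdDiff h)^[k] f z‖ ≤ M * min 1 (‖h‖ ^ k) := by
  obtain ⟨M, hM, hb⟩ := fdk_sup hf k
  obtain ⟨R, hR⟩ := hf.2.isCompact.isBounded.subset_closedBall (0 : ℂ)
  have hR' : ∀ z, R < ‖z‖ → f z = 0 := by
    intro z hz
    apply image_eq_zero_of_notMem_tsupport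
    intro h
    have := hR h
    rw [mem_closedBall, dist_zero_right] at this
    linarith
  have hI0 : 0 ≤ ∫ z, ‖f z‖ := integral_nonneg fun _ => norm_nonneg _
  refine ⟨M * volume.real (closedBall (0:ℂ) (R + k)) + 2 ^ k * ∫ z, ‖f z‖, by positivity, ?_⟩
  intro h
  by_cases hh : ‖h‖ ≤ 1
  · have hmin : min 1 (‖h‖ ^ k) = ‖h‖ ^ k := min_eq_right (pow_le_one₀ (norm_nonneg _) hh)
    rw [hmin]
    have h1 : ∫ z, ‖(fwdDiff h)^[k] f z‖ ≤ M * ‖h‖ ^ k * volume.real (closedBall (0:ℂ) (R + k)) := by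
      calc ∫ z, ‖(fwdDiff h)^[k] f z‖
          ≤ ∫ z, (closedBall (0:ℂ) (R + k)).indicator (fun _ => M * ‖h‖ ^ k) z := by
            apply integral_mono (V_integrable (fdk_mem_V hf h k)).norm
            · rw [integrable_indicator_iff measurableSet_closedBall]
              exact integrableOn_const (measure_closedBall_lt_top.ne)
            · intro z
              by_cases hz : z ∈ closedBall (0:ℂ) (R + k)
              · rw [indicator_of_mem hz]
                exact hb h z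
              · rw [indicator_of_notMem hz]
                rw [mem_closedBall, dist_zero_right, not_le] at hz
                have : (k:ℝ) * ‖h‖ ≤ k * 1 := by gcongr
                have h0 : (fwdDiff h)^[k] f z = 0 := fdk_supp hR' h k z (by linarith)
                simp [h0]
        _ = _ := by
            rw [integral_indicator measurableSet_closedBall, setIntegral_const, smul_eq_mul, mul_comm]
    have : 0 ≤ 2 ^ k * (∫ z, ‖f z‖) * ‖h‖ ^ k := by positivity
    nlinarith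
  · have hmin : min 1 (‖h‖ ^ k) = 1 := min_eq_left (one_le_pow₀ (not_le.1 hh).le)
    rw [hmin, mul_one]
    have := fdk_l1 hf h k
    have : 0 ≤ M * volume.real (closedBall (0:ℂ) (R + k)) := by positivity
    linarith

/-- Differences of the scaled kernels. -/
lemma fdk_scale (f : ℂ → ℂ) (j : ℕ) (h : ℂ) (k : ℕ) (z : ℂ) :
    (fwdDiff h)^[k] (fun w => 2 ^ j * f (2 ^ j * w)) z =
      2 ^ j * (fwdDiff (2 ^ j * h))^[k] f (2 ^ j * z) := by
  induction k generalizing z with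
  | zero => rfl
  | succ k ih =>
    rw [Function.iterate_succ_apply', Function.iterate_succ_apply']
    have e : ∀ (u : ℂ) (g : ℂ → ℂ) (z : ℂ), fwdDiff u g z = g (z + u) - g z := fun _ _ _ => rfl
    rw [e, e, ih, ih, ← mul_sub, mul_add]

lemma kerAt_fdk (hH : IsProfile H) (k : ℕ) :
    ∃ M : ℝ, 0 ≤ M ∧ ∀ j : ℕ, ∀ h : ℂ, ∫ z, ‖(fwdDiff h)^[k] (kerAt H j) z‖ ≤
      (1 / 2 : ℝ) ^ j * (M * min 1 ((2 ^ j * ‖h‖) ^ k)) := by
  obtain ⟨M, hM, hb⟩ := fdk_l1_bound (f := ker H) ⟨ker_contDiff hH, ker_hasCompactSupport hH⟩ k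
  refine ⟨M, hM, fun j h => ?_⟩
  have e : kerAt H j = fun w => 2 ^ j * ker H (2 ^ j * w) := rfl
  rw [e]
  simp_rw [fdk_scale, norm_mul, norm_pow, Complex.norm_ofNat]
  rw [integral_const_mul, integral_comp_two_pow_mul
    (fun z => ‖(fwdDiff ((2:ℂ) ^ j * h))^[k] (ker H) z‖) j, smul_eq_mul]
  have h1 := hb (2 ^ j * h)
  rw [norm_mul, norm_pow, Complex.norm_ofNat] at h1
  have e2 : (2:ℝ) ^ j * ((4 ^ j)⁻¹ * ∫ z, ‖(fwdDiff ((2:ℂ) ^ j * h))^[k] (ker H) z‖) =
      (1 / 2 : ℝ) ^ j * ∫ z, ‖(fwdDiff ((2:ℂ) ^ j * h))^[k] (ker H) z‖ := by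
    rw [← mul_assoc]
    congr 1
    have : (4:ℝ) ^ j = 2 ^ j * 2 ^ j := by rw [← mul_pow]; norm_num
    rw [this, one_div, inv_pow]
    field_simp
  rw [e2]
  gcongr

lemma kerAt_l1 (H : ℝ → ℝ) (j : ℕ) :
    ∫ z, ‖kerAt H j z‖ = (1 / 2 : ℝ) ^ j * ∫ z, ‖ker H z‖ := by
  have e : kerAt H j = fun w => 2 ^ j * ker H (2 ^ j * w) := rfl
  rw [e]
  simp_rw [norm_mul, norm_pow, Complex.norm_ofNat]
  rw [integral_const_mul, integral_comp_two_pow_mul (fun z => ‖ker H z‖) j, smul_eq_mul,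
    ← mul_assoc]
  congr 1
  have : (4:ℝ) ^ j = 2 ^ j * 2 ^ j := by rw [← mul_pow]; norm_num
  rw [this, one_div, inv_pow]
  field_simp

end H98.Dbar

end

section

/-! # Sufficiency of the Littlewood-Paley criterion -/

open MeasureTheory Complex Metric Set Filter Topology
open scoped ContDiff ENNReal NNReal Convolution

namespace H98.Dbar

variable {H : ℝ → ℝ}

/-- The kernel as a test function. -/
noncomputable def bV (hH : IsProfile H) (j : ℕ) : V :=
  ⟨bumpC H j, bumpC_contDiff hH j, bumpC_hasCompactSupport hH j⟩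

lemma bV_prob (hH : IsProfile H) (j : ℕ) : Prob (bV hH j) ((1 / 2 : ℝ) ^ j) where
  intNorm := by
    have : ∀ w, ‖(bV hH j).1 w‖ = bumpAt H j w := by
      intro w
      change ‖((bumpAt H j w : ℝ) : ℂ)‖ = _
      rw [Complex.norm_real, Real.norm_eq_abs, abs_of_nonneg (bumpAt_nonneg hH j w)]
    simp_rw [this]
    exact integral_bumpAt hH j
  int := by
    change ∫ w, ((bumpAt H j w : ℝ) : ℂ) = 1
    rw [integral_complex_ofReal, integral_bumpAt hH j]
    simp
  supp := by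
    intro w hw
    change ((bumpAt H j w : ℝ) : ℂ) = 0
    rw [bumpAt_eq_zero hH j hw]
    simp

/-- The indicator function. -/
noncomputable def chi (Ω : Set ℂ) : ℂ → ℂ := Ω.indicator (fun _ => 1)

lemma chi_bm {Ω : Set ℂ} (hΩ : MeasurableSet Ω) : Bm (chi Ω) 1 where
  meas := measurable_const.indicator hΩ
  bd z := by
    unfold chi
    by_cases h : z ∈ Ω <;> simp [h]

lemma moll_eq {Ω : Set ℂ} (hΩ : MeasurableSet Ω) (j : ℕ) (z : ℂ) :
    (moll H j Ω z : ℂ) = cv (bumpC H j) (chi Ω) z := by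
  rw [cv_swap]
  unfold moll chi
  rw [← integral_complex_ofReal, ← integral_indicator hΩ]
  congr 1
  ext w
  by_cases h : w ∈ Ω
  · simp [h, bumpC]
  · simp [h]

lemma cvOp_sub_apply (κ μ G : V) (z : ℂ) :
    ((cvOp κ - cvOp μ) G).1 z = cv κ.1 G.1 z - cv μ.1 G.1 z := rfl

lemma setIntegral_chi {Ω : Set ℂ} (hΩ : MeasurableSet Ω) (g : ℂ → ℂ) :
    ∫ z in Ω, g z = ∫ z, chi Ω z * g z := by
  rw [← integral_indicator hΩ]
  congr 1
  ext z
  unfold chi
  by_cases h : z ∈ Ω <;> simp [h]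

lemma integrable_chi_mul {Ω : Set ℂ} (hΩ : MeasurableSet Ω) {g : ℂ → ℂ} (hg : Integrable g) :
    Integrable (fun z => chi Ω z * g z) :=
  hg.bdd_mul (c := 1) (chi_bm hΩ).meas.aestronglyMeasurable
    (Eventually.of_forall (chi_bm hΩ).bd)

lemma chi_norm_le {Ω : Set ℂ} (hΩ : MeasurableSet Ω) (g : V) :
    ‖∫ z, chi Ω z * g.1 z‖ ≤ l1N g := by
  apply norm_integral_le_of_norm_le (V_integrable g.2).norm
  filter_upwards with z
  rw [norm_mul]
  calc ‖chi Ω z‖ * ‖g.1 z‖ ≤ 1 * ‖g.1 z‖ := by gcongr; exact (chi_bm hΩ).bd z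
    _ = _ := one_mul _

/-- (P1): high frequency pairing. -/
lemma pair_diff (hH : IsProfile H) {Ω : Set ℂ} (hΩ : MeasurableSet Ω) (j : ℕ) (G : V) :
    ∫ z, chi Ω z * ((cvOp (bV hH (j + 1)) - cvOp (bV hH j)) G).1 z =
      ∫ z, ((moll H (j + 1) Ω z : ℂ) - (moll H j Ω z : ℂ)) * G.1 z := by
  have hG := V_integrable G.2
  have hφ : ∀ j, bumpC H j ∈ V := fun j => (bV hH j).2
  have e : ∀ z, chi Ω z * ((cvOp (bV hH (j + 1)) - cvOp (bV hH j)) G).1 z =
      chi Ω z * cv (bumpC H (j + 1)) G.1 z - chi Ω z * cv (bumpC H j) G.1 z := by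
    intro z
    rw [cvOp_sub_apply]
    simp only [bV]
    ring
  simp_rw [e]
  have hi : ∀ j, Integrable (fun z => chi Ω z * cv (bumpC H j) G.1 z) := fun j =>
    integrable_chi_mul hΩ (V_integrable (cvOp (bV hH j) G).2)
  rw [integral_sub (hi _) (hi _), adj (hφ _) (chi_bm hΩ) hG, adj (hφ _) (chi_bm hΩ) hG]
  have en : ∀ j, (fun u => bumpC H j (-u)) = bumpC H j := fun j => by ext u; exact bumpC_neg j u
  rw [en, en]
  have hb : ∀ j, Integrable (fun w => cv (bumpC H j) (chi Ω) w * G.1 w) := by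
    intro j
    refine hG.bdd_mul (c := 1) (cv_contDiff (hφ j) (chi_bm hΩ).locInt).continuous.aestronglyMeasurable
      (Eventually.of_forall fun z => ?_)
    have := cv_bound (V_integrable (hφ j)) (chi_bm hΩ).bd z
    rwa [show (∫ w, ‖bumpC H j w‖) = 1 from (bV_prob hH j).intNorm, one_mul] at this
  rw [← integral_sub (hb _) (hb _)]
  congr 1
  ext z
  rw [moll_eq hΩ, moll_eq hΩ]
  ring

lemma pair_diff_bound (hH : IsProfile H) {Ω : Set ℂ} (hΩ : MeasurableSet Ω) (j : ℕ) (G : V)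
    (hint : Integrable (fun z => moll H (j + 1) Ω z - moll H j Ω z)) :
    ‖∫ z, chi Ω z * ((cvOp (bV hH (j + 1)) - cvOp (bV hH j)) G).1 z‖ ≤
      (∫ z, ‖moll H (j + 1) Ω z - moll H j Ω z‖) * supN G := by
  rw [pair_diff hH hΩ, ← integral_mul_const]
  apply norm_integral_le_of_norm_le (hint.norm.mul_const _)
  filter_upwards with z
  rw [norm_mul, ← Complex.ofReal_sub, Complex.norm_real]
  gcongr
  exact le_supN G z

lemma dbar_neg_even {f : ℂ → ℂ} (hf : Differentiable ℝ f) (he : ∀ z, f (-z) = f z) (z : ℂ) :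
    dbar f (-z) = - dbar f z := by
  have h1 := dbar_comp_scale hf (-1) z
  have h2 : (fun w => f (((-1 : ℝ) : ℂ) * w)) = f := by
    ext w
    push_cast
    rw [neg_one_mul, he]
  rw [h2] at h1
  push_cast at h1
  rw [neg_one_mul, neg_one_mul] at h1
  rw [h1]; ring

/-- (P2): low frequency pairing. -/
lemma pair_low (hH : IsProfile H) {Ω : Set ℂ} (hΩ : MeasurableSet Ω) (G : V) :
    ∫ z, chi Ω z * (cvOp (bV hH 0) (dOp G)).1 z =
      - ∫ z, dbar (fun z => (moll H 0 Ω z : ℂ)) z * G.1 z := by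
  have hG := V_integrable G.2
  have hφ : bumpC H 0 ∈ V := (bV hH 0).2
  have e : ∀ z, (cvOp (bV hH 0) (dOp G)).1 z = cv (dbar (bumpC H 0)) G.1 z := by
    intro z
    change cv (bumpC H 0) (dbar G.1) z = _
    rw [← dbar_cv_right hφ G.2, dbar_cv_left hφ (V_locInt G.2)]
  simp_rw [e]
  rw [adj (dbar_mem_V hφ) (chi_bm hΩ) hG, ← integral_neg]
  congr 1
  ext z
  have e2 : (fun u => dbar (bumpC H 0) (-u)) = fun u => - dbar (bumpC H 0) u := by
    ext u
    exact dbar_neg_even (V_differentiable hφ) (bumpC_neg 0) u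
  rw [e2]
  have e3 : (fun z => (moll H 0 Ω z : ℂ)) = cv (bumpC H 0) (chi Ω) := by
    ext z; exact moll_eq hΩ 0 z
  rw [e3, dbar_cv_left hφ (chi_bm hΩ).locInt]
  unfold cv
  rw [← neg_mul, ← integral_neg]
  congr 2
  ext w
  ring

lemma moll_contDiff (hH : IsProfile H) {Ω : Set ℂ} (hΩ : MeasurableSet Ω) (j : ℕ) :
    ContDiff ℝ ∞ (moll H j Ω) := by
  have h1 : ContDiff ℝ ∞ (cv (bumpC H j) (chi Ω)) :=
    cv_contDiff (bV hH j).2 (chi_bm hΩ).locInt
  have h2 : moll H j Ω = fun z => (cv (bumpC H j) (chi Ω) z).re := by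
    ext z
    rw [← moll_eq hΩ, Complex.ofReal_re]
  rw [h2]
  exact Complex.reCLM.contDiff.comp h1

lemma pair_low_bound (hH : IsProfile H) {Ω : Set ℂ} (hΩ : MeasurableSet Ω) (G : V)
    (hint : Integrable (fun z => fderiv ℝ (moll H 0 Ω) z)) :
    ‖∫ z, chi Ω z * (cvOp (bV hH 0) (dOp G)).1 z‖ ≤
      (∫ z, ‖fderiv ℝ (moll H 0 Ω) z‖) * supN G := by
  rw [pair_low hH hΩ, norm_neg, ← integral_mul_const]
  apply norm_integral_le_of_norm_le (hint.norm.mul_const _)
  filter_upwards with z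
  rw [norm_mul]
  have hd : DifferentiableAt ℝ (moll H 0 Ω) z := ((moll_contDiff hH hΩ 0).differentiable (by simp)) z
  have h1 : ‖fderiv ℝ (fun z => (moll H 0 Ω z : ℂ)) z‖ ≤ ‖fderiv ℝ (moll H 0 Ω) z‖ := by
    have h0 : fderiv ℝ (fun w => (moll H 0 Ω w : ℂ)) z =
        Complex.ofRealCLM.comp (fderiv ℝ (moll H 0 Ω) z) :=
      (Complex.ofRealCLM.hasFDerivAt.comp z hd.hasFDerivAt).fderiv
    rw [h0]
    refine ContinuousLinearMap.opNorm_le_bound _ (norm_nonneg _) ?_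
    intro v
    simp only [ContinuousLinearMap.comp_apply, Complex.ofRealCLM_apply, Complex.norm_real]
    exact (fderiv ℝ (moll H 0 Ω) z).le_opNorm v
  gcongr
  · exact (norm_dbar_le _ _).trans h1
  · exact le_supN G z

/-- L1 norm of the derivative kernel. -/
noncomputable def C1 (H : ℝ → ℝ) : ℝ := ∫ z, ‖dbar (bumpC H 0) z‖

lemma dbar_bumpC (hH : IsProfile H) (j : ℕ) (z : ℂ) :
    dbar (bumpC H j) z = 4 ^ j * (2 ^ j * dbar (bumpC H 0) (2 ^ j * z)) := by
  have hd : Differentiable ℝ (bumpC H 0) := V_differentiable (bV hH 0).2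
  have e : bumpC H j = fun w => ((4:ℂ) ^ j) * (fun w => bumpC H 0 (((2 ^ j : ℝ) : ℂ) * w)) w := by
    ext w
    unfold bumpC bumpAt
    push_cast
    simp
  rw [e, dbar_const_mul, dbar_comp_scale hd]
  · push_cast; ring
  · have h : ContDiff ℝ ∞ (fun w : ℂ => ((2 ^ j : ℝ) : ℂ) * w) := by fun_prop
    exact (((bV hH 0).2.1.comp h).differentiable (by simp)) z

lemma integral_dbar_bumpC (hH : IsProfile H) (j : ℕ) :
    ∫ z, ‖dbar (bumpC H j) z‖ = 2 ^ j * C1 H := by
  simp_rw [dbar_bumpC hH j, norm_mul, norm_pow, Complex.norm_ofNat]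
  rw [integral_const_mul, integral_const_mul,
    integral_comp_two_pow_mul (fun z => ‖dbar (bumpC H 0) z‖) j, smul_eq_mul]
  unfold C1
  have : (4:ℝ) ^ j ≠ 0 := by positivity
  field_simp

lemma C1_nonneg (H : ℝ → ℝ) : 0 ≤ C1 H := integral_nonneg fun _ => norm_nonneg _

lemma cvOp_dOp_bound (hH : IsProfile H) (j : ℕ) (g : V) :
    supN (cvOp (bV hH j) (dOp g)) ≤ 2 ^ j * C1 H * supN g := by
  have hφ : bumpC H j ∈ V := (bV hH j).2
  apply supN_le
  intro z
  have e : (cvOp (bV hH j) (dOp g)).1 z = cv (dbar (bumpC H j)) g.1 z := by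
    change cv (bumpC H j) (dbar g.1) z = _
    rw [← dbar_cv_right hφ g.2, dbar_cv_left hφ (V_locInt g.2)]
  rw [e, ← integral_dbar_bumpC hH]
  exact cv_bound (V_integrable (dbar_mem_V hφ)) (le_supN g) z

end H98.Dbar

end

section

/-! # Fractional perimeter -/

open MeasureTheory Complex Metric Set Filter Topology
open scoped ContDiff ENNReal NNReal Convolution

namespace H98.Dbar

variable {H : ℝ → ℝ}

/-- The local fractional perimeter. -/
noncomputable def fracPer (α : ℝ) (Ω : Set ℂ) : ℝ≥0∞ :=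
  ∫⁻ z in Ω, ∫⁻ w in Ωᶜ ∩ ball z 1, ENNReal.ofReal (‖z - w‖ ^ (α - 3))

/-- `‖χ(·+h) - χ‖₁`. -/
noncomputable def Wf (Ω : Set ℂ) (h : ℂ) : ℝ≥0∞ := ∫⁻ z, ‖chi Ω (z + h) - chi Ω z‖ₑ

lemma chi_meas {Ω : Set ℂ} (hΩ : MeasurableSet Ω) : Measurable (chi Ω) := (chi_bm hΩ).meas

lemma Wf_neg (Ω : Set ℂ) (h : ℂ) : Wf Ω (-h) = Wf Ω h := by
  unfold Wf
  rw [← lintegral_add_right_eq_self (fun z => ‖chi Ω (z + -h) - chi Ω z‖ₑ) h]
  congr 1
  ext z
  rw [← enorm_neg]
  congr 1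
  rw [add_neg_cancel_right]
  ring

lemma Wf_zero (Ω : Set ℂ) : Wf Ω 0 = 0 := by
  unfold Wf
  simp

lemma Wf_add {Ω : Set ℂ} (hΩ : MeasurableSet Ω) (h h' : ℂ) :
    Wf Ω (h + h') ≤ Wf Ω h + Wf Ω h' := by
  unfold Wf
  have e1 : ∫⁻ z, ‖chi Ω (z + h) - chi Ω z‖ₑ = ∫⁻ z, ‖chi Ω (z + h' + h) - chi Ω (z + h')‖ₑ :=
    (lintegral_add_right_eq_self (fun z => ‖chi Ω (z + h) - chi Ω z‖ₑ) h').symm
  rw [e1, ← lintegral_add_left]
  · apply lintegral_mono
    intro z
    have e2 : chi Ω (z + (h + h')) - chi Ω z =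
        (chi Ω (z + h' + h) - chi Ω (z + h')) + (chi Ω (z + h') - chi Ω z) := by
      rw [show z + (h + h') = z + h' + h by ring]; ring
    simp only
    rw [e2]
    exact enorm_add_le _ _
  · exact (((chi_meas hΩ).comp (measurable_add_const _ |>.comp (measurable_add_const _))).sub
      ((chi_meas hΩ).comp (measurable_add_const _))).enorm

lemma Wf_nsmul {Ω : Set ℂ} (hΩ : MeasurableSet Ω) (h : ℂ) (n : ℕ) :
    Wf Ω (n * h) ≤ n * Wf Ω h := by
  induction n with
  | zero => simp [Wf_zero]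
  | succ n ih =>
    have : ((n + 1 : ℕ) : ℂ) * h = n * h + h := by push_cast; ring
    rw [this]
    refine (Wf_add hΩ _ _).trans ?_
    push_cast
    rw [add_mul, one_mul]
    gcongr

lemma Wf_joint {Ω : Set ℂ} (hΩ : MeasurableSet Ω) :
    Measurable (fun p : ℂ × ℂ => ‖chi Ω (p.2 + p.1) - chi Ω p.2‖ₑ) := by
  have h1 : Measurable (fun p : ℂ × ℂ => chi Ω (p.2 + p.1)) :=
    (chi_meas hΩ).comp (measurable_snd.add measurable_fst)
  have h2 : Measurable (fun p : ℂ × ℂ => chi Ω p.2) := (chi_meas hΩ).comp measurable_snd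
  exact (h1.sub h2).enorm

lemma Wf_meas {Ω : Set ℂ} (hΩ : MeasurableSet Ω) : Measurable (Wf Ω) :=
  (Wf_joint hΩ).lintegral_prod_right'

/-- Mean zero kernels are controlled by `W`. -/
lemma cv_chi_le {κ : ℂ → ℂ} (hκ : κ ∈ V) (h0 : ∫ z, κ z = 0) {Ω : Set ℂ} (hΩ : MeasurableSet Ω) :
    ∫⁻ z, ‖cv κ (chi Ω) z‖ₑ ≤ ∫⁻ h, ‖κ h‖ₑ * Wf Ω h := by
  have e1 : ∀ z, cv κ (chi Ω) z = ∫ h, κ h * (chi Ω (z - h) - chi Ω z) := by
    intro z
    simp_rw [mul_sub]
    rw [integral_sub (cv_integrand hκ (chi_bm hΩ).locInt z) ((V_integrable hκ).mul_const _),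
      integral_mul_const, h0, zero_mul, sub_zero]
    rfl
  calc ∫⁻ z, ‖cv κ (chi Ω) z‖ₑ ≤ ∫⁻ z, ∫⁻ h, ‖κ h‖ₑ * ‖chi Ω (z - h) - chi Ω z‖ₑ := by
        apply lintegral_mono
        intro z
        simp only
        rw [e1]
        refine (enorm_integral_le_lintegral_enorm _).trans (le_of_eq ?_)
        congr 1
        ext h
        exact enorm_mul _ _
    _ = ∫⁻ h, ∫⁻ z, ‖κ h‖ₑ * ‖chi Ω (z - h) - chi Ω z‖ₑ := by
        apply lintegral_lintegral_swap
        apply Measurable.aemeasurable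
        have h1 : Measurable (fun p : ℂ × ℂ => chi Ω (p.1 - p.2)) :=
          (chi_meas hΩ).comp (measurable_fst.sub measurable_snd)
        have h2 : Measurable (fun p : ℂ × ℂ => chi Ω p.1) := (chi_meas hΩ).comp measurable_fst
        have h3 : Measurable (fun p : ℂ × ℂ => κ p.2) :=
          (V_cont hκ).measurable.comp measurable_snd
        exact h3.enorm.mul (h1.sub h2).enorm
    _ = ∫⁻ h, ‖κ h‖ₑ * Wf Ω h := by
        congr 1
        ext h
        rw [lintegral_const_mul _ (by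
          exact (((chi_meas hΩ).comp (measurable_sub_const _)).sub (chi_meas hΩ)).enorm)]
        congr 1
        rw [← Wf_neg]
        unfold Wf
        simp only [sub_eq_add_neg]

/-- The kernel weight. -/
noncomputable def Kw (α : ℝ) (h : ℂ) : ℝ≥0∞ :=
  (ball (0:ℂ) 1).indicator (fun h => ENNReal.ofReal (‖h‖ ^ (α - 3))) h

lemma Kw_meas (α : ℝ) : Measurable (Kw α) := by
  unfold Kw
  apply Measurable.indicator _ measurableSet_ball
  exact (measurable_norm.pow_const _).ennreal_ofReal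

lemma Kw_neg (α : ℝ) (h : ℂ) : Kw α (-h) = Kw α h := by
  unfold Kw
  by_cases hh : h ∈ ball (0:ℂ) 1
  · have : -h ∈ ball (0:ℂ) 1 := by simpa using hh
    rw [indicator_of_mem hh, indicator_of_mem this, norm_neg]
  · have : -h ∉ ball (0:ℂ) 1 := by simpa using hh
    rw [indicator_of_notMem hh, indicator_of_notMem this]

/-- Mass leaving. -/
noncomputable def Ef (Ω : Set ℂ) (h : ℂ) : ℝ≥0∞ :=
  ∫⁻ z, Ω.indicator (fun _ => 1) z * (Ωᶜ).indicator (fun _ => 1) (z + h)

lemma Wf_eq {Ω : Set ℂ} (hΩ : MeasurableSet Ω) (h : ℂ) : Wf Ω h = Ef Ω h + Ef Ω (-h) := by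
  have m1 : Measurable (Ω.indicator (fun _ => (1 : ℝ≥0∞))) := measurable_const.indicator hΩ
  have m2 : Measurable ((Ωᶜ).indicator (fun _ => (1 : ℝ≥0∞))) :=
    measurable_const.indicator hΩ.compl
  have e1 : Ef Ω (-h) = ∫⁻ z, Ω.indicator (fun _ => 1) (z + h) * (Ωᶜ).indicator (fun _ => 1) z := by
    unfold Ef
    rw [← lintegral_add_right_eq_self (fun z => Ω.indicator (fun _ => (1 : ℝ≥0∞)) z *
      (Ωᶜ).indicator (fun _ => 1) (z + -h)) h]
    simp only [add_neg_cancel_right]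
  rw [e1]
  unfold Wf Ef
  have m3 : Measurable (fun z => Ω.indicator (fun _ => (1 : ℝ≥0∞)) z *
      (Ωᶜ).indicator (fun _ => 1) (z + h)) := m1.mul (m2.comp (measurable_add_const _))
  rw [← lintegral_add_left m3]
  congr 1
  ext z
  unfold chi
  by_cases h1 : z ∈ Ω <;> by_cases h2 : z + h ∈ Ω <;> simp [h1, h2]

lemma Ef_meas {Ω : Set ℂ} (hΩ : MeasurableSet Ω) : Measurable (Ef Ω) := by
  have m1 : Measurable (Ω.indicator (fun _ => (1 : ℝ≥0∞))) := measurable_const.indicator hΩ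
  have m2 : Measurable ((Ωᶜ).indicator (fun _ => (1 : ℝ≥0∞))) :=
    measurable_const.indicator hΩ.compl
  have : Measurable (fun p : ℂ × ℂ => Ω.indicator (fun _ => (1 : ℝ≥0∞)) p.2 *
      (Ωᶜ).indicator (fun _ => 1) (p.2 + p.1)) :=
    (m1.comp measurable_snd).mul (m2.comp (measurable_snd.add measurable_fst))
  exact this.lintegral_prod_right'

lemma fracPer_eq (α : ℝ) {Ω : Set ℂ} (hΩ : MeasurableSet Ω) :
    fracPer α Ω = ∫⁻ h, Kw α h * Ef Ω h := by
  have m1 : Measurable (Ω.indicator (fun _ => (1 : ℝ≥0∞))) := measurable_const.indicator hΩ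
  have m2 : Measurable ((Ωᶜ).indicator (fun _ => (1 : ℝ≥0∞))) :=
    measurable_const.indicator hΩ.compl
  have e1 : fracPer α Ω = ∫⁻ z, ∫⁻ w, Ω.indicator (fun _ => 1) z *
      ((Ωᶜ).indicator (fun _ => 1) w * Kw α (w - z)) := by
    unfold fracPer
    rw [← lintegral_indicator hΩ]
    congr 1
    ext z
    by_cases hz : z ∈ Ω
    · simp only [indicator_of_mem hz, one_mul]
      rw [← lintegral_indicator (hΩ.compl.inter measurableSet_ball)]
      congr 1
      ext w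
      by_cases hw : w ∈ Ωᶜ <;> by_cases hb : w ∈ ball z 1
      · have hb' : w - z ∈ ball (0:ℂ) 1 := by
          rw [mem_ball, dist_zero_right]; rwa [mem_ball, dist_eq_norm] at hb
        have hwb : w ∈ Ωᶜ ∩ ball z 1 := ⟨hw, hb⟩
        rw [indicator_of_mem hwb, indicator_of_mem hw, one_mul]
        unfold Kw
        rw [indicator_of_mem hb', norm_sub_rev]
      · have hb' : w - z ∉ ball (0:ℂ) 1 := by
          rw [mem_ball, dist_zero_right]; rwa [mem_ball, dist_eq_norm] at hb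
        rw [indicator_of_notMem (fun h => hb h.2)]
        unfold Kw
        rw [indicator_of_notMem hb', mul_zero]
      · rw [indicator_of_notMem (fun h => hw h.1), indicator_of_notMem hw, zero_mul]
      · rw [indicator_of_notMem (fun h => hw h.1), indicator_of_notMem hw, zero_mul]
    · simp [indicator_of_notMem hz]
  have e2 : ∀ z, ∫⁻ w, Ω.indicator (fun _ => 1) z *
      ((Ωᶜ).indicator (fun _ => 1) w * Kw α (w - z)) = ∫⁻ h, Kw α h * (Ω.indicator (fun _ => 1) z *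
      (Ωᶜ).indicator (fun _ => 1) (z + h)) := by
    intro z
    rw [← lintegral_add_right_eq_self (fun w => Ω.indicator (fun _ => 1) z *
      ((Ωᶜ).indicator (fun _ => 1) w * Kw α (w - z))) z]
    congr 1
    ext h
    rw [add_sub_cancel_right, add_comm h z]
    ring
  rw [e1]
  simp_rw [e2]
  rw [lintegral_lintegral_swap]
  · congr 1
    ext h
    rw [lintegral_const_mul]
    · rfl
    · exact m1.mul (m2.comp (measurable_add_const _))
  · apply Measurable.aemeasurable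
    exact ((Kw_meas α).comp measurable_snd).mul ((m1.comp measurable_fst).mul
      (m2.comp (measurable_fst.add measurable_snd)))

lemma two_fracPer (α : ℝ) {Ω : Set ℂ} (hΩ : MeasurableSet Ω) :
    ∫⁻ h, Kw α h * Wf Ω h = 2 * fracPer α Ω := by
  have e1 : ∫⁻ h, Kw α h * Ef Ω (-h) = ∫⁻ h, Kw α h * Ef Ω h := by
    rw [← lintegral_neg_eq_self (fun h => Kw α h * Ef Ω h)]
    congr 1
    ext h
    rw [Kw_neg]
  simp_rw [Wf_eq hΩ, mul_add]
  have m3 : Measurable (fun h => Kw α h * Ef Ω h) := (Kw_meas α).mul (Ef_meas hΩ)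
  rw [lintegral_add_left m3, e1, ← fracPer_eq α hΩ, two_mul]

end H98.Dbar

end

section

/-! # Sufficiency of the Littlewood-Paley criterion, final step -/

open MeasureTheory Complex Metric Set Filter Topology
open scoped ContDiff ENNReal NNReal Convolution

namespace H98.Dbar

variable {H : ℝ → ℝ}

/-- Working form of admissibility. -/
def AdmW (α : ℝ) (k : ℕ) (Ω : Set ℂ) : Prop :=
  ∃ C : ℝ, 0 ≤ C ∧ ∀ f : V, ∀ A B : ℝ, 0 ≤ A → 0 ≤ B → (∀ z, ‖f.1 z‖ ≤ A) →
    (∀ h z, ‖(fwdDiff h)^[k] f.1 z‖ ≤ B * ‖h‖ ^ α) →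
    ‖∫ z in Ω, dbar f.1 z‖ ≤ C * (A + B)

/-- The criterion. -/
def Crit (H : ℝ → ℝ) (α : ℝ) (Ω : Set ℂ) : Prop :=
  (∫⁻ z, ‖fderiv ℝ (moll H 0 Ω) z‖ₑ) < ⊤ ∧
  (∑' j : ℕ, ENNReal.ofReal ((2:ℝ) ^ ((1 - α) * j)) *
    ∫⁻ z, ‖moll H (j + 1) Ω z - moll H j Ω z‖ₑ) < ⊤

lemma weight_eq (α : ℝ) (j : ℕ) :
    (2:ℝ) ^ j * ((1 / 2 : ℝ) ^ j) ^ α = (2:ℝ) ^ ((1 - α) * j) := by
  have h1 : ((1 / 2 : ℝ) ^ j) ^ α = (2:ℝ) ^ (-(α * j)) := by
    rw [one_div, inv_pow, ← Real.rpow_natCast, ← Real.rpow_neg (by norm_num),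
      ← Real.rpow_mul (by norm_num)]
    congr 1; ring
  rw [h1, ← Real.rpow_natCast, ← Real.rpow_add (by norm_num)]
  congr 1; ring

end H98.Dbar

end

section

/-! # Finite local fractional perimeter implies the criterion -/

open MeasureTheory Complex Metric Set Filter Topology
open scoped ContDiff ENNReal NNReal Convolution

namespace H98.Dbar

variable {H : ℝ → ℝ}

lemma IsProfile.deriv_one' (hH : IsProfile H) {s : ℝ} (hs : 1 ≤ s) : deriv H s = 0 := by
  have hmax : IsLocalMax H s := by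
    apply Filter.Eventually.of_forall
    intro x
    rw [hH.one s hs]
    calc H x ≤ H (max x 1) := hH.mono (le_max_left _ _)
      _ = 1 := hH.one _ (le_max_right _ _)
  exact hmax.deriv_eq_zero

lemma bumpAt_eq_zero' (hH : IsProfile H) (j : ℕ) {z : ℂ} (hz : (1 / 2 : ℝ) ^ j ≤ ‖z‖) :
    bumpAt H j z = 0 := by
  unfold bumpAt bump
  rw [hH.deriv_one']
  · simp
  · rw [norm_mul, norm_pow, Complex.norm_ofNat]
    rw [one_div, inv_pow] at hz
    have h2 : (0:ℝ) < 2 ^ j := by positivity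
    have h3 : (1:ℝ) ≤ 2 ^ j * ‖z‖ := by
      calc (1:ℝ) = 2 ^ j * (2 ^ j)⁻¹ := by field_simp
        _ ≤ 2 ^ j * ‖z‖ := by gcongr
    nlinarith

lemma bump_bound (hH : IsProfile H) : ∃ C : ℝ, 0 ≤ C ∧ ∀ z, bump H z ≤ C := by
  obtain ⟨C, hC⟩ := (bump_hasCompactSupport hH).exists_bound_of_continuous
    (bump_contDiff hH).continuous
  exact ⟨C, (norm_nonneg _).trans (hC 0), fun z => (le_abs_self _).trans (hC z)⟩

/-- difference kernel -/
noncomputable def psi (H : ℝ → ℝ) (j : ℕ) (z : ℂ) : ℂ := bumpC H (j + 1) z - bumpC H j z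

lemma psi_mem (hH : IsProfile H) (j : ℕ) : psi H j ∈ V :=
  V.sub_mem (bV hH (j + 1)).2 (bV hH j).2

lemma psi_int (hH : IsProfile H) (j : ℕ) : ∫ z, psi H j z = 0 := by
  have i1 : Integrable (bumpC H (j + 1)) := V_integrable (bV hH (j + 1)).2
  have i2 : Integrable (bumpC H j) := V_integrable (bV hH j).2
  unfold psi
  rw [integral_sub i1 i2]
  rw [show (∫ z, bumpC H (j + 1) z) = 1 from (bV_prob hH (j + 1)).int,
    show (∫ z, bumpC H j z) = 1 from (bV_prob hH j).int, sub_self]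

lemma psi_bound (hH : IsProfile H) {C : ℝ} (hC : ∀ z, bump H z ≤ C) (j : ℕ) (z : ℂ) :
    ‖psi H j z‖ₑ ≤ (ball (0:ℂ) ((1 / 2) ^ j)).indicator
      (fun _ => ENNReal.ofReal (5 * C * 4 ^ j)) z := by
  by_cases hz : z ∈ ball (0:ℂ) ((1 / 2) ^ j)
  · rw [indicator_of_mem hz, ← ofReal_norm]
    apply ENNReal.ofReal_le_ofReal
    unfold psi bumpC
    calc ‖((bumpAt H (j + 1) z : ℝ) : ℂ) - ((bumpAt H j z : ℝ) : ℂ)‖
        ≤ ‖((bumpAt H (j + 1) z : ℝ) : ℂ)‖ + ‖((bumpAt H j z : ℝ) : ℂ)‖ := norm_sub_le _ _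
      _ = bumpAt H (j + 1) z + bumpAt H j z := by
          rw [Complex.norm_real, Complex.norm_real, Real.norm_eq_abs, Real.norm_eq_abs,
            abs_of_nonneg (bumpAt_nonneg hH _ _), abs_of_nonneg (bumpAt_nonneg hH _ _)]
      _ ≤ 4 ^ (j + 1) * C + 4 ^ j * C := by
          unfold bumpAt
          gcongr
          · exact hC _
          · exact hC _
      _ = 5 * C * 4 ^ j := by ring
  · rw [indicator_of_notMem hz]
    rw [mem_ball, dist_zero_right, not_lt] at hz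
    have h1 : bumpAt H j z = 0 := bumpAt_eq_zero' hH j hz
    have h2 : bumpAt H (j + 1) z = 0 := by
      apply bumpAt_eq_zero' hH
      exact (pow_le_pow_of_le_one (by norm_num) (by norm_num) (Nat.le_succ j)).trans hz
    unfold psi bumpC
    rw [h1, h2]
    simp

lemma moll_diff_enorm (hH : IsProfile H) {Ω : Set ℂ} (hΩ : MeasurableSet Ω) (j : ℕ) (z : ℂ) :
    ‖moll H (j + 1) Ω z - moll H j Ω z‖ₑ = ‖cv (psi H j) (chi Ω) z‖ₑ := by
  have e : cv (psi H j) (chi Ω) z = ((moll H (j + 1) Ω z - moll H j Ω z : ℝ) : ℂ) := by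
    push_cast
    rw [moll_eq hΩ, moll_eq hΩ]
    exact cv_sub_left (bV hH (j + 1)).2 (bV hH j).2 (chi_bm hΩ).locInt z
  rw [e, ← ofReal_norm, ← ofReal_norm, Complex.norm_real]

lemma geom_ball {α : ℝ} (hα : α < 3) {x : ℝ} (hx0 : 0 < x) (hx1 : x < 1) (J : ℕ) :
    ∑ j ∈ Finset.range J, (if x < (1 / 2 : ℝ) ^ j then (2:ℝ) ^ ((1 - α) * j) * 4 ^ j else 0) ≤
      2 ^ (3 - α) / (2 ^ (3 - α) - 1) * x ^ (α - 3) := by
  set r : ℝ := (2:ℝ) ^ (3 - α) with hr
  have hr1 : 1 < r := Real.one_lt_rpow (by norm_num) (by linarith)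
  have hr0 : 0 < r - 1 := by linarith
  have hw : ∀ j : ℕ, (2:ℝ) ^ ((1 - α) * j) * 4 ^ j = r ^ j := by
    intro j
    have : (4:ℝ) ^ j = (2:ℝ) ^ ((2:ℝ) * j) := by
      rw [Real.rpow_mul (by norm_num), Real.rpow_natCast]; norm_num
    rw [this, ← Real.rpow_add (by norm_num), hr, ← Real.rpow_natCast, ← Real.rpow_mul (by norm_num)]
    congr 1; ring
  obtain ⟨N, hN1, hN2⟩ := exists_nat_pow_near_of_lt_one hx0 hx1.le (y := (1 / 2 : ℝ))
        (by norm_num) (by norm_num)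
  calc ∑ j ∈ Finset.range J, (if x < (1 / 2 : ℝ) ^ j then (2:ℝ) ^ ((1 - α) * j) * 4 ^ j else 0)
      ≤ ∑ j ∈ Finset.range (N + 1 + J),
        (if x < (1 / 2 : ℝ) ^ j then (2:ℝ) ^ ((1 - α) * j) * 4 ^ j else 0) := by
        apply Finset.sum_le_sum_of_subset_of_nonneg
        · intro i hi
          simp only [Finset.mem_range] at hi ⊢
          omega
        · intro i _ _
          split_ifs <;> positivity
    _ = ∑ j ∈ Finset.range (N + 1),
        (if x < (1 / 2 : ℝ) ^ j then (2:ℝ) ^ ((1 - α) * j) * 4 ^ j else 0) +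
        ∑ j ∈ Finset.range J, (if x < (1 / 2 : ℝ) ^ (N + 1 + j) then
          (2:ℝ) ^ ((1 - α) * (N + 1 + j : ℕ)) * 4 ^ (N + 1 + j) else 0) :=
        Finset.sum_range_add _ _ _
    _ ≤ ∑ j ∈ Finset.range (N + 1), r ^ j + ∑ j ∈ Finset.range J, 0 := by
        apply add_le_add
        · apply Finset.sum_le_sum
          intro j _
          rw [← hw]
          split_ifs
          · exact le_rfl
          · positivity
        · apply Finset.sum_le_sum
          intro j _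
          rw [if_neg]
          rw [not_lt]
          refine le_trans ?_ hN1.le
          exact pow_le_pow_of_le_one (by norm_num) (by norm_num) (by omega)
    _ = (r ^ (N + 1) - 1) / (r - 1) := by
        rw [geom_sum_eq hr1.ne']; simp
    _ ≤ (r * x ^ (α - 3)) / (r - 1) := by
        apply div_le_div_of_nonneg_right _ hr0.le
        have h1 : r ^ (N + 1) ≤ r * x ^ (α - 3) := by
          rw [pow_succ, mul_comm]
          gcongr
          have h2 : (2:ℝ) ^ N ≤ x⁻¹ := by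
            rw [le_inv_comm₀ (by positivity) hx0]
            simpa [one_div, inv_pow] using hN2
          calc r ^ N = ((2:ℝ) ^ N) ^ (3 - α) := by
                rw [hr, ← Real.rpow_natCast, ← Real.rpow_mul (by norm_num), mul_comm,
                  Real.rpow_mul (by norm_num), Real.rpow_natCast]
            _ ≤ (x⁻¹) ^ (3 - α) := Real.rpow_le_rpow (by positivity) h2 (by linarith)
            _ = x ^ (α - 3) := by
                rw [Real.inv_rpow hx0.le, ← Real.rpow_neg hx0.le]; congr 1; ring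
        linarith
    _ = _ := by ring

lemma weighted_psi {α : ℝ} (hα : α < 3) (hH : IsProfile H) {C : ℝ} (hC0 : 0 ≤ C)
    (hC : ∀ z, bump H z ≤ C) (h : ℂ) (hh : h ≠ 0) (J : ℕ) :
    ∑ j ∈ Finset.range J, ENNReal.ofReal ((2:ℝ) ^ ((1 - α) * j)) * ‖psi H j h‖ₑ ≤
      ENNReal.ofReal (5 * C * (2 ^ (3 - α) / (2 ^ (3 - α) - 1))) * Kw α h := by
  have hx0 : 0 < ‖h‖ := norm_pos_iff.2 hh
  by_cases h1 : ‖h‖ < 1
  · have hb : h ∈ ball (0:ℂ) 1 := by simpa using h1
    unfold Kw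
    rw [indicator_of_mem hb]
    have hr1 : 1 < (2:ℝ) ^ (3 - α) := Real.one_lt_rpow (by norm_num) (by linarith)
    have hr0 : 0 < (2:ℝ) ^ (3 - α) - 1 := by linarith
    calc ∑ j ∈ Finset.range J, ENNReal.ofReal ((2:ℝ) ^ ((1 - α) * j)) * ‖psi H j h‖ₑ
        ≤ ∑ j ∈ Finset.range J, ENNReal.ofReal (5 * C *
          (if ‖h‖ < (1 / 2 : ℝ) ^ j then (2:ℝ) ^ ((1 - α) * j) * 4 ^ j else 0)) := by
          apply Finset.sum_le_sum
          intro j _
          refine (mul_le_mul_right (psi_bound hH hC j h) _).trans ?_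
          by_cases hj : ‖h‖ < (1 / 2 : ℝ) ^ j
          · have : h ∈ ball (0:ℂ) ((1 / 2) ^ j) := by simpa using hj
            rw [indicator_of_mem this, if_pos hj, ← ENNReal.ofReal_mul (by positivity)]
            apply le_of_eq
            congr 1; ring
          · have : h ∉ ball (0:ℂ) ((1 / 2) ^ j) := by simpa using hj
            rw [indicator_of_notMem this]; simp
      _ = ENNReal.ofReal (∑ j ∈ Finset.range J, 5 * C *
          (if ‖h‖ < (1 / 2 : ℝ) ^ j then (2:ℝ) ^ ((1 - α) * j) * 4 ^ j else 0)) := by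
          rw [ENNReal.ofReal_sum_of_nonneg]
          intro j _
          apply mul_nonneg (by positivity)
          split_ifs <;> positivity
      _ ≤ ENNReal.ofReal (5 * C * (2 ^ (3 - α) / (2 ^ (3 - α) - 1)) * ‖h‖ ^ (α - 3)) := by
          apply ENNReal.ofReal_le_ofReal
          rw [← Finset.mul_sum, mul_assoc (5 * C)]
          gcongr
          exact geom_ball hα hx0 h1 J
      _ = _ := by rw [ENNReal.ofReal_mul (by positivity)]
  · have : ∑ j ∈ Finset.range J, ENNReal.ofReal ((2:ℝ) ^ ((1 - α) * j)) * ‖psi H j h‖ₑ = 0 := by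
      apply Finset.sum_eq_zero
      intro j _
      have h2 := psi_bound hH hC j h
      have h3 : h ∉ ball (0:ℂ) ((1 / 2) ^ j) := by
        rw [mem_ball, dist_zero_right, not_lt]
        exact (pow_le_one₀ (by norm_num) (by norm_num)).trans (not_lt.1 h1)
      rw [indicator_of_notMem h3, nonpos_iff_eq_zero] at h2
      rw [h2, mul_zero]
    rw [this]
    exact zero_le

/-- derivative kernel -/
noncomputable def dk (H : ℝ → ℝ) (v z : ℂ) : ℂ := fderiv ℝ (bumpC H 0) z v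

lemma dk_mem (hH : IsProfile H) (v : ℂ) : dk H v ∈ V := fderiv_apply_mem_V (bV hH 0).2 v

lemma dk_neg (hH : IsProfile H) (v z : ℂ) : dk H v (-z) = - dk H v z := by
  unfold dk
  have hd := V_differentiable (bV hH 0).2
  have h1 : (fun w => bumpC H 0 (-w)) = bumpC H 0 := by ext w; exact bumpC_neg 0 w
  have h2 : HasFDerivAt (fun w : ℂ => -w) (-(ContinuousLinearMap.id ℝ ℂ)) z := (hasFDerivAt_id z).neg
  have h3 := ((hd (-z)).hasFDerivAt).comp z h2
  have h4 : fderiv ℝ (fun w => bumpC H 0 (-w)) z = _ := h3.fderiv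
  rw [h1] at h4
  rw [h4]
  simp [bV]

lemma dk_int (hH : IsProfile H) (v : ℂ) : ∫ z, dk H v z = 0 := by
  have h1 : ∫ z, dk H v (-z) = ∫ z, dk H v z := integral_neg_eq_self _ _
  simp_rw [dk_neg hH] at h1
  rw [integral_neg] at h1
  have h2 : (2:ℂ) * ∫ z, dk H v z = 0 := by
    linear_combination -h1
  simpa using h2

lemma dk_zero (hH : IsProfile H) (v : ℂ) {z : ℂ} (hz : 1 ≤ ‖z‖) : dk H v z = 0 := by
  have h1 : fderiv ℝ (bumpAt H 0) z = 0 := by
    apply IsLocalMin.fderiv_eq_zero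
    apply Filter.Eventually.of_forall
    intro w
    rw [bumpAt_eq_zero' hH 0 (by simpa using hz)]
    exact bumpAt_nonneg hH 0 w
  unfold dk
  have hd : DifferentiableAt ℝ (bumpAt H 0) z := ((bumpAt_contDiff hH 0).differentiable (by simp)) z
  have h0 : fderiv ℝ (bumpC H 0) z = Complex.ofRealCLM.comp (fderiv ℝ (bumpAt H 0) z) :=
    (Complex.ofRealCLM.hasFDerivAt.comp z hd.hasFDerivAt).fderiv
  rw [h0, h1]
  simp

lemma fderiv_moll_enorm (hH : IsProfile H) {Ω : Set ℂ} (hΩ : MeasurableSet Ω) (v z : ℂ) :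
    ‖fderiv ℝ (moll H 0 Ω) z v‖ₑ = ‖cv (dk H v) (chi Ω) z‖ₑ := by
  have e0 : (fun z => (moll H 0 Ω z : ℂ)) = cv (bumpC H 0) (chi Ω) := by
    ext z; exact moll_eq hΩ 0 z
  have e1 : cv (dk H v) (chi Ω) z = ((fderiv ℝ (moll H 0 Ω) z v : ℝ) : ℂ) := by
    have h1 := fderiv_cv (bV hH 0).2 (chi_bm hΩ).locInt z v
    have h2 : cv (dk H v) (chi Ω) z = fderiv ℝ (cv (bumpC H 0) (chi Ω)) z v := h1.symm
    rw [h2, ← e0]
    have hd : DifferentiableAt ℝ (moll H 0 Ω) z := ((moll_contDiff hH hΩ 0).differentiable (by simp)) z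
    have h0 : fderiv ℝ (fun w => (moll H 0 Ω w : ℂ)) z =
        Complex.ofRealCLM.comp (fderiv ℝ (moll H 0 Ω) z) :=
      (Complex.ofRealCLM.hasFDerivAt.comp z hd.hasFDerivAt).fderiv
    rw [h0]; simp
  rw [e1, ← ofReal_norm, ← ofReal_norm, Complex.norm_real]

lemma grad_part {α : ℝ} (hα : α < 3) (hH : IsProfile H) {Ω : Set ℂ} (hΩ : MeasurableSet Ω)
    (h : fracPer α Ω < ⊤) (v : ℂ) : ∫⁻ z, ‖fderiv ℝ (moll H 0 Ω) z v‖ₑ < ⊤ := by
  obtain ⟨C, hC⟩ := (dk_mem hH v).2.exists_bound_of_continuous (V_cont (dk_mem hH v))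
  have hC0 : 0 ≤ C := (norm_nonneg _).trans (hC 0)
  simp_rw [fderiv_moll_enorm hH hΩ]
  calc ∫⁻ z, ‖cv (dk H v) (chi Ω) z‖ₑ ≤ ∫⁻ h, ‖dk H v h‖ₑ * Wf Ω h :=
        cv_chi_le (dk_mem hH v) (dk_int hH v) hΩ
    _ ≤ ∫⁻ h, ENNReal.ofReal C * (Kw α h * Wf Ω h) := by
        apply lintegral_mono
        intro w
        simp only
        by_cases hw0 : w = 0
        · rw [hw0, Wf_zero]; simp
        · rw [← mul_assoc]
          gcongr
          by_cases hw : ‖w‖ < 1
          · have hb : w ∈ ball (0:ℂ) 1 := by simpa using hw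
            unfold Kw
            rw [indicator_of_mem hb, ← ENNReal.ofReal_mul hC0, ← ofReal_norm]
            apply ENNReal.ofReal_le_ofReal
            have h1 : 1 ≤ ‖w‖ ^ (α - 3) :=
              Real.one_le_rpow_of_pos_of_le_one_of_nonpos (norm_pos_iff.2 hw0) hw.le (by linarith)
            calc ‖dk H v w‖ ≤ C := hC w
              _ = C * 1 := (mul_one C).symm
              _ ≤ C * ‖w‖ ^ (α - 3) := by gcongr
          · rw [dk_zero hH v (not_lt.1 hw)]
            simp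
    _ = ENNReal.ofReal C * (2 * fracPer α Ω) := by
        have m3 : Measurable (fun h => Kw α h * Wf Ω h) := (Kw_meas α).mul (Wf_meas hΩ)
        rw [lintegral_const_mul _ m3, two_fracPer α hΩ]
    _ < ⊤ := ENNReal.mul_lt_top ENNReal.ofReal_lt_top (ENNReal.mul_lt_top (by simp) h)

theorem crit_of_fracPer {α : ℝ} (hα : α < 3) (hH : IsProfile H) {Ω : Set ℂ}
    (hΩ : MeasurableSet Ω) (h : fracPer α Ω < ⊤) : Crit H α Ω := by
  constructor
  · calc ∫⁻ z, ‖fderiv ℝ (moll H 0 Ω) z‖ₑ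
        ≤ ∫⁻ z, (‖fderiv ℝ (moll H 0 Ω) z 1‖ₑ + ‖fderiv ℝ (moll H 0 Ω) z I‖ₑ) := by
          apply lintegral_mono
          intro z
          have h1 := norm_le_parts (fderiv ℝ (moll H 0 Ω) z)
          change ‖fderiv ℝ (moll H 0 Ω) z‖ₑ ≤ ‖fderiv ℝ (moll H 0 Ω) z 1‖ₑ +
            ‖fderiv ℝ (moll H 0 Ω) z I‖ₑ
          rw [← ofReal_norm, ← ofReal_norm, ← ofReal_norm,
            ← ENNReal.ofReal_add (norm_nonneg _) (norm_nonneg _)]
          exact ENNReal.ofReal_le_ofReal h1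
      _ = (∫⁻ z, ‖fderiv ℝ (moll H 0 Ω) z 1‖ₑ) + ∫⁻ z, ‖fderiv ℝ (moll H 0 Ω) z I‖ₑ := by
          apply lintegral_add_left
          have hcd : Continuous (fun z => fderiv ℝ (moll H 0 Ω) z) :=
            (moll_contDiff hH hΩ 0).continuous_fderiv (by simp)
          exact ((hcd.clm_apply continuous_const).measurable).enorm
      _ < ⊤ := ENNReal.add_lt_top.2 ⟨grad_part hα hH hΩ h 1, grad_part hα hH hΩ h I⟩
  · obtain ⟨C, hC0, hC⟩ := bump_bound hH
    have key : ∀ J : ℕ, ∑ j ∈ Finset.range J, ENNReal.ofReal ((2:ℝ) ^ ((1 - α) * j)) *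
        ∫⁻ z, ‖moll H (j + 1) Ω z - moll H j Ω z‖ₑ ≤
        ENNReal.ofReal (5 * C * (2 ^ (3 - α) / (2 ^ (3 - α) - 1))) * (2 * fracPer α Ω) := by
      intro J
      calc ∑ j ∈ Finset.range J, ENNReal.ofReal ((2:ℝ) ^ ((1 - α) * j)) *
            ∫⁻ z, ‖moll H (j + 1) Ω z - moll H j Ω z‖ₑ
          ≤ ∑ j ∈ Finset.range J, ENNReal.ofReal ((2:ℝ) ^ ((1 - α) * j)) *
            ∫⁻ h, ‖psi H j h‖ₑ * Wf Ω h := by
            apply Finset.sum_le_sum
            intro j _
            simp_rw [moll_diff_enorm hH hΩ]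
            exact mul_le_mul_right (cv_chi_le (psi_mem hH j) (psi_int hH j) hΩ) _
        _ = ∑ j ∈ Finset.range J, ∫⁻ h, ENNReal.ofReal ((2:ℝ) ^ ((1 - α) * j)) *
            (‖psi H j h‖ₑ * Wf Ω h) := by
            apply Finset.sum_congr rfl
            intro j _
            rw [lintegral_const_mul]
            exact ((V_cont (psi_mem hH j)).measurable.enorm).mul (Wf_meas hΩ)
        _ = ∫⁻ h, ∑ j ∈ Finset.range J, ENNReal.ofReal ((2:ℝ) ^ ((1 - α) * j)) *
            (‖psi H j h‖ₑ * Wf Ω h) := by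
            rw [lintegral_finsetSum]
            intro j _
            exact (((V_cont (psi_mem hH j)).measurable.enorm).mul (Wf_meas hΩ)).const_mul _
        _ ≤ ∫⁻ h, ENNReal.ofReal (5 * C * (2 ^ (3 - α) / (2 ^ (3 - α) - 1))) *
            (Kw α h * Wf Ω h) := by
            apply lintegral_mono
            intro w
            simp only
            by_cases hw0 : w = 0
            · rw [hw0, Wf_zero]; simp
            · simp_rw [← mul_assoc]
              rw [← Finset.sum_mul]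
              gcongr
              exact weighted_psi hα hH hC0 hC w hw0 J
        _ = _ := by
            have m3 : Measurable (fun h => Kw α h * Wf Ω h) := (Kw_meas α).mul (Wf_meas hΩ)
            rw [lintegral_const_mul _ m3, two_fracPer α hΩ]
    refine lt_of_le_of_lt (ENNReal.tsum_le_of_sum_range_le key) ?_
    exact ENNReal.mul_lt_top ENNReal.ofReal_lt_top (ENNReal.mul_lt_top (by simp) h)

end H98.Dbar

end
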