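import Pool.Agent.H2.TCR.M01

/-! The parts of this file: H98.Dbar.Final, H98.Dbar.Mom7, H98.Dbar.Dens3. -/

section

/-! # Admissible sets: final form -/

open MeasureTheory Complex Metric Set Filter Topology
open scoped ContDiff ENNReal NNReal Convolution

namespace H98.Dbar

variable {H : ℝ → ℝ}

/-- The `Lip α` norm, with differences of order `k`, as an element of `[0, ∞]`. -/
noncomputable def lipNorm (α : ℝ) (k : ℕ) (f : ℂ → ℂ) : ℝ≥0∞ :=
  (⨆ z, ‖f z‖ₑ) +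
    ⨆ h : ℂ, ⨆ _ : h ≠ 0, (⨆ z, ‖(fwdDiff h)^[k] f z‖ₑ) / ENNReal.ofReal (‖h‖ ^ α)

/-- `α`-admissible sets: `|⟨∂χ_Ω/∂z̄, f⟩| ≤ C ‖f‖_{Lip α}` for all `f ∈ C_c^∞(ℂ)`. -/
def Admissible (α : ℝ) (k : ℕ) (Ω : Set ℂ) : Prop :=
  ∃ C : ℝ≥0, ∀ f : ℂ → ℂ, ContDiff ℝ ∞ f → HasCompactSupport f →
    ‖-∫ z in Ω, dbar f z‖ₑ ≤ C * lipNorm α k f

end H98.Dbar

end

section

/-!
# The moment criterion
-/

open MeasureTheory Metric Set Filter Topology
open scoped ContDiff ENNReal NNReal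
open H98.Dbar (IsProfile moll bumpAt Crit chi Wf bump Admissible)

namespace H98.Dens

/-- The first moment of `Ω ∩ disc(z, r)` about `z` with the weight `(1 - |w - z|²/r²)ⁿ`, in units
of `π r³`, where `r = 2^{-j}`. -/
noncomputable def mom (Ω : Set ℂ) (n j : ℕ) (z : ℂ) : ℂ :=
  (Real.pi * ((1 / 2 : ℝ) ^ j) ^ 2)⁻¹ • ∫ w in Ω ∩ ball z ((1 / 2) ^ j),
    ((1 - (‖w - z‖ / (1 / 2) ^ j) ^ 2) ^ n : ℝ) • ((w - z) / (1 / 2) ^ j)

end H98.Dens

end

section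

/-!
# The density criterion
-/

open MeasureTheory Metric Set Filter Topology
open scoped ContDiff ENNReal NNReal
open H98.Dbar (IsProfile moll bumpAt Crit chi Wf)

namespace H98.Dens

section transfer

variable {κ μ : ℕ → ℂ → ℝ} {C D : ℝ≥0∞}

end transfer

/-! ### The two families -/

/-- The normalised indicator of the disc of radius `2^{-j}`. -/
noncomputable def dk (j : ℕ) : ℂ → ℝ :=
  (ball (0:ℂ) ((1 / 2) ^ j)).indicator (fun _ => (Real.pi * ((1 / 2) ^ j) ^ 2)⁻¹)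

/-! ### The indicator -/

/-- `area(Ω ∩ disc(z, 2^{-j})) / area(disc(z, 2^{-j}))` -/
noncomputable def dens (Ω : Set ℂ) (j : ℕ) (z : ℂ) : ℝ :=
  volume.real (Ω ∩ ball z ((1 / 2) ^ j)) / volume.real (ball z ((1 / 2 : ℝ) ^ j))

end H98.Dens

end
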