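import Pool.Agent.H2.TCR.M02

/-! The parts of this file: H98.Dbar.Mixed_1, H98.Dbar.Mom1, H98.Dbar.Mom4, H98.Dbar.Nec2, H98.Dbar.Suff2, H98.Dbar.Nec3, H98.Dbar.Dens3_2, H98.Dbar.Mom3_1, H98.Dbar.Mom5, H98.Dbar.Mom6, H98.Dbar.Per3, H98.Dbar.Fin, H98.Dbar.Per4, H98.Dbar.Suff3_1, H98.Dbar.Nec4_1, H98.Dbar.Final_1, H32.Dbar.Per, H98.Dbar.Dens3_1, H98.Dbar.Dens4, H98.Dbar.Mom7_1. -/

section

/-! # Mixed differences (Kemperman's identity) -/

open MeasureTheory Complex Metric Set Filter Topology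
open scoped ContDiff ENNReal NNReal Convolution

namespace H98.Dbar

lemma powerset_cancel (g : ℂ → ℂ) (c : ℕ → ℂ) (s : Finset ℕ) (r0 : ℕ) (hr : r0 ∈ s)
    (hc : c r0 = 0) (z : ℂ) :
    ∑ D ∈ s.powerset, (-1 : ℂ) ^ D.card * g (z + ∑ r ∈ D, c r) = 0 := by
  rw [← Finset.insert_erase hr, Finset.sum_powerset_insert (Finset.notMem_erase _ _),
    ← Finset.sum_add_distrib]
  apply Finset.sum_eq_zero
  intro D hD
  have h1 : r0 ∉ D := fun h => Finset.notMem_erase r0 s ((Finset.mem_powerset.1 hD) h)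
  rw [Finset.card_insert_of_notMem h1, Finset.sum_insert h1, hc, zero_add, pow_succ]
  ring

lemma kemperman (g : ℂ → ℂ) (h : ℕ → ℂ) (n : ℕ) (z : ℂ) :
    ∑ D ∈ (Finset.range n).powerset, (-1 : ℂ) ^ D.card *
      (fwdDiff (-∑ r ∈ D, h r / (r + 1)))^[n] g (z + ∑ r ∈ D, h r) =
    (-1) ^ n * ∑ D ∈ (Finset.range n).powerset, (-1 : ℂ) ^ D.card * g (z + ∑ r ∈ D, h r) := by
  simp_rw [fwdDiff_iter_eq_sum_shift, Finset.mul_sum]
  rw [Finset.sum_comm, Finset.sum_range_succ']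
  have h0 : ∑ m ∈ Finset.range n, ∑ D ∈ (Finset.range n).powerset, (-1 : ℂ) ^ D.card *
      ((-1 : ℤ) ^ (n - (m + 1)) * (n.choose (m + 1) : ℤ)) •
        g (z + ∑ r ∈ D, h r + (m + 1) • -∑ r ∈ D, h r / (r + 1)) = 0 := by
    apply Finset.sum_eq_zero
    intro m hm
    have h1 := powerset_cancel g (fun r => (1 - ((m + 1 : ℕ) : ℂ) / (r + 1)) * h r) (Finset.range n)
      m hm (by
        have : ((m : ℂ) + 1) ≠ 0 := by exact_mod_cast Nat.succ_ne_zero m
        push_cast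
        rw [div_self this]; simp) z
    have h2 : ∀ D ∈ (Finset.range n).powerset, (-1 : ℂ) ^ D.card *
      ((-1 : ℤ) ^ (n - (m + 1)) * (n.choose (m + 1) : ℤ)) •
        g (z + ∑ r ∈ D, h r + (m + 1) • -∑ r ∈ D, h r / (r + 1)) =
        (((-1 : ℤ) ^ (n - (m + 1)) * (n.choose (m + 1) : ℤ) : ℤ) : ℂ) *
        ((-1 : ℂ) ^ D.card * g (z + ∑ r ∈ D, (1 - ((m + 1 : ℕ) : ℂ) / (r + 1)) * h r)) := by
      intro D _
      have e : z + ∑ r ∈ D, h r + (m + 1) • -∑ r ∈ D, h r / (r + 1) =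
          z + ∑ r ∈ D, (1 - ((m + 1 : ℕ) : ℂ) / (r + 1)) * h r := by
        rw [nsmul_eq_mul, mul_neg, Finset.mul_sum, add_assoc, ← sub_eq_add_neg,
          ← Finset.sum_sub_distrib]
        congr 1
        apply Finset.sum_congr rfl
        intro r _
        ring
      rw [e, zsmul_eq_mul]
      ring
    rw [Finset.sum_congr rfl h2, ← Finset.mul_sum, h1, mul_zero]
  rw [h0, zero_add]
  apply Finset.sum_congr rfl
  intro D _
  simp only [tsub_zero, Nat.choose_zero_right, Nat.cast_one, mul_one, zero_nsmul, smul_neg,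
    neg_zero, add_zero, zsmul_eq_mul]
  push_cast
  ring

/-- Iterated mixed difference operator. -/
noncomputable def mprod (W : List ℂ) : Module.End ℂ V := (W.map (fun w => 1 - tau w)).prod

lemma mprod_range (w : ℕ → ℂ) (n : ℕ) (f : V) (z : ℂ) :
    (mprod ((List.range n).map w) f).1 z =
      ∑ D ∈ (Finset.range n).powerset, (-1 : ℂ) ^ D.card * f.1 (z - ∑ r ∈ D, w r) := by
  induction n generalizing f with
  | zero => simp [mprod]
  | succ n ih =>
    have h1 : mprod ((List.range (n + 1)).map w) = mprod ((List.range n).map w) * (1 - tau (w n)) := by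
      unfold mprod
      rw [List.range_succ, List.map_append, List.map_append, List.prod_append]
      simp
    rw [h1, Module.End.mul_apply, ih, Finset.range_add_one,
      Finset.sum_powerset_insert Finset.notMem_range_self, ← Finset.sum_add_distrib]
    apply Finset.sum_congr rfl
    intro D hD
    have h2 : n ∉ D := fun h => Finset.notMem_range_self ((Finset.mem_powerset.1 hD) h)
    rw [Finset.card_insert_of_notMem h2, Finset.sum_insert h2, pow_succ]
    have h3 : ((1 - tau (w n)) f).1 (z - ∑ r ∈ D, w r) =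
        f.1 (z - ∑ r ∈ D, w r) - f.1 (z - ∑ r ∈ D, w r - w n) := rfl
    rw [h3]
    have h4 : z - (w n + ∑ r ∈ D, w r) = z - ∑ r ∈ D, w r - w n := by ring
    rw [h4]
    ring

lemma mprod_bound {f : V} {k : ℕ} {α B ρ : ℝ} (hα : 0 < α) (hB0 : 0 ≤ B) (hρ : 0 ≤ ρ)
    (hB : ∀ h z, ‖(fwdDiff h)^[k] f.1 z‖ ≤ B * ‖h‖ ^ α) (W : List ℂ) (hlen : W.length = k)
    (hW : ∀ w ∈ W, ‖w‖ ≤ ρ) : supN (mprod W f) ≤ 2 ^ k * (B * (k * ρ) ^ α) := by
  apply supN_le
  intro z
  set w : ℕ → ℂ := fun i => W.getD i 0 with hwdef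
  have hWw : W = (List.range k).map w := by
    apply List.ext_getElem
    · simp [hlen]
    · intro i h1 h2
      simp [hwdef, List.getElem?_eq_getElem h1]
  have hwn : ∀ i, ‖w i‖ ≤ ρ := by
    intro i
    by_cases hi : i < W.length
    · rw [hwdef]
      simp only
      rw [List.getD_eq_getElem _ _ hi]
      exact hW _ (List.getElem_mem hi)
    · rw [hwdef]
      simp only
      rw [List.getD_eq_default _ _ (not_lt.1 hi)]
      simpa using hρ
  rw [hWw, mprod_range]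
  have h1 := kemperman f.1 (fun i => - w i) k z
  have h2 : ∑ D ∈ (Finset.range k).powerset, (-1 : ℂ) ^ D.card * f.1 (z - ∑ r ∈ D, w r) =
      (-1) ^ k * ∑ D ∈ (Finset.range k).powerset, (-1 : ℂ) ^ D.card *
      (fwdDiff (-∑ r ∈ D, (- w r) / (r + 1)))^[k] f.1 (z + ∑ r ∈ D, (- w r)) := by
    rw [h1, ← mul_assoc, ← pow_add, ← two_mul, pow_mul]
    simp only [even_two, Even.neg_pow, one_pow, one_mul, Finset.sum_neg_distrib, ← sub_eq_add_neg]
  rw [h2, norm_mul, norm_pow, norm_neg, norm_one, one_pow, one_mul]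
  calc ‖∑ D ∈ (Finset.range k).powerset, (-1 : ℂ) ^ D.card *
      (fwdDiff (-∑ r ∈ D, (- w r) / (r + 1)))^[k] f.1 (z + ∑ r ∈ D, (- w r))‖
      ≤ ∑ D ∈ (Finset.range k).powerset, (B * (k * ρ) ^ α) := by
        apply norm_sum_le_of_le
        intro D hD
        rw [norm_mul, norm_pow, norm_neg, norm_one, one_pow, one_mul]
        refine (hB _ _).trans ?_
        gcongr
        rw [norm_neg]
        have hDk : D.card ≤ k := by
          simpa using Finset.card_le_card (Finset.mem_powerset.1 hD)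
        calc ‖∑ r ∈ D, (- w r) / ((r : ℂ) + 1)‖ ≤ ∑ r ∈ D, ρ := by
              apply norm_sum_le_of_le
              intro r _
              rw [norm_div, norm_neg]
              have h3 : (1:ℝ) ≤ ‖(r : ℂ) + 1‖ := by
                have : ((r : ℂ) + 1) = ((r + 1 : ℕ) : ℂ) := by push_cast; rfl
                rw [this, Complex.norm_natCast]
                exact_mod_cast Nat.succ_le_succ (Nat.zero_le r)
              rw [div_le_iff₀ (by linarith)]
              nlinarith [hwn r, norm_nonneg (w r)]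
          _ = D.card * ρ := by simp
          _ ≤ k * ρ := by gcongr
    _ = 2 ^ k * (B * (k * ρ) ^ α) := by
        rw [Finset.sum_const, Finset.card_powerset, Finset.card_range, nsmul_eq_mul]
        push_cast; rfl

lemma one_sub_cvOp_apply {κ : V} {ρ : ℝ} (hκ : Prob κ ρ) (f : V) (z : ℂ) :
    ((1 - cvOp κ) f).1 z = ∫ w, κ.1 w * ((1 - tau w) f).1 z := by
  have h1 : ∀ w, κ.1 w * ((1 - tau w) f).1 z = κ.1 w * f.1 z - κ.1 w * f.1 (z - w) := by
    intro w
    have : ((1 - tau w) f).1 z = f.1 z - f.1 (z - w) := rfl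
    rw [this]; ring
  simp_rw [h1]
  rw [integral_sub, integral_mul_const, hκ.int, one_mul]
  · rfl
  · exact (V_integrable κ.2).mul_const _
  · exact cv_integrand κ.2 (V_locInt f.2) z

lemma one_sub_cvOp_bound {κ : V} {ρ : ℝ} (hκ : Prob κ ρ) {f : V} {M : ℝ}
    (hM : ∀ w, ‖w‖ ≤ ρ → supN ((1 - tau w) f) ≤ M) :
    supN ((1 - cvOp κ) f) ≤ M := by
  apply supN_le
  intro z
  rw [one_sub_cvOp_apply hκ]
  calc ‖∫ w, κ.1 w * ((1 - tau w) f).1 z‖ ≤ ∫ w, ‖κ.1 w‖ * M := by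
        apply norm_integral_le_of_norm_le ((V_integrable κ.2).norm.mul_const M)
        filter_upwards with w
        rw [norm_mul]
        by_cases hw : ‖w‖ ≤ ρ
        · gcongr
          exact (le_supN _ z).trans (hM w hw)
        · rw [hκ.supp w (not_le.1 hw)]
          simp
    _ = M := by rw [integral_mul_const, hκ.intNorm, one_mul]

lemma comm_one_sub {R : Type*} [Ring R] {a b : R} (h : Commute a b) :
    Commute (1 - a) (1 - b) := by
  have h1 : Commute a (1 - b) := (Commute.one_right _).sub_right h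
  exact (Commute.one_left _).sub_left h1

lemma commute_listprod (L : List V) (w : ℂ) :
    Commute ((L.map (fun κ => 1 - cvOp κ)).prod) (1 - tau w) := by
  induction L with
  | nil => simp
  | cons κ L ih =>
    rw [List.map_cons, List.prod_cons]
    refine Commute.mul_left ?_ ih
    exact comm_one_sub (R := Module.End ℂ V) (cvOp_tau κ w)

lemma listprod_bound {ρ : ℝ} (L : List V) (hL : ∀ κ ∈ L, Prob κ ρ) (f : V) (M : ℝ)
    (hM : ∀ W : List ℂ, W.length = L.length → (∀ w ∈ W, ‖w‖ ≤ ρ) → supN (mprod W f) ≤ M) :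
    supN ((L.map (fun κ => 1 - cvOp κ)).prod f) ≤ M := by
  induction L generalizing f with
  | nil =>
    have := hM [] rfl (by simp)
    simpa [mprod] using this
  | cons κ L ih =>
    rw [List.map_cons, List.prod_cons, Module.End.mul_apply]
    apply one_sub_cvOp_bound (hL κ (by simp))
    intro w hw
    have h1 : (1 - tau w) ((L.map (fun κ => 1 - cvOp κ)).prod f) =
        (L.map (fun κ => 1 - cvOp κ)).prod ((1 - tau w) f) := by
      have := (commute_listprod L w).eq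
      rw [← Module.End.mul_apply, ← Module.End.mul_apply, this]
    rw [h1]
    apply ih (fun κ hκ => hL κ (by simp [hκ]))
    intro W hlen hW
    have h2 : mprod W ((1 - tau w) f) = mprod (W ++ [w]) f := by
      unfold mprod
      rw [List.map_append, List.prod_append]
      simp
    rw [h2]
    apply hM
    · simp [hlen]
    · intro w' hw'
      rw [List.mem_append] at hw'
      rcases hw' with h | h
      · exact hW _ h
      · simp at h; rw [h]; exact hw

lemma word_bound {f : V} {k : ℕ} {α B ρ : ℝ} (hα : 0 < α) (hB0 : 0 ≤ B) (hρ : 0 ≤ ρ)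
    (hB : ∀ h z, ‖(fwdDiff h)^[k] f.1 z‖ ≤ B * ‖h‖ ^ α) {κ μ : V} (hκ : Prob κ ρ) (hμ : Prob μ ρ)
    (i : ℕ) (hi : i ≤ k) :
    supN (((1 - cvOp κ) ^ i * (1 - cvOp μ) ^ (k - i)) f) ≤ 2 ^ k * (B * (k * ρ) ^ α) := by
  have h1 : (1 - cvOp κ) ^ i * (1 - cvOp μ) ^ (k - i) =
      ((List.replicate i κ ++ List.replicate (k - i) μ).map (fun κ => 1 - cvOp κ)).prod := by
    rw [List.map_append, List.prod_append]
    simp
  rw [h1]
  apply listprod_bound (ρ := ρ)
  · intro κ' h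
    rw [List.mem_append] at h
    rcases h with h | h
    · rw [List.eq_of_mem_replicate h]; exact hκ
    · rw [List.eq_of_mem_replicate h]; exact hμ
  · intro W hlen hW
    apply mprod_bound hα hB0 hρ hB W _ hW
    rw [hlen]
    simp; omega

end H98.Dbar

end

section

/-!
# The moment criterion: the algebraic part
-/

open scoped ENNReal NNReal

namespace H98.Dens

section abs2

variable {A M : Type*} [CommRing A] [AddCommGroup M] [Module A M] {p : M → ℝ≥0∞}

lemma OP.pow {T : A} {c : ℝ≥0∞} (hT : OP p T c) (n : ℕ) : OP p (T ^ n) (c ^ n) := by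
  induction n with
  | zero => simpa using OP.one p
  | succ n ih => rw [pow_succ, pow_succ]; exact ih.mul hT

lemma OP.fsum (hp : ESN p) {T : ℕ → A} {c : ℕ → ℝ≥0∞} (n : ℕ) (hT : ∀ i < n, OP p (T i) (c i)) :
    OP p (∑ i ∈ Finset.range n, T i) (∑ i ∈ Finset.range n, c i) := by
  induction n with
  | zero => intro x; simp [hp.zero]
  | succ n ih =>
    rw [Finset.sum_range_succ, Finset.sum_range_succ]
    exact (ih fun i hi => hT i (by omega)).add hp (hT n (by omega))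

/-- The reproducing element of order `n`. -/
def Kn (n : ℕ) (a : A) : A := 1 - (1 - a) ^ (n + 1)

/-- The mixed sum. -/
def Sn (n : ℕ) (a a' : A) : A := ∑ i ∈ Finset.range (n + 1), (1 - a) ^ i * (1 - a') ^ (n - i)

/-- The geometric sum. -/
def Gn (n : ℕ) (a : A) : A := ∑ i ∈ Finset.range (n + 1), (1 - a) ^ i

lemma Kn_geo (n : ℕ) (a : A) : Kn n a = Gn n a * a := H98.Dbar.geo a n

lemma Kn_tele (n : ℕ) (a a' : A) :
    Kn n a' ^ 2 - Kn n a ^ 2 = (a' - a) * (Sn n a a' * (Kn n a' + Kn n a)) :=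
  H98.Dbar.tele (Commute.all a' a) n

/-- The constant. -/
noncomputable def cn (n : ℕ) : ℝ≥0∞ := (n + 1) * 2 ^ (n + 1)

lemma one_sub_bd (hp : ESN p) {a : A} (ha : OP p a 1) : OP p (1 - a) 2 :=
  ((OP.one p).sub hp ha).mono (by norm_num)

lemma Gn_bd (hp : ESN p) (n : ℕ) {a : A} (ha : OP p a 1) : OP p (Gn n a) (cn n) := by
  have h := OP.fsum hp (n + 1) (T := fun i => (1 - a) ^ i) (c := fun _ => 2 ^ (n + 1))
    (fun i hi => ((one_sub_bd hp ha).pow i).mono (pow_le_pow_right₀ (by norm_num) (by omega)))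
  refine h.mono (le_of_eq ?_)
  rw [Finset.sum_const, Finset.card_range, nsmul_eq_mul]
  unfold cn
  push_cast
  ring

lemma Kn_bd (hp : ESN p) (n : ℕ) {a : A} (ha : OP p a 1) : OP p (Kn n a) (cn n) := by
  rw [Kn_geo]
  simpa using (Gn_bd hp n ha).mul ha

lemma Sn_bd (hp : ESN p) (n : ℕ) {a a' : A} {T : A} {c : ℝ≥0∞}
    (h : ∀ i ≤ n, OP p ((1 - a) ^ i * (1 - a') ^ (n - i) * T) c) :
    OP p (Sn n a a' * T) ((n + 1) * c) := by
  unfold Sn
  rw [Finset.sum_mul]
  have h := OP.fsum hp (n + 1) (T := fun i => (1 - a) ^ i * (1 - a') ^ (n - i) * T)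
    (c := fun _ => c) (fun i hi => h i (by omega))
  refine h.mono (le_of_eq ?_)
  rw [Finset.sum_const, Finset.card_range, nsmul_eq_mul]
  push_cast
  ring

lemma Sn_bd' (hp : ESN p) (n : ℕ) {a a' : A} (ha : OP p a 1) (ha' : OP p a' 1) :
    OP p (Sn n a a') (cn n) := by
  have h := Sn_bd hp n (a := a) (a' := a') (T := 1) (c := 2 ^ (n + 1)) (by
    intro i hi
    rw [mul_one]
    refine (((one_sub_bd hp ha).pow i).mul ((one_sub_bd hp ha').pow (n - i))).mono ?_
    rw [← pow_add]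
    exact pow_le_pow_right₀ (by norm_num) (by omega))
  rwa [mul_one] at h

/-- High frequencies. -/
lemma highM (hp : ESN p) (n : ℕ) {a a' R : A} (ha : OP p a 1) (ha' : OP p a' 1) {c : ℝ≥0∞}
    (h : ∀ i ≤ n, OP p ((1 - a) ^ i * (1 - a') ^ (n - i) * R) c) :
    OP p (R * (Sn n a a' * (Kn n a' + Kn n a))) ((n + 1) * c * (2 * cn n)) := by
  have e : R * (Sn n a a' * (Kn n a' + Kn n a)) = (Sn n a a' * R) * (Kn n a' + Kn n a) := by ring
  rw [e, two_mul]
  exact (Sn_bd hp n h).mul ((Kn_bd hp n ha').add hp (Kn_bd hp n ha))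

/-- Low frequencies. -/
lemma lowM (hp : ESN p) (n : ℕ) {a a' R : A} (ha : OP p a 1) (ha' : OP p a' 1) {c : ℝ≥0∞}
    (h : OP p (R * a) c) (h' : OP p (R * a') c) :
    OP p (R * (Sn n a a' * (Kn n a' + Kn n a))) (cn n * (2 * c * cn n)) := by
  have e : R * (Sn n a a' * (Kn n a' + Kn n a)) =
      Sn n a a' * ((R * a') * Gn n a' + (R * a) * Gn n a) := by
    rw [Kn_geo, Kn_geo]; ring
  rw [e]
  have h5 := (Sn_bd' hp n ha ha').mul ((h'.mul (Gn_bd hp n ha')).add hp (h.mul (Gn_bd hp n ha)))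
  refine h5.mono (le_of_eq ?_)
  ring

lemma splitM (a : ℕ → A) (R : A) (n J : ℕ) : R * Kn n (a J) ^ 2 = R * Kn n (a 0) ^ 2 +
    ∑ i ∈ Finset.range J, R * (Kn n (a (i + 1)) ^ 2 - Kn n (a i) ^ 2) := by
  rw [← Finset.mul_sum, Finset.sum_range_sub (fun i => Kn n (a i) ^ 2)]
  ring

/-- `(2^{i-j})^s ∧ (2^{j-i})^t` -/
noncomputable def decM (s t i j : ℕ) : ℝ≥0∞ :=
  min ((2 ^ i * 2⁻¹ ^ j) ^ s) ((2 ^ j * 2⁻¹ ^ i) ^ t)

/-- The comparison for an element `R` (scale `j`) of mean zero. -/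
theorem compareR (hp : ESN p) (a : ℕ → A) (ha : ∀ i, OP p (a i) 1) (n j s : ℕ) {R : A} {C : ℝ≥0∞}
    (h1 : ∀ i, ∀ l ≤ n, OP p ((1 - a i) ^ l * (1 - a (i + 1)) ^ (n - l) * R)
      (C * (2 ^ j * 2⁻¹ ^ i) ^ n))
    (h2 : ∀ i, OP p (R * a i) (C * (2 ^ i * 2⁻¹ ^ j) ^ s)) (x : M) (J : ℕ) :
    p ((R * Kn n (a J) ^ 2) • x) ≤ cn n ^ 2 * p ((R * a 0) • x) +
      ∑ i ∈ Finset.range J, 2 ^ (s + 1) * C * cn n ^ 2 * decM s n i j *
        p ((a (i + 1) - a i) • x) := by
  rw [splitM, add_smul, Finset.sum_smul]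
  refine (hp.add _ _).trans (add_le_add ?_ ((hp.sum _ _).trans (Finset.sum_le_sum ?_)))
  · have e : R * Kn n (a 0) ^ 2 = (Gn n (a 0) * Kn n (a 0)) * (R * a 0) := by
      rw [pow_two, Kn_geo]; ring
    rw [e, mul_smul, pow_two]
    exact ((Gn_bd hp n (ha 0)).mul (Kn_bd hp n (ha 0))) _
  · intro i _
    rw [Kn_tele]
    have e : R * ((a (i + 1) - a i) * (Sn n (a i) (a (i + 1)) * (Kn n (a (i + 1)) + Kn n (a i)))) =
      (R * (Sn n (a i) (a (i + 1)) * (Kn n (a (i + 1)) + Kn n (a i)))) * (a (i + 1) - a i) := by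
      ring
    rw [e, mul_smul]
    unfold decM
    rcases min_choice (((2:ℝ≥0∞) ^ i * 2⁻¹ ^ j) ^ s) ((2 ^ j * 2⁻¹ ^ i) ^ n) with hm | hm
    · rw [hm]
      have h3 := lowM hp n (ha i) (ha (i + 1)) (R := R)
        (c := 2 ^ s * (C * (2 ^ i * 2⁻¹ ^ j) ^ s))
        ((h2 i).mono (by
          calc C * (2 ^ i * 2⁻¹ ^ j) ^ s = 1 * (C * (2 ^ i * 2⁻¹ ^ j) ^ s) := by rw [one_mul]
            _ ≤ _ := by
              gcongr
              exact one_le_pow₀ (by norm_num)))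
        ((h2 (i + 1)).mono (le_of_eq (by
          have e2 : (2:ℝ≥0∞) ^ (i + 1) * 2⁻¹ ^ j = 2 * (2 ^ i * 2⁻¹ ^ j) := by
            rw [pow_succ]
            ring
          rw [e2, mul_pow]
          ring)))
      refine (h3 _).trans (le_of_eq ?_)
      rw [pow_succ]
      ring
    · rw [hm]
      have h3 := highM hp n (ha i) (ha (i + 1)) (R := R) (h1 i)
      refine (h3 _).trans ?_
      calc (n + 1) * (C * (2 ^ j * 2⁻¹ ^ i) ^ n) * (2 * cn n) * p ((a (i + 1) - a i) • x)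
          = (2 * C * ((n + 1) * 1) * cn n) * (2 ^ j * 2⁻¹ ^ i) ^ n * p ((a (i + 1) - a i) • x) := by
            ring
        _ ≤ (2 ^ (s + 1) * C * ((n + 1) * 2 ^ (n + 1)) * cn n) * (2 ^ j * 2⁻¹ ^ i) ^ n *
            p ((a (i + 1) - a i) • x) := by
            gcongr
            · calc (2:ℝ≥0∞) = 2 ^ 1 := (pow_one 2).symm
                _ ≤ 2 ^ (s + 1) := pow_le_pow_right₀ (by norm_num) (by omega)
            · exact one_le_pow₀ (by norm_num)
        _ = _ := by unfold cn; ring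

/-- The comparison for a derivative: `d a_i = b e_i`. -/
theorem compareD (hp : ESN p) (a e : ℕ → A) (ha : ∀ i, OP p (a i) 1) (n j : ℕ) {d b : A}
    {C : ℝ≥0∞} (hde : ∀ i, d * a i = b * e i)
    (h1 : ∀ i, ∀ l ≤ n, OP p ((1 - a i) ^ l * (1 - a (i + 1)) ^ (n - l) * b)
      (C * (2 ^ j * 2⁻¹ ^ i) ^ n))
    (h2 : OP p b C) (x : M) (J : ℕ) :
    p ((d * Kn n (a J) ^ 2) • x) ≤ C * cn n ^ 2 * p (e 0 • x) +
      ∑ i ∈ Finset.range J, 2 * C * cn n ^ 2 * decM 0 n i j *
        (p (e (i + 1) • x) + p (e i • x)) := by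
  rw [splitM, add_smul, Finset.sum_smul]
  refine (hp.add _ _).trans (add_le_add ?_ ((hp.sum _ _).trans (Finset.sum_le_sum ?_)))
  · have e1 : d * Kn n (a 0) ^ 2 = (b * (Gn n (a 0) * Kn n (a 0))) * e 0 := by
      rw [pow_two, Kn_geo]
      calc d * (Gn n (a 0) * a 0 * (Gn n (a 0) * a 0)) =
          (d * a 0) * (Gn n (a 0) * (Gn n (a 0) * a 0)) := by ring
        _ = _ := by rw [hde 0]; ring
    rw [e1, mul_smul, pow_two]
    exact (h2.mul ((Gn_bd hp n (ha 0)).mul (Kn_bd hp n (ha 0)))) _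
  · intro i _
    rw [Kn_tele]
    have e1 : d * ((a (i + 1) - a i) * (Sn n (a i) (a (i + 1)) * (Kn n (a (i + 1)) + Kn n (a i)))) =
      (b * (Sn n (a i) (a (i + 1)) * (Kn n (a (i + 1)) + Kn n (a i)))) * (e (i + 1) - e i) := by
      calc _ = (d * a (i + 1) - d * a i) *
            (Sn n (a i) (a (i + 1)) * (Kn n (a (i + 1)) + Kn n (a i))) := by ring
        _ = _ := by rw [hde, hde]; ring
    rw [e1, mul_smul]
    have h4 : p ((e (i + 1) - e i) • x) ≤ p (e (i + 1) • x) + p (e i • x) := by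
      rw [sub_smul]
      exact hp.sub _ _
    unfold decM
    rcases min_choice (((2:ℝ≥0∞) ^ i * 2⁻¹ ^ j) ^ 0) ((2 ^ j * 2⁻¹ ^ i) ^ n) with hm | hm
    · rw [hm, pow_zero]
      have h3 := (h2.mul ((Sn_bd' hp n (ha i) (ha (i + 1))).mul
        ((Kn_bd hp n (ha (i + 1))).add hp (Kn_bd hp n (ha i)))))
      refine (h3 _).trans ((mul_le_mul_right h4 _).trans (le_of_eq ?_))
      ring
    · rw [hm]
      have h3 := highM hp n (ha i) (ha (i + 1)) (R := b) (h1 i)
      refine (h3 _).trans ((mul_le_mul_right h4 _).trans ?_)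
      calc (n + 1) * (C * (2 ^ j * 2⁻¹ ^ i) ^ n) * (2 * cn n) *
            (p (e (i + 1) • x) + p (e i • x))
          = (2 * C * ((n + 1) * 1) * cn n) * (2 ^ j * 2⁻¹ ^ i) ^ n *
            (p (e (i + 1) • x) + p (e i • x)) := by ring
        _ ≤ (2 * C * ((n + 1) * 2 ^ (n + 1)) * cn n) * (2 ^ j * 2⁻¹ ^ i) ^ n *
            (p (e (i + 1) • x) + p (e i • x)) := by
            gcongr
            exact one_le_pow₀ (by norm_num)
        _ = _ := by unfold cn; ring

/-- The error of the reproducing formula. -/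
lemma errM (hp : ESN p) (n : ℕ) {a R : A} (ha : OP p a 1) {c : ℝ≥0∞}
    (h1 : OP p ((1 - a) ^ (n + 1) * R) c) (x : M) :
    p ((R * (1 - Kn n a ^ 2)) • x) ≤ c * (1 + cn n) * p x := by
  have e : R * (1 - Kn n a ^ 2) = ((1 - a) ^ (n + 1) * R) * (1 + Kn n a) := by
    unfold Kn; ring
  rw [e]
  exact (h1.mul ((OP.one p).add hp (Kn_bd hp n ha))) _

end abs2

/-- Weights `2^{βj}`. -/
noncomputable def wb (β : ℝ) (j : ℕ) : ℝ≥0∞ := ENNReal.ofReal ((2:ℝ) ^ (β * j))

lemma schurM {β : ℝ} {s t : ℕ} (h0 : β < s) (h2 : -t < β) : ∃ S : ℝ≥0∞, S < ⊤ ∧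
    ∀ i : ℕ, ∑' j : ℕ, wb β j * decM s t i j ≤ S * wb β i := by
  set q : ℝ := (2:ℝ) ^ (-(s - β)) with hq
  set r : ℝ := (2:ℝ) ^ (-(β + t)) with hr
  have hq0 : 0 < q := by positivity
  have hr0 : 0 < r := by positivity
  refine ⟨∑' m : ℕ, ENNReal.ofReal (r ^ m) + ∑' m : ℕ, ENNReal.ofReal (q ^ m),
    ENNReal.add_lt_top.2 ⟨geom_fin hr0 (rpow_lt_one' (by linarith)),
      geom_fin hq0 (rpow_lt_one' (by linarith))⟩, ?_⟩
  intro i
  have hpow : ∀ a b n : ℕ, ((2 : ℝ≥0∞) ^ a * 2⁻¹ ^ b) ^ n =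
      ENNReal.ofReal ((2:ℝ) ^ (((a:ℝ) - b) * n)) := by
    intro a b n
    have h3 : (2 : ℝ≥0∞) ^ a = ENNReal.ofReal ((2:ℝ) ^ (a : ℝ)) := by
      rw [Real.rpow_natCast, ENNReal.ofReal_pow (by norm_num)]
      norm_num
    have h4 : (2⁻¹ : ℝ≥0∞) ^ b = ENNReal.ofReal ((2:ℝ) ^ (-(b : ℝ))) := by
      rw [Real.rpow_neg (by norm_num), Real.rpow_natCast, ← inv_pow,
        ENNReal.ofReal_pow (by norm_num), ENNReal.ofReal_inv_of_pos (by norm_num)]
      norm_num
    rw [h3, h4, ← ENNReal.ofReal_mul (by positivity), ← ENNReal.ofReal_pow (by positivity),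
      ← Real.rpow_add (by norm_num), ← Real.rpow_natCast, ← Real.rpow_mul (by norm_num)]
    congr 2
  rw [← Summable.sum_add_tsum_nat_add' (f := fun j => wb β j * decM s t i j) (k := i)
    ENNReal.summable, add_mul]
  apply add_le_add
  · calc ∑ j ∈ Finset.range i, wb β j * decM s t i j
        = ∑ m ∈ Finset.range i, wb β (i - 1 - m) * decM s t i (i - 1 - m) :=
          (Finset.sum_range_reflect (fun j => wb β j * decM s t i j) i).symm
      _ ≤ ∑ m ∈ Finset.range i, ENNReal.ofReal (r ^ m) * wb β i := by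
          apply Finset.sum_le_sum
          intro m hm
          rw [Finset.mem_range] at hm
          refine (mul_le_mul_right (min_le_right _ _) _).trans ?_
          unfold wb
          rw [hpow, ← ENNReal.ofReal_mul (by positivity), ← ENNReal.ofReal_mul (by positivity)]
          apply ENNReal.ofReal_le_ofReal
          rw [hr, ← Real.rpow_natCast, ← Real.rpow_mul (by norm_num),
            ← Real.rpow_add (by norm_num), ← Real.rpow_add (by norm_num)]
          apply Real.rpow_le_rpow_of_exponent_le (by norm_num)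
          have e1 : ((i - 1 - m : ℕ) : ℝ) = (i:ℝ) - 1 - m := by
            have : i - 1 - m = i - (1 + m) := by omega
            rw [this, Nat.cast_sub (by omega)]
            push_cast; ring
          rw [e1]
          nlinarith
      _ = (∑ m ∈ Finset.range i, ENNReal.ofReal (r ^ m)) * wb β i := by
          rw [Finset.sum_mul]
      _ ≤ _ := by
          gcongr
          exact ENNReal.sum_le_tsum _
  · rw [← ENNReal.tsum_mul_right]
    apply ENNReal.tsum_le_tsum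
    intro m
    refine (mul_le_mul_right (min_le_left _ _) _).trans (le_of_eq ?_)
    unfold wb
    rw [hpow, ← ENNReal.ofReal_mul (by positivity), ← ENNReal.ofReal_mul (by positivity)]
    congr 1
    rw [hq, ← Real.rpow_natCast, ← Real.rpow_mul (by norm_num),
      ← Real.rpow_add (by norm_num), ← Real.rpow_add (by norm_num)]
    congr 1
    push_cast
    ring

end H98.Dens

end

section

/-!
# The derivative of a convolution, limits
-/

open MeasureTheory Metric Set Filter Topology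
open scoped ContDiff ENNReal NNReal
open H98.Dbar (IsProfile moll bumpAt Crit chi Wf bump)

namespace H98.Dens

lemma add_ik {κ μ : ℂ → ℝ} (hκ : Ik κ) (hμ : Ik μ) : Ik (fun w => κ w + μ w) :=
  ⟨hκ.meas.add hμ.meas, hκ.int.add hμ.int⟩

lemma smul_ik {κ : ℂ → ℝ} (c : ℝ) (hκ : Ik κ) : Ik (fun w => c * κ w) :=
  ⟨hκ.meas.const_mul c, hκ.int.const_mul c⟩

lemma sub_ik {κ μ : ℂ → ℝ} (hκ : Ik κ) (hμ : Ik μ) : Ik (fun w => κ w - μ w) :=
  ⟨hκ.meas.sub hμ.meas, hκ.int.sub hμ.int⟩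

lemma kop_add {κ μ : ℂ → ℝ} (hκ : Ik κ) (hμ : Ik μ) : kop (add_ik hκ hμ) = kop hκ + kop hμ := by
  apply ct_ext
  intro F
  apply Subtype.ext
  ext z
  change cr (fun w => κ w + μ w) F.1 z = cr κ F.1 z + cr μ F.1 z
  unfold cr
  rw [← integral_add (cr_integrand hκ F.2 z) (cr_integrand hμ F.2 z)]
  congr 1
  ext w
  ring

lemma kop_smul_c {κ : ℂ → ℝ} (c : ℝ) (hκ : Ik κ) (F : BM) :
    kop (smul_ik c hκ) • F = c • (kop hκ • F) := by
  apply Subtype.ext
  ext z
  change cr (fun w => c * κ w) F.1 z = c * cr κ F.1 z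
  unfold cr
  rw [← integral_const_mul]
  congr 1
  ext w
  ring

/-- `fd` is the derivative of `f` in the direction `d`. -/
def RepD (f fd : ℂ → ℝ) (d : ℂ) : Prop := ∀ (z : ℂ) (t : ℝ),
  f z - f (z - t * d) = ∫ s in (0:ℝ)..1, t * fd (z - s * (t * d))

lemma Rep.one {f fx fy : ℂ → ℝ} (h : Rep f fx fy) : RepD f fx 1 := by
  intro z t
  have := h z (t * 1)
  simpa using this

lemma Rep.I {f fx fy : ℂ → ℝ} (h : Rep f fx fy) : RepD f fy Complex.I := by
  intro z t
  have := h z (t * Complex.I)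
  simpa using this

lemma RepD.smul {f fd : ℂ → ℝ} {d : ℂ} (h : RepD f fd d) (c : ℝ) :
    RepD (fun w => c * f w) (fun w => c * fd w) d := by
  intro z t
  rw [← mul_sub, h z t, ← intervalIntegral.integral_const_mul]
  congr 1
  ext s
  ring

lemma RepD.sc {f fd : ℂ → ℝ} {d : ℂ} (h : RepD f fd d) (j : ℕ) :
    RepD (sc j f) (sc j (fun w => 2 ^ j * fd w)) d := by
  intro z t
  unfold Dens.sc
  have h1 := h (2 ^ j * z) (2 ^ j * t)
  have e1 : (2:ℂ) ^ j * (z - t * d) = 2 ^ j * z - ((2 ^ j * t : ℝ) : ℂ) * d := by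
    push_cast; ring
  rw [← mul_sub, e1, h1, ← intervalIntegral.integral_const_mul]
  congr 1
  ext s
  have e2 : (2:ℂ) ^ j * (z - s * (t * d)) = 2 ^ j * z - s * (((2 ^ j * t : ℝ) : ℂ) * d) := by
    push_cast; ring
  rw [e2]
  ring

lemma Rk.smul (n : ℕ) : ∀ {f : ℂ → ℝ} {B : ℝ≥0∞}, Measurable f → Rk n f B → ∀ c : ℝ,
    Rk n (fun w => c * f w) (‖c‖ₑ * B) := by
  induction n with
  | zero =>
    intro f B hf h c
    change ∫⁻ z, ‖c * f z‖ₑ ≤ _
    simp_rw [enorm_mul]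
    rw [lintegral_const_mul _ hf.enorm]
    exact mul_le_mul_right h _
  | succ n ih =>
    intro f B hf h c w
    have h1 := ih (hf.sub (hf.comp (measurable_id.sub_const w))) (h w) c
    have e : (fun z => c * f z - c * f (z - w)) = fun z => c * (f z - f (z - w)) := by
      ext z; ring
    rw [e]
    refine h1.mono (le_of_eq ?_)
    ring

lemma rk_sc (n : ℕ) (j : ℕ) : ∀ {f : ℂ → ℝ} {B : ℝ≥0∞}, Measurable f → Rk n f B →
    Rk n (sc j f) (B * (2 ^ j) ^ n) := by
  induction n with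
  | zero =>
    intro f B hf h
    change ∫⁻ z, ‖sc j f z‖ₑ ≤ _
    rw [lintegral_sc j hf, pow_zero, mul_one]
    exact h
  | succ n ih =>
    intro f B hf h w
    have h1 := ih (hf.sub (hf.comp (measurable_id.sub_const (2 ^ j * w)))) (h (2 ^ j * w))
    have e : (fun z => sc j f z - sc j f (z - w)) =
        sc j (fun z => f z - f (z - 2 ^ j * w)) := by
      ext z
      unfold sc
      rw [mul_sub ((4:ℝ) ^ j), mul_sub ((2:ℂ) ^ j)]
    rw [e]
    refine h1.mono (le_of_eq ?_)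
    have e2 : ‖(2:ℂ) ^ j * w‖ₑ = 2 ^ j * ‖w‖ₑ := by
      rw [enorm_mul, enorm_pow]
      congr 2
      rw [← ofReal_norm, Complex.norm_ofNat]
      norm_num
    rw [e2, pow_succ]
    ring

/-- The error of the difference quotient. -/
lemma e_bound {f fd : ℂ → ℝ} {d : ℂ} {B : ℝ≥0∞} (hr : RepD f fd d) (hm : Mb fd)
    (hB : Rk 1 fd B) {t : ℝ} (ht : 0 ≤ t) :
    ∫⁻ z, ‖f z - f (z - t * d) - t * fd z‖ₑ ≤ ENNReal.ofReal t * (B * (ENNReal.ofReal t * ‖d‖ₑ)) := by
  have hl : Measurable (fun p : ℂ × ℝ => p.1 - (p.2:ℂ) * (t * d)) := by fun_prop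
  have hmm : Measurable (fun p : ℂ × ℝ =>
      ENNReal.ofReal t * ‖fd p.1 - fd (p.1 - (p.2:ℂ) * (t * d))‖ₑ) :=
    ((hm.meas.comp measurable_fst).sub (hm.meas.comp hl)).enorm.const_mul _
  have hte : ‖t‖ₑ = ENNReal.ofReal t := Real.enorm_of_nonneg ht
  calc ∫⁻ z, ‖f z - f (z - t * d) - t * fd z‖ₑ
      ≤ ∫⁻ z, ∫⁻ s in Ioc (0:ℝ) 1, ENNReal.ofReal t * ‖fd z - fd (z - (s:ℂ) * (t * d))‖ₑ := by
        apply lintegral_mono
        intro z
        simp only
        have hi : IntervalIntegrable (fun s : ℝ => t * fd (z - s * (t * d))) volume 0 1 := by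
          have := line_int hm hm t 0 (t * d) z
          simpa using this
        have e : f z - f (z - t * d) - t * fd z =
            -∫ s in (0:ℝ)..1, t * (fd z - fd (z - s * (t * d))) := by
          simp_rw [mul_sub]
          rw [hr z t, intervalIntegral.integral_sub intervalIntegrable_const hi]
          simp
        rw [e, enorm_neg, intervalIntegral.integral_of_le zero_le_one]
        refine (enorm_integral_le_lintegral_enorm _).trans (lintegral_mono fun s => ?_)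
        rw [enorm_mul, hte]
    _ = ∫⁻ s in Ioc (0:ℝ) 1, ∫⁻ z, ENNReal.ofReal t * ‖fd z - fd (z - (s:ℂ) * (t * d))‖ₑ := by
        rw [lintegral_lintegral_swap]
        exact hmm.aemeasurable
    _ ≤ ∫⁻ _ in Ioc (0:ℝ) 1, ENNReal.ofReal t * (B * (ENNReal.ofReal t * ‖d‖ₑ)) := by
        apply setLIntegral_mono measurable_const
        intro s hs
        have hm1 : Measurable (fun z : ℂ => ‖fd z - fd (z - (s:ℂ) * (t * d))‖ₑ) :=
          (hm.meas.sub (hm.meas.comp (measurable_id.sub_const _))).enorm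
        rw [lintegral_const_mul _ hm1]
        gcongr
        refine (hB ((s:ℂ) * (t * d))).trans ?_
        gcongr
        rw [← ofReal_norm, ← ofReal_norm, ← ENNReal.ofReal_mul ht]
        apply ENNReal.ofReal_le_ofReal
        rw [norm_mul, norm_mul, Complex.norm_real, Complex.norm_real, Real.norm_of_nonneg hs.1.le,
          Real.norm_of_nonneg ht]
        have h0 : 0 ≤ t * ‖d‖ := by positivity
        nlinarith [hs.2]
    _ = _ := by
        rw [setLIntegral_const]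
        simp

/-- The derivative of a convolution can be put on either factor. -/
lemma rel {f fd g gd : ℂ → ℝ} {d : ℂ} (hf : Ik f) (hfd : Ik fd) (hg : Ik g) (hgd : Ik gd)
    (hrf : RepD f fd d) (hrg : RepD g gd d) (hmf : Mb fd) (hmg : Mb gd) {B B' : ℝ≥0∞}
    (hB : B < ⊤) (hB' : B' < ⊤) (h1 : Rk 1 fd B) (h2 : Rk 1 gd B') :
    kop hfd * kop hg = kop hf * kop hgd := by
  apply ct_ext
  intro F
  rw [← sub_eq_zero, ← sub_smul]
  set X : BM := (kop hfd * kop hg - kop hf * kop hgd) • F with hX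
  set Cst : ℝ≥0∞ := ((∫⁻ w, ‖f w‖ₑ) * (B' * ‖d‖ₑ) + (B * ‖d‖ₑ) * (∫⁻ w, ‖g w‖ₑ)) * SB F with hC
  have hCst : Cst < ⊤ := by
    apply ENNReal.mul_lt_top _ (SB_lt F)
    apply ENNReal.add_lt_top.2
    exact ⟨ENNReal.mul_lt_top hf.int.2 (ENNReal.mul_lt_top hB' enorm_lt_top),
      ENNReal.mul_lt_top (ENNReal.mul_lt_top hB enorm_lt_top) hg.int.2⟩
  have key : ∀ t : ℝ, 0 < t → SB (t • X) ≤ ENNReal.ofReal t * (ENNReal.ofReal t * Cst) := by
    intro t ht
    have hef : Ik (fun z => f z - f (z - t * d) - t * fd z) :=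
      sub_ik (diff_ik hf (t * d)) (smul_ik t hfd)
    have heg : Ik (fun z => g z - g (z - t * d) - t * gd z) :=
      sub_ik (diff_ik hg (t * d)) (smul_ik t hgd)
    have e1 : (1 - top (t * d)) * kop hf = kop (smul_ik t hfd) + kop hef := by
      rw [one_sub_top_kop, ← kop_add]
      apply kop_congr
      ext z
      ring
    have e2 : (1 - top (t * d)) * kop hg = kop (smul_ik t hgd) + kop heg := by
      rw [one_sub_top_kop, ← kop_add]
      apply kop_congr
      ext z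
      ring
    have e3 : kop (smul_ik t hfd) * kop hg - kop hf * kop (smul_ik t hgd) =
        kop hf * kop heg - kop hef * kop hg := by
      have e4 : kop (smul_ik t hfd) = (1 - top (t * d)) * kop hf - kop hef := by rw [e1]; ring
      have e5 : kop (smul_ik t hgd) = (1 - top (t * d)) * kop hg - kop heg := by rw [e2]; ring
      rw [e4, e5]; ring
    have e6 : t • X = (kop hf * kop heg - kop hef * kop hg) • F := by
      have a1 : (kop (smul_ik t hfd) * kop hg) • F = t • ((kop hfd * kop hg) • F) := by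
        rw [mul_smul, mul_smul, kop_smul_c]
      have a2 : (kop hf * kop (smul_ik t hgd)) • F = t • ((kop hf * kop hgd) • F) := by
        rw [mul_comm (kop hf) (kop (smul_ik t hgd)), mul_comm (kop hf) (kop hgd), mul_smul,
          mul_smul, kop_smul_c]
      rw [← e3, hX, sub_smul, sub_smul, smul_sub, a1, a2]
    rw [e6]
    have hp : Good SB := Or.inr rfl
    have h3 := ((kop_bd hp hf).mul (kop_bd hp heg)).sub SB_esn ((kop_bd hp hef).mul (kop_bd hp hg))
    refine (h3 F).trans ?_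
    have h4 := e_bound hrf hmf h1 ht.le
    have h5 := e_bound hrg hmg h2 ht.le
    calc ((∫⁻ w, ‖f w‖ₑ) * (∫⁻ w, ‖g w - g (w - t * d) - t * gd w‖ₑ) +
          (∫⁻ w, ‖f w - f (w - t * d) - t * fd w‖ₑ) * ∫⁻ w, ‖g w‖ₑ) * SB F
        ≤ ((∫⁻ w, ‖f w‖ₑ) * (ENNReal.ofReal t * (B' * (ENNReal.ofReal t * ‖d‖ₑ))) +
          (ENNReal.ofReal t * (B * (ENNReal.ofReal t * ‖d‖ₑ))) * ∫⁻ w, ‖g w‖ₑ) * SB F := by
          gcongr
      _ = _ := by
          rw [hC]
          ring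
  apply Subtype.ext
  ext z
  have h6 : ∀ n : ℕ, ‖X.1 z‖ₑ ≤ ENNReal.ofReal ((1:ℝ) / ((n:ℝ) + 1)) * Cst := by
    intro n
    have ht : (0:ℝ) < 1 / ((n:ℝ) + 1) := by positivity
    have h7 := (le_iSup (fun z => ‖((((1:ℝ) / ((n:ℝ) + 1)) • X : BM)).1 z‖ₑ) z).trans (key _ ht)
    have e7 : ‖((((1:ℝ) / ((n:ℝ) + 1)) • X : BM)).1 z‖ₑ =
        ENNReal.ofReal ((1:ℝ) / ((n:ℝ) + 1)) * ‖X.1 z‖ₑ := by
      change ‖((1:ℝ) / ((n:ℝ) + 1)) * X.1 z‖ₑ = _
      rw [enorm_mul, Real.enorm_of_nonneg ht.le]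
    rw [e7] at h7
    exact (ENNReal.mul_le_mul_iff_right (by simpa using ht) ENNReal.ofReal_ne_top).1 h7
  have h8 : Tendsto (fun n : ℕ => ENNReal.ofReal ((1:ℝ) / ((n:ℝ) + 1)) * Cst) atTop (𝓝 0) := by
    have h9 : Tendsto (fun n : ℕ => ENNReal.ofReal ((1:ℝ) / ((n:ℝ) + 1))) atTop (𝓝 0) := by
      have := ENNReal.tendsto_ofReal tendsto_one_div_add_atTop_nhds_zero_nat
      simpa using this
    have h10 := ENNReal.Tendsto.mul_const h9 (Or.inr hCst.ne)
    rwa [zero_mul] at h10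
  have h11 : ‖X.1 z‖ₑ ≤ 0 := ge_of_tendsto' h8 h6
  have h12 : X.1 z = 0 := by
    rw [nonpos_iff_eq_zero, enorm_eq_zero] at h11
    exact h11
  exact h12

/-! ### Limits -/

lemma limR (N : ℕ) (a : ℕ → CT) (ha : ∀ i, OP SB (a i) 1) (R : CT) {c : ℕ → ℝ≥0∞}
    (hc : Tendsto c atTop (𝓝 0)) (h : ∀ J, OP SB ((1 - a J) ^ (N + 1) * R) (c J)) (F : BM)
    (z : ℂ) : Tendsto (fun J => ((R * Kn N (a J) ^ 2) • F).1 z) atTop (𝓝 ((R • F).1 z)) := by
  rw [tendsto_iff_edist_tendsto_0]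
  have hb : ∀ J, edist (((R * Kn N (a J) ^ 2) • F).1 z) ((R • F).1 z) ≤
      c J * ((1 + cn N) * SB F) := by
    intro J
    have e : (R * (1 - Kn N (a J) ^ 2)) • F = R • F - (R * Kn N (a J) ^ 2) • F := by
      rw [mul_sub, mul_one, sub_smul]
    have h1 := errM SB_esn N (ha J) (h J) F
    rw [e] at h1
    rw [edist_comm, edist_eq_enorm_sub, ← mul_assoc]
    exact (le_iSup (fun z => ‖(R • F - (R * Kn N (a J) ^ 2) • F).1 z‖ₑ) z).trans h1
  have hcn : (1 + cn N) * SB F ≠ ⊤ := by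
    apply (ENNReal.mul_lt_top _ (SB_lt F)).ne
    unfold cn
    exact ENNReal.add_lt_top.2 ⟨by simp, ENNReal.mul_lt_top
      (ENNReal.add_lt_top.2 ⟨by simp, by simp⟩) (ENNReal.pow_lt_top (by simp))⟩
  have h0 : Tendsto (fun J => c J * ((1 + cn N) * SB F)) atTop (𝓝 0) := by
    have h4 := ENNReal.Tendsto.mul_const hc (Or.inr hcn)
    rwa [zero_mul] at h4
  exact tendsto_of_tendsto_of_tendsto_of_le_of_le tendsto_const_nhds h0 (fun _ => zero_le) hb

lemma fatouR (N : ℕ) (a : ℕ → CT) (R : CT) (F : BM)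
    (hlim : ∀ z, Tendsto (fun J => ((R * Kn N (a J) ^ 2) • F).1 z) atTop (𝓝 ((R • F).1 z)))
    {D : ℝ≥0∞} (hD : ∀ J, NB ((R * Kn N (a J) ^ 2) • F) ≤ D) : NB (R • F) ≤ D := by
  calc NB (R • F) = ∫⁻ z, liminf (fun J => ‖((R * Kn N (a J) ^ 2) • F).1 z‖ₑ) atTop := by
        unfold NB
        congr 1
        ext z
        exact ((continuous_enorm.tendsto _).comp (hlim z)).liminf_eq.symm
    _ ≤ liminf (fun J => ∫⁻ z, ‖((R * Kn N (a J) ^ 2) • F).1 z‖ₑ) atTop :=
        lintegral_liminf_le fun J => (_ : BM).2.1.enorm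
    _ ≤ liminf (fun _ : ℕ => D) atTop := liminf_le_liminf (Eventually.of_forall hD)
    _ = D := by simp

section fam

variable {κ : ℕ → ℂ → ℝ} {C : ℝ≥0∞}

/-- The average at the scale `i`. -/
noncomputable def Fam.kp (h : Fam κ C) (i : ℕ) : CT := kop (h.ik i)

lemma Fam.kp_bd {p : BM → ℝ≥0∞} (hp : Good p) (h : Fam κ C) (i : ℕ) : OP p (h.kp i) 1 := by
  have h1 := Dens.kop_bd hp (h.ik i)
  rwa [h.mass i] at h1

lemma Fam.kp_av {p : BM → ℝ≥0∞} (hp : Good p) (h : Fam κ C) (i : ℕ) :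
    Av p ((1 / 2) ^ i) (1 - h.kp i) :=
  avg1 hp (h.ik i) (h.one i) (h.nonneg i) (h.supp i)

lemma Av.mono {p : BM → ℝ≥0∞} {ρ ρ' : ℝ} {A : CT} (h : Av p ρ A) (hρ : ρ ≤ ρ') : Av p ρ' A :=
  fun T c hT => h T c fun w hw => hT w (hw.trans hρ)

lemma Fam.kp_av' {p : BM → ℝ≥0∞} (hp : Good p) (h : Fam κ C) (i : ℕ) :
    Av p ((1 / 2) ^ i) (1 - h.kp (i + 1)) := by
  refine (h.kp_av hp (i + 1)).mono ?_
  rw [pow_succ]
  have : (0:ℝ) < (1 / 2) ^ i := by positivity
  linarith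

lemma half_ofReal (i : ℕ) : ENNReal.ofReal ((1 / 2 : ℝ) ^ i) = 2⁻¹ ^ i := by
  rw [one_div, ENNReal.ofReal_pow (by norm_num), ENNReal.ofReal_inv_of_pos (by norm_num)]
  norm_num

lemma Fam.high {p : BM → ℝ≥0∞} (hp : Good p) (h : Fam κ C) (i : ℕ) {j n : ℕ} {T : CT}
    {B : ℝ≥0∞} (hT : Rg p j n T B) {l : ℕ} (hl : l ≤ n) :
    OP p ((1 - h.kp i) ^ l * (1 - h.kp (i + 1)) ^ (n - l) * T) (B * (2 ^ j * 2⁻¹ ^ i) ^ n) := by
  have h1 := pows_le (h.kp_av hp i) (h.kp_av' hp i) hT hl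
  rwa [half_ofReal] at h1

lemma Fam.low {p : BM → ℝ≥0∞} (hp : Good p) (h : Fam κ C) (i : ℕ) (w : ℂ) (F : BM) :
    p (h.kp i • F - tauB w (h.kp i • F)) ≤ C * (2 ^ i * ‖w‖ₑ) * p F := by
  have h1 := kop_bd hp (diff_ik (h.ik i) w) F
  rw [← one_sub_top_kop, one_sub_top] at h1
  refine h1.trans (mul_le_mul_left ?_ _)
  refine le_trans (le_of_eq ?_) (h.lip i w)
  congr 1
  ext v
  rw [← enorm_neg, neg_sub]

end fam

end H98.Dens

end

section

/-! # Necessity of the Littlewood-Paley criterion -/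

open MeasureTheory Complex Metric Set Filter Topology
open scoped ContDiff ENNReal NNReal Convolution

namespace H98.Dbar

variable {H : ℝ → ℝ}

lemma half_pow_rpow (α : ℝ) (j : ℕ) : ((1 / 2 : ℝ) ^ j) ^ α = ((1 / 2 : ℝ) ^ α) ^ j := by
  rw [← Real.rpow_natCast, ← Real.rpow_mul (by norm_num), mul_comm, Real.rpow_mul (by norm_num),
    Real.rpow_natCast]

lemma geom_sum_le {q : ℝ} (hq0 : 0 ≤ q) (hq1 : q < 1) (J : ℕ) :
    ∑ j ∈ Finset.range J, q ^ j ≤ 1 / (1 - q) := by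
  have h := (summable_geometric_of_lt_one hq0 hq1).sum_le_tsum (Finset.range J)
    (fun i _ => pow_nonneg hq0 i)
  rw [tsum_geometric_of_lt_one hq0 hq1] at h
  rwa [one_div]

lemma geom_min {α : ℝ} (hα : 0 < α) {k : ℕ} (hk : α < k) :
    ∃ C : ℝ, 0 ≤ C ∧ ∀ (J : ℕ) (x : ℝ), 0 ≤ x →
      ∑ j ∈ Finset.range J, ((1 / 2 : ℝ) ^ j) ^ α * min 1 ((2 ^ j * x) ^ k) ≤ C * x ^ α := by
  set q : ℝ := (1 / 2 : ℝ) ^ α with hq
  have hq0 : 0 < q := by rw [hq]; positivity
  have hq1 : q < 1 := Real.rpow_lt_one (by norm_num) (by norm_num) hα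
  set r : ℝ := q * 2 ^ k with hr
  have hr1 : 1 < r := by
    rw [hr, hq, one_div, Real.inv_rpow (by norm_num), ← Real.rpow_neg (by norm_num),
      ← Real.rpow_natCast, ← Real.rpow_add (by norm_num)]
    apply Real.one_lt_rpow (by norm_num)
    linarith
  have h1q : 0 < 1 - q := by linarith
  have hr0 : 0 < r - 1 := by linarith
  refine ⟨2 ^ k / (r - 1) + 1 / (1 - q), by positivity, ?_⟩
  intro J x hx
  have hk0 : k ≠ 0 := by
    rintro rfl
    simp at hk
    linarith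
  simp_rw [half_pow_rpow, ← hq]
  have hterm0 : ∀ j, 0 ≤ q ^ j * min 1 ((2 ^ j * x) ^ k) := fun j => by positivity
  have hterm1 : ∀ j, q ^ j * min 1 ((2 ^ j * x) ^ k) ≤ q ^ j := fun j =>
    mul_le_of_le_one_right (by positivity) (min_le_left _ _)
  rcases hx.eq_or_lt with hx0 | hx0
  · rw [← hx0]
    have : ∑ j ∈ Finset.range J, q ^ j * min 1 (((2:ℝ) ^ j * 0) ^ k) = 0 := by
      apply Finset.sum_eq_zero
      intro j _
      rw [mul_zero, zero_pow hk0]
      simp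
    rw [this]
    positivity
  · by_cases hx1 : x ≤ 1
    · obtain ⟨N, hN1, hN2⟩ := exists_nat_pow_near_of_lt_one hx0 hx1 (y := (1 / 2 : ℝ))
        (by norm_num) (by norm_num)
      have hqN : q ^ (N + 1) ≤ x ^ α := by
        rw [hq, ← half_pow_rpow]
        exact Real.rpow_le_rpow (by positivity) hN1.le hα.le
      have hN3 : (2:ℝ) ^ N * x ≤ 1 := by
        calc (2:ℝ) ^ N * x ≤ 2 ^ N * (1 / 2) ^ N := by gcongr
          _ = 1 := by rw [← mul_pow]; norm_num
      calc ∑ j ∈ Finset.range J, q ^ j * min 1 ((2 ^ j * x) ^ k)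
          ≤ ∑ j ∈ Finset.range ((N + 1) + J), q ^ j * min 1 ((2 ^ j * x) ^ k) := by
            apply Finset.sum_le_sum_of_subset_of_nonneg
            · intro i hi
              simp only [Finset.mem_range] at hi ⊢
              omega
            · intro i _ _; exact hterm0 i
        _ = ∑ j ∈ Finset.range (N + 1), q ^ j * min 1 ((2 ^ j * x) ^ k) +
            ∑ j ∈ Finset.range J, q ^ (N + 1 + j) * min 1 ((2 ^ (N + 1 + j) * x) ^ k) :=
            Finset.sum_range_add _ _ _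
        _ ≤ ∑ j ∈ Finset.range (N + 1), r ^ j * x ^ k +
            ∑ j ∈ Finset.range J, q ^ (N + 1) * q ^ j := by
            apply add_le_add
            · apply Finset.sum_le_sum
              intro j _
              calc q ^ j * min 1 ((2 ^ j * x) ^ k) ≤ q ^ j * ((2 ^ j * x) ^ k) := by
                    gcongr; exact min_le_right _ _
                _ = r ^ j * x ^ k := by
                    rw [hr, mul_pow, mul_pow, ← pow_mul, ← pow_mul, mul_comm j k]; ring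
            · apply Finset.sum_le_sum
              intro j _
              rw [← pow_add]
              exact hterm1 _
        _ ≤ (2 ^ k / (r - 1)) * x ^ α + x ^ α * (1 / (1 - q)) := by
            apply add_le_add
            · rw [← Finset.sum_mul, geom_sum_eq hr1.ne']
              have h5 : r ^ (N + 1) * x ^ k ≤ 2 ^ k * x ^ α := by
                have : r ^ (N + 1) * x ^ k = q ^ (N + 1) * (2 * (2 ^ N * x)) ^ k := by
                  rw [hr, mul_pow, mul_pow, mul_pow, ← pow_mul, ← pow_mul]; ring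
                rw [this]
                calc q ^ (N + 1) * (2 * (2 ^ N * x)) ^ k ≤ x ^ α * (2 * 1) ^ k := by gcongr
                  _ = 2 ^ k * x ^ α := by ring
              rw [div_mul_eq_mul_div, div_mul_eq_mul_div]
              have h6 : 0 ≤ x ^ k := by positivity
              apply div_le_div_of_nonneg_right _ hr0.le
              nlinarith
            · rw [← Finset.mul_sum]
              gcongr
              exact geom_sum_le hq0.le hq1 J
        _ = _ := by ring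
    · have hx1' : 1 ≤ x ^ α := Real.one_le_rpow (not_le.1 hx1).le hα.le
      calc ∑ j ∈ Finset.range J, q ^ j * min 1 ((2 ^ j * x) ^ k)
          ≤ ∑ j ∈ Finset.range J, q ^ j := Finset.sum_le_sum fun j _ => hterm1 j
        _ ≤ 1 / (1 - q) := geom_sum_le hq0.le hq1 J
        _ ≤ (2 ^ k / (r - 1) + 1 / (1 - q)) * 1 := by
            have : 0 ≤ 2 ^ k / (r - 1) := by positivity
            linarith
        _ ≤ _ := by gcongr

/-- Truncated sign function. -/
noncomputable def sg (F : ℂ → ℝ) (R : ℝ) (z : ℂ) : ℂ :=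
  if ‖z‖ ≤ R then (if 0 ≤ F z then 1 else -1) else 0

lemma sg_bm {F : ℂ → ℝ} (hF : Measurable F) (R : ℝ) : Bm (sg F R) 1 where
  meas := by
    unfold sg
    apply Measurable.ite (measurableSet_le measurable_norm measurable_const)
    · exact Measurable.ite (measurableSet_le measurable_const hF) measurable_const measurable_const
    · exact measurable_const
  bd z := by
    unfold sg
    split_ifs <;> simp

lemma sg_supp (F : ℂ → ℝ) (R : ℝ) : HasCompactSupport (sg F R) := by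
  refine HasCompactSupport.of_support_subset_isCompact (isCompact_closedBall (0:ℂ) R) ?_
  intro z hz
  rw [Function.mem_support] at hz
  rw [mem_closedBall, dist_zero_right]
  by_contra h
  apply hz
  unfold sg
  rw [if_neg h]

lemma sg_integrable {F : ℂ → ℝ} (hF : Measurable F) (R : ℝ) : Integrable (sg F R) := by
  have h1 : IntegrableOn (fun _ : ℂ => (1 : ℝ)) (closedBall (0:ℂ) R) :=
    integrableOn_const (measure_closedBall_lt_top.ne)
  rw [← integrable_indicator_iff measurableSet_closedBall] at h1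
  refine h1.mono' (sg_bm hF R).meas.aestronglyMeasurable ?_
  filter_upwards with z
  by_cases hz : z ∈ closedBall (0:ℂ) R
  · rw [indicator_of_mem hz]; exact (sg_bm hF R).bd z
  · rw [indicator_of_notMem hz]
    rw [mem_closedBall, dist_zero_right] at hz
    unfold sg
    rw [if_neg hz]
    simp

lemma mul_sg (F : ℂ → ℝ) (R : ℝ) (z : ℂ) :
    (F z : ℂ) * sg F R z = (((closedBall (0:ℂ) R).indicator (fun z => ‖F z‖) z : ℝ) : ℂ) := by
  by_cases hz : z ∈ closedBall (0:ℂ) R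
  · rw [indicator_of_mem hz]
    rw [mem_closedBall, dist_zero_right] at hz
    unfold sg
    rw [if_pos hz]
    by_cases h0 : 0 ≤ F z
    · rw [if_pos h0, Real.norm_eq_abs, abs_of_nonneg h0]; simp
    · rw [if_neg h0, Real.norm_eq_abs, abs_of_neg (not_le.1 h0)]; simp
  · rw [indicator_of_notMem hz]
    rw [mem_closedBall, dist_zero_right] at hz
    unfold sg
    rw [if_neg hz]
    simp

lemma integral_mul_sg (F : ℂ → ℝ) (R : ℝ) :
    ∫ z, (F z : ℂ) * sg F R z = ((∫ z in closedBall (0:ℂ) R, ‖F z‖ : ℝ) : ℂ) := by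
  simp_rw [mul_sg]
  rw [integral_complex_ofReal, integral_indicator measurableSet_closedBall]

/-- Generalised pairing with the mollified difference. -/
lemma pair_diff' (hH : IsProfile H) {Ω : Set ℂ} (hΩ : MeasurableSet Ω) (j : ℕ) {G : ℂ → ℂ}
    (hG : Integrable G) (hGc : HasCompactSupport G) :
    ∫ z, chi Ω z * (cv (bumpC H (j + 1)) G z - cv (bumpC H j) G z) =
      ∫ z, ((moll H (j + 1) Ω z : ℂ) - (moll H j Ω z : ℂ)) * G z := by
  have hφ : ∀ j, bumpC H j ∈ V := fun j => (bV hH j).2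
  have hi : ∀ j, Integrable (fun z => chi Ω z * cv (bumpC H j) G z) := fun j =>
    integrable_chi_mul hΩ (V_integrable (cv_mem_V (hφ j) hG.locallyIntegrable hGc))
  simp_rw [mul_sub]
  rw [integral_sub (hi _) (hi _), adj (hφ _) (chi_bm hΩ) hG, adj (hφ _) (chi_bm hΩ) hG]
  have en : ∀ j, (fun u => bumpC H j (-u)) = bumpC H j := fun j => by ext u; exact bumpC_neg j u
  rw [en, en]
  have hb : ∀ j, Integrable (fun w => cv (bumpC H j) (chi Ω) w * G w) := by
    intro j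
    refine hG.bdd_mul (c := 1) (cv_contDiff (hφ j) (chi_bm hΩ).locInt).continuous.aestronglyMeasurable
      (Eventually.of_forall fun z => ?_)
    have := cv_bound (V_integrable (hφ j)) (chi_bm hΩ).bd z
    rwa [show (∫ w, ‖bumpC H j w‖) = 1 from (bV_prob hH j).intNorm, one_mul] at this
  rw [← integral_sub (hb _) (hb _)]
  congr 1
  ext z
  rw [moll_eq hΩ, moll_eq hΩ]
  ring

/-- Pairing functional. -/
noncomputable def chiL {Ω : Set ℂ} (hΩ : MeasurableSet Ω) : V →ₗ[ℂ] ℂ where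
  toFun g := ∫ z, chi Ω z * g.1 z
  map_add' f g := by
    rw [← integral_add (integrable_chi_mul hΩ (V_integrable f.2))
      (integrable_chi_mul hΩ (V_integrable g.2))]
    congr 1
    ext z
    have : (f + g).1 z = f.1 z + g.1 z := rfl
    rw [this]; ring
  map_smul' c f := by
    rw [RingHom.id_apply, smul_eq_mul, ← integral_const_mul]
    congr 1
    ext z
    have : (c • f).1 z = c * f.1 z := rfl
    rw [this]; ring

lemma chiL_apply {Ω : Set ℂ} (hΩ : MeasurableSet Ω) (g : V) :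
    chiL hΩ g = ∫ z, chi Ω z * g.1 z := rfl

/-- Difference operator. -/
noncomputable def fdOp (h : ℂ) : Module.End ℂ V := tau (-h) - 1

lemma fdOp_pow (h : ℂ) (k : ℕ) (f : V) : (((fdOp h) ^ k) f).1 = (fwdDiff h)^[k] f.1 := by
  induction k generalizing f with
  | zero => rfl
  | succ k ih =>
    rw [pow_succ, Module.End.mul_apply, ih, Function.iterate_succ_apply]
    congr 1
    ext z
    change f.1 (z - (-h)) - f.1 z = f.1 (z + h) - f.1 z
    rw [sub_neg_eq_add]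

lemma fd_cv {κ G : ℂ → ℂ} (hκ : κ ∈ V) (hG : LocallyIntegrable G) (h : ℂ) :
    fwdDiff h (cv κ G) = cv (fwdDiff h κ) G := by
  ext z
  change cv κ G (z + h) - cv κ G z = _
  rw [cv_swap, cv_swap, cv_swap, ← integral_sub (cv_integrand' hκ hG _) (cv_integrand' hκ hG _)]
  congr 1
  ext w
  change _ = (κ (z - w + h) - κ (z - w)) * G w
  rw [← sub_mul]
  congr 3
  ring

lemma fdk_cv {κ G : ℂ → ℂ} (hκ : κ ∈ V) (hG : LocallyIntegrable G) (h : ℂ) (k : ℕ) :
    (fwdDiff h)^[k] (cv κ G) = cv ((fwdDiff h)^[k] κ) G := by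
  induction k generalizing κ with
  | zero => rfl
  | succ k ih =>
    rw [Function.iterate_succ_apply, Function.iterate_succ_apply, fd_cv hκ hG, ih (fd_mem_V hκ h)]

end H98.Dbar

end

section

/-! # Sufficiency of the Littlewood-Paley criterion, continued -/

open MeasureTheory Complex Metric Set Filter Topology
open scoped ContDiff ENNReal NNReal Convolution

namespace H98.Dbar

variable {H : ℝ → ℝ}

/-- `Φ_j`. -/
noncomputable def Ph (hH : IsProfile H) (j : ℕ) : Module.End ℂ V := cvOp (bV hH j)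

/-- `Q_j = 1 - (1 - Φ_j)^(k+1)`. -/
noncomputable def Qo (hH : IsProfile H) (k j : ℕ) : Module.End ℂ V := 1 - (1 - Ph hH j) ^ (k + 1)

/-- `X_j`. -/
noncomputable def Xo (hH : IsProfile H) (k j : ℕ) : Module.End ℂ V :=
  ∑ i ∈ Finset.range (k + 1), (1 - Ph hH j) ^ i * (1 - Ph hH (j + 1)) ^ (k - i)

/-- `Y_j`. -/
noncomputable def Yo (hH : IsProfile H) (k j : ℕ) : Module.End ℂ V :=
  ∑ i ∈ Finset.range (k + 1), (1 - Ph hH j) ^ i

lemma Ph_comm (hH : IsProfile H) (i j : ℕ) : Commute (Ph hH i) (Ph hH j) := cvOp_comm _ _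

lemma Ph_dOp (hH : IsProfile H) (i : ℕ) : Commute (Ph hH i) dOp := cvOp_dOp _

lemma Qo_eq (hH : IsProfile H) (k j : ℕ) : Qo hH k j = Yo hH k j * Ph hH j :=
  geo (R := Module.End ℂ V) (Ph hH j) k

lemma comm_one_sub_left {R : Type*} [Ring R] {a b : R} (h : Commute a b) :
    Commute (1 - a) b := (Commute.one_left _).sub_left h

lemma Yo_comm {hH : IsProfile H} {k j : ℕ} {T : Module.End ℂ V} (h : ∀ i, Commute (Ph hH i) T) :
    Commute (Yo hH k j) T := by
  unfold Yo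
  apply Commute.sum_left
  intro i _
  exact (comm_one_sub_left (R := Module.End ℂ V) (h j)).pow_left _

lemma Qo_comm {hH : IsProfile H} {k j : ℕ} {T : Module.End ℂ V} (h : ∀ i, Commute (Ph hH i) T) :
    Commute (Qo hH k j) T := by
  unfold Qo
  exact comm_one_sub_left (R := Module.End ℂ V)
    ((comm_one_sub_left (R := Module.End ℂ V) (h j)).pow_left _)

lemma Ph_supN (hH : IsProfile H) (j : ℕ) : OpLe supN (Ph hH j) 1 := by
  have h := cvOp_supN (bV hH j)
  rw [(bV_prob hH j).intNorm] at h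
  exact h

lemma Ph_l1N (hH : IsProfile H) (j : ℕ) : OpLe l1N (Ph hH j) 1 := by
  have h := cvOp_l1N (bV hH j)
  rw [(bV_prob hH j).intNorm] at h
  exact h

lemma OneSub_le {N : Seminorm ℂ V} {T : Module.End ℂ V} (h : OpLe N T 1) : OpLe N (1 - T) 2 := by
  have := (OpLe.one N).sub h
  norm_num at this
  exact this

lemma Yo_le {N : Seminorm ℂ V} (hH : IsProfile H) (k j : ℕ) (h : OpLe N (Ph hH j) 1) :
    OpLe N (Yo hH k j) (2 ^ (k + 1)) := by
  have h1 : OpLe N (Yo hH k j) (∑ i ∈ Finset.range (k + 1), (2:ℝ) ^ i) :=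
    OpLe.sum (k + 1) fun i _ => (OneSub_le h).pow (by norm_num) i
  apply h1.mono
  rw [geom_sum_eq (by norm_num)]
  norm_num

lemma tele_ring {R : Type*} [Ring R] {a b d : R} (hab : Commute a b) (had : Commute a d)
    (hbd : Commute b d) (k : ℕ) :
    (1 - (1 - a) ^ (k + 1)) ^ 2 * d - (1 - (1 - b) ^ (k + 1)) ^ 2 * d =
      (a - b) * (((1 - (1 - a) ^ (k + 1)) + (1 - (1 - b) ^ (k + 1))) * d *
        (∑ i ∈ Finset.range (k + 1), (1 - b) ^ i * (1 - a) ^ (k - i))) := by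
  have h1 := tele hab k
  set X := ∑ i ∈ Finset.range (k + 1), (1 - b) ^ i * (1 - a) ^ (k - i) with hX
  have key : ∀ T : R, Commute a T → Commute b T → Commute X T := by
    intro T ha hb
    rw [hX]
    apply Commute.sum_left
    intro i _
    exact ((comm_one_sub_left hb).pow_left _).mul_left ((comm_one_sub_left ha).pow_left _)
  have key2 : ∀ T : R, Commute a T → Commute (1 - (1 - a) ^ (k + 1)) T := by
    intro T ha
    exact comm_one_sub_left ((comm_one_sub_left ha).pow_left _)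
  have key3 : ∀ T : R, Commute b T → Commute (1 - (1 - b) ^ (k + 1)) T := by
    intro T hb
    exact comm_one_sub_left ((comm_one_sub_left hb).pow_left _)
  have h2 : Commute X (((1 - (1 - a) ^ (k + 1)) + (1 - (1 - b) ^ (k + 1))) * d) := by
    apply Commute.mul_right
    · apply Commute.add_right
      · exact (key2 X (key a (Commute.refl a) hab.symm).symm).symm
      · exact (key3 X (key b hab (Commute.refl b)).symm).symm
    · exact key d had hbd
  rw [← sub_mul, h1, ← h2.eq]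
  simp only [mul_assoc]

/-- (P4): the telescoping identity. -/
lemma tele_op (hH : IsProfile H) (k j : ℕ) :
    (Qo hH k (j + 1)) ^ 2 * dOp - (Qo hH k j) ^ 2 * dOp =
      (Ph hH (j + 1) - Ph hH j) * ((Qo hH k (j + 1) + Qo hH k j) * dOp * Xo hH k j) :=
  tele_ring (R := Module.End ℂ V) (Ph_comm hH (j + 1) j) (Ph_dOp hH (j + 1)) (Ph_dOp hH j) k

lemma supN_sum_le (T : ℕ → V) (n : ℕ) (M : ℝ) (h : ∀ i < n, supN (T i) ≤ M) :
    supN (∑ i ∈ Finset.range n, T i) ≤ n * M := by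
  induction n with
  | zero => simp
  | succ n ih =>
    rw [Finset.sum_range_succ]
    refine (map_add_le_add supN _ _).trans ?_
    have h1 := ih (fun i hi => h i (by omega))
    have h2 := h n (by omega)
    push_cast
    linarith

/-- The bound of `X_j f`. -/
lemma Xo_bound (hH : IsProfile H) {f : V} {k : ℕ} {α B : ℝ} (hα : 0 < α) (hB0 : 0 ≤ B)
    (hB : ∀ h z, ‖(fwdDiff h)^[k] f.1 z‖ ≤ B * ‖h‖ ^ α) (j : ℕ) :
    supN (Xo hH k j f) ≤ (k + 1) * (2 ^ k * (B * (k * (1 / 2 : ℝ) ^ j) ^ α)) := by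
  have hp1 : Prob (bV hH j) ((1 / 2 : ℝ) ^ j) := bV_prob hH j
  have hp2 : Prob (bV hH (j + 1)) ((1 / 2 : ℝ) ^ j) := by
    have := bV_prob hH (j + 1)
    refine ⟨this.intNorm, this.int, fun w hw => this.supp w (lt_of_le_of_lt ?_ hw)⟩
    exact pow_le_pow_of_le_one (by norm_num) (by norm_num) (Nat.le_succ j)
  unfold Xo
  rw [LinearMap.sum_apply]
  have h := supN_sum_le (fun i => ((1 - Ph hH j) ^ i * (1 - Ph hH (j + 1)) ^ (k - i)) f) (k + 1)
    (2 ^ k * (B * (k * (1 / 2 : ℝ) ^ j) ^ α)) (fun i hi =>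
      word_bound hα hB0 (by positivity) hB hp1 hp2 i (by omega))
  refine h.trans (le_of_eq ?_)
  push_cast
  rfl

/-- `Q_j ∂` bound. -/
lemma Qo_dOp_bound (hH : IsProfile H) (k j : ℕ) (g : V) :
    supN (Qo hH k j (dOp g)) ≤ 2 ^ (k + 1) * (2 ^ j * C1 H * supN g) := by
  rw [Qo_eq, Module.End.mul_apply]
  refine (Yo_le hH k j (Ph_supN hH j) _).trans ?_
  gcongr
  exact cvOp_dOp_bound hH j g

lemma Gj_bound (hH : IsProfile H) (k j : ℕ) (g : V) :
    supN (((Qo hH k (j + 1) + Qo hH k j) * dOp) g) ≤ 2 ^ (k + 3) * (2 ^ j * C1 H * supN g) := by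
  rw [Module.End.mul_apply, LinearMap.add_apply]
  refine (map_add_le_add supN _ _).trans ?_
  have h1 := Qo_dOp_bound hH k (j + 1) g
  have h2 := Qo_dOp_bound hH k j g
  have h3 : 0 ≤ 2 ^ j * C1 H * supN g := by
    have := C1_nonneg H
    have := apply_nonneg supN g
    positivity
  calc _ ≤ 2 ^ (k + 1) * (2 ^ (j + 1) * C1 H * supN g) + 2 ^ (k + 1) * (2 ^ j * C1 H * supN g) :=
        add_le_add h1 h2
    _ = 3 * 2 ^ (k + 1) * (2 ^ j * C1 H * supN g) := by ring
    _ ≤ 2 ^ (k + 3) * (2 ^ j * C1 H * supN g) := by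
        apply mul_le_mul_of_nonneg_right _ h3
        rw [show k + 3 = (k + 1) + 2 by ring, pow_add 2 (k + 1) 2]
        have : (0:ℝ) < 2 ^ (k + 1) := by positivity
        nlinarith

/-- (P5): approximation. -/
lemma approx_one (hH : IsProfile H) (g : V) :
    Tendsto (fun J => l1N ((1 - Ph hH J) g)) atTop (𝓝 0) := by
  obtain ⟨L, hL⟩ := ContDiff.lipschitzWith_of_hasCompactSupport g.2.2 g.2.1 (by simp)
  obtain ⟨R, hR⟩ := g.2.2.isCompact.isBounded.subset_closedBall (0 : ℂ)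
  have hR' : ∀ z, R < ‖z‖ → g.1 z = 0 := by
    intro z hz
    apply image_eq_zero_of_notMem_tsupport
    intro h
    have := hR h
    rw [mem_closedBall, dist_zero_right] at this
    linarith
  have hbd : ∀ J, l1N ((1 - Ph hH J) g) ≤
      (L * (1 / 2 : ℝ) ^ J) * volume.real (closedBall (0:ℂ) (R + 1)) := by
    intro J
    have hp := bV_prob hH J
    rw [l1N_apply]
    have h1 : ∀ z, ‖((1 - Ph hH J) g).1 z‖ ≤
        (closedBall (0:ℂ) (R + 1)).indicator (fun _ => L * (1 / 2 : ℝ) ^ J) z := by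
      intro z
      have e : ((1 - Ph hH J) g).1 z = ∫ w, (bV hH J).1 w * ((1 - tau w) g).1 z :=
        one_sub_cvOp_apply hp g z
      rw [e]
      by_cases hz : z ∈ closedBall (0:ℂ) (R + 1)
      · rw [indicator_of_mem hz]
        calc ‖∫ w, (bV hH J).1 w * ((1 - tau w) g).1 z‖
            ≤ ∫ w, ‖(bV hH J).1 w‖ * (L * (1 / 2 : ℝ) ^ J) := by
              apply norm_integral_le_of_norm_le ((V_integrable (bV hH J).2).norm.mul_const _)
              filter_upwards with w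
              rw [norm_mul]
              by_cases hw : ‖w‖ ≤ (1 / 2 : ℝ) ^ J
              · gcongr
                have h2 : ((1 - tau w) g).1 z = g.1 z - g.1 (z - w) := rfl
                rw [h2]
                calc ‖g.1 z - g.1 (z - w)‖ ≤ L * ‖z - (z - w)‖ := hL.norm_sub_le _ _
                  _ = L * ‖w‖ := by congr 2; ring
                  _ ≤ L * (1 / 2 : ℝ) ^ J := by gcongr
              · rw [hp.supp w (not_le.1 hw)]; simp
          _ = L * (1 / 2 : ℝ) ^ J := by rw [integral_mul_const, hp.intNorm, one_mul]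
      · rw [indicator_of_notMem hz]
        have hz' : R + 1 < ‖z‖ := by
          rw [mem_closedBall, dist_zero_right] at hz
          exact not_le.1 hz
        have : ∫ w, (bV hH J).1 w * ((1 - tau w) g).1 z = 0 := by
          rw [← integral_zero ℂ ℂ]
          congr 1
          ext w
          by_cases hw : ‖w‖ ≤ (1 / 2 : ℝ) ^ J
          · have h2 : ((1 - tau w) g).1 z = g.1 z - g.1 (z - w) := rfl
            have h3 : (1 / 2 : ℝ) ^ J ≤ 1 := pow_le_one₀ (by norm_num) (by norm_num)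
            have h4 : R < ‖z - w‖ := by
              have := norm_sub_norm_le z w
              linarith
            rw [h2, hR' z (by linarith), hR' _ h4]
            simp
          · rw [hp.supp w (not_le.1 hw)]; simp
        rw [this]; simp
    calc ∫ z, ‖((1 - Ph hH J) g).1 z‖
        ≤ ∫ z, (closedBall (0:ℂ) (R + 1)).indicator (fun _ => L * (1 / 2 : ℝ) ^ J) z := by
          apply integral_mono (V_integrable ((1 - Ph hH J) g).2).norm _ h1
          rw [integrable_indicator_iff measurableSet_closedBall]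
          exact integrableOn_const (measure_closedBall_lt_top.ne)
      _ = _ := by
          rw [integral_indicator measurableSet_closedBall, setIntegral_const, smul_eq_mul, mul_comm]
  refine squeeze_zero (fun J => apply_nonneg l1N _) hbd ?_
  have h0 : Tendsto (fun J : ℕ => (1 / 2 : ℝ) ^ J) atTop (𝓝 0) :=
    tendsto_pow_atTop_nhds_zero_of_lt_one (by norm_num) (by norm_num)
  have h1 := (h0.const_mul (L : ℝ)).mul_const (volume.real (closedBall (0:ℂ) (R + 1)))
  simpa using h1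

lemma approx_ring {R : Type*} [Ring R] (a : R) (k : ℕ) :
    1 - (1 - (1 - a) ^ (k + 1)) ^ 2 =
      ((1 + (1 - (1 - a) ^ (k + 1))) * (1 - a) ^ k) * (1 - a) := by
  rw [mul_assoc, ← pow_succ]
  generalize (1 - a) ^ (k + 1) = c
  noncomm_ring

lemma approx_S (hH : IsProfile H) (k : ℕ) (g : V) :
    Tendsto (fun J => l1N ((1 - (Qo hH k J) ^ 2 : Module.End ℂ V) g)) atTop (𝓝 0) := by
  have h1 : ∀ J, (1 - (Qo hH k J) ^ 2 : Module.End ℂ V) =
      ((1 + Qo hH k J) * (1 - Ph hH J) ^ k) * (1 - Ph hH J) := fun J =>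
    approx_ring (R := Module.End ℂ V) (Ph hH J) k
  have hQ : ∀ J, OpLe l1N (1 + Qo hH k J) (1 + (1 + 2 ^ (k + 1))) := by
    intro J
    exact (OpLe.one _).add ((OpLe.one _).sub ((OneSub_le (Ph_l1N hH J)).pow (by norm_num) _))
  have hT : ∀ J, OpLe l1N ((1 + Qo hH k J) * (1 - Ph hH J) ^ k)
      ((1 + (1 + 2 ^ (k + 1))) * 2 ^ k) := fun J =>
    (hQ J).mul ((OneSub_le (Ph_l1N hH J)).pow (by norm_num) _) (by positivity)
  refine squeeze_zero (fun J => apply_nonneg l1N _)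
    (g := fun J => ((1 + (1 + 2 ^ (k + 1))) * 2 ^ k) * l1N ((1 - Ph hH J) g)) ?_ ?_
  · intro J
    rw [h1, Module.End.mul_apply]
    exact hT J _
  · simpa using (approx_one hH g).const_mul ((1 + (1 + 2 ^ (k + 1))) * 2 ^ k)

end H98.Dbar

end

section

/-! # Necessity of the Littlewood-Paley criterion: main estimates -/

open MeasureTheory Complex Metric Set Filter Topology
open scoped ContDiff ENNReal NNReal Convolution

namespace H98.Dbar

variable {H : ℝ → ℝ}

lemma sum_smul_le (N : Seminorm ℂ V) (c : ℕ → ℝ) (hc : ∀ j, 0 ≤ c j) (F : ℕ → V) (M : ℕ → ℝ)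
    (hM : ∀ j, N (F j) ≤ M j) (J : ℕ) :
    N (∑ j ∈ Finset.range J, ((c j : ℝ) : ℂ) • F j) ≤ ∑ j ∈ Finset.range J, c j * M j := by
  induction J with
  | zero => simp
  | succ J ih =>
    rw [Finset.sum_range_succ, Finset.sum_range_succ]
    refine (map_add_le_add N _ _).trans (add_le_add ih ?_)
    rw [map_smul_eq_mul, Complex.norm_real, Real.norm_eq_abs, abs_of_nonneg (hc J)]
    exact mul_le_mul_of_nonneg_left (hM J) (hc J)

/-- The real difference. -/
noncomputable def dj (H : ℝ → ℝ) (Ω : Set ℂ) (j : ℕ) (z : ℂ) : ℝ :=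
  moll H (j + 1) Ω z - moll H j Ω z

lemma dj_cont (hH : IsProfile H) {Ω : Set ℂ} (hΩ : MeasurableSet Ω) (j : ℕ) :
    Continuous (dj H Ω j) :=
  (moll_contDiff hH hΩ (j + 1)).continuous.sub (moll_contDiff hH hΩ j).continuous

theorem nec_high (hH : IsProfile H) {α : ℝ} (hα : 0 < α) {k : ℕ} (hk : α < k) {Ω : Set ℂ}
    (hΩ : MeasurableSet Ω) (h : AdmW α k Ω) : ∃ C' : ℝ, 0 ≤ C' ∧ ∀ (J : ℕ) (R : ℝ),
    ∑ j ∈ Finset.range J, (2:ℝ) ^ ((1 - α) * j) * ∫ z in closedBall (0:ℂ) R, ‖dj H Ω j z‖ ≤ C' := by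
  obtain ⟨C, hC0, hC⟩ := h
  obtain ⟨M, hM0, hM⟩ := kerAt_fdk hH k
  obtain ⟨Cg, hCg0, hCg⟩ := geom_min hα hk
  set q : ℝ := (1 / 2 : ℝ) ^ α with hq
  have hq0 : 0 < q := by rw [hq]; positivity
  have hq1 : q < 1 := Real.rpow_lt_one (by norm_num) (by norm_num) hα
  have h1q : 0 < 1 - q := by linarith
  set I0 : ℝ := ∫ z, ‖ker H z‖ with hI0
  have hI00 : 0 ≤ I0 := integral_nonneg fun _ => norm_nonneg _
  have hc : ∀ j : ℕ, (2:ℝ) ^ ((1 - α) * j) * (1 / 2 : ℝ) ^ j = ((1 / 2 : ℝ) ^ j) ^ α := by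
    intro j
    rw [← weight_eq]
    have : (2:ℝ) ^ j * (1 / 2) ^ j = 1 := by rw [← mul_pow]; norm_num
    calc _ = (2 ^ j * (1 / 2) ^ j) * ((1 / 2 : ℝ) ^ j) ^ α := by ring
      _ = _ := by rw [this, one_mul]
  refine ⟨C * (I0 * (1 / (1 - q)) + M * Cg), by positivity, ?_⟩
  intro J R
  have hkV : ∀ j, kerAt H j ∈ V := fun j => ⟨kerAt_contDiff hH j, kerAt_hasCompactSupport hH j⟩
  have hsgl : ∀ j, LocallyIntegrable (sg (dj H Ω j) R) := fun j =>
    (sg_bm (dj_cont hH hΩ j).measurable R).locInt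
  set F : ℕ → V := fun j => ⟨cv (kerAt H j) (sg (dj H Ω j) R),
    cv_mem_V (hkV j) (hsgl j) (sg_supp _ _)⟩ with hF
  set c : ℕ → ℝ := fun j => (2:ℝ) ^ ((1 - α) * j) with hcdef
  have hc0 : ∀ j, 0 ≤ c j := fun j => by rw [hcdef]; positivity
  set f : V := ∑ j ∈ Finset.range J, ((c j : ℝ) : ℂ) • F j with hf
  have hsup : ∀ j, supN (F j) ≤ (1 / 2 : ℝ) ^ j * I0 := by
    intro j
    apply supN_le
    intro z
    have := cv_bound (V_integrable (hkV j)) (sg_bm (dj_cont hH hΩ j).measurable R).bd z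
    rw [mul_one, kerAt_l1] at this
    exact this
  have hA : ∀ z, ‖f.1 z‖ ≤ I0 * (1 / (1 - q)) := by
    intro z
    refine (le_supN f z).trans ?_
    refine (sum_smul_le supN c hc0 F _ hsup J).trans ?_
    calc ∑ j ∈ Finset.range J, c j * ((1 / 2 : ℝ) ^ j * I0)
        = I0 * ∑ j ∈ Finset.range J, q ^ j := by
          rw [Finset.mul_sum]
          apply Finset.sum_congr rfl
          intro j _
          rw [← mul_assoc, hcdef]
          simp only
          rw [hc, half_pow_rpow, mul_comm]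
      _ ≤ I0 * (1 / (1 - q)) := by
          gcongr
          exact geom_sum_le hq0.le hq1 J
  have hB : ∀ h z, ‖(fwdDiff h)^[k] f.1 z‖ ≤ (M * Cg) * ‖h‖ ^ α := by
    intro h z
    rw [← fdOp_pow]
    have e1 : ((fdOp h) ^ k) f = ∑ j ∈ Finset.range J, ((c j : ℝ) : ℂ) • ((fdOp h) ^ k) (F j) := by
      rw [hf, map_sum]
      simp_rw [map_smul]
    refine (le_supN _ z).trans ?_
    rw [e1]
    refine (sum_smul_le supN c hc0 (fun j => ((fdOp h) ^ k) (F j))
      (fun j => (1 / 2 : ℝ) ^ j * (M * min 1 ((2 ^ j * ‖h‖) ^ k))) ?_ J).trans ?_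
    · intro j
      apply supN_le
      intro z
      rw [fdOp_pow]
      have e2 : (fwdDiff h)^[k] (F j).1 = cv ((fwdDiff h)^[k] (kerAt H j)) (sg (dj H Ω j) R) :=
        fdk_cv (hkV j) (hsgl j) h k
      rw [e2]
      have := cv_bound (V_integrable (fdk_mem_V (hkV j) h k))
        (sg_bm (dj_cont hH hΩ j).measurable R).bd z
      rw [mul_one] at this
      exact this.trans (hM j h)
    · calc ∑ j ∈ Finset.range J, c j * ((1 / 2 : ℝ) ^ j * (M * min 1 ((2 ^ j * ‖h‖) ^ k)))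
          = M * ∑ j ∈ Finset.range J, ((1 / 2 : ℝ) ^ j) ^ α * min 1 ((2 ^ j * ‖h‖) ^ k) := by
            rw [Finset.mul_sum]
            apply Finset.sum_congr rfl
            intro j _
            rw [← hc, hcdef]
            ring
        _ ≤ M * (Cg * ‖h‖ ^ α) := by
            gcongr
            exact hCg J ‖h‖ (norm_nonneg h)
        _ = (M * Cg) * ‖h‖ ^ α := by ring
  have hmain := hC f (I0 * (1 / (1 - q))) (M * Cg) (by positivity) (by positivity) hA hB
  have e0 : ∫ z in Ω, dbar f.1 z = chiL hΩ (dOp f) := by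
    rw [chiL_apply]
    exact setIntegral_chi hΩ _
  have e1 : chiL hΩ (dOp f) = ∑ j ∈ Finset.range J, ((c j : ℝ) : ℂ) * chiL hΩ (dOp (F j)) := by
    rw [hf, map_sum, map_sum]
    simp_rw [map_smul, smul_eq_mul]
  have e2 : ∀ j, chiL hΩ (dOp (F j)) = ((∫ z in closedBall (0:ℂ) R, ‖dj H Ω j z‖ : ℝ) : ℂ) := by
    intro j
    rw [chiL_apply]
    have e3 : ∀ z, (dOp (F j)).1 z = cv (bumpC H (j + 1)) (sg (dj H Ω j) R) z -
        cv (bumpC H j) (sg (dj H Ω j) R) z := by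
      intro z
      change dbar (cv (kerAt H j) (sg (dj H Ω j) R)) z = _
      rw [dbar_cv_left (hkV j) (hsgl j)]
      have e4 : dbar (kerAt H j) = fun w => bumpC H (j + 1) w - bumpC H j w := by
        ext w; exact dbar_kerAt hH j w
      rw [e4]
      exact cv_sub_left (bV hH (j + 1)).2 (bV hH j).2 (hsgl j) z
    simp_rw [e3]
    rw [pair_diff' hH hΩ j (sg_integrable (dj_cont hH hΩ j).measurable R) (sg_supp _ _)]
    rw [← integral_mul_sg]
    congr 1
    ext z
    unfold dj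
    push_cast
    rfl
  rw [e0, e1] at hmain
  simp_rw [e2] at hmain
  have e5 : (∑ j ∈ Finset.range J, ((c j : ℝ) : ℂ) *
      ((∫ z in closedBall (0:ℂ) R, ‖dj H Ω j z‖ : ℝ) : ℂ)) =
      ((∑ j ∈ Finset.range J, c j * ∫ z in closedBall (0:ℂ) R, ‖dj H Ω j z‖ : ℝ) : ℂ) := by
    push_cast
    rfl
  rw [e5, Complex.norm_real, Real.norm_eq_abs] at hmain
  exact (le_abs_self _).trans hmain

theorem crit_high (hH : IsProfile H) {α : ℝ} (hα : 0 < α) {k : ℕ} (hk : α < k) {Ω : Set ℂ}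
    (hΩ : MeasurableSet Ω) (h : AdmW α k Ω) :
    (∑' j : ℕ, ENNReal.ofReal ((2:ℝ) ^ ((1 - α) * j)) *
    ∫⁻ z, ‖moll H (j + 1) Ω z - moll H j Ω z‖ₑ) < ⊤ := by
  obtain ⟨C', hC'0, hC'⟩ := nec_high hH hα hk hΩ h
  have key : ∀ J : ℕ, ∑ j ∈ Finset.range J, ENNReal.ofReal ((2:ℝ) ^ ((1 - α) * j)) *
      ∫⁻ z, ‖moll H (j + 1) Ω z - moll H j Ω z‖ₑ ≤ ENNReal.ofReal C' := by
    intro J
    have hlim : Tendsto (fun n : ℕ => ∑ j ∈ Finset.range J, ENNReal.ofReal ((2:ℝ) ^ ((1 - α) * j)) *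
        ∫⁻ z in closedBall (0:ℂ) n, ‖moll H (j + 1) Ω z - moll H j Ω z‖ₑ) atTop
        (𝓝 (∑ j ∈ Finset.range J, ENNReal.ofReal ((2:ℝ) ^ ((1 - α) * j)) *
          ∫⁻ z, ‖moll H (j + 1) Ω z - moll H j Ω z‖ₑ)) := by
      apply tendsto_finsetSum
      intro j _
      apply ENNReal.Tendsto.const_mul
      · exact (aecover_closedBall (μ := volume) (x := (0:ℂ)) tendsto_natCast_atTop_atTop).lintegral_tendsto_of_countably_generated
          ((dj_cont hH hΩ j).measurable.enorm.aemeasurable)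
      · right; exact ENNReal.ofReal_ne_top
    refine le_of_tendsto' hlim ?_
    intro n
    have h1 : ∀ j : ℕ, ENNReal.ofReal ((2:ℝ) ^ ((1 - α) * j)) *
        ∫⁻ z in closedBall (0:ℂ) n, ‖moll H (j + 1) Ω z - moll H j Ω z‖ₑ =
        ENNReal.ofReal ((2:ℝ) ^ ((1 - α) * j) * ∫ z in closedBall (0:ℂ) n, ‖dj H Ω j z‖) := by
      intro j
      rw [ENNReal.ofReal_mul (by positivity)]
      congr 1
      have hint : IntegrableOn (dj H Ω j) (closedBall (0:ℂ) n) :=
        (dj_cont hH hΩ j).continuousOn.integrableOn_compact (isCompact_closedBall _ _)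
      exact (ofReal_integral_norm_eq_lintegral_enorm hint).symm
    simp_rw [h1]
    rw [← ENNReal.ofReal_sum_of_nonneg]
    · exact ENNReal.ofReal_le_ofReal (hC' J n)
    · intro j _
      exact mul_nonneg (by positivity) (integral_nonneg fun _ => norm_nonneg _)
  exact lt_of_le_of_lt (ENNReal.tsum_le_of_sum_range_le key) ENNReal.ofReal_lt_top

end H98.Dbar

end

section

/-!
# The density criterion
-/

open MeasureTheory Metric Set Filter Topology
open scoped ContDiff ENNReal NNReal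
open H98.Dbar (IsProfile moll bumpAt Crit chi Wf)

namespace H98.Dens

section transfer

variable {κ μ : ℕ → ℂ → ℝ} {C D : ℝ≥0∞}

end transfer

/-! ### The two families -/

lemma vol_ball (x : ℂ) {r : ℝ} (hr : 0 ≤ r) : volume (ball x r) = ENNReal.ofReal (Real.pi * r ^ 2) := by
  rw [Complex.volume_ball, mul_comm, ENNReal.ofReal_mul Real.pi_pos.le, ENNReal.ofReal_pow hr]
  congr 1
  rw [← NNReal.coe_real_pi, ENNReal.ofReal_coe_nnreal]

lemma vol_annulus (x : ℂ) {r t : ℝ} (hr : 0 ≤ r) (ht : 0 ≤ t) :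
    volume (ball x (r + t) \ ball x r) = ENNReal.ofReal (Real.pi * (2 * r * t + t ^ 2)) := by
  rw [measure_sdiff (ball_subset_ball (by linarith)) measurableSet_ball.nullMeasurableSet
    (measure_ball_lt_top.ne), vol_ball x (by linarith), vol_ball x hr,
    ← ENNReal.ofReal_sub _ (by positivity)]
  congr 1
  ring

lemma dk_int (j : ℕ) : Integrable (dk j) := by
  unfold dk
  rw [integrable_indicator_iff measurableSet_ball]
  exact integrableOn_const measure_ball_lt_top.ne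

lemma dk_one (j : ℕ) : ∫ w, dk j w = 1 := by
  unfold dk
  have hr : (0:ℝ) < (1 / 2) ^ j := by positivity
  rw [integral_indicator measurableSet_ball, setIntegral_const, measureReal_def, vol_ball 0 hr.le,
    ENNReal.toReal_ofReal (by positivity), smul_eq_mul]
  exact mul_inv_cancel₀ (by positivity)

lemma dk_nonneg (j : ℕ) (w : ℂ) : 0 ≤ dk j w := by
  unfold dk
  apply indicator_nonneg
  intro _ _
  positivity

lemma dk_meas (j : ℕ) : Measurable (dk j) := measurable_const.indicator measurableSet_ball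

lemma dk_lip (j : ℕ) (w : ℂ) : ∫⁻ v, ‖dk j (v - w) - dk j v‖ₑ ≤ 6 * (2 ^ j * ‖w‖ₑ) := by
  set r : ℝ := (1 / 2) ^ j with hr
  have hr0 : 0 < r := by positivity
  have hr2 : (2:ℝ) ^ j = r⁻¹ := by rw [hr, one_div, inv_pow, inv_inv]
  have hgoal : (6:ℝ≥0∞) * (2 ^ j * ‖w‖ₑ) = ENNReal.ofReal (6 * (r⁻¹ * ‖w‖)) := by
    rw [ENNReal.ofReal_mul (by norm_num), ENNReal.ofReal_mul (by positivity), ofReal_norm, ← hr2,
      ENNReal.ofReal_pow (by norm_num)]
    norm_num
  rw [hgoal]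
  rcases le_total ‖w‖ r with hw | hw
  · set t : ℝ := ‖w‖ with ht
    have ht0 : 0 ≤ t := norm_nonneg _
    set c : ℝ := (Real.pi * r ^ 2)⁻¹ with hc
    have hc0 : 0 ≤ c := by positivity
    have hpt : ∀ v, ‖dk j (v - w) - dk j v‖ₑ ≤
        (ball (0:ℂ) (r + t) \ ball 0 r).indicator (fun _ => ENNReal.ofReal c) v +
        (ball w (r + t) \ ball w r).indicator (fun _ => ENNReal.ofReal c) v := by
      intro v
      unfold dk
      by_cases h1 : v ∈ ball (0:ℂ) r
      · by_cases h2 : v - w ∈ ball (0:ℂ) r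
        · rw [indicator_of_mem h1, indicator_of_mem h2, sub_self]
          simp
        · rw [indicator_of_mem h1, indicator_of_notMem h2, zero_sub, enorm_neg]
          have h3 : v ∈ ball w (r + t) \ ball w r := by
            constructor
            · rw [mem_ball, dist_eq_norm]
              rw [mem_ball, dist_zero_right] at h1
              calc ‖v - w‖ ≤ ‖v‖ + ‖w‖ := norm_sub_le _ _
                _ < r + t := by linarith
            · rw [mem_ball, dist_eq_norm]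
              rwa [mem_ball, dist_zero_right] at h2
          rw [indicator_of_mem h3, Real.enorm_of_nonneg hc0]
          exact le_add_self
      · by_cases h2 : v - w ∈ ball (0:ℂ) r
        · rw [indicator_of_notMem h1, indicator_of_mem h2, sub_zero]
          have h3 : v ∈ ball (0:ℂ) (r + t) \ ball 0 r := by
            refine ⟨?_, h1⟩
            rw [mem_ball, dist_zero_right] at h2 ⊢
            calc ‖v‖ = ‖(v - w) + w‖ := by rw [sub_add_cancel]
              _ ≤ ‖v - w‖ + ‖w‖ := norm_add_le _ _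
              _ < r + t := by linarith
          rw [indicator_of_mem h3, Real.enorm_of_nonneg hc0]
          exact le_self_add
        · rw [indicator_of_notMem h1, indicator_of_notMem h2, sub_self]
          simp
    have hm : ∀ x : ℂ, MeasurableSet (ball x (r + t) \ ball x r) := fun x =>
      measurableSet_ball.diff measurableSet_ball
    calc ∫⁻ v, ‖dk j (v - w) - dk j v‖ₑ
        ≤ ∫⁻ v, ((ball (0:ℂ) (r + t) \ ball 0 r).indicator (fun _ => ENNReal.ofReal c) v +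
          (ball w (r + t) \ ball w r).indicator (fun _ => ENNReal.ofReal c) v) :=
          lintegral_mono hpt
      _ = ENNReal.ofReal (2 * (c * (Real.pi * (2 * r * t + t ^ 2)))) := by
          rw [lintegral_add_left (measurable_const.indicator (hm 0)), lintegral_indicator (hm 0),
            lintegral_indicator (hm w), setLIntegral_const, setLIntegral_const,
            vol_annulus _ hr0.le ht0, vol_annulus _ hr0.le ht0, ← ENNReal.ofReal_mul hc0,
            ← ENNReal.ofReal_add (by positivity) (by positivity)]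
          congr 1
          ring
      _ ≤ _ := by
          apply ENNReal.ofReal_le_ofReal
          rw [hc]
          have hpi := Real.pi_pos
          have e : 2 * ((Real.pi * r ^ 2)⁻¹ * (Real.pi * (2 * r * t + t ^ 2))) =
              (4 * r * t + 2 * t ^ 2) / r ^ 2 := by
            field_simp
            ring
          have e2 : 6 * (r⁻¹ * t) = (6 * r * t) / r ^ 2 := by
            field_simp
          rw [e, e2]
          gcongr
          nlinarith
  · calc ∫⁻ v, ‖dk j (v - w) - dk j v‖ₑ ≤ ∫⁻ v, (‖dk j (v - w)‖ₑ + ‖dk j v‖ₑ) := by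
          apply lintegral_mono
          intro v
          exact enorm_sub_le
      _ = 1 + 1 := by
          have hmass : ∫⁻ v, ‖dk j v‖ₑ = 1 := by
            have e : ∀ w, ‖dk j w‖ₑ = ENNReal.ofReal (dk j w) :=
              fun w => Real.enorm_of_nonneg (dk_nonneg j w)
            simp_rw [e]
            rw [← ofReal_integral_eq_lintegral_ofReal (dk_int j)
              (Eventually.of_forall (dk_nonneg j)), dk_one j]
            simp
          rw [lintegral_add_right _ (dk_meas j).enorm, hmass]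
          congr 1
          rw [lintegral_sub_right_eq_self (fun v => ‖dk j v‖ₑ) w, hmass]
      _ ≤ _ := by
          have : (1:ℝ) + 1 ≤ 6 * (r⁻¹ * ‖w‖) := by
            have h1 : 1 ≤ r⁻¹ * ‖w‖ := by
              rw [inv_mul_eq_div, le_div_iff₀ hr0]; linarith
            linarith
          calc (1:ℝ≥0∞) + 1 = ENNReal.ofReal (1 + 1) := by
                rw [ENNReal.ofReal_add (by norm_num) (by norm_num)]; simp
            _ ≤ _ := ENNReal.ofReal_le_ofReal this

lemma bump_fam {H : ℝ → ℝ} (hH : IsProfile H) : ∃ C : ℝ≥0∞, C < ⊤ ∧ Fam (bumpAt H) C := by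
  obtain ⟨L, hL⟩ := ContDiff.lipschitzWith_of_hasCompactSupport
    (H98.Dbar.bump_hasCompactSupport hH) (H98.Dbar.bump_contDiff hH) (by simp)
  refine ⟨ENNReal.ofReal (2 * (Real.pi * 4 * L)), ENNReal.ofReal_lt_top, ?_⟩
  refine ⟨fun j => (H98.Dbar.bumpAt_contDiff hH j).continuous.measurable,
    fun j => (H98.Dbar.bumpAt_contDiff hH j).continuous.integrable_of_hasCompactSupport
      (H98.Dbar.bumpAt_hasCompactSupport hH j), H98.Dbar.integral_bumpAt hH,
    H98.Dbar.bumpAt_nonneg hH, fun j w hw => H98.Dbar.bumpAt_eq_zero hH j hw, ?_⟩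
  intro j w
  set r : ℝ := (1 / 2) ^ j with hr
  have hr0 : 0 < r := by positivity
  have hr2 : (2:ℝ) ^ j = r⁻¹ := by rw [hr, one_div, inv_pow, inv_inv]
  have h4 : (4:ℝ) ^ j = (r ^ 2)⁻¹ := by
    rw [show (4:ℝ) = 2 ^ 2 by norm_num, ← pow_mul, mul_comm, pow_mul, hr2, inv_pow]
  have hlip : ∀ v, ‖bumpAt H j (v - w) - bumpAt H j v‖ ≤ (r ^ 2)⁻¹ * (L * (r⁻¹ * ‖w‖)) := by
    intro v
    unfold bumpAt
    rw [← mul_sub, norm_mul, h4, Real.norm_of_nonneg (by positivity)]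
    gcongr
    have := hL.dist_le_mul (2 ^ j * (v - w)) (2 ^ j * v)
    rw [dist_eq_norm, dist_eq_norm] at this
    refine this.trans (le_of_eq ?_)
    rw [← mul_sub, norm_mul, norm_pow, Complex.norm_ofNat, hr2, sub_sub_cancel_left, norm_neg]
  set c : ℝ := (r ^ 2)⁻¹ * (L * (r⁻¹ * ‖w‖)) with hc
  have hc0 : 0 ≤ c := by positivity
  have hpt : ∀ v, ‖bumpAt H j (v - w) - bumpAt H j v‖ₑ ≤
      (ball (0:ℂ) (2 * r)).indicator (fun _ => ENNReal.ofReal c) v +
      (ball w (2 * r)).indicator (fun _ => ENNReal.ofReal c) v := by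
    intro v
    by_cases h1 : v ∈ ball (0:ℂ) (2 * r)
    · rw [indicator_of_mem h1, ← ofReal_norm]
      exact (ENNReal.ofReal_le_ofReal (hlip v)).trans le_self_add
    · by_cases h2 : v ∈ ball w (2 * r)
      · rw [indicator_of_mem h2, ← ofReal_norm]
        exact (ENNReal.ofReal_le_ofReal (hlip v)).trans le_add_self
      · rw [mem_ball, dist_zero_right] at h1
        rw [mem_ball, dist_eq_norm] at h2
        rw [H98.Dbar.bumpAt_eq_zero hH j (show r < ‖v‖ by linarith),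
          H98.Dbar.bumpAt_eq_zero hH j (show r < ‖v - w‖ by linarith)]
        simp
  calc ∫⁻ v, ‖bumpAt H j (v - w) - bumpAt H j v‖ₑ
      ≤ ∫⁻ v, ((ball (0:ℂ) (2 * r)).indicator (fun _ => ENNReal.ofReal c) v +
        (ball w (2 * r)).indicator (fun _ => ENNReal.ofReal c) v) := lintegral_mono hpt
    _ = ENNReal.ofReal (2 * (c * (Real.pi * (2 * r) ^ 2))) := by
        rw [lintegral_add_left (measurable_const.indicator measurableSet_ball),
          lintegral_indicator measurableSet_ball, lintegral_indicator measurableSet_ball,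
          setLIntegral_const, setLIntegral_const, vol_ball _ (by positivity),
          vol_ball _ (by positivity), ← ENNReal.ofReal_mul hc0,
          ← ENNReal.ofReal_add (by positivity) (by positivity)]
        congr 1
        ring
    _ = ENNReal.ofReal (2 * (Real.pi * 4 * L)) * (2 ^ j * ‖w‖ₑ) := by
        have e : (2:ℝ≥0∞) ^ j * ‖w‖ₑ = ENNReal.ofReal (r⁻¹ * ‖w‖) := by
          rw [ENNReal.ofReal_mul (by positivity), ofReal_norm, ← hr2,
            ENNReal.ofReal_pow (by norm_num)]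
          norm_num
        rw [e, ← ENNReal.ofReal_mul (by positivity)]
        congr 1
        rw [hc]
        field_simp
        ring

/-! ### The indicator -/

/-- The indicator function of a measurable set. -/
noncomputable def ind {Ω : Set ℂ} (hΩ : MeasurableSet Ω) : BM :=
  ⟨Ω.indicator (fun _ => 1), measurable_const.indicator hΩ, 1, fun z => by
    by_cases h : z ∈ Ω <;> simp [h]⟩

lemma cr_moll {H : ℝ → ℝ} {Ω : Set ℂ} (hΩ : MeasurableSet Ω) (j : ℕ) (z : ℂ) :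
    cr (bumpAt H j) (ind hΩ).1 z = moll H j Ω z := by
  unfold cr moll ind
  rw [← integral_indicator hΩ,
    ← integral_sub_left_eq_self (fun w => bumpAt H j w * Ω.indicator (fun _ => (1:ℝ)) (z - w))
      volume z]
  congr 1
  ext w
  rw [sub_sub_cancel]
  by_cases h : w ∈ Ω <;> simp [h]

end H98.Dens

end

section

/-!
# Regularity of kernels
-/

open MeasureTheory Metric Set Filter Topology
open scoped ContDiff ENNReal NNReal

namespace H98.Dens

/-! ### Smooth kernels -/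

/-! ### The kernels `(1 - |z|²)₊ⁿ P` -/

lemma rk_base {P : ℂ → ℝ} (hP : ContDiff ℝ ∞ P) : ∃ B : ℝ≥0∞, B < ⊤ ∧ Rk 1 (wP 0 P) B := by
  have hcf : Continuous (fun z => ‖fderiv ℝ P z‖) := (hP.continuous_fderiv (by simp)).norm
  obtain ⟨L, hL⟩ := (isCompact_closedBall (0:ℂ) 1).exists_bound_of_continuousOn
    hcf.continuousOn
  obtain ⟨M, hM⟩ := (isCompact_closedBall (0:ℂ) 1).exists_bound_of_continuousOn
    hP.continuous.continuousOn
  have hL0 : 0 ≤ L := (norm_nonneg _).trans (hL 0 (by simp))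
  have hM0 : 0 ≤ M := (norm_nonneg _).trans (hM 0 (by simp))
  have hlip : ∀ x ∈ ball (0:ℂ) 1, ∀ y ∈ ball (0:ℂ) 1, ‖P x - P y‖ ≤ L * ‖x - y‖ := by
    intro x hx y hy
    have h1 := Convex.norm_image_sub_le_of_norm_fderiv_le (𝕜 := ℝ) (f := P) (C := L)
      (s := ball (0:ℂ) 1) (fun z _ => (hP.differentiable (by simp)) z)
      (fun z hz => by
        have := hL z (ball_subset_closedBall hz)
        rwa [norm_norm] at this) (convex_ball _ _) hy hx
    exact h1
  refine ⟨ENNReal.ofReal (L * Real.pi) + ENNReal.ofReal (M * Real.pi) * 6,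
    ENNReal.add_lt_top.2 ⟨ENNReal.ofReal_lt_top, ENNReal.mul_lt_top ENNReal.ofReal_lt_top
      (by norm_num)⟩, ?_⟩
  intro w
  change ∫⁻ z, ‖wP 0 P z - wP 0 P (z - w)‖ₑ ≤ _
  have hpt : ∀ z, ‖wP 0 P z - wP 0 P (z - w)‖ₑ ≤
      (ball (0:ℂ) 1).indicator (fun _ => ENNReal.ofReal (L * ‖w‖)) z +
        ENNReal.ofReal (M * Real.pi) * ‖dk 0 (z - w) - dk 0 z‖ₑ := by
    intro z
    have hdk : ∀ v, v ∈ ball (0:ℂ) 1 → dk 0 v = Real.pi⁻¹ := by
      intro v hv
      unfold dk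
      rw [pow_zero, indicator_of_mem hv]
      simp
    have hdk' : ∀ v, v ∉ ball (0:ℂ) 1 → dk 0 v = 0 := by
      intro v hv
      unfold dk
      rw [pow_zero, indicator_of_notMem hv]
    have hin : ∀ v, v ∈ ball (0:ℂ) 1 → wP 0 P v = P v := by
      intro v hv
      rw [mem_ball, dist_zero_right] at hv
      rw [wP_in hv, pow_zero, one_mul]
    have hout : ∀ v, v ∉ ball (0:ℂ) 1 → wP 0 P v = 0 := by
      intro v hv
      rw [mem_ball, dist_zero_right, not_lt] at hv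
      exact wP_out hv
    have hpi : ENNReal.ofReal (M * Real.pi) * ‖Real.pi⁻¹‖ₑ = ENNReal.ofReal M := by
      rw [Real.enorm_of_nonneg (by positivity), ← ENNReal.ofReal_mul (by positivity)]
      congr 1
      field_simp
    by_cases h1 : z ∈ ball (0:ℂ) 1
    · by_cases h2 : z - w ∈ ball (0:ℂ) 1
      · rw [hin z h1, hin _ h2, indicator_of_mem h1]
        refine le_trans ?_ le_self_add
        rw [← ofReal_norm]
        apply ENNReal.ofReal_le_ofReal
        have h3 := hlip z h1 (z - w) h2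
        rwa [sub_sub_cancel] at h3
      · rw [hin z h1, hout _ h2, hdk z h1, hdk' _ h2, sub_zero, zero_sub, enorm_neg, hpi]
        refine le_trans ?_ le_add_self
        rw [← ofReal_norm]
        exact ENNReal.ofReal_le_ofReal (hM z (ball_subset_closedBall h1))
    · by_cases h2 : z - w ∈ ball (0:ℂ) 1
      · rw [hout z h1, hin _ h2, hdk' z h1, hdk _ h2, sub_zero, zero_sub, enorm_neg, hpi]
        refine le_trans ?_ le_add_self
        rw [← ofReal_norm]
        exact ENNReal.ofReal_le_ofReal (hM _ (ball_subset_closedBall h2))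
      · rw [hout z h1, hout _ h2, sub_zero, enorm_zero]
        exact zero_le
  have hmd : Measurable (fun z => ‖dk 0 (z - w) - dk 0 z‖ₑ) :=
    (((dk_meas 0).comp (measurable_id.sub_const w)).sub (dk_meas 0)).enorm
  calc ∫⁻ z, ‖wP 0 P z - wP 0 P (z - w)‖ₑ
      ≤ ∫⁻ z, ((ball (0:ℂ) 1).indicator (fun _ => ENNReal.ofReal (L * ‖w‖)) z +
        ENNReal.ofReal (M * Real.pi) * ‖dk 0 (z - w) - dk 0 z‖ₑ) := lintegral_mono hpt
    _ = ENNReal.ofReal (L * ‖w‖) * volume (ball (0:ℂ) 1) +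
        ENNReal.ofReal (M * Real.pi) * ∫⁻ z, ‖dk 0 (z - w) - dk 0 z‖ₑ := by
        rw [lintegral_add_left (measurable_const.indicator measurableSet_ball),
          lintegral_indicator measurableSet_ball, setLIntegral_const, lintegral_const_mul _ hmd]
    _ ≤ ENNReal.ofReal (L * ‖w‖) * ENNReal.ofReal (Real.pi * 1 ^ 2) +
        ENNReal.ofReal (M * Real.pi) * (6 * (2 ^ 0 * ‖w‖ₑ)) := by
        rw [vol_ball 0 zero_le_one]
        gcongr
        exact dk_lip 0 w
    _ = _ := by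
        rw [ENNReal.ofReal_mul hL0, ofReal_norm, ENNReal.ofReal_mul hL0]
        simp
        ring

lemma rk_wP (n : ℕ) : ∀ {P : ℂ → ℝ}, ContDiff ℝ ∞ P →
    ∃ B : ℝ≥0∞, B < ⊤ ∧ Rk (n + 1) (wP n P) B := by
  induction n with
  | zero => intro P hP; exact rk_base hP
  | succ n ih =>
    intro P hP
    obtain ⟨B, hB, h1⟩ := ih (Px_smooth (n := n) hP)
    obtain ⟨B', hB', h2⟩ := ih (Py_smooth (n := n) hP)
    exact ⟨B + B', ENNReal.add_lt_top.2 ⟨hB, hB'⟩, rk_step (wP_rep n hP)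
      (wP_mb (Px_smooth hP).continuous) (wP_mb (Py_smooth hP).continuous) h1 h2⟩

lemma rk_wP1 (n : ℕ) {P : ℂ → ℝ} (hP : ContDiff ℝ ∞ P) :
    ∃ B : ℝ≥0∞, B < ⊤ ∧ Rk 1 (wP n P) B := by
  rcases n with _ | n
  · exact rk_base hP
  · have h1 : Rk 0 (wP n (Px n P)) (∫⁻ z, ‖wP n (Px n P) z‖ₑ) := le_refl _
    have h2 : Rk 0 (wP n (Py n P)) (∫⁻ z, ‖wP n (Py n P) z‖ₑ) := le_refl _
    exact ⟨_, ENNReal.add_lt_top.2 ⟨(wP_ik (Px_smooth hP).continuous).int.2,
      (wP_ik (Py_smooth hP).continuous).int.2⟩, rk_step (wP_rep n hP)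
      (wP_mb (Px_smooth hP).continuous) (wP_mb (Py_smooth hP).continuous) h1 h2⟩

end H98.Dens

end

section

/-!
# The moment criterion
-/

open MeasureTheory Metric Set Filter Topology
open scoped ContDiff ENNReal NNReal
open H98.Dbar (IsProfile moll bumpAt Crit chi Wf bump)

namespace H98.Dens

lemma cn_lt (N : ℕ) : cn N < ⊤ := by
  unfold cn
  exact ENNReal.mul_lt_top (ENNReal.add_lt_top.2 ⟨by simp, by simp⟩) (ENNReal.pow_lt_top (by simp))

/-- Summation. -/
lemma sum_up {β : ℝ} {s t : ℕ} (h0 : β < s) (h2 : -t < β) {x y u : ℕ → ℝ≥0∞}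
    (hu : ∑' j, wb β j * u j < ⊤) {K : ℝ≥0∞} (hK : K < ⊤)
    (hx : ∀ j, x j ≤ u j + ∑' i, K * decM s t i j * y i) (hy : ∑' i, wb β i * y i < ⊤) :
    ∑' j, wb β j * x j < ⊤ := by
  obtain ⟨S, hS, hschur⟩ := schurM h0 h2
  calc ∑' j, wb β j * x j
      ≤ ∑' j, (wb β j * u j + ∑' i, K * y i * (wb β j * decM s t i j)) := by
        apply ENNReal.tsum_le_tsum
        intro j
        refine (mul_le_mul_right (hx j) _).trans (le_of_eq ?_)
        rw [mul_add, ← ENNReal.tsum_mul_left]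
        congr 1
        congr 1
        ext i
        ring
    _ = ∑' j, wb β j * u j + ∑' i, K * y i * ∑' j, wb β j * decM s t i j := by
        rw [ENNReal.tsum_add, ENNReal.tsum_comm]
        congr 1
        congr 1
        ext i
        rw [ENNReal.tsum_mul_left]
    _ ≤ ∑' j, wb β j * u j + ∑' i, K * S * (wb β i * y i) := by
        apply add_le_add le_rfl
        apply ENNReal.tsum_le_tsum
        intro i
        refine (mul_le_mul_right (hschur i) _).trans (le_of_eq ?_)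
        ring
    _ = ∑' j, wb β j * u j + K * S * ∑' i, wb β i * y i := by rw [ENNReal.tsum_mul_left]
    _ < ⊤ := ENNReal.add_lt_top.2 ⟨hu, ENNReal.mul_lt_top (ENNReal.mul_lt_top hK hS) hy⟩

lemma wb_geo {β : ℝ} (hβ : β < 0) : ∑' j, wb β j < ⊤ := by
  have e : ∀ j, wb β j = ENNReal.ofReal (((2:ℝ) ^ (-(-β))) ^ j) := by
    intro j
    unfold wb
    rw [← Real.rpow_natCast, ← Real.rpow_mul (by norm_num)]
    congr 2
    ring
  simp_rw [e]
  exact geom_fin (by positivity) (rpow_lt_one' (by linarith))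

lemma wb_half (β : ℝ) (j : ℕ) : wb β j * 2⁻¹ ^ j = wb (β - 1) j := by
  unfold wb
  have h2 : (2⁻¹ : ℝ≥0∞) ^ j = ENNReal.ofReal ((2:ℝ) ^ (-(j:ℝ))) := by
    rw [Real.rpow_neg (by norm_num), Real.rpow_natCast, ← inv_pow,
      ENNReal.ofReal_pow (by norm_num), ENNReal.ofReal_inv_of_pos (by norm_num)]
    norm_num
  rw [h2, ← ENNReal.ofReal_mul (by positivity), ← Real.rpow_add (by norm_num)]
  congr 2; ring

lemma wb_two (β : ℝ) (j : ℕ) : wb β j * 2 ^ j = wb (β + 1) j := by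
  unfold wb
  have h2 : (2 : ℝ≥0∞) ^ j = ENNReal.ofReal ((2:ℝ) ^ (j:ℝ)) := by
    rw [Real.rpow_natCast, ENNReal.ofReal_pow (by norm_num)]
    norm_num
  rw [h2, ← ENNReal.ofReal_mul (by positivity), ← Real.rpow_add (by norm_num)]
  congr 2; ring

lemma wb_succ (β : ℝ) (j : ℕ) : wb β j = ENNReal.ofReal ((2:ℝ) ^ (-β)) * wb β (j + 1) := by
  unfold wb
  rw [← ENNReal.ofReal_mul (by positivity), ← Real.rpow_add (by norm_num)]
  congr 2; push_cast; ring

lemma integral_sc (j : ℕ) (f : ℂ → ℝ) : ∫ w, sc j f w = ∫ w, f w := by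
  unfold sc
  rw [integral_const_mul, H98.Dbar.integral_comp_two_pow_mul f j, smul_eq_mul, ← mul_assoc,
    mul_inv_cancel₀ (by positivity), one_mul]

lemma sc_supp {j : ℕ} {f : ℂ → ℝ} (h : ∀ w, 1 ≤ ‖w‖ → f w = 0) {w : ℂ}
    (hw : (1 / 2 : ℝ) ^ j < ‖w‖) : sc j f w = 0 := by
  unfold sc
  rw [h, mul_zero]
  rw [norm_mul, norm_pow, Complex.norm_ofNat]
  have h2 : (0:ℝ) < 2 ^ j := by positivity
  have h3 : (2:ℝ) ^ j * (1 / 2) ^ j = 1 := by rw [← mul_pow]; norm_num
  have h4 := mul_lt_mul_of_pos_left hw h2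
  linarith

lemma line_l1 {fx fy : ℂ → ℝ} (hx : Measurable fx) (hy : Measurable fy) (c1 c2 : ℝ) (h : ℂ) :
    ∫⁻ z, ‖∫ t in (0:ℝ)..1, (c1 * fx (z - t * h) + c2 * fy (z - t * h))‖ₑ ≤
      ‖c1‖ₑ * (∫⁻ z, ‖fx z‖ₑ) + ‖c2‖ₑ * ∫⁻ z, ‖fy z‖ₑ := by
  have hl : Measurable (fun p : ℂ × ℝ => p.1 - (p.2:ℂ) * h) := by fun_prop
  have hm : Measurable (fun p : ℂ × ℝ =>
      ‖c1‖ₑ * ‖fx (p.1 - p.2 * h)‖ₑ + ‖c2‖ₑ * ‖fy (p.1 - p.2 * h)‖ₑ) :=
    ((hx.comp hl).enorm.const_mul _).add ((hy.comp hl).enorm.const_mul _)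
  calc ∫⁻ z, ‖∫ t in (0:ℝ)..1, (c1 * fx (z - t * h) + c2 * fy (z - t * h))‖ₑ
      ≤ ∫⁻ z, ∫⁻ t in Ioc (0:ℝ) 1,
          (‖c1‖ₑ * ‖fx (z - t * h)‖ₑ + ‖c2‖ₑ * ‖fy (z - t * h)‖ₑ) := by
        apply lintegral_mono
        intro z
        simp only
        rw [intervalIntegral.integral_of_le zero_le_one]
        refine (enorm_integral_le_lintegral_enorm _).trans (lintegral_mono fun t => ?_)
        refine (enorm_add_le _ _).trans (le_of_eq ?_)
        rw [enorm_mul, enorm_mul]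
    _ = ∫⁻ t in Ioc (0:ℝ) 1, ∫⁻ z,
          (‖c1‖ₑ * ‖fx (z - t * h)‖ₑ + ‖c2‖ₑ * ‖fy (z - t * h)‖ₑ) := by
        rw [lintegral_lintegral_swap]
        exact hm.aemeasurable
    _ = ∫⁻ _ in Ioc (0:ℝ) 1, (‖c1‖ₑ * (∫⁻ z, ‖fx z‖ₑ) + ‖c2‖ₑ * ∫⁻ z, ‖fy z‖ₑ) := by
        congr 1
        ext t
        have hm1 : Measurable (fun z : ℂ => ‖fx (z - t * h)‖ₑ) :=
          (hx.comp (measurable_id.sub_const _)).enorm
        have hm2 : Measurable (fun z : ℂ => ‖fy (z - t * h)‖ₑ) :=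
          (hy.comp (measurable_id.sub_const _)).enorm
        rw [lintegral_add_left (hm1.const_mul _), lintegral_const_mul _ hm1,
          lintegral_const_mul _ hm2,
          lintegral_sub_right_eq_self (fun z => ‖fx z‖ₑ) ((t:ℂ) * h),
          lintegral_sub_right_eq_self (fun z => ‖fy z‖ₑ) ((t:ℂ) * h)]
    _ = _ := by
        rw [setLIntegral_const]
        simp

variable {H : ℝ → ℝ}

/-- The lowest scale. -/
lemma low_grad (hH : IsProfile H) {C : ℝ≥0∞} (hF : Fam (bumpAt H) C) {Ω : Set ℂ}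
    (hΩ : MeasurableSet Ω) (w : ℂ) :
    NB (hF.kp 0 • ind hΩ - tauB w (hF.kp 0 • ind hΩ)) ≤
      (2 * ∫⁻ z, ‖fderiv ℝ (moll H 0 Ω) z‖ₑ) * ‖w‖ₑ := by
  have hs : ContDiff ℝ ∞ (moll H 0 Ω) := H98.Dbar.moll_contDiff hH hΩ 0
  have e : NB (hF.kp 0 • ind hΩ - tauB w (hF.kp 0 • ind hΩ)) =
      ∫⁻ z, ‖moll H 0 Ω z - moll H 0 Ω (z - w)‖ₑ := by
    unfold NB
    congr 1
    ext z
    rw [← cr_moll hΩ, ← cr_moll hΩ]
    rfl
  rw [e]
  have hrep := smooth_rep hs
  simp_rw [fun z => hrep z w]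
  have hm1 : Measurable (fun z => fderiv ℝ (moll H 0 Ω) z 1) :=
    (fd_smooth hs 1).continuous.measurable
  have hm2 : Measurable (fun z => fderiv ℝ (moll H 0 Ω) z Complex.I) :=
    (fd_smooth hs Complex.I).continuous.measurable
  refine (line_l1 hm1 hm2 w.re w.im w).trans ?_
  have h1 : ∫⁻ z, ‖fderiv ℝ (moll H 0 Ω) z 1‖ₑ ≤ ∫⁻ z, ‖fderiv ℝ (moll H 0 Ω) z‖ₑ := by
    apply lintegral_mono
    intro z
    have := (fderiv ℝ (moll H 0 Ω) z).le_opNorm 1
    rw [norm_one, mul_one] at this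
    change ‖fderiv ℝ (moll H 0 Ω) z 1‖ₑ ≤ ‖fderiv ℝ (moll H 0 Ω) z‖ₑ
    rw [← ofReal_norm, ← ofReal_norm]
    exact ENNReal.ofReal_le_ofReal this
  have h2 : ∫⁻ z, ‖fderiv ℝ (moll H 0 Ω) z Complex.I‖ₑ ≤ ∫⁻ z, ‖fderiv ℝ (moll H 0 Ω) z‖ₑ := by
    apply lintegral_mono
    intro z
    have := (fderiv ℝ (moll H 0 Ω) z).le_opNorm Complex.I
    rw [Complex.norm_I, mul_one] at this
    change ‖fderiv ℝ (moll H 0 Ω) z Complex.I‖ₑ ≤ ‖fderiv ℝ (moll H 0 Ω) z‖ₑ
    rw [← ofReal_norm, ← ofReal_norm]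
    exact ENNReal.ofReal_le_ofReal this
  have h3 : ‖w.re‖ₑ ≤ ‖w‖ₑ := by
    rw [← ofReal_norm, ← ofReal_norm]
    exact ENNReal.ofReal_le_ofReal (Complex.abs_re_le_norm w)
  have h4 : ‖w.im‖ₑ ≤ ‖w‖ₑ := by
    rw [← ofReal_norm, ← ofReal_norm]
    exact ENNReal.ofReal_le_ofReal (Complex.abs_im_le_norm w)
  calc ‖w.re‖ₑ * (∫⁻ z, ‖fderiv ℝ (moll H 0 Ω) z 1‖ₑ) +
        ‖w.im‖ₑ * ∫⁻ z, ‖fderiv ℝ (moll H 0 Ω) z Complex.I‖ₑ
      ≤ ‖w‖ₑ * (∫⁻ z, ‖fderiv ℝ (moll H 0 Ω) z‖ₑ) + ‖w‖ₑ * ∫⁻ z, ‖fderiv ℝ (moll H 0 Ω) z‖ₑ := by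
        gcongr
    _ = _ := by ring

/-- The kernel of a moment. -/
noncomputable def mop (j : ℕ) {f : ℂ → ℝ} (hf : Ik f) : CT := kop (sc_ik j hf)

/-- Necessity: mean zero kernels of regularity `n + 1`. -/
theorem nec_mom (hH : IsProfile H) {α : ℝ} (h0 : 0 < α) {n : ℕ} (hn : α < n + 2) {Ω : Set ℂ}
    (hΩ : MeasurableSet Ω) (hcrit : Crit H α Ω) {X : ℂ → ℝ} (hX : Ik X) {B : ℝ≥0∞} (hB : B < ⊤)
    (hR : Rk (n + 1) X B) (hX0 : ∫ w, X w = 0) (hXs : ∀ w, 1 ≤ ‖w‖ → X w = 0) :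
    ∑' j, wb (1 - α) j * NB (mop j hX • ind hΩ) < ⊤ := by
  obtain ⟨C, hC, hF⟩ := bump_fam hH
  set M : ℝ≥0∞ := ∫⁻ w, ‖X w‖ₑ with hM
  have hMt : M < ⊤ := hX.int.2
  set G : ℝ≥0∞ := 2 * ∫⁻ z, ‖fderiv ℝ (moll H 0 Ω) z‖ₑ with hG
  have hGt : G < ⊤ := ENNReal.mul_lt_top (by norm_num) hcrit.1
  set C' : ℝ≥0∞ := B + M * C with hC'
  have hC't : C' < ⊤ := ENNReal.add_lt_top.2 ⟨hB, ENNReal.mul_lt_top hMt hC⟩
  set N : ℕ := n + 1 with hN
  have hsupp : ∀ j w, (1 / 2 : ℝ) ^ j < ‖w‖ → sc j X w = 0 := fun j w hw => sc_supp hXs hw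
  have hzero : ∀ j, ∫ w, sc j X w = 0 := fun j => by rw [integral_sc, hX0]
  have hmass : ∀ j, ∫⁻ w, ‖sc j X w‖ₑ = M := fun j => lintegral_sc j hX.meas
  have hle : ∀ {j : ℕ} {w : ℂ}, ‖w‖ ≤ (1 / 2) ^ j → ‖w‖ₑ ≤ 2⁻¹ ^ j := by
    intro j w hw
    rw [← half_ofReal, ← ofReal_norm]
    exact ENNReal.ofReal_le_ofReal hw
  have hhigh : ∀ {p : BM → ℝ≥0∞}, Good p → ∀ j i, ∀ l ≤ N,
      OP p ((1 - hF.kp i) ^ l * (1 - hF.kp (i + 1)) ^ (N - l) * mop j hX)
        (B * (2 ^ j * 2⁻¹ ^ i) ^ N) := by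
    intro p hp j i l hl
    exact hF.high hp i (rg_of_rk hp j hX hR) hl
  have hlow : ∀ j i, OP NB (mop j hX * hF.kp i) (C' * (2 ^ i * 2⁻¹ ^ j) ^ 1) := by
    intro j i x
    rw [mul_smul, pow_one]
    have h1 := avg0 (Or.inl rfl) (sc_ik j hX) (hzero j) (hsupp j) (hF.kp i • x)
      (D := C * (2 ^ i * 2⁻¹ ^ j) * NB x) (fun w hw => by
        refine (hF.low (Or.inl rfl) i w x).trans ?_
        gcongr
        exact hle hw)
    rw [hmass] at h1
    refine h1.trans ?_
    rw [← mul_assoc, ← mul_assoc]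
    gcongr
    exact le_add_self
  have hone : ∀ j, NB (mop j hX • ind hΩ) ≤ cn N ^ 2 * (M * G) * 2⁻¹ ^ j +
      ∑' i, (4 * C' * cn N ^ 2) * decM 1 N i j * NB ((hF.kp (i + 1) - hF.kp i) • ind hΩ) := by
    intro j
    apply fatouR N hF.kp (mop j hX) (ind hΩ)
    · apply limR N hF.kp (fun i => hF.kp_bd (Or.inr rfl) i) (mop j hX)
        (c := fun J => 2 * B * 2 ^ (j * N) * 2⁻¹ ^ (J * N))
      · have h3 : Tendsto (fun J : ℕ => (2⁻¹ : ℝ≥0∞) ^ (J * N)) atTop (𝓝 0) := by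
          have h4 : Tendsto (fun J : ℕ => (2⁻¹ : ℝ≥0∞) ^ J) atTop (𝓝 0) :=
            ENNReal.tendsto_pow_atTop_nhds_zero_of_lt_one (by rw [ENNReal.inv_lt_one]; norm_num)
          have h5 : Tendsto (fun J : ℕ => J * N) atTop atTop :=
            tendsto_id.atTop_mul_const' (by omega)
          exact h4.comp h5
        have h6 : 2 * B * 2 ^ (j * N) ≠ ⊤ :=
          (ENNReal.mul_lt_top (ENNReal.mul_lt_top (by norm_num) hB)
            (ENNReal.pow_lt_top (by norm_num))).ne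
        have h7 := ENNReal.Tendsto.const_mul h3 (Or.inr h6)
        rwa [mul_zero] at h7
      · intro J
        have h8 := hhigh (Or.inr rfl) j J N le_rfl
        rw [Nat.sub_self, pow_zero, mul_one] at h8
        have h9 := (one_sub_bd SB_esn (hF.kp_bd (Or.inr rfl) J)).mul h8
        rw [← mul_assoc, ← pow_succ'] at h9
        refine h9.mono (le_of_eq ?_)
        rw [mul_pow, ← pow_mul, ← pow_mul]
        ring
    · intro J
      have h1 := compareR NB_esn hF.kp (fun i => hF.kp_bd (Or.inl rfl) i) N j 1 (R := mop j hX)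
        (C := C') (fun i l hl => (hhigh (Or.inl rfl) j i l hl).mono
          (mul_le_mul_left le_self_add _)) (hlow j) (ind hΩ) J
      refine h1.trans (add_le_add ?_ ?_)
      · rw [mul_assoc]
        gcongr
        rw [mul_smul]
        have h2 := avg0 (Or.inl rfl) (sc_ik j hX) (hzero j) (hsupp j) (hF.kp 0 • ind hΩ)
          (D := G * 2⁻¹ ^ j) (fun w hw => by
            refine (low_grad hH hF hΩ w).trans ?_
            gcongr
            exact hle hw)
        rw [hmass] at h2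
        refine h2.trans (le_of_eq ?_)
        ring
      · refine le_trans (le_of_eq ?_) (ENNReal.sum_le_tsum (Finset.range J))
        apply Finset.sum_congr rfl
        intro i _
        norm_num
  refine sum_up (s := 1) (t := N) (by push_cast; linarith) (by rw [hN]; push_cast; linarith)
    (u := fun j => cn N ^ 2 * (M * G) * 2⁻¹ ^ j) ?_
    (K := 4 * C' * cn N ^ 2) ?_ hone ?_
  · have e : ∀ j, wb (1 - α) j * (cn N ^ 2 * (M * G) * 2⁻¹ ^ j) =
        cn N ^ 2 * (M * G) * wb (-α) j := by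
      intro j
      have : wb (-α) j = wb (1 - α) j * 2⁻¹ ^ j := by rw [wb_half]; congr 1; ring
      rw [this]; ring
    simp_rw [e]
    rw [ENNReal.tsum_mul_left]
    exact ENNReal.mul_lt_top (ENNReal.mul_lt_top (ENNReal.pow_lt_top (cn_lt N))
      (ENNReal.mul_lt_top hMt hGt)) (wb_geo (by linarith))
  · exact ENNReal.mul_lt_top (ENNReal.mul_lt_top (by norm_num) hC't) (ENNReal.pow_lt_top (cn_lt N))
  · have e : ∀ i, NB ((hF.kp (i + 1) - hF.kp i) • ind hΩ) =
        ∫⁻ z, ‖moll H (i + 1) Ω z - moll H i Ω z‖ₑ := by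
      intro i
      unfold NB
      congr 1
      ext z
      rw [← cr_moll hΩ, ← cr_moll hΩ]
      rfl
    simp_rw [e]
    exact hcrit.2

end H98.Dens

end

section

/-!
# The moment criterion: sufficiency
-/

open MeasureTheory Metric Set Filter Topology
open scoped ContDiff ENNReal NNReal
open H98.Dbar (IsProfile moll bumpAt Crit chi Wf bump)

namespace H98.Dens

/-! ### The averaging kernel -/

lemma wP_hcs {n : ℕ} {P : ℂ → ℝ} : HasCompactSupport (wP n P) := by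
  apply HasCompactSupport.intro (isCompact_closedBall (0:ℂ) 1)
  intro z hz
  rw [mem_closedBall, dist_zero_right, not_le] at hz
  exact wP_out hz.le

lemma w1_nonneg (n : ℕ) (z : ℂ) : 0 ≤ wP (n + 1) (fun _ => 1) z := by
  by_cases hz : ‖z‖ < 1
  · rw [wP_in hz, mul_one]
    have : 0 ≤ 1 - ‖z‖ ^ 2 := by nlinarith [norm_nonneg z]
    positivity
  · rw [wP_out (not_lt.1 hz)]

lemma w1_pos (n : ℕ) : 0 < ∫ z, wP (n + 1) (fun _ => (1:ℝ)) z := by
  apply (wP_cont continuous_const).integral_pos_of_hasCompactSupport_nonneg_nonzero (x := 0)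
    wP_hcs (w1_nonneg n)
  rw [wP_in (by simp)]
  simp

/-- The constant. -/
noncomputable def cw (n : ℕ) : ℝ := (∫ z, wP (n + 1) (fun _ => (1:ℝ)) z)⁻¹

/-- The kernel. -/
noncomputable def qk (n : ℕ) (z : ℂ) : ℝ := cw n * wP (n + 1) (fun _ => 1) z

lemma cw_pos (n : ℕ) : 0 < cw n := inv_pos.2 (w1_pos n)

lemma qk_ik (n : ℕ) : Ik (qk n) := smul_ik _ (wP_ik continuous_const)

lemma q_fam (n : ℕ) : ∃ C : ℝ≥0∞, C < ⊤ ∧ Fam (fun j => sc j (qk n)) C := by
  obtain ⟨B, hB, h1⟩ := rk_wP1 (n + 1) (P := fun _ => (1:ℝ)) contDiff_const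
  have h2 := Rk.smul 1 (wP_ik continuous_const).meas h1 (cw n)
  refine ⟨‖cw n‖ₑ * B, ENNReal.mul_lt_top enorm_lt_top hB, ?_⟩
  refine ⟨fun j => (sc_ik j (qk_ik n)).meas, fun j => (sc_ik j (qk_ik n)).int, ?_, ?_, ?_, ?_⟩
  · intro j
    rw [integral_sc]
    unfold qk
    rw [integral_const_mul]
    exact inv_mul_cancel₀ (w1_pos n).ne'
  · intro j w
    unfold sc qk
    have h3 := (cw_pos n).le
    have h4 := w1_nonneg n (2 ^ j * w)
    positivity
  · intro j w hw
    apply sc_supp _ hw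
    intro v hv
    unfold qk
    rw [wP_out hv, mul_zero]
  · intro j w
    have h4 : ∫⁻ z, ‖sc j (qk n) z - sc j (qk n) (z - w)‖ₑ ≤
        ‖cw n‖ₑ * B * (2 ^ j) ^ 1 * ‖w‖ₑ := rk_sc 1 j (qk_ik n).meas h2 w
    calc ∫⁻ v, ‖sc j (qk n) (v - w) - sc j (qk n) v‖ₑ
        = ∫⁻ z, ‖sc j (qk n) z - sc j (qk n) (z - w)‖ₑ := by
          congr 1
          ext v
          rw [← enorm_neg, neg_sub]
      _ ≤ _ := h4
      _ = _ := by ring

/-- The derivative of the averaging kernel. -/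
noncomputable def gk (n : ℕ) (x : ℂ → ℝ) (w : ℂ) : ℝ := -(2 * (n + 1) * cw n) * wP n x w

lemma wP_congr_mul {n : ℕ} {P Q : ℂ → ℝ} {c : ℝ} (h : ∀ z, P z = c * Q z) (z : ℂ) :
    wP n P z = c * wP n Q z := by
  by_cases hz : ‖z‖ < 1
  · rw [wP_in hz, wP_in hz, h z]; ring
  · rw [wP_out (not_lt.1 hz), wP_out (not_lt.1 hz), mul_zero]

lemma q_one (n : ℕ) : RepD (qk n) (gk n fun w => w.re) 1 := by
  have h := ((wP_rep n (P := fun _ => (1:ℝ)) contDiff_const).one).smul (cw n)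
  have e : (fun w => cw n * wP n (Px n fun _ => 1) w) = gk n fun w => w.re := by
    ext w
    rw [wP_congr_mul (P := Px n fun _ => 1) (Q := fun w => w.re) (c := -(2 * (n + 1)))]
    · unfold gk; ring
    · intro z
      unfold Px
      simp
  rw [e] at h
  exact h

lemma q_I (n : ℕ) : RepD (qk n) (gk n fun w => w.im) Complex.I := by
  have h := ((wP_rep n (P := fun _ => (1:ℝ)) contDiff_const).I).smul (cw n)
  have e : (fun w => cw n * wP n (Py n fun _ => 1) w) = gk n fun w => w.im := by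
    ext w
    rw [wP_congr_mul (P := Py n fun _ => 1) (Q := fun w => w.im) (c := -(2 * (n + 1)))]
    · unfold gk; ring
    · intro z
      unfold Py
      simp
  rw [e] at h
  exact h

lemma Mb.smul {f : ℂ → ℝ} (h : Mb f) (c : ℝ) : Mb (fun w => c * f w) := by
  obtain ⟨hm, M, hM⟩ := h
  refine ⟨hm.const_mul c, ‖c‖ * M, fun z => ?_⟩
  rw [norm_mul]
  exact mul_le_mul_of_nonneg_left (hM z) (norm_nonneg c)

lemma Mb.sc {f : ℂ → ℝ} (h : Mb f) (j : ℕ) : Mb (sc j f) := by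
  obtain ⟨hm, M, hM⟩ := h
  refine ⟨(hm.comp (measurable_const_mul _)).const_mul _, ‖(4:ℝ) ^ j‖ * M, fun z => ?_⟩
  unfold Dens.sc
  rw [norm_mul]
  exact mul_le_mul_of_nonneg_left (hM _) (norm_nonneg _)

lemma NB_smul (c : ℝ) (F : BM) : NB (c • F) = ‖c‖ₑ * NB F := by
  unfold NB
  rw [← lintegral_const_mul _ F.2.1.enorm]
  congr 1
  ext z
  exact enorm_mul c (F.1 z)

/-! ### The derivative of a mollification -/

lemma cr_eq_conv (κ F : ℂ → ℝ) :
    cr κ F = MeasureTheory.convolution κ F (ContinuousLinearMap.mul ℝ ℝ) volume := by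
  ext z
  rw [MeasureTheory.convolution_def]
  rfl

lemma fderiv_cr {κ F : ℂ → ℝ} (hκ : ContDiff ℝ ∞ κ) (hc : HasCompactSupport κ)
    (hF : LocallyIntegrable F) (z v : ℂ) :
    fderiv ℝ (cr κ F) z v = ∫ w, fderiv ℝ κ w v * F (z - w) := by
  have hκ1 : ContDiff ℝ 1 κ := hκ.of_le (by simp)
  have h1 := hc.hasFDerivAt_convolution_left (ContinuousLinearMap.mul ℝ ℝ) hκ1 hF z
  rw [← cr_eq_conv] at h1
  rw [h1.fderiv, MeasureTheory.convolution_def]
  rw [ContinuousLinearMap.integral_apply]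
  · rfl
  · have h2 := (hc.fderiv ℝ).convolutionExists_left ((ContinuousLinearMap.mul ℝ ℝ).precompL ℂ)
      (hκ1.continuous_fderiv (by simp)) hF z
    exact h2

lemma bm_locInt (F : BM) : LocallyIntegrable F.1 := by
  obtain ⟨f, hm, M, hM⟩ := F
  intro x
  refine ⟨ball x 1, ball_mem_nhds x one_pos, ?_⟩
  exact Measure.integrableOn_of_bounded measure_ball_lt_top.ne hm.aestronglyMeasurable
    (Eventually.of_forall hM)

variable {H : ℝ → ℝ}

/-- The kernel of the derivative. -/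
noncomputable def bd (H : ℝ → ℝ) (d : ℂ) (j : ℕ) (w : ℂ) : ℝ := 2 ^ j * fderiv ℝ (bump H) w d

lemma fderiv_bumpAt (hH : IsProfile H) (j : ℕ) (w d : ℂ) :
    fderiv ℝ (bumpAt H j) w d = sc j (bd H d j) w := by
  have h1 : HasFDerivAt (fun z : ℂ => (2:ℂ) ^ j * z) (((2:ℂ) ^ j) • (ContinuousLinearMap.id ℝ ℂ))
      w := (hasFDerivAt_id w).const_mul _
  have h2 := (((H98.Dbar.bump_contDiff hH).differentiable (by simp))
    ((2:ℂ) ^ j * w)).hasFDerivAt.comp w h1
  have h3 := h2.const_mul ((4:ℝ) ^ j)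
  have h4 : fderiv ℝ (bumpAt H j) w = _ := h3.fderiv
  rw [h4]
  unfold sc bd
  have e : (2:ℂ) ^ j * d = (2:ℝ) ^ j • d := by
    rw [Complex.real_smul]; push_cast; rfl
  change (4:ℝ) ^ j * (fderiv ℝ (bump H) ((2:ℂ) ^ j * w)) ((2:ℂ) ^ j * d) = _
  rw [e, map_smul, smul_eq_mul]

lemma bd_ik (hH : IsProfile H) (d : ℂ) (j : ℕ) : Ik (bd H d j) :=
  smul_ik _ (smooth_ik (fd_smooth (H98.Dbar.bump_contDiff hH) d).continuous
    (fd_supp (H98.Dbar.bump_hasCompactSupport hH) d))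

lemma bump_ik (hH : IsProfile H) : Ik (bump H) :=
  smooth_ik (H98.Dbar.bump_contDiff hH).continuous (H98.Dbar.bump_hasCompactSupport hH)

lemma fderiv_moll_dir (hH : IsProfile H) {Ω : Set ℂ} (hΩ : MeasurableSet Ω) (j : ℕ) (z d : ℂ) :
    fderiv ℝ (moll H j Ω) z d = (mop j (bd_ik hH d j) • ind hΩ).1 z := by
  have e : moll H j Ω = cr (bumpAt H j) (ind hΩ).1 := by
    ext z
    exact (cr_moll hΩ j z).symm
  rw [e, fderiv_cr (H98.Dbar.bumpAt_contDiff hH j) (H98.Dbar.bumpAt_hasCompactSupport hH j)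
    (bm_locInt _)]
  simp_rw [fderiv_bumpAt hH]
  rfl

/-! ### Sufficiency -/

lemma tendsto_half_pow {N : ℕ} (hN : 0 < N) :
    Tendsto (fun J : ℕ => (2⁻¹ : ℝ≥0∞) ^ (J * N)) atTop (𝓝 0) := by
  have h4 : Tendsto (fun J : ℕ => (2⁻¹ : ℝ≥0∞) ^ J) atTop (𝓝 0) :=
    ENNReal.tendsto_pow_atTop_nhds_zero_of_lt_one (by rw [ENNReal.inv_lt_one]; norm_num)
  have h5 : Tendsto (fun J : ℕ => J * N) atTop atTop :=
    tendsto_id.atTop_mul_const' hN
  exact h4.comp h5

theorem suf_one (hH : IsProfile H) {α : ℝ} {n : ℕ} (h0 : 0 < α) (hn : α < n + 2) {Ω : Set ℂ}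
    (hΩ : MeasurableSet Ω) {d : ℂ} {x : ℂ → ℝ} (hx : ContDiff ℝ ∞ x)
    (hq : RepD (qk n) (gk n x) d) (hb : RepD (bump H) (fun z => fderiv ℝ (bump H) z d) d)
    (hsum : ∑' j, wb (1 - α) j * NB (mop j (wP_ik (n := n) hx.continuous) • ind hΩ) < ⊤) :
    ∑' j, wb (-α) j * ∫⁻ z, ‖fderiv ℝ (moll H j Ω) z d‖ₑ < ⊤ := by
  obtain ⟨C, hC, hF⟩ := q_fam n
  set N : ℕ := n + 2 with hN
  have hbs := H98.Dbar.bump_contDiff hH
  have hbc := H98.Dbar.bump_hasCompactSupport hH
  have hds := fd_smooth hbs d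
  have hdc := fd_supp hbc d
  obtain ⟨Bb, hBb, hRb⟩ := rk_smooth N hbs hbc
  obtain ⟨Bd, hBd, hRd⟩ := rk_smooth (N + 1) hds hdc
  obtain ⟨B1, hB1, hR1⟩ := rk_smooth 1 hds hdc
  obtain ⟨B2, hB2, hR2⟩ := rk_wP1 n hx
  have hgi : Ik (gk n x) := smul_ik _ (wP_ik hx.continuous)
  have hgm : Mb (gk n x) := (wP_mb hx.continuous).smul _
  have hR2' : Rk 1 (gk n x) (‖-(2 * ((n:ℝ) + 1) * cw n)‖ₑ * B2) :=
    Rk.smul 1 (wP_ik hx.continuous).meas hR2 _
  have hdm : Mb (fun z => fderiv ℝ (bump H) z d) := smooth_mb hds.continuous hdc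
  have hdi : Ik (fun z => fderiv ℝ (bump H) z d) := smooth_ik hds.continuous hdc
  -- the relation
  set e : ℕ → CT := fun i => mop i (smul_ik (2 ^ i) hgi) with he
  have hrel : ∀ j i, mop j (bd_ik hH d j) * hF.kp i = mop j (bump_ik hH) * e i := by
    intro j i
    have hp2 : ∀ m : ℕ, ((2:ℝ≥0∞) ^ m) ^ 1 < ⊤ := fun m =>
      ENNReal.pow_lt_top (ENNReal.pow_lt_top (by norm_num))
    exact rel (sc_ik j (bump_ik hH)) (sc_ik j (bd_ik hH d j)) (hF.ik i)
      (sc_ik i (smul_ik (2 ^ i) hgi)) (hb.sc j) (hq.sc i) ((hdm.smul (2 ^ j)).sc j)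
      ((hgm.smul (2 ^ i)).sc i)
      (ENNReal.mul_lt_top (ENNReal.mul_lt_top enorm_lt_top hB1) (hp2 j))
      (ENNReal.mul_lt_top (ENNReal.mul_lt_top enorm_lt_top
        (ENNReal.mul_lt_top enorm_lt_top hB2)) (hp2 i))
      (rk_sc 1 j (bd_ik hH d j).meas (Rk.smul 1 hdi.meas hR1 (2 ^ j)))
      (rk_sc 1 i (smul_ik (2 ^ i) hgi).meas (Rk.smul 1 hgi.meas hR2' (2 ^ i)))
  set M : ℝ≥0∞ := ∫⁻ w, ‖bump H w‖ₑ with hM
  have hMt : M < ⊤ := (bump_ik hH).int.2
  set C' : ℝ≥0∞ := Bb + M with hC'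
  have hC't : C' < ⊤ := ENNReal.add_lt_top.2 ⟨hBb, hMt⟩
  set y : ℕ → ℝ≥0∞ := fun i => NB (e i • ind hΩ) with hy
  have hone : ∀ j, NB (mop j (bd_ik hH d j) • ind hΩ) ≤ C' * cn N ^ 2 * y 0 +
      ∑' i, (2 * C' * cn N ^ 2) * decM 0 N i j * (y (i + 1) + y i) := by
    intro j
    apply fatouR N hF.kp (mop j (bd_ik hH d j)) (ind hΩ)
    · have hRd' : Rk (N + 1) (bd H d j) (‖(2:ℝ) ^ j‖ₑ * Bd) := Rk.smul (N + 1) hdi.meas hRd _
      apply limR N hF.kp (fun i => hF.kp_bd (Or.inr rfl) i) (mop j (bd_ik hH d j))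
        (c := fun J => (‖(2:ℝ) ^ j‖ₑ * Bd) * 2 ^ (j * (N + 1)) * 2⁻¹ ^ (J * (N + 1)))
      · have h6 : (‖(2:ℝ) ^ j‖ₑ * Bd) * 2 ^ (j * (N + 1)) ≠ ⊤ :=
          (ENNReal.mul_lt_top (ENNReal.mul_lt_top enorm_lt_top hBd)
            (ENNReal.pow_lt_top (by norm_num))).ne
        have h7 := ENNReal.Tendsto.const_mul (tendsto_half_pow (N := N + 1) (by omega))
          (Or.inr h6)
        rwa [mul_zero] at h7
      · intro J
        have h8 := hF.high (Or.inr rfl) J (rg_of_rk (Or.inr rfl) j (bd_ik hH d j) hRd') le_rfl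
        rw [Nat.sub_self, pow_zero, mul_one] at h8
        refine h8.mono (le_of_eq ?_)
        rw [mul_pow, ← pow_mul, ← pow_mul]
        ring
    · intro J
      have h1 := compareD NB_esn hF.kp e (fun i => hF.kp_bd (Or.inl rfl) i) N j
        (d := mop j (bd_ik hH d j)) (b := mop j (bump_ik hH)) (C := C') (hrel j)
        (fun i l hl => (hF.high (Or.inl rfl) i (rg_of_rk (Or.inl rfl) j (bump_ik hH) hRb) hl).mono
          (mul_le_mul_left le_self_add _))
        ((kop_bd (Or.inl rfl) (sc_ik j (bump_ik hH))).mono (by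
          rw [lintegral_sc j (bump_ik hH).meas]
          exact le_add_self)) (ind hΩ) J
      refine h1.trans (add_le_add le_rfl ?_)
      exact ENNReal.sum_le_tsum (Finset.range J)
  -- the sums
  have hey : ∀ i, y i = ‖-(2 * ((n:ℝ) + 1) * cw n)‖ₑ *
      (2 ^ i * NB (mop i (wP_ik (n := n) hx.continuous) • ind hΩ)) := by
    intro i
    have e1 : e i • ind hΩ = ((2:ℝ) ^ i * -(2 * ((n:ℝ) + 1) * cw n)) •
        (mop i (wP_ik (n := n) hx.continuous) • ind hΩ) := by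
      apply Subtype.ext
      ext z
      change cr (sc i (fun w => 2 ^ i * gk n x w)) (ind hΩ).1 z =
        ((2:ℝ) ^ i * -(2 * ((n:ℝ) + 1) * cw n)) * cr (sc i (wP n x)) (ind hΩ).1 z
      unfold cr
      rw [← integral_const_mul]
      congr 1
      ext w
      unfold sc gk
      ring
    rw [hy]
    simp only
    rw [e1, NB_smul, enorm_mul]
    have h2 : ‖(2:ℝ) ^ i‖ₑ = 2 ^ i := by
      rw [enorm_pow, Real.enorm_of_nonneg (by norm_num)]
      norm_num
    rw [h2]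
    ring
  have hys : ∑' i, wb (-α) i * y i < ⊤ := by
    have e2 : ∀ i, wb (-α) i * y i = ‖-(2 * ((n:ℝ) + 1) * cw n)‖ₑ *
        (wb (1 - α) i * NB (mop i (wP_ik (n := n) hx.continuous) • ind hΩ)) := by
      intro i
      have h3 : wb (1 - α) i = wb (-α) i * 2 ^ i := by rw [wb_two]; congr 1; ring
      rw [hey, h3]; ring
    simp_rw [e2]
    rw [ENNReal.tsum_mul_left]
    exact ENNReal.mul_lt_top enorm_lt_top hsum
  have hy0 : y 0 < ⊤ := by
    have h3 : wb (-α) 0 * y 0 < ⊤ := lt_of_le_of_lt (ENNReal.le_tsum 0) hys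
    have h4 : wb (-α) 0 = 1 := by unfold wb; simp
    rwa [h4, one_mul] at h3
  have hys' : ∑' i, wb (-α) i * (y (i + 1) + y i) < ⊤ := by
    simp_rw [mul_add]
    rw [ENNReal.tsum_add]
    apply ENNReal.add_lt_top.2 ⟨?_, hys⟩
    have e3 : ∀ i, wb (-α) i * y (i + 1) =
        ENNReal.ofReal ((2:ℝ) ^ (-(-α))) * (wb (-α) (i + 1) * y (i + 1)) := by
      intro i
      rw [wb_succ, mul_assoc]
    simp_rw [e3]
    rw [ENNReal.tsum_mul_left]
    apply ENNReal.mul_lt_top ENNReal.ofReal_lt_top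
    exact lt_of_le_of_lt (ENNReal.tsum_comp_le_tsum_of_injective (add_left_injective 1)
      (fun i => wb (-α) i * y i)) hys
  have hfin := sum_up (β := -α) (s := 0) (t := N) (by push_cast; linarith)
    (by rw [hN]; push_cast; linarith)
    (x := fun j => NB (mop j (bd_ik hH d j) • ind hΩ))
    (u := fun _ => C' * cn N ^ 2 * y 0) (y := fun i => y (i + 1) + y i) ?_
    (K := 2 * C' * cn N ^ 2) ?_ hone hys'
  · refine lt_of_le_of_lt (le_of_eq ?_) hfin
    congr 1
    ext j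
    congr 1
    unfold NB
    congr 1
    ext z
    rw [fderiv_moll_dir hH hΩ]
  · rw [ENNReal.tsum_mul_right]
    exact ENNReal.mul_lt_top (wb_geo (by linarith)) (ENNReal.mul_lt_top (ENNReal.mul_lt_top hC't
      (ENNReal.pow_lt_top (cn_lt N))) hy0)
  · exact ENNReal.mul_lt_top (ENNReal.mul_lt_top (by norm_num) hC't) (ENNReal.pow_lt_top (cn_lt N))

end H98.Dens

end

section

/-! # The criterion implies finite local fractional perimeter when `α < 1` -/

open MeasureTheory Complex Metric Set Filter Topology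
open scoped ContDiff ENNReal NNReal Convolution

namespace H98.Dbar

variable {H : ℝ → ℝ}

lemma moll_ae_tendsto (hH : IsProfile H) {Ω : Set ℂ} (hΩ : MeasurableSet Ω) :
    ∀ᵐ z, Tendsto (fun J => ‖chi Ω z - (moll H J Ω z : ℂ)‖) atTop (𝓝 0) := by
  obtain ⟨C, hC0, hC⟩ := bump_bound hH
  have h1 := IsUnifLocDoublingMeasure.ae_tendsto_average_norm_sub (μ := (volume : Measure ℂ))
    (chi_bm hΩ).locInt 1
  filter_upwards [h1] with z hz
  have h2 := hz (l := atTop) (fun _ : ℕ => z) (fun j : ℕ => (1 / 2 : ℝ) ^ j)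
    (by
      rw [tendsto_nhdsWithin_iff]
      refine ⟨tendsto_pow_atTop_nhds_zero_of_lt_one (by norm_num) (by norm_num), ?_⟩
      exact Eventually.of_forall fun j => by simp)
    (Eventually.of_forall fun j => by simp)
  have h3 : Tendsto (fun j : ℕ => C * Real.pi *
      ⨍ y in closedBall z ((1 / 2 : ℝ) ^ j), ‖chi Ω y - chi Ω z‖) atTop (𝓝 0) := by
    simpa using h2.const_mul (C * Real.pi)
  refine squeeze_zero (fun _ => norm_nonneg _) ?_ h3
  intro J
  have hφ : bumpC H J ∈ V := (bV hH J).2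
  have e1 : (moll H J Ω z : ℂ) - chi Ω z = ∫ w, bumpC H J (z - w) * (chi Ω w - chi Ω z) := by
    simp_rw [mul_sub]
    rw [integral_sub (cv_integrand' hφ (chi_bm hΩ).locInt z) (((V_integrable hφ).comp_sub_left z).mul_const _),
      integral_mul_const, integral_sub_left_eq_self (fun w => bumpC H J w) volume z,
      show (∫ w, bumpC H J w) = 1 from (bV_prob hH J).int, one_mul, moll_eq hΩ, cv_swap]
  rw [← norm_neg, neg_sub, e1]
  set r : ℝ := (1 / 2 : ℝ) ^ J with hr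
  have hr0 : 0 < r := by rw [hr]; positivity
  have hmeas : Measurable (fun w => ‖chi Ω w - chi Ω z‖) :=
    ((chi_meas hΩ).sub measurable_const).norm
  have hint : IntegrableOn (fun w => C * 4 ^ J * ‖chi Ω w - chi Ω z‖) (closedBall z r) := by
    apply Integrable.const_mul
    apply Measure.integrableOn_of_bounded (M := 2) measure_closedBall_lt_top.ne
      hmeas.aestronglyMeasurable
    filter_upwards with w
    rw [norm_norm]
    calc ‖chi Ω w - chi Ω z‖ ≤ ‖chi Ω w‖ + ‖chi Ω z‖ := norm_sub_le _ _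
      _ ≤ 1 + 1 := add_le_add ((chi_bm hΩ).bd _) ((chi_bm hΩ).bd _)
      _ = 2 := by norm_num
  calc ‖∫ w, bumpC H J (z - w) * (chi Ω w - chi Ω z)‖
      ≤ ∫ w, (closedBall z r).indicator (fun w => C * 4 ^ J * ‖chi Ω w - chi Ω z‖) w := by
        apply norm_integral_le_of_norm_le
        · rw [integrable_indicator_iff measurableSet_closedBall]
          exact hint
        · filter_upwards with w
          by_cases hw : w ∈ closedBall z r
          · rw [indicator_of_mem hw, norm_mul]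
            gcongr
            unfold bumpC
            rw [Complex.norm_real, Real.norm_eq_abs, abs_of_nonneg (bumpAt_nonneg hH _ _)]
            unfold bumpAt
            rw [mul_comm]
            gcongr
            exact hC _
          · rw [indicator_of_notMem hw]
            have : bumpAt H J (z - w) = 0 := by
              apply bumpAt_eq_zero hH
              rw [mem_closedBall, dist_comm, dist_eq_norm, not_le] at hw
              exact hw
            unfold bumpC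
            rw [this]
            simp
    _ = C * 4 ^ J * ∫ w in closedBall z r, ‖chi Ω w - chi Ω z‖ := by
        rw [integral_indicator measurableSet_closedBall, integral_const_mul]
    _ = C * Real.pi * ⨍ y in closedBall z r, ‖chi Ω y - chi Ω z‖ := by
        rw [setAverage_eq, smul_eq_mul, measureReal_def, Complex.volume_closedBall]
        have e2 : (ENNReal.ofReal r ^ 2 * (NNReal.pi : ℝ≥0∞)).toReal = r ^ 2 * Real.pi := by
          rw [ENNReal.toReal_mul, ENNReal.toReal_pow, ENNReal.toReal_ofReal hr0.le]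
          rfl
        rw [e2]
        have e3 : (4:ℝ) ^ J * r ^ 2 = 1 := by
          rw [hr, ← pow_mul, mul_comm J 2, pow_mul, ← mul_pow]; norm_num
        have hpi := Real.pi_pos
        have : (r ^ 2 * Real.pi)⁻¹ = 4 ^ J / Real.pi := by
          rw [inv_eq_iff_eq_inv, inv_div]
          rw [eq_div_iff (by positivity)]
          calc _ = (4 ^ J * r ^ 2) * Real.pi := by ring
            _ = _ := by rw [e3, one_mul]
        rw [this]
        field_simp

/-- `‖χ - χ * φ_j‖₁`. -/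
noncomputable def aj (H : ℝ → ℝ) (Ω : Set ℂ) (j : ℕ) : ℝ≥0∞ :=
  ∫⁻ z, ‖chi Ω z - (moll H j Ω z : ℂ)‖ₑ

lemma aj_le (hH : IsProfile H) {Ω : Set ℂ} (hΩ : MeasurableSet Ω) (j : ℕ) :
    aj H Ω j ≤ ∑' i : ℕ, ∫⁻ z, ‖moll H (j + i + 1) Ω z - moll H (j + i) Ω z‖ₑ := by
  unfold aj
  rw [← lintegral_tsum]
  · apply lintegral_mono_ae
    filter_upwards [moll_ae_tendsto hH hΩ] with z hz
    have tel : ∀ n : ℕ, ‖chi Ω z - (moll H j Ω z : ℂ)‖ₑ ≤ ‖chi Ω z - (moll H (j + n) Ω z : ℂ)‖ₑ +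
        ∑ i ∈ Finset.range n, ‖moll H (j + i + 1) Ω z - moll H (j + i) Ω z‖ₑ := by
      intro n
      induction n with
      | zero => simp
      | succ n ih =>
        refine ih.trans ?_
        rw [Finset.sum_range_succ]
        have e : chi Ω z - (moll H (j + n) Ω z : ℂ) = (chi Ω z - (moll H (j + (n + 1)) Ω z : ℂ)) +
          ((moll H (j + n + 1) Ω z - moll H (j + n) Ω z : ℝ) : ℂ) := by
          push_cast
          rw [show j + (n + 1) = j + n + 1 by ring]
          ring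
        have h2 : ‖chi Ω z - (moll H (j + n) Ω z : ℂ)‖ₑ ≤
            ‖chi Ω z - (moll H (j + (n + 1)) Ω z : ℂ)‖ₑ +
            ‖moll H (j + n + 1) Ω z - moll H (j + n) Ω z‖ₑ := by
          rw [e]
          refine (enorm_add_le _ _).trans ?_
          gcongr
          rw [← ofReal_norm, ← ofReal_norm, Complex.norm_real]
        calc _ ≤ (‖chi Ω z - (moll H (j + (n + 1)) Ω z : ℂ)‖ₑ +
            ‖moll H (j + n + 1) Ω z - moll H (j + n) Ω z‖ₑ) +
            ∑ i ∈ Finset.range n, ‖moll H (j + i + 1) Ω z - moll H (j + i) Ω z‖ₑ := by gcongr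
          _ = _ := by ring
    have hz' : Tendsto (fun n => ‖chi Ω z - (moll H (j + n) Ω z : ℂ)‖ₑ) atTop (𝓝 0) := by
      have h1 : Tendsto (fun n => ‖chi Ω z - (moll H (j + n) Ω z : ℂ)‖) atTop (𝓝 0) := by
        have := hz.comp (tendsto_add_atTop_nat j)
        refine this.congr ?_
        intro n
        simp only [Function.comp_apply]
        rw [add_comm]
      have h2 := ENNReal.tendsto_ofReal h1
      simp only [ENNReal.ofReal_zero] at h2
      refine h2.congr ?_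
      intro n
      exact ofReal_norm _
    have hlim : Tendsto (fun n => ‖chi Ω z - (moll H (j + n) Ω z : ℂ)‖ₑ +
        ∑' i : ℕ, ‖moll H (j + i + 1) Ω z - moll H (j + i) Ω z‖ₑ) atTop
        (𝓝 (0 + ∑' i : ℕ, ‖moll H (j + i + 1) Ω z - moll H (j + i) Ω z‖ₑ)) :=
      hz'.add tendsto_const_nhds
    rw [zero_add] at hlim
    refine ge_of_tendsto' hlim ?_
    intro n
    refine (tel n).trans ?_
    gcongr
    exact ENNReal.sum_le_tsum _
  · intro i
    exact (((moll_contDiff hH hΩ _).continuous.sub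
      (moll_contDiff hH hΩ _).continuous).measurable.enorm).aemeasurable

/-- sign trick -/
lemma sign_trick (hH : IsProfile H) {Ω : Set ℂ} (hΩ : MeasurableSet Ω) (j : ℕ) (z : ℂ) :
    ‖chi Ω z - (moll H j Ω z : ℂ)‖ₑ =
      ∫⁻ h, ENNReal.ofReal (bumpAt H j h) * ‖chi Ω (z - h) - chi Ω z‖ₑ := by
  have hφ : bumpC H j ∈ V := (bV hH j).2
  have e1 : chi Ω z - (moll H j Ω z : ℂ) = ∫ h, bumpC H j h * (chi Ω z - chi Ω (z - h)) := by
    simp_rw [mul_sub]
    rw [integral_sub ((V_integrable hφ).mul_const _) (cv_integrand hφ (chi_bm hΩ).locInt z),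
      integral_mul_const,
      show (∫ w, bumpC H j w) = 1 from (bV_prob hH j).int, one_mul, moll_eq hΩ]
    rfl
  -- choose the sign
  obtain ⟨s, hs, hsig⟩ : ∃ s : ℂ, ‖s‖ = 1 ∧ ∀ h, chi Ω z - chi Ω (z - h) =
      s * ((‖chi Ω (z - h) - chi Ω z‖ : ℝ) : ℂ) := by
    by_cases hz : z ∈ Ω
    · refine ⟨1, by simp, fun h => ?_⟩
      unfold chi
      by_cases h2 : z - h ∈ Ω <;> simp [hz, h2]
    · refine ⟨-1, by simp, fun h => ?_⟩
      unfold chi
      by_cases h2 : z - h ∈ Ω <;> simp [hz, h2]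
  have hmeas : Measurable (fun h => ‖chi Ω (z - h) - chi Ω z‖) :=
    (((chi_meas hΩ).comp (measurable_const.sub measurable_id)).sub measurable_const).norm
  have hint : Integrable (fun h => bumpAt H j h * ‖chi Ω (z - h) - chi Ω z‖) := by
    have h1 : Integrable (bumpAt H j) :=
      (bumpAt_contDiff hH j).continuous.integrable_of_hasCompactSupport (bumpAt_hasCompactSupport hH j)
    refine h1.mul_bdd (c := 2) hmeas.aestronglyMeasurable ?_
    filter_upwards with h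
    rw [norm_norm]
    calc ‖chi Ω (z - h) - chi Ω z‖ ≤ ‖chi Ω (z - h)‖ + ‖chi Ω z‖ := norm_sub_le _ _
      _ ≤ 1 + 1 := add_le_add ((chi_bm hΩ).bd _) ((chi_bm hΩ).bd _)
      _ = 2 := by norm_num
  have e2 : chi Ω z - (moll H j Ω z : ℂ) =
      s * ((∫ h, bumpAt H j h * ‖chi Ω (z - h) - chi Ω z‖ : ℝ) : ℂ) := by
    rw [e1, ← integral_complex_ofReal, ← integral_const_mul]
    congr 1
    ext h
    rw [hsig h]
    unfold bumpC
    push_cast
    ring
  have hnn : ∀ h, 0 ≤ bumpAt H j h * ‖chi Ω (z - h) - chi Ω z‖ := fun h =>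
    mul_nonneg (bumpAt_nonneg hH j h) (norm_nonneg _)
  rw [← ofReal_norm, e2, norm_mul, hs, one_mul, Complex.norm_real, Real.norm_eq_abs,
    abs_of_nonneg (integral_nonneg hnn),
    ofReal_integral_eq_lintegral_ofReal hint (Eventually.of_forall hnn)]
  congr 1
  ext h
  rw [ENNReal.ofReal_mul (bumpAt_nonneg hH j h), ofReal_norm]

lemma aj_eq (hH : IsProfile H) {Ω : Set ℂ} (hΩ : MeasurableSet Ω) (j : ℕ) :
    aj H Ω j = ∫⁻ h, ENNReal.ofReal (bumpAt H j h) * Wf Ω h := by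
  unfold aj
  simp_rw [sign_trick hH hΩ]
  rw [lintegral_lintegral_swap]
  · congr 1
    ext h
    rw [lintegral_const_mul _ (by
          exact (((chi_meas hΩ).comp (measurable_sub_const _)).sub (chi_meas hΩ)).enorm)]
    congr 1
    rw [← Wf_neg]
    unfold Wf
    simp only [sub_eq_add_neg]
  · apply Measurable.aemeasurable
    have h1 : Measurable (fun p : ℂ × ℂ => chi Ω (p.1 - p.2)) :=
      (chi_meas hΩ).comp (measurable_fst.sub measurable_snd)
    have h2 : Measurable (fun p : ℂ × ℂ => chi Ω p.1) := (chi_meas hΩ).comp measurable_fst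
    have h3 : Measurable (fun p : ℂ × ℂ => ENNReal.ofReal (bumpAt H j p.2)) :=
      ((bumpAt_contDiff hH j).continuous.measurable.comp measurable_snd).ennreal_ofReal
    exact h3.mul (h1.sub h2).enorm

end H98.Dbar

end

section

/-! # Finite or cofinite area when `α ≤ 1` -/

open MeasureTheory Complex Metric Set Filter Topology
open scoped ContDiff ENNReal NNReal Convolution

namespace H98.Dbar

variable {H : ℝ → ℝ}

lemma line_ftc {g : ℝ → ℝ} (hg : ContDiff ℝ 1 g) (a b : ℝ) :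
    ‖g b - g a‖ₑ ≤ ∫⁻ t, ‖deriv g t‖ₑ := by
  wlog hab : a ≤ b generalizing a b
  · have := this b a (not_le.1 hab).le
    rw [← enorm_neg, neg_sub]
    exact this
  have hd : Continuous (deriv g) := hg.continuous_deriv le_rfl
  have h1 : ∫ t in a..b, deriv g t = g b - g a := by
    apply intervalIntegral.integral_deriv_eq_sub
    · intro x _
      exact (hg.differentiable one_ne_zero) x
    · exact hd.intervalIntegrable _ _
  rw [← h1, intervalIntegral.integral_of_le hab]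
  exact (enorm_integral_le_lintegral_enorm _).trans (setLIntegral_le_lintegral _ _)

/-- point of the plane -/
def pt (x y : ℝ) : ℂ := ⟨x, y⟩

lemma pt_eq (x y : ℝ) : pt x y = (x : ℂ) + (y : ℂ) * I := by
  apply Complex.ext <;> simp [pt]

lemma vert {v : ℂ → ℝ} (hv : ContDiff ℝ ∞ v) (x y y' : ℝ) :
    ‖v (pt x y) - v (pt x y')‖ₑ ≤ ∫⁻ t, ‖fderiv ℝ v (pt x t)‖ₑ := by
  have hc : ContDiff ℝ ∞ (fun t : ℝ => pt x t) := by
    have : (fun t : ℝ => pt x t) = fun t : ℝ => (x : ℂ) + (t : ℂ) * I := by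
      ext t; exact pt_eq x t
    rw [this]
    have h1 : ContDiff ℝ ∞ (fun t : ℝ => (t : ℂ)) := Complex.ofRealCLM.contDiff
    fun_prop
  have hg : ContDiff ℝ 1 (fun t : ℝ => v (pt x t)) := (hv.comp hc).of_le (by simp)
  refine (line_ftc hg y' y).trans ?_
  apply lintegral_mono
  intro t
  have hd : HasDerivAt (fun t : ℝ => pt x t) I t := by
    have : (fun t : ℝ => pt x t) = fun t : ℝ => (x : ℂ) + (t : ℂ) * I := by
      ext t; exact pt_eq x t
    rw [this]
    have h1 : HasDerivAt (fun t : ℝ => (t : ℂ)) 1 t := Complex.ofRealCLM.hasDerivAt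
    simpa using (h1.mul_const I).const_add (x : ℂ)
  have hvd := ((hv.differentiable (by simp)) (pt x t)).hasFDerivAt
  have h2 : deriv (fun t : ℝ => v (pt x t)) t = fderiv ℝ v (pt x t) I :=
    (hvd.comp_hasDerivAt t hd).deriv
  simp only
  rw [h2, ← ofReal_norm, ← ofReal_norm]
  apply ENNReal.ofReal_le_ofReal
  simpa using (fderiv ℝ v (pt x t)).le_opNorm I

lemma horiz {v : ℂ → ℝ} (hv : ContDiff ℝ ∞ v) (x x' y : ℝ) :
    ‖v (pt x y) - v (pt x' y)‖ₑ ≤ ∫⁻ t, ‖fderiv ℝ v (pt t y)‖ₑ := by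
  have hc : ContDiff ℝ ∞ (fun t : ℝ => pt t y) := by
    have : (fun t : ℝ => pt t y) = fun t : ℝ => (t : ℂ) + (y : ℂ) * I := by
      ext t; exact pt_eq t y
    rw [this]
    have h1 : ContDiff ℝ ∞ (fun t : ℝ => (t : ℂ)) := Complex.ofRealCLM.contDiff
    fun_prop
  have hg : ContDiff ℝ 1 (fun t : ℝ => v (pt t y)) := (hv.comp hc).of_le (by simp)
  refine (line_ftc hg x' x).trans ?_
  apply lintegral_mono
  intro t
  have hd : HasDerivAt (fun t : ℝ => pt t y) 1 t := by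
    have : (fun t : ℝ => pt t y) = fun t : ℝ => (t : ℂ) + (y : ℂ) * I := by
      ext t; exact pt_eq t y
    rw [this]
    have h1 : HasDerivAt (fun t : ℝ => (t : ℂ)) 1 t := Complex.ofRealCLM.hasDerivAt
    simpa using h1.add_const ((y : ℂ) * I)
  have hvd := ((hv.differentiable (by simp)) (pt t y)).hasFDerivAt
  have h2 : deriv (fun t : ℝ => v (pt t y)) t = fderiv ℝ v (pt t y) 1 :=
    (hvd.comp_hasDerivAt t hd).deriv
  simp only
  rw [h2, ← ofReal_norm, ← ofReal_norm]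
  apply ENNReal.ofReal_le_ofReal
  simpa using (fderiv ℝ v (pt t y)).le_opNorm 1

/-- The crossing lines argument. -/
lemma cross {v : ℂ → ℝ} (hv : ContDiff ℝ ∞ v) (hint : ∫⁻ z, ‖fderiv ℝ v z‖ₑ < ⊤) {ε : ℝ}
    (hε : 0 < ε) : ∃ c : ℝ, volume {z : ℂ | ε ≤ |v z - c|} < ⊤ := by
  have hcont : Continuous (fun z => fderiv ℝ v z) := hv.continuous_fderiv (by simp)
  have hptm : Measurable (fun p : ℝ × ℝ => pt p.1 p.2) := by
    have : (fun p : ℝ × ℝ => pt p.1 p.2) = Complex.measurableEquivRealProd.symm := by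
      ext p; rfl
    rw [this]
    exact Complex.measurableEquivRealProd.symm.measurable
  set f : ℝ → ℝ → ℝ≥0∞ := fun x y => ‖fderiv ℝ v (pt x y)‖ₑ with hf
  have hfm : Measurable (fun p : ℝ × ℝ => f p.1 p.2) := (hcont.measurable.comp hptm).enorm
  have htot : ∫⁻ z, ‖fderiv ℝ v z‖ₑ = ∫⁻ p : ℝ × ℝ, f p.1 p.2 := by
    rw [← (Complex.volume_preserving_equiv_real_prod.symm).lintegral_comp_emb
      (Complex.measurableEquivRealProd.symm.measurableEmbedding)]
    rfl
  have hG : ∫⁻ x, ∫⁻ y, f x y = ∫⁻ z, ‖fderiv ℝ v z‖ₑ := by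
    rw [htot]
    exact (lintegral_prod _ hfm.aemeasurable).symm
  have hK : ∫⁻ y, ∫⁻ x, f x y = ∫⁻ z, ‖fderiv ℝ v z‖ₑ := by
    rw [← hG]
    exact (lintegral_lintegral_swap hfm.aemeasurable).symm
  set η : ℝ≥0∞ := ENNReal.ofReal (ε / 2) with hη
  have hη0 : η ≠ 0 := by
    rw [hη]; simp; linarith
  have hηt : η ≠ ⊤ := ENNReal.ofReal_ne_top
  set Gf : ℝ → ℝ≥0∞ := fun x => ∫⁻ y, f x y with hGf
  set Kf : ℝ → ℝ≥0∞ := fun y => ∫⁻ x, f x y with hKf
  have hGm : Measurable Gf := hfm.lintegral_prod_right'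
  have hKm : Measurable Kf := hfm.lintegral_prod_left'
  have hXc : volume {x | η ≤ Gf x} < ⊤ := by
    refine lt_of_le_of_lt (meas_ge_le_lintegral_div hGm.aemeasurable hη0 hηt) ?_
    rw [show ∫⁻ a, Gf a = ∫⁻ z, ‖fderiv ℝ v z‖ₑ from hG]
    exact ENNReal.div_lt_top hint.ne hη0
  have hYc : volume {y | η ≤ Kf y} < ⊤ := by
    refine lt_of_le_of_lt (meas_ge_le_lintegral_div hKm.aemeasurable hη0 hηt) ?_
    rw [show ∫⁻ a, Kf a = ∫⁻ z, ‖fderiv ℝ v z‖ₑ from hK]
    exact ENNReal.div_lt_top hint.ne hη0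
  obtain ⟨x0, hx0⟩ : ∃ x0, Gf x0 < η := by
    by_contra hcon
    push Not at hcon
    have : {x | η ≤ Gf x} = univ := by ext x; simp [hcon x]
    rw [this] at hXc
    simp at hXc
  obtain ⟨y0, hy0⟩ : ∃ y0, Kf y0 < η := by
    by_contra hcon
    push Not at hcon
    have : {x | η ≤ Kf x} = univ := by ext x; simp [hcon x]
    rw [this] at hYc
    simp at hYc
  refine ⟨v (pt x0 y0), ?_⟩
  have hsub : {z : ℂ | ε ≤ |v z - v (pt x0 y0)|} ⊆
      Complex.measurableEquivRealProd ⁻¹' ({x | η ≤ Gf x} ×ˢ {y | η ≤ Kf y}) := by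
    intro z hz
    rw [mem_preimage, Complex.measurableEquivRealProd_apply, mem_prod]
    have hzpt : z = pt z.re z.im := rfl
    have hz' : ENNReal.ofReal ε ≤ ‖v z - v (pt x0 y0)‖ₑ := by
      rw [← ofReal_norm, Real.norm_eq_abs]
      exact ENNReal.ofReal_le_ofReal hz
    have hεη : ENNReal.ofReal ε = η + η := by
      rw [hη, ← ENNReal.ofReal_add (by linarith) (by linarith)]
      congr 1; ring
    have tri : ∀ a b c : ℝ, ‖a - c‖ₑ ≤ ‖a - b‖ₑ + ‖b - c‖ₑ := by
      intro a b c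
      have : a - c = (a - b) + (b - c) := by ring
      rw [this]
      exact enorm_add_le _ _
    constructor
    · simp only [Set.mem_ofPred_eq]
      by_contra hcon
      rw [not_le] at hcon
      have h1 := vert hv z.re z.im y0
      have h2 := horiz hv z.re x0 y0
      have h3 : ‖v z - v (pt x0 y0)‖ₑ < η + η := by
        calc ‖v z - v (pt x0 y0)‖ₑ ≤ ‖v (pt z.re z.im) - v (pt z.re y0)‖ₑ +
              ‖v (pt z.re y0) - v (pt x0 y0)‖ₑ := tri _ _ _
          _ < η + η := ENNReal.add_lt_add (lt_of_le_of_lt h1 hcon) (lt_of_le_of_lt h2 hy0)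
      rw [hεη] at hz'
      exact absurd (lt_of_le_of_lt hz' h3) (lt_irrefl _)
    · simp only [Set.mem_ofPred_eq]
      by_contra hcon
      rw [not_le] at hcon
      have h1 := horiz hv z.re x0 z.im
      have h2 := vert hv x0 z.im y0
      have h3 : ‖v z - v (pt x0 y0)‖ₑ < η + η := by
        calc ‖v z - v (pt x0 y0)‖ₑ ≤ ‖v (pt z.re z.im) - v (pt x0 z.im)‖ₑ +
              ‖v (pt x0 z.im) - v (pt x0 y0)‖ₑ := tri _ _ _
          _ < η + η := ENNReal.add_lt_add (lt_of_le_of_lt h1 hcon) (lt_of_le_of_lt h2 hx0)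
      rw [hεη] at hz'
      exact absurd (lt_of_le_of_lt hz' h3) (lt_irrefl _)
  refine lt_of_le_of_lt (measure_mono hsub) ?_
  rw [(Complex.volume_preserving_equiv_real_prod).measure_preimage_equiv, Measure.volume_eq_prod,
    Measure.prod_prod]
  exact ENNReal.mul_lt_top hXc hYc

lemma aj_zero_lt (hH : IsProfile H) {α : ℝ} (hα : α ≤ 1) {Ω : Set ℂ} (hΩ : MeasurableSet Ω)
    (h : Crit H α Ω) : aj H Ω 0 < ⊤ := by
  refine lt_of_le_of_lt (aj_le hH hΩ 0) ?_
  refine lt_of_le_of_lt ?_ h.2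
  apply ENNReal.tsum_le_tsum
  intro i
  rw [zero_add]
  calc ∫⁻ z, ‖moll H (i + 1) Ω z - moll H i Ω z‖ₑ
      = 1 * ∫⁻ z, ‖moll H (i + 1) Ω z - moll H i Ω z‖ₑ := (one_mul _).symm
    _ ≤ _ := by
        gcongr
        rw [← ENNReal.ofReal_one]
        apply ENNReal.ofReal_le_ofReal
        apply Real.one_le_rpow (by norm_num)
        have : 0 ≤ 1 - α := by linarith
        positivity

theorem finite_or_cofinite (hH : IsProfile H) {α : ℝ} (hα : α ≤ 1) {Ω : Set ℂ}
    (hΩ : MeasurableSet Ω) (h : Crit H α Ω) : volume Ω < ⊤ ∨ volume Ωᶜ < ⊤ := by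
  obtain ⟨c, hc⟩ := cross (moll_contDiff hH hΩ 0) h.1 (ε := 1 / 8) (by norm_num)
  have ha := aj_zero_lt hH hα hΩ h
  have hm : Measurable (fun z => ‖chi Ω z - (moll H 0 Ω z : ℂ)‖ₑ) :=
    ((chi_meas hΩ).sub (Complex.measurable_ofReal.comp
      (moll_contDiff hH hΩ 0).continuous.measurable)).enorm
  have hbad : volume {z | ENNReal.ofReal (3 / 8) ≤ ‖chi Ω z - (moll H 0 Ω z : ℂ)‖ₑ} < ⊤ := by
    have h38 : ENNReal.ofReal (3 / 8) ≠ 0 := by simp
    refine lt_of_le_of_lt (meas_ge_le_lintegral_div hm.aemeasurable h38 ENNReal.ofReal_ne_top) ?_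
    exact ENNReal.div_lt_top ha.ne h38
  rcases le_total c (1 / 2) with hc2 | hc2
  · left
    refine lt_of_le_of_lt (measure_mono ?_) (lt_of_le_of_lt (measure_union_le _ _)
      (ENNReal.add_lt_top.2 ⟨hc, hbad⟩))
    intro z hz
    by_cases h1 : 1 / 8 ≤ |moll H 0 Ω z - c|
    · left; exact h1
    · right
      simp only [Set.mem_ofPred_eq]
      have h2 : moll H 0 Ω z ≤ 5 / 8 := by
        have := (abs_lt.1 (not_le.1 h1)).2
        linarith
      have h3 : chi Ω z = 1 := by unfold chi; simp [hz]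
      rw [h3, ← ofReal_norm]
      apply ENNReal.ofReal_le_ofReal
      have h4 : ((1:ℂ) - (moll H 0 Ω z : ℂ)) = ((1 - moll H 0 Ω z : ℝ) : ℂ) := by push_cast; rfl
      rw [h4, Complex.norm_real, Real.norm_eq_abs]
      refine le_trans ?_ (le_abs_self _)
      linarith
  · right
    refine lt_of_le_of_lt (measure_mono ?_) (lt_of_le_of_lt (measure_union_le _ _)
      (ENNReal.add_lt_top.2 ⟨hc, hbad⟩))
    intro z hz
    by_cases h1 : 1 / 8 ≤ |moll H 0 Ω z - c|
    · left; exact h1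
    · right
      simp only [Set.mem_ofPred_eq]
      have h2 : 3 / 8 ≤ moll H 0 Ω z := by
        have := (abs_lt.1 (not_le.1 h1)).1
        linarith
      have hz' : z ∉ Ω := hz
      have h3 : chi Ω z = 0 := by unfold chi; simp [hz']
      rw [h3, zero_sub, enorm_neg, ← ofReal_norm]
      apply ENNReal.ofReal_le_ofReal
      rw [Complex.norm_real, Real.norm_eq_abs]
      exact h2.trans (le_abs_self _)

end H98.Dbar

end

section

/-! # The criterion implies finite local fractional perimeter when `α < 1`, end -/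

open MeasureTheory Complex Metric Set Filter Topology
open scoped ContDiff ENNReal NNReal Convolution

namespace H98.Dbar

variable {H : ℝ → ℝ}

/-- weights -/
noncomputable def wt (α : ℝ) (j : ℕ) : ℝ≥0∞ := ENNReal.ofReal ((2:ℝ) ^ ((1 - α) * j))

lemma sum_aj (hH : IsProfile H) {α : ℝ} (hα : α < 1) {Ω : Set ℂ} (hΩ : MeasurableSet Ω)
    (h : Crit H α Ω) : ∑' j : ℕ, wt α j * aj H Ω j < ⊤ := by
  set b : ℕ → ℝ≥0∞ := fun j => ∫⁻ z, ‖moll H (j + 1) Ω z - moll H j Ω z‖ₑ with hb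
  set q : ℝ := (2:ℝ) ^ (α - 1) with hq
  have hq0 : 0 < q := by rw [hq]; positivity
  have hq1 : q < 1 := Real.rpow_lt_one_of_one_lt_of_neg (by norm_num) (by linarith)
  have hw : ∀ i j : ℕ, wt α j = ENNReal.ofReal (q ^ i) * wt α (j + i) := by
    intro i j
    unfold wt
    rw [← ENNReal.ofReal_mul (by positivity), hq, ← Real.rpow_natCast, ← Real.rpow_mul (by norm_num),
      ← Real.rpow_add (by norm_num)]
    congr 2
    push_cast
    ring
  calc ∑' j : ℕ, wt α j * aj H Ω j ≤ ∑' j : ℕ, wt α j * ∑' i : ℕ, b (j + i) := by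
        apply ENNReal.tsum_le_tsum
        intro j
        gcongr
        exact aj_le hH hΩ j
    _ = ∑' j : ℕ, ∑' i : ℕ, ENNReal.ofReal (q ^ i) * (wt α (j + i) * b (j + i)) := by
        congr 1
        ext j
        rw [← ENNReal.tsum_mul_left]
        congr 1
        ext i
        rw [hw i j]
        ring
    _ = ∑' i : ℕ, ∑' j : ℕ, ENNReal.ofReal (q ^ i) * (wt α (j + i) * b (j + i)) :=
        ENNReal.tsum_comm
    _ = ∑' i : ℕ, ENNReal.ofReal (q ^ i) * ∑' j : ℕ, (wt α (j + i) * b (j + i)) := by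
        congr 1
        ext i
        rw [ENNReal.tsum_mul_left]
    _ ≤ ∑' i : ℕ, ENNReal.ofReal (q ^ i) * ∑' n : ℕ, (wt α n * b n) := by
        apply ENNReal.tsum_le_tsum
        intro i
        exact mul_le_mul_right
          (ENNReal.tsum_comp_le_tsum_of_injective (add_left_injective i) (fun n => wt α n * b n)) _
    _ = (∑' i : ℕ, ENNReal.ofReal (q ^ i)) * ∑' n : ℕ, (wt α n * b n) := ENNReal.tsum_mul_right
    _ < ⊤ := by
        apply ENNReal.mul_lt_top _ h.2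
        have h1 : ∑' i : ℕ, ENNReal.ofReal (q ^ i) = ENNReal.ofReal (∑' i : ℕ, q ^ i) :=
          (ENNReal.ofReal_tsum_of_nonneg (fun i => by positivity)
            (summable_geometric_of_lt_one hq0.le hq1)).symm
        rw [h1]
        exact ENNReal.ofReal_lt_top

lemma bump_lower (hH : IsProfile H) : ∃ z₀ : ℂ, ∃ r₀ c₀ : ℝ, 0 < r₀ ∧ 0 < c₀ ∧
    ∀ z ∈ ball z₀ r₀, c₀ ≤ bump H z := by
  have hne : ∃ z₀, 0 < bump H z₀ := by
    by_contra hcon
    push Not at hcon
    have h0 : ∀ z, bump H z = 0 := fun z => le_antisymm (hcon z) (bump_nonneg hH z)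
    have h1 := integral_bump hH
    simp_rw [h0] at h1
    simp at h1
  obtain ⟨z₀, hz₀⟩ := hne
  have hc : ContinuousAt (bump H) z₀ := (bump_contDiff hH).continuous.continuousAt
  have h2 : ∀ᶠ z in 𝓝 z₀, bump H z₀ / 2 < bump H z :=
    hc.eventually (lt_mem_nhds (by linarith))
  obtain ⟨r₀, hr₀, hb⟩ := Metric.eventually_nhds_iff_ball.1 h2
  exact ⟨z₀, r₀, bump H z₀ / 2, hr₀, by positivity, fun z hz => (hb z hz).le⟩

lemma Wf_pointwise (hH : IsProfile H) {Ω : Set ℂ} (hΩ : MeasurableSet Ω) {z₀ : ℂ} {r₀ c₀ : ℝ}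
    (hr : 0 < r₀) (hc : 0 < c₀) (hb : ∀ z ∈ ball z₀ r₀, c₀ ≤ bump H z) (j : ℕ) (h : ℂ)
    (hh : ‖h‖ ≤ (1 / 2) ^ j * (r₀ / 2)) :
    ENNReal.ofReal (c₀ * (r₀ / 2) ^ 2) * Wf Ω h ≤ 2 * aj H Ω j := by
  set B' := ball ((2 ^ j : ℂ)⁻¹ * z₀) ((1 / 2) ^ j * (r₀ / 2)) with hB'
  have h2j : (0:ℝ) < 2 ^ j := by positivity
  have hlow : ∀ w, ‖w - (2 ^ j : ℂ)⁻¹ * z₀‖ < (1 / 2) ^ j * r₀ → c₀ * 4 ^ j ≤ bumpAt H j w := by
    intro w hw
    unfold bumpAt
    rw [mul_comm]
    gcongr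
    apply hb
    rw [mem_ball, dist_eq_norm]
    have e : 2 ^ j * w - z₀ = 2 ^ j * (w - (2 ^ j : ℂ)⁻¹ * z₀) := by
      rw [mul_sub, mul_inv_cancel_left₀ (pow_ne_zero j two_ne_zero)]
    rw [e, norm_mul, norm_pow, Complex.norm_ofNat]
    calc (2:ℝ) ^ j * ‖w - (2 ^ j : ℂ)⁻¹ * z₀‖ < 2 ^ j * ((1 / 2) ^ j * r₀) := by gcongr
      _ = r₀ := by rw [← mul_assoc, ← mul_pow]; norm_num
  have hφm : Measurable (fun w => ENNReal.ofReal (bumpAt H j w)) :=
    (bumpAt_contDiff hH j).continuous.measurable.ennreal_ofReal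
  have hpt : ∀ w ∈ B', ENNReal.ofReal (c₀ * 4 ^ j) * Wf Ω h ≤
      ENNReal.ofReal (bumpAt H j w) * Wf Ω w +
      ENNReal.ofReal (bumpAt H j (w - h)) * Wf Ω (w - h) := by
    intro w hw
    rw [hB', mem_ball, dist_eq_norm] at hw
    have hpj : (0:ℝ) < (1 / 2) ^ j := by positivity
    have l1 : c₀ * 4 ^ j ≤ bumpAt H j w := by
      apply hlow
      refine hw.trans ?_
      nlinarith
    have l2 : c₀ * 4 ^ j ≤ bumpAt H j (w - h) := by
      apply hlow
      calc ‖w - h - (2 ^ j : ℂ)⁻¹ * z₀‖ = ‖(w - (2 ^ j : ℂ)⁻¹ * z₀) - h‖ := by congr 1; ring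
        _ ≤ ‖w - (2 ^ j : ℂ)⁻¹ * z₀‖ + ‖h‖ := norm_sub_le _ _
        _ < (1 / 2) ^ j * (r₀ / 2) + (1 / 2) ^ j * (r₀ / 2) := add_lt_add_of_lt_of_le hw hh
        _ = (1 / 2) ^ j * r₀ := by ring
    have hW : Wf Ω h ≤ Wf Ω w + Wf Ω (w - h) := by
      have e : h = w + -(w - h) := by ring
      calc Wf Ω h = Wf Ω (w + -(w - h)) := by rw [← e]
        _ ≤ Wf Ω w + Wf Ω (-(w - h)) := Wf_add hΩ _ _
        _ = Wf Ω w + Wf Ω (w - h) := by rw [Wf_neg]
    calc ENNReal.ofReal (c₀ * 4 ^ j) * Wf Ω h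
        ≤ ENNReal.ofReal (c₀ * 4 ^ j) * (Wf Ω w + Wf Ω (w - h)) := by gcongr
      _ = ENNReal.ofReal (c₀ * 4 ^ j) * Wf Ω w + ENNReal.ofReal (c₀ * 4 ^ j) * Wf Ω (w - h) :=
          mul_add _ _ _
      _ ≤ _ := by gcongr
  have hint : ∫⁻ _ in B', ENNReal.ofReal (c₀ * 4 ^ j) * Wf Ω h ≤ 2 * aj H Ω j := by
    calc ∫⁻ _ in B', ENNReal.ofReal (c₀ * 4 ^ j) * Wf Ω h
        ≤ ∫⁻ w in B', (ENNReal.ofReal (bumpAt H j w) * Wf Ω w +
          ENNReal.ofReal (bumpAt H j (w - h)) * Wf Ω (w - h)) :=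
          setLIntegral_mono' measurableSet_ball hpt
      _ ≤ ∫⁻ w, (ENNReal.ofReal (bumpAt H j w) * Wf Ω w +
          ENNReal.ofReal (bumpAt H j (w - h)) * Wf Ω (w - h)) := setLIntegral_le_lintegral _ _
      _ = (∫⁻ w, ENNReal.ofReal (bumpAt H j w) * Wf Ω w) +
          ∫⁻ w, ENNReal.ofReal (bumpAt H j (w - h)) * Wf Ω (w - h) := by
          have m : Measurable (fun w => ENNReal.ofReal (bumpAt H j w) * Wf Ω w) :=
            hφm.mul (Wf_meas hΩ)
          exact lintegral_add_left m _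
      _ = 2 * aj H Ω j := by
          rw [lintegral_sub_right_eq_self (fun w => ENNReal.ofReal (bumpAt H j w) * Wf Ω w) h,
            ← aj_eq hH hΩ, two_mul]
  rw [setLIntegral_const, hB', Complex.volume_ball] at hint
  refine le_trans ?_ hint
  have e1 : ENNReal.ofReal (c₀ * 4 ^ j) * Wf Ω h *
      (ENNReal.ofReal ((1 / 2) ^ j * (r₀ / 2)) ^ 2 * (NNReal.pi : ℝ≥0∞)) =
      (ENNReal.ofReal (c₀ * (r₀ / 2) ^ 2) * (NNReal.pi : ℝ≥0∞)) * Wf Ω h := by
    have : ENNReal.ofReal (c₀ * 4 ^ j) * ENNReal.ofReal ((1 / 2) ^ j * (r₀ / 2)) ^ 2 =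
        ENNReal.ofReal (c₀ * (r₀ / 2) ^ 2) := by
      rw [← ENNReal.ofReal_pow (by positivity), ← ENNReal.ofReal_mul (by positivity)]
      congr 1
      rw [mul_pow, ← pow_mul, mul_comm j 2, pow_mul]
      have : (4:ℝ) ^ j * ((1 / 2) ^ 2) ^ j = 1 := by rw [← mul_pow]; norm_num
      calc c₀ * 4 ^ j * (((1 / 2) ^ 2) ^ j * (r₀ / 2) ^ 2) =
          c₀ * (r₀ / 2) ^ 2 * (4 ^ j * ((1 / 2) ^ 2) ^ j) := by ring
        _ = _ := by rw [this, mul_one]
    rw [← this]; ring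
  rw [e1]
  gcongr
  have hpi : (1 : ℝ≥0∞) ≤ (NNReal.pi : ℝ≥0∞) := by
    have : (1 : ℝ≥0) ≤ NNReal.pi := by
      rw [← NNReal.coe_le_coe, NNReal.coe_real_pi]
      have := Real.pi_gt_three
      push_cast; linarith
    exact_mod_cast this
  calc ENNReal.ofReal (c₀ * (r₀ / 2) ^ 2) = ENNReal.ofReal (c₀ * (r₀ / 2) ^ 2) * 1 := (mul_one _).symm
    _ ≤ _ := by gcongr

theorem fracPer_of_crit (hH : IsProfile H) {α : ℝ} (hα : α < 1) {Ω : Set ℂ}
    (hΩ : MeasurableSet Ω) (h : Crit H α Ω) : fracPer α Ω < ⊤ := by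
  obtain ⟨z₀, r₀, c₀, hr, hc, hb⟩ := bump_lower hH
  obtain ⟨N, hN⟩ := exists_nat_ge (2 / r₀)
  have hN0 : 0 < (N : ℝ) := lt_of_lt_of_le (by positivity) hN
  set κ : ℝ := c₀ * (r₀ / 2) ^ 2 with hκ
  have hκ0 : 0 < κ := by rw [hκ]; positivity
  set K : ℝ≥0∞ := N * ((ENNReal.ofReal κ)⁻¹ * 2) with hK
  have hκ' : ENNReal.ofReal κ ≠ 0 := by simpa using hκ0
  have hKtop : K < ⊤ := by
    rw [hK]
    exact ENNReal.mul_lt_top (ENNReal.natCast_lt_top N)
      (ENNReal.mul_lt_top (ENNReal.inv_lt_top.2 (pos_iff_ne_zero.2 hκ')) (by simp))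
  -- pointwise bound of W
  have hW : ∀ (j : ℕ) (h : ℂ), ‖h‖ ≤ (1 / 2) ^ j → Wf Ω h ≤ K * aj H Ω j := by
    intro j h hh
    have e : h = (N : ℂ) * (h / N) := by
      rw [mul_div_cancel₀]
      have : (N : ℂ) ≠ 0 := by exact_mod_cast hN0.ne'
      exact this
    have h1 : ‖h / N‖ ≤ (1 / 2) ^ j * (r₀ / 2) := by
      rw [norm_div, Complex.norm_natCast, div_le_iff₀ hN0]
      have h3 : 1 ≤ r₀ / 2 * N := by
        have : 2 / r₀ * (r₀ / 2) = 1 := by field_simp
        nlinarith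
      have h4 : (0:ℝ) < (1 / 2) ^ j := by positivity
      calc ‖h‖ ≤ (1 / 2) ^ j := hh
        _ = (1 / 2) ^ j * 1 := (mul_one _).symm
        _ ≤ (1 / 2) ^ j * (r₀ / 2 * N) := by gcongr
        _ = _ := by ring
    have h2 := Wf_pointwise hH hΩ hr hc hb j (h / N) h1
    rw [← hκ] at h2
    have h3 : Wf Ω (h / N) ≤ (ENNReal.ofReal κ)⁻¹ * (2 * aj H Ω j) := by
      rw [← ENNReal.div_eq_inv_mul, ENNReal.le_div_iff_mul_le (Or.inl hκ') (Or.inl ENNReal.ofReal_ne_top),
        mul_comm]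
      exact h2
    calc Wf Ω h = Wf Ω ((N : ℂ) * (h / N)) := by rw [← e]
      _ ≤ N * Wf Ω (h / N) := Wf_nsmul hΩ _ _
      _ ≤ N * ((ENNReal.ofReal κ)⁻¹ * (2 * aj H Ω j)) := by gcongr
      _ = K * aj H Ω j := by rw [hK]; ring
  -- annuli
  set A : ℕ → Set ℂ := fun j => closedBall (0:ℂ) ((1 / 2) ^ j) \ closedBall (0:ℂ) ((1 / 2) ^ (j + 1)) with hA
  set c : ℕ → ℝ≥0∞ := fun j => ENNReal.ofReal (((1 / 2 : ℝ) ^ (j + 1)) ^ (α - 3)) * (K * aj H Ω j) with hcdef
  have hpt : ∀ h, Kw α h * Wf Ω h ≤ ∑' j, (A j).indicator (fun _ => c j) h := by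
    intro h
    by_cases h0 : h = 0
    · rw [h0, Wf_zero, mul_zero]; exact zero_le
    · by_cases h1 : h ∈ ball (0:ℂ) 1
      · have hx0 : 0 < ‖h‖ := norm_pos_iff.2 h0
        have hx1 : ‖h‖ < 1 := by simpa using h1
        obtain ⟨n, hn1, hn2⟩ := exists_nat_pow_near_of_lt_one hx0 hx1.le (y := (1 / 2 : ℝ))
          (by norm_num) (by norm_num)
        have hmem : h ∈ A n := by
          rw [hA]
          refine ⟨by simpa using hn2, ?_⟩
          simpa using hn1
        refine le_trans ?_ (ENNReal.le_tsum n)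
        rw [indicator_of_mem hmem, hcdef]
        unfold Kw
        rw [indicator_of_mem h1]
        apply mul_le_mul' _ (hW n h hn2)
        apply ENNReal.ofReal_le_ofReal
        exact Real.rpow_le_rpow_of_nonpos (by positivity) hn1.le (by linarith)
      · unfold Kw
        rw [indicator_of_notMem h1, zero_mul]
        exact zero_le
  have hfin : ∫⁻ h, Kw α h * Wf Ω h < ⊤ := by
    calc ∫⁻ h, Kw α h * Wf Ω h ≤ ∫⁻ h, ∑' j, (A j).indicator (fun _ => c j) h :=
          lintegral_mono hpt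
      _ = ∑' j, ∫⁻ h, (A j).indicator (fun _ => c j) h := by
          apply lintegral_tsum
          intro j
          apply Measurable.aemeasurable
          exact measurable_const.indicator (measurableSet_closedBall.diff measurableSet_closedBall)
      _ = ∑' j, c j * volume (A j) := by
          congr 1
          ext j
          rw [lintegral_indicator (measurableSet_closedBall.diff measurableSet_closedBall),
            setLIntegral_const]
      _ ≤ ∑' j, (ENNReal.ofReal ((2:ℝ) ^ (3 - α)) * (NNReal.pi : ℝ≥0∞) * K) *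
          (wt α j * aj H Ω j) := by
          apply ENNReal.tsum_le_tsum
          intro j
          have hv : volume (A j) ≤ ENNReal.ofReal (((1 / 2 : ℝ) ^ j) ^ 2) * (NNReal.pi : ℝ≥0∞) := by
            calc volume (A j) ≤ volume (closedBall (0:ℂ) ((1 / 2) ^ j)) := measure_mono sdiff_subset
              _ = _ := by
                rw [Complex.volume_closedBall, ← ENNReal.ofReal_pow (by positivity)]
          calc c j * volume (A j) ≤ c j * (ENNReal.ofReal (((1 / 2 : ℝ) ^ j) ^ 2) * (NNReal.pi : ℝ≥0∞)) := by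
                gcongr
            _ = (ENNReal.ofReal (((1 / 2 : ℝ) ^ (j + 1)) ^ (α - 3)) *
                ENNReal.ofReal (((1 / 2 : ℝ) ^ j) ^ 2)) * ((NNReal.pi : ℝ≥0∞) * K * aj H Ω j) := by
                rw [hcdef]; ring
            _ = (ENNReal.ofReal ((2:ℝ) ^ (3 - α)) * wt α j) * ((NNReal.pi : ℝ≥0∞) * K * aj H Ω j) := by
                congr 1
                unfold wt
                rw [← ENNReal.ofReal_mul (by positivity), ← ENNReal.ofReal_mul (by positivity)]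
                congr 1
                have e1 : ∀ n : ℕ, (1 / 2 : ℝ) ^ n = (2:ℝ) ^ (-(n:ℝ)) := by
                  intro n
                  rw [one_div, inv_pow, Real.rpow_neg (by norm_num), Real.rpow_natCast]
                rw [e1, e1, ← Real.rpow_natCast, ← Real.rpow_mul (by norm_num),
                  ← Real.rpow_mul (by norm_num), ← Real.rpow_add (by norm_num),
                  ← Real.rpow_add (by norm_num)]
                congr 1
                push_cast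
                ring
            _ = _ := by ring
      _ = (ENNReal.ofReal ((2:ℝ) ^ (3 - α)) * (NNReal.pi : ℝ≥0∞) * K) *
          ∑' j, (wt α j * aj H Ω j) := ENNReal.tsum_mul_left
      _ < ⊤ := by
          apply ENNReal.mul_lt_top _ (sum_aj hH hα hΩ h)
          exact ENNReal.mul_lt_top (ENNReal.mul_lt_top ENNReal.ofReal_lt_top ENNReal.coe_lt_top) hKtop
  rw [two_fracPer α hΩ] at hfin
  exact lt_of_le_of_lt (by
    calc fracPer α Ω = 1 * fracPer α Ω := (one_mul _).symm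
      _ ≤ 2 * fracPer α Ω := by gcongr; norm_num) hfin

end H98.Dbar

end

section

/-! # Sufficiency of the Littlewood-Paley criterion, final step -/

open MeasureTheory Complex Metric Set Filter Topology
open scoped ContDiff ENNReal NNReal Convolution

namespace H98.Dbar

variable {H : ℝ → ℝ}

/-- L1 norms of differences. -/
noncomputable def cj (H : ℝ → ℝ) (Ω : Set ℂ) (j : ℕ) : ℝ :=
  ∫ z, ‖moll H (j + 1) Ω z - moll H j Ω z‖

lemma crit_integrable (hH : IsProfile H) {α : ℝ} {Ω : Set ℂ} (hΩ : MeasurableSet Ω)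
    (h : Crit H α Ω) (j : ℕ) : Integrable (fun z => moll H (j + 1) Ω z - moll H j Ω z) := by
  refine ⟨?_, ?_⟩
  · exact ((moll_contDiff hH hΩ (j + 1)).continuous.sub
      (moll_contDiff hH hΩ j).continuous).aestronglyMeasurable
  · have h1 := ENNReal.ne_top_of_tsum_ne_top h.2.ne j
    rw [hasFiniteIntegral_iff_enorm]
    by_contra hcon
    rw [not_lt, top_le_iff] at hcon
    rw [hcon] at h1
    apply h1
    rw [ENNReal.mul_top]
    rw [ne_eq, ENNReal.ofReal_eq_zero, not_le]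
    positivity

lemma crit_sum (hH : IsProfile H) {α : ℝ} {Ω : Set ℂ} (hΩ : MeasurableSet Ω)
    (h : Crit H α Ω) (J : ℕ) : ∑ j ∈ Finset.range J, (2:ℝ) ^ ((1 - α) * j) * cj H Ω j ≤
      (∑' j : ℕ, ENNReal.ofReal ((2:ℝ) ^ ((1 - α) * j)) *
        ∫⁻ z, ‖moll H (j + 1) Ω z - moll H j Ω z‖ₑ).toReal := by
  have h1 : ∀ j, cj H Ω j = (∫⁻ z, ‖moll H (j + 1) Ω z - moll H j Ω z‖ₑ).toReal := by
    intro j
    unfold cj
    rw [integral_norm_eq_lintegral_enorm (crit_integrable hH hΩ h j).1]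
  have h2 : ∀ j : ℕ, (2:ℝ) ^ ((1 - α) * j) * cj H Ω j =
      (ENNReal.ofReal ((2:ℝ) ^ ((1 - α) * j)) *
        ∫⁻ z, ‖moll H (j + 1) Ω z - moll H j Ω z‖ₑ).toReal := by
    intro j
    rw [ENNReal.toReal_mul, ENNReal.toReal_ofReal (by positivity), h1]
  simp_rw [h2]
  rw [← ENNReal.toReal_sum]
  · apply ENNReal.toReal_mono h.2.ne
    exact ENNReal.sum_le_tsum _
  · intro j _
    exact ENNReal.ne_top_of_tsum_ne_top h.2.ne j

theorem sufficiency (hH : IsProfile H) {α : ℝ} (hα : 0 < α) {k : ℕ} {Ω : Set ℂ}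
    (hΩ : MeasurableSet Ω) (h : Crit H α Ω) : AdmW α k Ω := by
  set T : ℝ := (∑' j : ℕ, ENNReal.ofReal ((2:ℝ) ^ ((1 - α) * j)) *
        ∫⁻ z, ‖moll H (j + 1) Ω z - moll H j Ω z‖ₑ).toReal with hT
  have hT0 : 0 ≤ T := ENNReal.toReal_nonneg
  set D : ℝ := ∫ z, ‖fderiv ℝ (moll H 0 Ω) z‖ with hD
  have hD0 : 0 ≤ D := integral_nonneg fun _ => norm_nonneg _
  have hDint : Integrable (fun z => fderiv ℝ (moll H 0 Ω) z) := by
    refine ⟨?_, ?_⟩
    · exact ((moll_contDiff hH hΩ 0).continuous_fderiv (by simp)).aestronglyMeasurable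
    · rw [hasFiniteIntegral_iff_enorm]; exact h.1
  have hC1 := C1_nonneg H
  set K1 : ℝ := 2 ^ (k + 3) * (C1 H * ((k + 1) * (2 ^ k * (k:ℝ) ^ α))) with hK1
  have hK10 : 0 ≤ K1 := by rw [hK1]; positivity
  set K0 : ℝ := (1 + 2 ^ (k + 1)) * 2 ^ (k + 1) with hK0
  have hK00 : 0 ≤ K0 := by rw [hK0]; positivity
  refine ⟨D * K0 + K1 * T, by positivity, ?_⟩
  intro f A B hA hB hfA hfB
  set g : V := dOp f with hg
  have e0 : ∫ z in Ω, dbar f.1 z = ∫ z, chi Ω z * g.1 z := setIntegral_chi hΩ _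
  rw [e0]
  -- the bound for S_J g
  have low : ‖∫ z, chi Ω z * ((Qo hH k 0 ^ 2) g).1 z‖ ≤ D * (K0 * A) := by
    have e1 : (Qo hH k 0 ^ 2) g = cvOp (bV hH 0) (dOp ((Qo hH k 0 * Yo hH k 0) f)) := by
      have c1 : Commute (Qo hH k 0 * Yo hH k 0) (Ph hH 0 * dOp) := by
        apply Commute.mul_left
        · exact (Qo_comm fun i => (Ph_comm hH i 0)).mul_right (Qo_comm (Ph_dOp hH))
        · exact (Yo_comm fun i => (Ph_comm hH i 0)).mul_right (Yo_comm (Ph_dOp hH))
      have c2 : Qo hH k 0 ^ 2 = (Qo hH k 0 * Yo hH k 0) * Ph hH 0 := by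
        rw [sq, mul_assoc, ← Qo_eq]
      have c4 : (Qo hH k 0 ^ 2) * dOp = Ph hH 0 * dOp * (Qo hH k 0 * Yo hH k 0) := by
        rw [c2, mul_assoc, c1.eq]
      exact LinearMap.congr_fun c4 f
    rw [e1]
    refine (pair_low_bound hH hΩ _ hDint).trans ?_
    rw [← hD]
    gcongr
    have hQ : OpLe supN (Qo hH k 0) (1 + 2 ^ (k + 1)) :=
      (OpLe.one _).sub ((OneSub_le (Ph_supN hH 0)).pow (by norm_num) _)
    have hQY := hQ.mul (Yo_le hH k 0 (Ph_supN hH 0)) (by positivity)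
    refine (hQY f).trans ?_
    rw [← hK0]
    gcongr
    exact supN_le hfA
  have high : ∀ j, ‖∫ z, chi Ω z * (((Qo hH k (j + 1) ^ 2) g - (Qo hH k j ^ 2) g)).1 z‖ ≤
      K1 * B * ((2:ℝ) ^ ((1 - α) * j) * cj H Ω j) := by
    intro j
    have e1 : (Qo hH k (j + 1) ^ 2) g - (Qo hH k j ^ 2) g =
        (cvOp (bV hH (j + 1)) - cvOp (bV hH j))
          (((Qo hH k (j + 1) + Qo hH k j) * dOp) (Xo hH k j f)) :=
      LinearMap.congr_fun (tele_op hH k j) f
    rw [e1]
    refine (pair_diff_bound hH hΩ j _ (crit_integrable hH hΩ h j)).trans ?_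
    have h1 := Gj_bound hH k j (Xo hH k j f)
    have h2 := Xo_bound hH hα hB hfB j
    have hcj : 0 ≤ cj H Ω j := integral_nonneg fun _ => norm_nonneg _
    calc cj H Ω j * supN (((Qo hH k (j + 1) + Qo hH k j) * dOp) (Xo hH k j f))
        ≤ cj H Ω j * (2 ^ (k + 3) * (2 ^ j * C1 H *
          ((k + 1) * (2 ^ k * (B * (k * (1 / 2 : ℝ) ^ j) ^ α))))) := by
          gcongr
          exact h1.trans (by gcongr)
      _ = K1 * B * ((2:ℝ) ^ ((1 - α) * j) * cj H Ω j) := by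
          rw [← weight_eq, Real.mul_rpow (by positivity) (by positivity), hK1]
          ring
  have tel : ∀ J, ‖∫ z, chi Ω z * ((Qo hH k J ^ 2) g).1 z‖ ≤ D * (K0 * A) +
      ∑ j ∈ Finset.range J, K1 * B * ((2:ℝ) ^ ((1 - α) * j) * cj H Ω j) := by
    intro J
    induction J with
    | zero => simpa using low
    | succ J ih =>
      have e1 : ∫ z, chi Ω z * ((Qo hH k (J + 1) ^ 2) g).1 z =
          (∫ z, chi Ω z * ((Qo hH k J ^ 2) g).1 z) +
          ∫ z, chi Ω z * (((Qo hH k (J + 1) ^ 2) g - (Qo hH k J ^ 2) g)).1 z := by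
        rw [← integral_add (integrable_chi_mul hΩ (V_integrable (Subtype.property _)))
          (integrable_chi_mul hΩ (V_integrable (Subtype.property _)))]
        congr 1
        ext z
        have : ((Qo hH k (J + 1) ^ 2) g - (Qo hH k J ^ 2) g).1 z =
          ((Qo hH k (J + 1) ^ 2) g).1 z - ((Qo hH k J ^ 2) g).1 z := rfl
        rw [this]
        ring
      rw [e1, Finset.sum_range_succ, ← add_assoc]
      exact (norm_add_le _ _).trans (add_le_add ih (high J))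
  have main : ∀ J, ‖∫ z, chi Ω z * g.1 z‖ ≤
      l1N ((1 - (Qo hH k J) ^ 2 : Module.End ℂ V) g) + (D * (K0 * A) + K1 * B * T) := by
    intro J
    have e1 : ∫ z, chi Ω z * g.1 z =
        (∫ z, chi Ω z * ((1 - (Qo hH k J) ^ 2 : Module.End ℂ V) g).1 z) +
        ∫ z, chi Ω z * ((Qo hH k J ^ 2) g).1 z := by
      rw [← integral_add (integrable_chi_mul hΩ (V_integrable (Subtype.property _)))
          (integrable_chi_mul hΩ (V_integrable (Subtype.property _)))]
      congr 1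
      ext z
      have : ((1 - (Qo hH k J) ^ 2 : Module.End ℂ V) g).1 z = g.1 z - ((Qo hH k J ^ 2) g).1 z := rfl
      rw [this]
      ring
    rw [e1]
    refine (norm_add_le _ _).trans (add_le_add (chi_norm_le hΩ _) ((tel J).trans ?_))
    gcongr
    rw [← Finset.mul_sum]
    gcongr
    exact crit_sum hH hΩ h J
  have lim : Tendsto (fun J => l1N ((1 - (Qo hH k J) ^ 2 : Module.End ℂ V) g) +
      (D * (K0 * A) + K1 * B * T)) atTop (𝓝 (0 + (D * (K0 * A) + K1 * B * T))) :=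
    (approx_S hH k g).add_const _
  have fin := ge_of_tendsto' lim main
  calc ‖∫ z, chi Ω z * g.1 z‖ ≤ 0 + (D * (K0 * A) + K1 * B * T) := fin
    _ ≤ (D * K0 + K1 * T) * (A + B) := by
        have : 0 ≤ D * K0 * B := by positivity
        have : 0 ≤ K1 * T * A := by positivity
        nlinarith

end H98.Dbar

end

section

/-! # Necessity of the gradient condition, and the criterion -/

open MeasureTheory Complex Metric Set Filter Topology
open scoped ContDiff ENNReal NNReal Convolution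

namespace H98.Dbar

variable {H : ℝ → ℝ}

lemma sg_eq_sgr (F : ℂ → ℝ) (R : ℝ) (z : ℂ) : sg F R z = (sgr F R z : ℂ) := by
  unfold sg sgr
  split_ifs <;> simp

lemma mul_sgr_self (F : ℂ → ℝ) (R : ℝ) (z : ℂ) :
    F z * sgr F R z = (closedBall (0:ℂ) R).indicator (fun z => ‖F z‖) z := by
  have := mul_sg F R z
  rw [sg_eq_sgr] at this
  exact_mod_cast this

/-- Generalised low frequency pairing. -/
lemma pair_low' (hH : IsProfile H) {Ω : Set ℂ} (hΩ : MeasurableSet Ω) {G : ℂ → ℂ}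
    (hG : Integrable G) :
    ∫ z, chi Ω z * cv (dbar (bumpC H 0)) G z =
      - ∫ z, dbar (fun z => (moll H 0 Ω z : ℂ)) z * G z := by
  have hφ : bumpC H 0 ∈ V := (bV hH 0).2
  rw [adj (dbar_mem_V hφ) (chi_bm hΩ) hG, ← integral_neg]
  congr 1
  ext z
  have e2 : (fun u => dbar (bumpC H 0) (-u)) = fun u => - dbar (bumpC H 0) u := by
    ext u
    exact dbar_neg_even (V_differentiable hφ) (bumpC_neg 0) u
  rw [e2]
  have e3 : (fun z => (moll H 0 Ω z : ℂ)) = cv (bumpC H 0) (chi Ω) := by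
    ext z; exact moll_eq hΩ 0 z
  rw [e3, dbar_cv_left hφ (chi_bm hΩ).locInt]
  unfold cv
  rw [← neg_mul, ← integral_neg]
  congr 2
  ext w
  ring

theorem nec_low (hH : IsProfile H) {α : ℝ} (hα : 0 < α) {k : ℕ} (hk : α < k) {Ω : Set ℂ}
    (hΩ : MeasurableSet Ω) (h : AdmW α k Ω) : ∃ C' : ℝ, 0 ≤ C' ∧ ∀ (v : ℂ), (v = 1 ∨ v = I) →
    ∀ (R : ℝ), ∫ z in closedBall (0:ℂ) R, ‖fderiv ℝ (moll H 0 Ω) z v‖ ≤ C' := by
  obtain ⟨C, hC0, hC⟩ := h
  have hφ : bumpC H 0 ∈ V := (bV hH 0).2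
  obtain ⟨M, hM0, hM⟩ := fdk_l1_bound hφ k
  refine ⟨2 * (C * (1 + M)), by positivity, ?_⟩
  intro v hv R
  set u := moll H 0 Ω with hu
  have hus : ContDiff ℝ ∞ u := moll_contDiff hH hΩ 0
  have hud : Differentiable ℝ u := hus.differentiable (by simp)
  have hcont : ∀ w : ℂ, Continuous (fun z => fderiv ℝ u z w) := fun w =>
    (hus.continuous_fderiv (by simp)).clm_apply continuous_const
  set F : ℂ → ℝ := fun z => fderiv ℝ u z v with hF
  have hFm : Measurable F := (hcont v).measurable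
  have hsgl : LocallyIntegrable (sg F R) := (sg_bm hFm R).locInt
  set f : V := ⟨cv (bumpC H 0) (sg F R), cv_mem_V hφ hsgl (sg_supp _ _)⟩ with hf
  have hA : ∀ z, ‖f.1 z‖ ≤ 1 := by
    intro z
    have := cv_bound (V_integrable hφ) (sg_bm hFm R).bd z
    rw [mul_one, show (∫ w, ‖bumpC H 0 w‖) = 1 from (bV_prob hH 0).intNorm] at this
    exact this
  have hB : ∀ h z, ‖(fwdDiff h)^[k] f.1 z‖ ≤ M * ‖h‖ ^ α := by
    intro h z
    have e2 : (fwdDiff h)^[k] f.1 = cv ((fwdDiff h)^[k] (bumpC H 0)) (sg F R) :=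
      fdk_cv hφ hsgl h k
    rw [e2]
    have := cv_bound (V_integrable (fdk_mem_V hφ h k)) (sg_bm hFm R).bd z
    rw [mul_one] at this
    refine this.trans ((hM h).trans ?_)
    gcongr
    exact min_one_pow_le hα hk (norm_nonneg h)
  have hmain := hC f 1 M (by norm_num) hM0 hA hB
  have e0 : ∫ z in Ω, dbar f.1 z = - ∫ z, dbar (fun z => (u z : ℂ)) z * sg F R z := by
    rw [setIntegral_chi hΩ, ← pair_low' hH hΩ (sg_integrable hFm R)]
    congr 1
    ext z
    rw [← dbar_cv_left hφ hsgl]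
  have e1 : ∀ z, dbar (fun z => (u z : ℂ)) z * sg F R z =
      (1 / 2 : ℂ) * (((fderiv ℝ u z 1 * sgr F R z : ℝ) : ℂ) +
        I * ((fderiv ℝ u z I * sgr F R z : ℝ) : ℂ)) := by
    intro z
    rw [dbar_real u z (hud z), sg_eq_sgr]
    push_cast
    ring
  have e2 : ∫ z, dbar (fun z => (u z : ℂ)) z * sg F R z =
      (1 / 2 : ℂ) * (((∫ z, fderiv ℝ u z 1 * sgr F R z : ℝ) : ℂ) +
        I * ((∫ z, fderiv ℝ u z I * sgr F R z : ℝ) : ℂ)) := by
    simp_rw [e1]
    rw [integral_const_mul, integral_add, integral_const_mul, integral_complex_ofReal,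
      integral_complex_ofReal]
    · exact (cont_mul_sgr_integrable (hcont 1) hFm R).ofReal
    · exact ((cont_mul_sgr_integrable (hcont I) hFm R).ofReal).const_mul I
  rw [e0, norm_neg, e2] at hmain
  set a : ℝ := ∫ z, fderiv ℝ u z 1 * sgr F R z with ha
  set b : ℝ := ∫ z, fderiv ℝ u z I * sgr F R z with hb
  have hre : |a| ≤ 2 * (C * (1 + M)) := by
    have h1 := Complex.abs_re_le_norm ((1 / 2 : ℂ) * ((a : ℂ) + I * (b : ℂ)))
    have h2 : ((1 / 2 : ℂ) * ((a : ℂ) + I * (b : ℂ))).re = 1 / 2 * a := by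
      simp [Complex.mul_re, Complex.mul_im]
    rw [h2, abs_mul, abs_of_pos (by norm_num : (0:ℝ) < 1 / 2)] at h1
    linarith
  have him : |b| ≤ 2 * (C * (1 + M)) := by
    have h1 := Complex.abs_im_le_norm ((1 / 2 : ℂ) * ((a : ℂ) + I * (b : ℂ)))
    have h2 : ((1 / 2 : ℂ) * ((a : ℂ) + I * (b : ℂ))).im = 1 / 2 * b := by
      simp [Complex.mul_re, Complex.mul_im]
    rw [h2, abs_mul, abs_of_pos (by norm_num : (0:ℝ) < 1 / 2)] at h1
    linarith
  have e3 : ∫ z in closedBall (0:ℂ) R, ‖F z‖ = ∫ z, F z * sgr F R z := by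
    simp_rw [mul_sgr_self]
    rw [integral_indicator measurableSet_closedBall]
  change ∫ z in closedBall (0:ℂ) R, ‖F z‖ ≤ _
  rw [e3]
  rcases hv with hv | hv
  · have : ∫ z, F z * sgr F R z = a := by rw [ha, hF, hv]
    rw [this]
    exact (le_abs_self a).trans hre
  · have : ∫ z, F z * sgr F R z = b := by rw [hb, hF, hv]
    rw [this]
    exact (le_abs_self b).trans him

theorem crit_low (hH : IsProfile H) {α : ℝ} (hα : 0 < α) {k : ℕ} (hk : α < k) {Ω : Set ℂ}
    (hΩ : MeasurableSet Ω) (h : AdmW α k Ω) :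
    (∫⁻ z, ‖fderiv ℝ (moll H 0 Ω) z‖ₑ) < ⊤ := by
  obtain ⟨C', hC'0, hC'⟩ := nec_low hH hα hk hΩ h
  have hus : ContDiff ℝ ∞ (moll H 0 Ω) := moll_contDiff hH hΩ 0
  have hcd : Continuous (fun z => fderiv ℝ (moll H 0 Ω) z) := hus.continuous_fderiv (by simp)
  have hlim : Tendsto (fun n : ℕ => ∫⁻ z in closedBall (0:ℂ) n, ‖fderiv ℝ (moll H 0 Ω) z‖ₑ) atTop
      (𝓝 (∫⁻ z, ‖fderiv ℝ (moll H 0 Ω) z‖ₑ)) :=
    (aecover_closedBall (μ := volume) (x := (0:ℂ))
      tendsto_natCast_atTop_atTop).lintegral_tendsto_of_countably_generated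
      hcd.measurable.enorm.aemeasurable
  have key : ∀ n : ℕ, ∫⁻ z in closedBall (0:ℂ) n, ‖fderiv ℝ (moll H 0 Ω) z‖ₑ ≤
      ENNReal.ofReal (C' + C') := by
    intro n
    have hcont : ∀ w : ℂ, Continuous (fun z => fderiv ℝ (moll H 0 Ω) z w) := fun w =>
      hcd.clm_apply continuous_const
    have hint : ∀ w : ℂ, IntegrableOn (fun z => fderiv ℝ (moll H 0 Ω) z w) (closedBall (0:ℂ) n) :=
      fun w => (hcont w).continuousOn.integrableOn_compact (isCompact_closedBall _ _)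
    calc ∫⁻ z in closedBall (0:ℂ) n, ‖fderiv ℝ (moll H 0 Ω) z‖ₑ
        ≤ ∫⁻ z in closedBall (0:ℂ) n, (‖fderiv ℝ (moll H 0 Ω) z 1‖ₑ +
          ‖fderiv ℝ (moll H 0 Ω) z I‖ₑ) := by
          apply lintegral_mono
          intro z
          have h1 := norm_le_parts (fderiv ℝ (moll H 0 Ω) z)
          change ‖fderiv ℝ (moll H 0 Ω) z‖ₑ ≤ ‖fderiv ℝ (moll H 0 Ω) z 1‖ₑ +
            ‖fderiv ℝ (moll H 0 Ω) z I‖ₑ
          rw [← ofReal_norm, ← ofReal_norm, ← ofReal_norm,
            ← ENNReal.ofReal_add (norm_nonneg _) (norm_nonneg _)]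
          exact ENNReal.ofReal_le_ofReal h1
      _ = (∫⁻ z in closedBall (0:ℂ) n, ‖fderiv ℝ (moll H 0 Ω) z 1‖ₑ) +
          ∫⁻ z in closedBall (0:ℂ) n, ‖fderiv ℝ (moll H 0 Ω) z I‖ₑ :=
          lintegral_add_left ((hcont 1).measurable.enorm) _
      _ = ENNReal.ofReal (∫ z in closedBall (0:ℂ) n, ‖fderiv ℝ (moll H 0 Ω) z 1‖) +
          ENNReal.ofReal (∫ z in closedBall (0:ℂ) n, ‖fderiv ℝ (moll H 0 Ω) z I‖) := by
          rw [ofReal_integral_norm_eq_lintegral_enorm (hint 1),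
            ofReal_integral_norm_eq_lintegral_enorm (hint I)]
      _ ≤ ENNReal.ofReal C' + ENNReal.ofReal C' := by
          gcongr
          · exact hC' 1 (Or.inl rfl) n
          · exact hC' I (Or.inr rfl) n
      _ = ENNReal.ofReal (C' + C') := (ENNReal.ofReal_add hC'0 hC'0).symm
  exact lt_of_le_of_lt (le_of_tendsto' hlim key) ENNReal.ofReal_lt_top

/-- **The criterion.** -/
theorem adm_iff_crit (hH : IsProfile H) {α : ℝ} (hα : 0 < α) {k : ℕ} (hk : α < k) {Ω : Set ℂ}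
    (hΩ : MeasurableSet Ω) : AdmW α k Ω ↔ Crit H α Ω :=
  ⟨fun h => ⟨crit_low hH hα hk hΩ h, crit_high hH hα hk hΩ h⟩, sufficiency hH hα hΩ⟩

end H98.Dbar

end

section

/-! # Admissible sets: final form -/

open MeasureTheory Complex Metric Set Filter Topology
open scoped ContDiff ENNReal NNReal Convolution

namespace H98.Dbar

variable {H : ℝ → ℝ}

lemma fwdDiff_zero_iter (f : ℂ → ℂ) {k : ℕ} (hk : 0 < k) (z : ℂ) :
    (fwdDiff (0:ℂ))^[k] f z = 0 := by
  obtain ⟨n, rfl⟩ : ∃ n, k = n + 1 := ⟨k - 1, by omega⟩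
  rw [Function.iterate_succ_apply']
  unfold fwdDiff
  simp

lemma adm_iff_admW {α : ℝ} {k : ℕ} (hk : 0 < k) (Ω : Set ℂ) :
    Admissible α k Ω ↔ AdmW α k Ω := by
  constructor
  · rintro ⟨C, hC⟩
    refine ⟨C, NNReal.coe_nonneg C, ?_⟩
    intro f A B hA hB hfA hfB
    have h1 := hC f.1 f.2.1 f.2.2
    have h2 : lipNorm α k f.1 ≤ ENNReal.ofReal A + ENNReal.ofReal B := by
      unfold lipNorm
      apply add_le_add
      · apply iSup_le
        intro z
        rw [← ofReal_norm]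
        exact ENNReal.ofReal_le_ofReal (hfA z)
      · apply iSup_le
        intro h
        apply iSup_le
        intro hh
        have hpos : 0 < ‖h‖ ^ α := Real.rpow_pos_of_pos (norm_pos_iff.2 hh) _
        rw [ENNReal.div_le_iff (by simpa using hpos) ENNReal.ofReal_ne_top,
          ← ENNReal.ofReal_mul hB]
        apply iSup_le
        intro z
        rw [← ofReal_norm]
        exact ENNReal.ofReal_le_ofReal (hfB h z)
    have h3 : ‖-∫ z in Ω, dbar f.1 z‖ₑ ≤ ENNReal.ofReal (C * (A + B)) := by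
      refine h1.trans ?_
      rw [ENNReal.ofReal_mul (NNReal.coe_nonneg C), ENNReal.ofReal_add hA hB, ENNReal.ofReal_coe_nnreal]
      gcongr
    rw [enorm_neg, ← ofReal_norm] at h3
    exact (ENNReal.ofReal_le_ofReal_iff (by positivity)).1 h3
  · rintro ⟨C, hC0, hC⟩
    refine ⟨Real.toNNReal (C + 1), ?_⟩
    intro f hf hf'
    by_cases htop : lipNorm α k f = ⊤
    · rw [htop, ENNReal.mul_top]
      · exact le_top
      · have : (0:ℝ) < C + 1 := by positivity
        intro h0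
        rw [ENNReal.coe_eq_zero, Real.toNNReal_eq_zero] at h0
        linarith
    · set S1 : ℝ≥0∞ := ⨆ z, ‖f z‖ₑ with hS1
      set S2 : ℝ≥0∞ := ⨆ h : ℂ, ⨆ _ : h ≠ 0, (⨆ z, ‖(fwdDiff h)^[k] f z‖ₑ) /
        ENNReal.ofReal (‖h‖ ^ α) with hS2
      have hsum : lipNorm α k f = S1 + S2 := rfl
      rw [hsum] at htop
      have h1t : S1 ≠ ⊤ := fun h => htop (by rw [h, top_add])
      have h2t : S2 ≠ ⊤ := fun h => htop (by rw [h, add_top])
      have hA : ∀ z, ‖f z‖ ≤ S1.toReal := by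
        intro z
        have : ‖f z‖ₑ ≤ S1 := le_iSup (fun z => ‖f z‖ₑ) z
        have h3 := ENNReal.toReal_mono h1t this
        rwa [toReal_enorm] at h3
      have hB : ∀ h z, ‖(fwdDiff h)^[k] f z‖ ≤ S2.toReal * ‖h‖ ^ α := by
        intro h z
        by_cases hh : h = 0
        · rw [hh, fwdDiff_zero_iter f hk]
          simp only [norm_zero]
          positivity
        · have hpos : 0 < ‖h‖ ^ α := Real.rpow_pos_of_pos (norm_pos_iff.2 hh) _
          have h4 : (⨆ z, ‖(fwdDiff h)^[k] f z‖ₑ) / ENNReal.ofReal (‖h‖ ^ α) ≤ S2 :=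
            le_iSup₂ (f := fun (h : ℂ) (_ : h ≠ 0) => (⨆ z, ‖(fwdDiff h)^[k] f z‖ₑ) /
              ENNReal.ofReal (‖h‖ ^ α)) h hh
          rw [ENNReal.div_le_iff (by simpa using hpos) ENNReal.ofReal_ne_top] at h4
          have h5 : ‖(fwdDiff h)^[k] f z‖ₑ ≤ S2 * ENNReal.ofReal (‖h‖ ^ α) :=
            (le_iSup (fun z => ‖(fwdDiff h)^[k] f z‖ₑ) z).trans h4
          have h6 := ENNReal.toReal_mono (ENNReal.mul_ne_top h2t ENNReal.ofReal_ne_top) h5
          rwa [toReal_enorm, ENNReal.toReal_mul, ENNReal.toReal_ofReal hpos.le] at h6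
      have h7 := hC ⟨f, hf, hf'⟩ S1.toReal S2.toReal ENNReal.toReal_nonneg ENNReal.toReal_nonneg hA hB
      rw [enorm_neg, ← ofReal_norm, hsum]
      calc ENNReal.ofReal ‖∫ z in Ω, dbar f z‖ ≤ ENNReal.ofReal (C * (S1.toReal + S2.toReal)) :=
            ENNReal.ofReal_le_ofReal h7
        _ ≤ ENNReal.ofReal ((C + 1) * (S1.toReal + S2.toReal)) := by
            apply ENNReal.ofReal_le_ofReal
            gcongr
            linarith
        _ = ENNReal.ofReal (C + 1) * (S1 + S2) := by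
            rw [ENNReal.ofReal_mul (by positivity), ENNReal.ofReal_add ENNReal.toReal_nonneg
              ENNReal.toReal_nonneg, ENNReal.ofReal_toReal h1t, ENNReal.ofReal_toReal h2t]
        _ = _ := rfl

lemma pos_of_lt {α : ℝ} (hα : 0 < α) {k : ℕ} (hk : α < k) : 0 < k := by
  have : (0:ℝ) < k := hα.trans hk
  exact_mod_cast this

/-- The criterion for every `α > 0`. -/
theorem admissible_iff_crit (hH : IsProfile H) {α : ℝ} (hα : 0 < α) {k : ℕ} (hk : α < k)
    {Ω : Set ℂ} (hΩ : MeasurableSet Ω) : Admissible α k Ω ↔ Crit H α Ω :=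
  (adm_iff_admW (pos_of_lt hα hk) Ω).trans (adm_iff_crit hH hα hk hΩ)

lemma exists_profile : ∃ H : ℝ → ℝ, IsProfile H := by
  refine ⟨fun s => Real.smoothTransition (2 * s - 1), ?_, ?_, ⟨1 / 2, by norm_num, ?_⟩, ?_⟩
  · exact Real.smoothTransition.contDiff.comp (by fun_prop)
  · intro s t hst
    exact Real.smoothTransition.monotone (by linarith)
  · intro s hs
    exact Real.smoothTransition.zero_of_nonpos (by linarith)
  · intro s hs
    exact Real.smoothTransition.one_of_one_le (by linarith)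

/-- For `α < 1`: local fractional perimeter. -/
theorem admissible_iff_fracPer {α : ℝ} (hα : 0 < α) (hα1 : α < 1) {k : ℕ} (hk : α < k)
    {Ω : Set ℂ} (hΩ : MeasurableSet Ω) : Admissible α k Ω ↔ fracPer α Ω < ⊤ := by
  obtain ⟨H, hH⟩ := exists_profile
  rw [admissible_iff_crit hH hα hk hΩ]
  exact ⟨fracPer_of_crit hH hα1 hΩ, crit_of_fracPer (by linarith) hH hΩ⟩

/-- For `α ≤ 1` an admissible set has finite or cofinite area. -/
theorem area_of_admissible {α : ℝ} (hα : 0 < α) (hα1 : α ≤ 1) {k : ℕ} (hk : α < k)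
    {Ω : Set ℂ} (hΩ : MeasurableSet Ω) (h : Admissible α k Ω) : volume Ω < ⊤ ∨ volume Ωᶜ < ⊤ := by
  obtain ⟨H, hH⟩ := exists_profile
  exact finite_or_cofinite hH hα1 hΩ ((admissible_iff_crit hH hα hk hΩ).1 h)

end H98.Dbar

end

section

/-!
# Admissible sets: the perimeter criterion and the global fractional perimeter

`Ω` is `α`-admissible if and only if `∑_j 2^{-αj} ‖∇(χ_Ω * φ_j)‖₁ < ∞` (every `α > 0`); for `α < 1`
if and only if `∫_Ω ∫_{Ωᶜ} |z-w|^{α-3} < ∞`.
-/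

open MeasureTheory Complex Metric Set Filter Topology
open scoped ContDiff ENNReal NNReal Convolution

namespace H98.Dbar

variable {H : ℝ → ℝ}

/-- The perimeter criterion: `∑_j 2^{-αj} ‖∇(χ_Ω * φ_j)‖₁ < ∞`. -/
def PerCrit (H : ℝ → ℝ) (α : ℝ) (Ω : Set ℂ) : Prop :=
  (∑' j : ℕ, ENNReal.ofReal ((2:ℝ) ^ (-(α * j))) * ∫⁻ z, ‖fderiv ℝ (moll H j Ω) z‖ₑ) < ⊤

lemma per_weight (α : ℝ) (j : ℕ) : (2:ℝ) ^ (-(α * j)) = ((1 / 2 : ℝ) ^ j) ^ α := by
  rw [one_div, inv_pow, ← Real.rpow_natCast, ← Real.rpow_neg (by norm_num),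
    ← Real.rpow_mul (by norm_num)]
  congr 1; ring

/-- The pairing with the mollified indicator, at every scale. -/
lemma pair_scale' (hH : IsProfile H) {Ω : Set ℂ} (hΩ : MeasurableSet Ω) (j : ℕ) {G : ℂ → ℂ}
    (hG : Integrable G) :
    ∫ z, chi Ω z * cv (dbar (bumpC H j)) G z =
      - ∫ z, dbar (fun z => (moll H j Ω z : ℂ)) z * G z := by
  have hφ : bumpC H j ∈ V := (bV hH j).2
  rw [adj (dbar_mem_V hφ) (chi_bm hΩ) hG, ← integral_neg]
  congr 1
  ext z
  have e2 : (fun u => dbar (bumpC H j) (-u)) = fun u => - dbar (bumpC H j) u := by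
    ext u
    exact dbar_neg_even (V_differentiable hφ) (bumpC_neg j) u
  rw [e2]
  have e3 : (fun z => (moll H j Ω z : ℂ)) = cv (bumpC H j) (chi Ω) := by
    ext z; exact moll_eq hΩ j z
  rw [e3, dbar_cv_left hφ (chi_bm hΩ).locInt]
  unfold cv
  rw [← neg_mul, ← integral_neg]
  congr 2
  ext w
  ring

lemma pair_scale_bound (hH : IsProfile H) {Ω : Set ℂ} (hΩ : MeasurableSet Ω) (j : ℕ) (G : V)
    (hint : Integrable (fun z => fderiv ℝ (moll H j Ω) z)) :
    ‖∫ z, chi Ω z * (cvOp (bV hH j) (dOp G)).1 z‖ ≤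
      (∫ z, ‖fderiv ℝ (moll H j Ω) z‖) * supN G := by
  have hφ : bumpC H j ∈ V := (bV hH j).2
  have e : ∀ z, (cvOp (bV hH j) (dOp G)).1 z = cv (dbar (bumpC H j)) G.1 z := by
    intro z
    change cv (bumpC H j) (dbar G.1) z = _
    rw [← dbar_cv_right hφ G.2, dbar_cv_left hφ (V_locInt G.2)]
  simp_rw [e]
  rw [pair_scale' hH hΩ j (V_integrable G.2), norm_neg, ← integral_mul_const]
  apply norm_integral_le_of_norm_le (hint.norm.mul_const _)
  filter_upwards with z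
  rw [norm_mul]
  have hd : DifferentiableAt ℝ (moll H j Ω) z := ((moll_contDiff hH hΩ j).differentiable (by simp)) z
  have h1 : ‖fderiv ℝ (fun z => (moll H j Ω z : ℂ)) z‖ ≤ ‖fderiv ℝ (moll H j Ω) z‖ := by
    have h0 : fderiv ℝ (fun w => (moll H j Ω w : ℂ)) z =
        Complex.ofRealCLM.comp (fderiv ℝ (moll H j Ω) z) :=
      (Complex.ofRealCLM.hasFDerivAt.comp z hd.hasFDerivAt).fderiv
    rw [h0]
    refine ContinuousLinearMap.opNorm_le_bound _ (norm_nonneg _) ?_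
    intro v
    simp only [ContinuousLinearMap.comp_apply, Complex.ofRealCLM_apply, Complex.norm_real]
    exact (fderiv ℝ (moll H j Ω) z).le_opNorm v
  gcongr
  · exact (norm_dbar_le _ _).trans h1
  · exact le_supN G z

lemma fdk_scale4 (f : ℂ → ℂ) (j : ℕ) (h : ℂ) (k : ℕ) (z : ℂ) :
    (fwdDiff h)^[k] (fun w => 4 ^ j * f (2 ^ j * w)) z =
      4 ^ j * (fwdDiff (2 ^ j * h))^[k] f (2 ^ j * z) := by
  induction k generalizing z with
  | zero => rfl
  | succ k ih =>
    rw [Function.iterate_succ_apply', Function.iterate_succ_apply']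
    have e : ∀ (u : ℂ) (g : ℂ → ℂ) (z : ℂ), fwdDiff u g z = g (z + u) - g z := fun _ _ _ => rfl
    rw [e, e, ih, ih, ← mul_sub, mul_add]

/-- `L¹` norms of the iterated differences of the bumps. -/
lemma bump_fdk (hH : IsProfile H) (k : ℕ) :
    ∃ M : ℝ, 0 ≤ M ∧ ∀ j : ℕ, ∀ h : ℂ, ∫ z, ‖(fwdDiff h)^[k] (bumpC H j) z‖ ≤
      M * min 1 ((2 ^ j * ‖h‖) ^ k) := by
  obtain ⟨M, hM, hb⟩ := fdk_l1_bound (f := bumpC H 0) (bV hH 0).2 k
  refine ⟨M, hM, fun j h => ?_⟩
  have e : bumpC H j = fun w => 4 ^ j * bumpC H 0 (2 ^ j * w) := by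
    ext w
    unfold bumpC bumpAt
    push_cast
    simp
  rw [e]
  simp_rw [fdk_scale4, norm_mul, norm_pow, Complex.norm_ofNat]
  rw [integral_const_mul, integral_comp_two_pow_mul
    (fun z => ‖(fwdDiff ((2:ℂ) ^ j * h))^[k] (bumpC H 0) z‖) j, smul_eq_mul, ← mul_assoc,
    mul_inv_cancel₀ (by positivity), one_mul]
  have h1 := hb (2 ^ j * h)
  rwa [norm_mul, norm_pow, Complex.norm_ofNat] at h1

theorem nec_per (hH : IsProfile H) {α : ℝ} (hα : 0 < α) {k : ℕ} (hk : α < k) {Ω : Set ℂ}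
    (hΩ : MeasurableSet Ω) (h : AdmW α k Ω) : ∃ C' : ℝ, 0 ≤ C' ∧ ∀ (v : ℂ), (v = 1 ∨ v = I) →
    ∀ (J : ℕ) (R : ℝ), ∑ j ∈ Finset.range J, ((1 / 2 : ℝ) ^ j) ^ α *
      ∫ z in closedBall (0:ℂ) R, ‖fderiv ℝ (moll H j Ω) z v‖ ≤ C' := by
  obtain ⟨C, hC0, hC⟩ := h
  obtain ⟨M, hM0, hM⟩ := bump_fdk hH k
  obtain ⟨Cg, hCg0, hCg⟩ := geom_min hα hk
  set q : ℝ := (1 / 2 : ℝ) ^ α with hq
  have hq0 : 0 < q := by rw [hq]; positivity
  have hq1 : q < 1 := Real.rpow_lt_one (by norm_num) (by norm_num) hα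
  have h1q : 0 < 1 - q := by linarith
  refine ⟨2 * (C * (1 / (1 - q) + M * Cg)), by positivity, ?_⟩
  intro v hv J R
  have hus : ∀ j, ContDiff ℝ ∞ (moll H j Ω) := fun j => moll_contDiff hH hΩ j
  have hud : ∀ j, Differentiable ℝ (moll H j Ω) := fun j => (hus j).differentiable (by simp)
  have hcont : ∀ (j : ℕ) (w : ℂ), Continuous (fun z => fderiv ℝ (moll H j Ω) z w) := fun j w =>
    ((hus j).continuous_fderiv (by simp)).clm_apply continuous_const
  set Fv : ℕ → ℂ → ℝ := fun j z => fderiv ℝ (moll H j Ω) z v with hFv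
  have hFm : ∀ j, Measurable (Fv j) := fun j => (hcont j v).measurable
  have hsgl : ∀ j, LocallyIntegrable (sg (Fv j) R) := fun j => (sg_bm (hFm j) R).locInt
  have hφ : ∀ j, bumpC H j ∈ V := fun j => (bV hH j).2
  set F : ℕ → V := fun j => ⟨cv (bumpC H j) (sg (Fv j) R),
    cv_mem_V (hφ j) (hsgl j) (sg_supp _ _)⟩ with hF
  set c : ℕ → ℝ := fun j => ((1 / 2 : ℝ) ^ j) ^ α with hcdef
  have hc0 : ∀ j, 0 ≤ c j := fun j => by rw [hcdef]; positivity
  set f : V := ∑ j ∈ Finset.range J, ((c j : ℝ) : ℂ) • F j with hf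
  have hsup : ∀ j, supN (F j) ≤ 1 := by
    intro j
    apply supN_le
    intro z
    have := cv_bound (V_integrable (hφ j)) (sg_bm (hFm j) R).bd z
    rw [mul_one, show (∫ w, ‖bumpC H j w‖) = 1 from (bV_prob hH j).intNorm] at this
    exact this
  have hA : ∀ z, ‖f.1 z‖ ≤ 1 / (1 - q) := by
    intro z
    refine (le_supN f z).trans ?_
    refine (sum_smul_le supN c hc0 F _ hsup J).trans ?_
    calc ∑ j ∈ Finset.range J, c j * 1 = ∑ j ∈ Finset.range J, q ^ j := by
          apply Finset.sum_congr rfl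
          intro j _
          rw [hcdef, mul_one]
          exact half_pow_rpow α j
      _ ≤ 1 / (1 - q) := geom_sum_le hq0.le hq1 J
  have hB : ∀ h z, ‖(fwdDiff h)^[k] f.1 z‖ ≤ (M * Cg) * ‖h‖ ^ α := by
    intro h z
    rw [← fdOp_pow]
    have e1 : ((fdOp h) ^ k) f = ∑ j ∈ Finset.range J, ((c j : ℝ) : ℂ) • ((fdOp h) ^ k) (F j) := by
      rw [hf, map_sum]
      simp_rw [map_smul]
    refine (le_supN _ z).trans ?_
    rw [e1]
    refine (sum_smul_le supN c hc0 (fun j => ((fdOp h) ^ k) (F j))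
      (fun j => (M * min 1 ((2 ^ j * ‖h‖) ^ k))) ?_ J).trans ?_
    · intro j
      apply supN_le
      intro z
      rw [fdOp_pow]
      have e2 : (fwdDiff h)^[k] (F j).1 = cv ((fwdDiff h)^[k] (bumpC H j)) (sg (Fv j) R) :=
        fdk_cv (hφ j) (hsgl j) h k
      rw [e2]
      have := cv_bound (V_integrable (fdk_mem_V (hφ j) h k)) (sg_bm (hFm j) R).bd z
      rw [mul_one] at this
      exact this.trans (hM j h)
    · calc ∑ j ∈ Finset.range J, c j * (M * min 1 ((2 ^ j * ‖h‖) ^ k))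
          = M * ∑ j ∈ Finset.range J, ((1 / 2 : ℝ) ^ j) ^ α * min 1 ((2 ^ j * ‖h‖) ^ k) := by
            rw [Finset.mul_sum]
            apply Finset.sum_congr rfl
            intro j _
            rw [hcdef]
            ring
        _ ≤ M * (Cg * ‖h‖ ^ α) := by
            gcongr
            exact hCg J ‖h‖ (norm_nonneg h)
        _ = (M * Cg) * ‖h‖ ^ α := by ring
  have hmain := hC f (1 / (1 - q)) (M * Cg) (by positivity) (by positivity) hA hB
  have e0 : ∫ z in Ω, dbar f.1 z = chiL hΩ (dOp f) := by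
    rw [chiL_apply]
    exact setIntegral_chi hΩ _
  have e1 : chiL hΩ (dOp f) = ∑ j ∈ Finset.range J, ((c j : ℝ) : ℂ) * chiL hΩ (dOp (F j)) := by
    rw [hf, map_sum, map_sum]
    simp_rw [map_smul, smul_eq_mul]
  set a : ℕ → ℝ := fun j => ∫ z, fderiv ℝ (moll H j Ω) z 1 * sgr (Fv j) R z with ha
  set b : ℕ → ℝ := fun j => ∫ z, fderiv ℝ (moll H j Ω) z I * sgr (Fv j) R z with hb
  have e2 : ∀ j, chiL hΩ (dOp (F j)) = -((1 / 2 : ℂ) * ((a j : ℂ) + I * (b j : ℂ))) := by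
    intro j
    rw [chiL_apply]
    have e3 : ∀ z, (dOp (F j)).1 z = cv (dbar (bumpC H j)) (sg (Fv j) R) z := by
      intro z
      exact dbar_cv_left (hφ j) (hsgl j) z
    simp_rw [e3]
    rw [pair_scale' hH hΩ j (sg_integrable (hFm j) R)]
    congr 1
    have e4 : ∀ z, dbar (fun z => (moll H j Ω z : ℂ)) z * sg (Fv j) R z =
      (1 / 2 : ℂ) * (((fderiv ℝ (moll H j Ω) z 1 * sgr (Fv j) R z : ℝ) : ℂ) +
        I * ((fderiv ℝ (moll H j Ω) z I * sgr (Fv j) R z : ℝ) : ℂ)) := by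
      intro z
      rw [dbar_real (moll H j Ω) z (hud j z), sg_eq_sgr]
      push_cast
      ring
    simp_rw [e4]
    rw [integral_const_mul, integral_add, integral_const_mul, integral_complex_ofReal,
      integral_complex_ofReal]
    · exact (cont_mul_sgr_integrable (hcont j 1) (hFm j) R).ofReal
    · exact ((cont_mul_sgr_integrable (hcont j I) (hFm j) R).ofReal).const_mul I
  have e5 : chiL hΩ (dOp f) = -((1 / 2 : ℂ) *
      (((∑ j ∈ Finset.range J, c j * a j : ℝ) : ℂ) +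
        I * ((∑ j ∈ Finset.range J, c j * b j : ℝ) : ℂ))) := by
    rw [e1]
    simp_rw [e2]
    push_cast
    rw [Finset.mul_sum, ← Finset.sum_add_distrib, Finset.mul_sum, ← Finset.sum_neg_distrib]
    refine Finset.sum_congr rfl fun j _ => ?_
    ring
  rw [e0, e5, norm_neg] at hmain
  set a' : ℝ := ∑ j ∈ Finset.range J, c j * a j with ha'
  set b' : ℝ := ∑ j ∈ Finset.range J, c j * b j with hb'
  have hre : |a'| ≤ 2 * (C * (1 / (1 - q) + M * Cg)) := by
    have h1 := Complex.abs_re_le_norm ((1 / 2 : ℂ) * ((a' : ℂ) + I * (b' : ℂ)))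
    have h2 : ((1 / 2 : ℂ) * ((a' : ℂ) + I * (b' : ℂ))).re = 1 / 2 * a' := by
      simp [Complex.mul_re, Complex.mul_im]
    rw [h2, abs_mul, abs_of_pos (by norm_num : (0:ℝ) < 1 / 2)] at h1
    linarith
  have him : |b'| ≤ 2 * (C * (1 / (1 - q) + M * Cg)) := by
    have h1 := Complex.abs_im_le_norm ((1 / 2 : ℂ) * ((a' : ℂ) + I * (b' : ℂ)))
    have h2 : ((1 / 2 : ℂ) * ((a' : ℂ) + I * (b' : ℂ))).im = 1 / 2 * b' := by
      simp [Complex.mul_re, Complex.mul_im]
    rw [h2, abs_mul, abs_of_pos (by norm_num : (0:ℝ) < 1 / 2)] at h1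
    linarith
  have e6 : ∀ j, ∫ z in closedBall (0:ℂ) R, ‖Fv j z‖ = ∫ z, Fv j z * sgr (Fv j) R z := by
    intro j
    simp_rw [mul_sgr_self]
    rw [integral_indicator measurableSet_closedBall]
  change ∑ j ∈ Finset.range J, c j * ∫ z in closedBall (0:ℂ) R, ‖Fv j z‖ ≤ _
  simp_rw [e6]
  rcases hv with hv | hv
  · have h7 : ∀ j, ∫ z, Fv j z * sgr (Fv j) R z = a j := by
      intro j
      rw [ha, hFv, hv]
    simp_rw [h7]
    exact (le_abs_self a').trans hre
  · have h7 : ∀ j, ∫ z, Fv j z * sgr (Fv j) R z = b j := by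
      intro j
      rw [hb, hFv, hv]
    simp_rw [h7]
    exact (le_abs_self b').trans him

theorem perCrit_of_adm (hH : IsProfile H) {α : ℝ} (hα : 0 < α) {k : ℕ} (hk : α < k) {Ω : Set ℂ}
    (hΩ : MeasurableSet Ω) (h : AdmW α k Ω) : PerCrit H α Ω := by
  obtain ⟨C', hC'0, hC'⟩ := nec_per hH hα hk hΩ h
  have hcd : ∀ j, Continuous (fun z => fderiv ℝ (moll H j Ω) z) := fun j =>
    (moll_contDiff hH hΩ j).continuous_fderiv (by simp)
  have key : ∀ J : ℕ, ∑ j ∈ Finset.range J, ENNReal.ofReal ((2:ℝ) ^ (-(α * j))) *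
      ∫⁻ z, ‖fderiv ℝ (moll H j Ω) z‖ₑ ≤ ENNReal.ofReal (C' + C') := by
    intro J
    have hlim : Tendsto (fun n : ℕ => ∑ j ∈ Finset.range J, ENNReal.ofReal ((2:ℝ) ^ (-(α * j))) *
        ∫⁻ z in closedBall (0:ℂ) n, ‖fderiv ℝ (moll H j Ω) z‖ₑ) atTop
        (𝓝 (∑ j ∈ Finset.range J, ENNReal.ofReal ((2:ℝ) ^ (-(α * j))) *
          ∫⁻ z, ‖fderiv ℝ (moll H j Ω) z‖ₑ)) := by
      apply tendsto_finsetSum
      intro j _
      apply ENNReal.Tendsto.const_mul
      · exact (aecover_closedBall (μ := volume) (x := (0:ℂ)) tendsto_natCast_atTop_atTop).lintegral_tendsto_of_countably_generated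
          ((hcd j).measurable.enorm.aemeasurable)
      · right; exact ENNReal.ofReal_ne_top
    refine le_of_tendsto' hlim ?_
    intro n
    have hcont : ∀ (j : ℕ) (w : ℂ), Continuous (fun z => fderiv ℝ (moll H j Ω) z w) := fun j w =>
      (hcd j).clm_apply continuous_const
    have hint : ∀ (j : ℕ) (w : ℂ),
        IntegrableOn (fun z => fderiv ℝ (moll H j Ω) z w) (closedBall (0:ℂ) n) :=
      fun j w => (hcont j w).continuousOn.integrableOn_compact (isCompact_closedBall _ _)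
    have h1 : ∀ j : ℕ, ENNReal.ofReal ((2:ℝ) ^ (-(α * j))) *
        ∫⁻ z in closedBall (0:ℂ) n, ‖fderiv ℝ (moll H j Ω) z‖ₑ ≤
        ENNReal.ofReal (((1 / 2 : ℝ) ^ j) ^ α *
            (∫ z in closedBall (0:ℂ) n, ‖fderiv ℝ (moll H j Ω) z 1‖) +
          ((1 / 2 : ℝ) ^ j) ^ α *
            (∫ z in closedBall (0:ℂ) n, ‖fderiv ℝ (moll H j Ω) z I‖)) := by
      intro j
      have hw : 0 ≤ ((1 / 2 : ℝ) ^ j) ^ α := by positivity
      have hi1 : 0 ≤ ∫ z in closedBall (0:ℂ) n, ‖fderiv ℝ (moll H j Ω) z 1‖ :=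
        integral_nonneg fun _ => norm_nonneg _
      have hi2 : 0 ≤ ∫ z in closedBall (0:ℂ) n, ‖fderiv ℝ (moll H j Ω) z I‖ :=
        integral_nonneg fun _ => norm_nonneg _
      rw [← mul_add, ENNReal.ofReal_mul hw, per_weight]
      gcongr
      have s1 : ∫⁻ z in closedBall (0:ℂ) n, ‖fderiv ℝ (moll H j Ω) z‖ₑ ≤
          ∫⁻ z in closedBall (0:ℂ) n, (‖fderiv ℝ (moll H j Ω) z 1‖ₑ +
            ‖fderiv ℝ (moll H j Ω) z I‖ₑ) := by
        apply lintegral_mono
        intro z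
        have h1 := norm_le_parts (fderiv ℝ (moll H j Ω) z)
        change ‖fderiv ℝ (moll H j Ω) z‖ₑ ≤ ‖fderiv ℝ (moll H j Ω) z 1‖ₑ +
          ‖fderiv ℝ (moll H j Ω) z I‖ₑ
        rw [← ofReal_norm, ← ofReal_norm, ← ofReal_norm,
          ← ENNReal.ofReal_add (norm_nonneg _) (norm_nonneg _)]
        exact ENNReal.ofReal_le_ofReal h1
      refine s1.trans (le_of_eq ?_)
      rw [lintegral_add_left ((hcont j 1).measurable.enorm) _, ENNReal.ofReal_add hi1 hi2,
        ofReal_integral_norm_eq_lintegral_enorm (hint j 1),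
        ofReal_integral_norm_eq_lintegral_enorm (hint j I)]
    refine (Finset.sum_le_sum fun j _ => h1 j).trans ?_
    rw [← ENNReal.ofReal_sum_of_nonneg]
    · apply ENNReal.ofReal_le_ofReal
      rw [Finset.sum_add_distrib]
      exact add_le_add (hC' 1 (Or.inl rfl) J n) (hC' I (Or.inr rfl) J n)
    · intro j _
      have hi1 : 0 ≤ ∫ z in closedBall (0:ℂ) n, ‖fderiv ℝ (moll H j Ω) z 1‖ :=
        integral_nonneg fun _ => norm_nonneg _
      have hi2 : 0 ≤ ∫ z in closedBall (0:ℂ) n, ‖fderiv ℝ (moll H j Ω) z I‖ :=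
        integral_nonneg fun _ => norm_nonneg _
      positivity
  exact lt_of_le_of_lt (ENNReal.tsum_le_of_sum_range_le key) ENNReal.ofReal_lt_top

/-- `L¹` norms of the gradients. -/
noncomputable def Dj (H : ℝ → ℝ) (Ω : Set ℂ) (j : ℕ) : ℝ := ∫ z, ‖fderiv ℝ (moll H j Ω) z‖

lemma Dj_nonneg (H : ℝ → ℝ) (Ω : Set ℂ) (j : ℕ) : 0 ≤ Dj H Ω j :=
  integral_nonneg fun _ => norm_nonneg _

lemma perCrit_integrable (hH : IsProfile H) {α : ℝ} {Ω : Set ℂ} (hΩ : MeasurableSet Ω)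
    (h : PerCrit H α Ω) (j : ℕ) : Integrable (fun z => fderiv ℝ (moll H j Ω) z) := by
  refine ⟨?_, ?_⟩
  · exact ((moll_contDiff hH hΩ j).continuous_fderiv (by simp)).aestronglyMeasurable
  · have h1 := ENNReal.ne_top_of_tsum_ne_top h.ne j
    rw [hasFiniteIntegral_iff_enorm]
    by_contra hcon
    rw [not_lt, top_le_iff] at hcon
    rw [hcon] at h1
    apply h1
    rw [ENNReal.mul_top]
    rw [ne_eq, ENNReal.ofReal_eq_zero, not_le]
    positivity

lemma perCrit_sum (hH : IsProfile H) {α : ℝ} {Ω : Set ℂ} (hΩ : MeasurableSet Ω)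
    (h : PerCrit H α Ω) (J : ℕ) : ∑ j ∈ Finset.range J, ((1 / 2 : ℝ) ^ j) ^ α * Dj H Ω j ≤
      (∑' j : ℕ, ENNReal.ofReal ((2:ℝ) ^ (-(α * j))) *
        ∫⁻ z, ‖fderiv ℝ (moll H j Ω) z‖ₑ).toReal := by
  have h1 : ∀ j, Dj H Ω j = (∫⁻ z, ‖fderiv ℝ (moll H j Ω) z‖ₑ).toReal := by
    intro j
    unfold Dj
    rw [integral_norm_eq_lintegral_enorm (perCrit_integrable hH hΩ h j).1]
  have h2 : ∀ j : ℕ, ((1 / 2 : ℝ) ^ j) ^ α * Dj H Ω j =
      (ENNReal.ofReal ((2:ℝ) ^ (-(α * j))) * ∫⁻ z, ‖fderiv ℝ (moll H j Ω) z‖ₑ).toReal := by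
    intro j
    rw [ENNReal.toReal_mul, ENNReal.toReal_ofReal (by positivity), h1, per_weight]
  simp_rw [h2]
  rw [← ENNReal.toReal_sum]
  · apply ENNReal.toReal_mono h.ne
    exact ENNReal.sum_le_tsum _
  · intro j _
    exact ENNReal.ne_top_of_tsum_ne_top h.ne j

lemma per_ring {R : Type*} [Ring R] {w y p d x : R} (h1 : Commute w (y * p * d))
    (h2 : Commute y (p * d)) : w * (y * p * d * x) = p * d * (y * (w * x)) := by
  calc w * (y * p * d * x) = (w * (y * p * d)) * x := by simp only [mul_assoc]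
    _ = ((y * p * d) * w) * x := by rw [h1.eq]
    _ = (y * (p * d)) * (w * x) := by simp only [mul_assoc]
    _ = ((p * d) * y) * (w * x) := by rw [h2.eq]
    _ = _ := by simp only [mul_assoc]

lemma tele_per_ring {R : Type*} [Ring R] {a b y y' d x q q' : R} (hq' : q' = y' * a)
    (hq : q = y * b) (h1 : Commute (a - b) (y' * a * d)) (h2 : Commute y' (a * d))
    (h3 : Commute (a - b) (y * b * d)) (h4 : Commute y (b * d)) :
    (a - b) * ((q' + q) * d * x) =
      a * d * (y' * ((a - b) * x)) + b * d * (y * ((a - b) * x)) := by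
  rw [← per_ring h1 h2, ← per_ring h3 h4, hq, hq', ← mul_add, ← add_mul, ← add_mul]

lemma tele_per (hH : IsProfile H) (k j : ℕ) :
    (Qo hH k (j + 1)) ^ 2 * dOp - (Qo hH k j) ^ 2 * dOp =
      Ph hH (j + 1) * dOp * (Yo hH k (j + 1) * ((Ph hH (j + 1) - Ph hH j) * Xo hH k j)) +
      Ph hH j * dOp * (Yo hH k j * ((Ph hH (j + 1) - Ph hH j) * Xo hH k j)) := by
  have hw : ∀ {T : Module.End ℂ V}, (∀ i, Commute (Ph hH i) T) →
      Commute (Ph hH (j + 1) - Ph hH j) T := fun hT =>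
    Commute.sub_left (R := Module.End ℂ V) (hT (j + 1)) (hT j)
  have hwY : ∀ i, Commute (Ph hH (j + 1) - Ph hH j) (Yo hH k i) := fun i =>
    hw fun l => (Yo_comm (fun m => Ph_comm hH m l)).symm
  have hwP : ∀ i, Commute (Ph hH (j + 1) - Ph hH j) (Ph hH i) := fun i =>
    hw fun l => Ph_comm hH l i
  have hwd : Commute (Ph hH (j + 1) - Ph hH j) dOp := hw fun l => Ph_dOp hH l
  have c1 : ∀ i, Commute (Ph hH (j + 1) - Ph hH j) (Yo hH k i * Ph hH i * dOp) := fun i =>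
    ((hwY i).mul_right (hwP i)).mul_right hwd
  have c2 : ∀ i, Commute (Yo hH k i) (Ph hH i * dOp) := fun i =>
    (Yo_comm fun m => Ph_comm hH m i).mul_right (Yo_comm (Ph_dOp hH))
  rw [tele_op]
  exact tele_per_ring (R := Module.End ℂ V) (Qo_eq hH k (j + 1)) (Qo_eq hH k j) (c1 (j + 1))
    (c2 (j + 1)) (c1 j) (c2 j)

theorem adm_of_perCrit (hH : IsProfile H) {α : ℝ} (hα : 0 < α) {k : ℕ} {Ω : Set ℂ}
    (hΩ : MeasurableSet Ω) (h : PerCrit H α Ω) : AdmW α k Ω := by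
  set T : ℝ := (∑' j : ℕ, ENNReal.ofReal ((2:ℝ) ^ (-(α * j))) *
        ∫⁻ z, ‖fderiv ℝ (moll H j Ω) z‖ₑ).toReal with hT
  have hT0 : 0 ≤ T := ENNReal.toReal_nonneg
  have hsum := perCrit_sum hH hΩ h
  have hD0 : Dj H Ω 0 ≤ T := by
    have := hsum 1
    simpa using this
  set K1 : ℝ := 2 ^ (k + 1) * (2 * ((k + 1) * (2 ^ k * (k:ℝ) ^ α))) with hK1
  have hK10 : 0 ≤ K1 := by rw [hK1]; positivity
  set K0 : ℝ := (1 + 2 ^ (k + 1)) * 2 ^ (k + 1) with hK0
  have hK00 : 0 ≤ K0 := by rw [hK0]; positivity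
  have h2a : (0:ℝ) ≤ 2 ^ α := by positivity
  refine ⟨T * K0 + K1 * ((2 ^ α + 1) * T), by positivity, ?_⟩
  intro f A B hA hB hfA hfB
  set g : V := dOp f with hg
  have e0 : ∫ z in Ω, dbar f.1 z = ∫ z, chi Ω z * g.1 z := setIntegral_chi hΩ _
  rw [e0]
  have low : ‖∫ z, chi Ω z * ((Qo hH k 0 ^ 2) g).1 z‖ ≤ T * (K0 * A) := by
    have e1 : (Qo hH k 0 ^ 2) g = cvOp (bV hH 0) (dOp ((Qo hH k 0 * Yo hH k 0) f)) := by
      have c1 : Commute (Qo hH k 0 * Yo hH k 0) (Ph hH 0 * dOp) := by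
        apply Commute.mul_left
        · exact (Qo_comm fun i => (Ph_comm hH i 0)).mul_right (Qo_comm (Ph_dOp hH))
        · exact (Yo_comm fun i => (Ph_comm hH i 0)).mul_right (Yo_comm (Ph_dOp hH))
      have c2 : Qo hH k 0 ^ 2 = (Qo hH k 0 * Yo hH k 0) * Ph hH 0 := by
        rw [sq, mul_assoc, ← Qo_eq]
      have c4 : (Qo hH k 0 ^ 2) * dOp = Ph hH 0 * dOp * (Qo hH k 0 * Yo hH k 0) := by
        rw [c2, mul_assoc, c1.eq]
      exact LinearMap.congr_fun c4 f
    rw [e1]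
    refine (pair_scale_bound hH hΩ 0 _ (perCrit_integrable hH hΩ h 0)).trans ?_
    have hQ : OpLe supN (Qo hH k 0) (1 + 2 ^ (k + 1)) :=
      (OpLe.one _).sub ((OneSub_le (Ph_supN hH 0)).pow (by norm_num) _)
    have hQY := hQ.mul (Yo_le hH k 0 (Ph_supN hH 0)) (by positivity)
    have h3 : supN ((Qo hH k 0 * Yo hH k 0) f) ≤ K0 * A := by
      refine (hQY f).trans ?_
      rw [← hK0]
      gcongr
      exact supN_le hfA
    exact mul_le_mul hD0 h3 (apply_nonneg _ _) hT0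
  have piece : ∀ i j : ℕ, ‖∫ z, chi Ω z *
      ((Ph hH i * dOp * (Yo hH k i * ((Ph hH (j + 1) - Ph hH j) * Xo hH k j))) f).1 z‖ ≤
      K1 * B * (((1 / 2 : ℝ) ^ j) ^ α * Dj H Ω i) := by
    intro i j
    have e1 : (Ph hH i * dOp * (Yo hH k i * ((Ph hH (j + 1) - Ph hH j) * Xo hH k j))) f =
        cvOp (bV hH i) (dOp (Yo hH k i ((Ph hH (j + 1) - Ph hH j) (Xo hH k j f)))) := rfl
    rw [e1]
    refine (pair_scale_bound hH hΩ i _ (perCrit_integrable hH hΩ h i)).trans ?_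
    have h2 := Xo_bound hH hα hB hfB j
    have h3 : OpLe supN (Ph hH (j + 1) - Ph hH j) (1 + 1) :=
      (Ph_supN hH (j + 1)).sub (Ph_supN hH j)
    have h4 : supN (Yo hH k i ((Ph hH (j + 1) - Ph hH j) (Xo hH k j f))) ≤
        2 ^ (k + 1) * ((1 + 1) * ((k + 1) * (2 ^ k * (B * (k * (1 / 2 : ℝ) ^ j) ^ α)))) := by
      refine (Yo_le hH k i (Ph_supN hH i) _).trans ?_
      gcongr
      refine (h3 _).trans ?_
      gcongr
    have hDi := Dj_nonneg H Ω i
    calc Dj H Ω i * supN (Yo hH k i ((Ph hH (j + 1) - Ph hH j) (Xo hH k j f))) ≤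
        Dj H Ω i * (2 ^ (k + 1) * ((1 + 1) *
          ((k + 1) * (2 ^ k * (B * (k * (1 / 2 : ℝ) ^ j) ^ α))))) :=
          mul_le_mul_of_nonneg_left h4 hDi
      _ = K1 * B * (((1 / 2 : ℝ) ^ j) ^ α * Dj H Ω i) := by
          rw [Real.mul_rpow (by positivity) (by positivity), hK1]
          ring
  have high : ∀ j, ‖∫ z, chi Ω z * (((Qo hH k (j + 1) ^ 2) g - (Qo hH k j ^ 2) g)).1 z‖ ≤
      K1 * B * (((1 / 2 : ℝ) ^ j) ^ α * Dj H Ω (j + 1) + ((1 / 2 : ℝ) ^ j) ^ α * Dj H Ω j) := by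
    intro j
    have e1 : (Qo hH k (j + 1) ^ 2) g - (Qo hH k j ^ 2) g =
        (Ph hH (j + 1) * dOp * (Yo hH k (j + 1) * ((Ph hH (j + 1) - Ph hH j) * Xo hH k j))) f +
        (Ph hH j * dOp * (Yo hH k j * ((Ph hH (j + 1) - Ph hH j) * Xo hH k j))) f :=
      LinearMap.congr_fun (tele_per hH k j) f
    rw [e1]
    set u := (Ph hH (j + 1) * dOp * (Yo hH k (j + 1) *
      ((Ph hH (j + 1) - Ph hH j) * Xo hH k j))) f with hu
    set w := (Ph hH j * dOp * (Yo hH k j * ((Ph hH (j + 1) - Ph hH j) * Xo hH k j))) f with hw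
    have e2 : ∫ z, chi Ω z * (u + w).1 z = (∫ z, chi Ω z * u.1 z) + ∫ z, chi Ω z * w.1 z := by
      rw [← integral_add (integrable_chi_mul hΩ (V_integrable u.2))
        (integrable_chi_mul hΩ (V_integrable w.2))]
      congr 1
      ext z
      have : (u + w).1 z = u.1 z + w.1 z := rfl
      rw [this]; ring
    rw [e2, mul_add]
    exact (norm_add_le _ _).trans (add_le_add (piece (j + 1) j) (piece j j))
  have tel : ∀ J, ‖∫ z, chi Ω z * ((Qo hH k J ^ 2) g).1 z‖ ≤ T * (K0 * A) +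
      ∑ j ∈ Finset.range J, K1 * B * (((1 / 2 : ℝ) ^ j) ^ α * Dj H Ω (j + 1) +
        ((1 / 2 : ℝ) ^ j) ^ α * Dj H Ω j) := by
    intro J
    induction J with
    | zero => simpa using low
    | succ J ih =>
      have e1 : ∫ z, chi Ω z * ((Qo hH k (J + 1) ^ 2) g).1 z =
          (∫ z, chi Ω z * ((Qo hH k J ^ 2) g).1 z) +
          ∫ z, chi Ω z * (((Qo hH k (J + 1) ^ 2) g - (Qo hH k J ^ 2) g)).1 z := by
        rw [← integral_add (integrable_chi_mul hΩ (V_integrable (Subtype.property _)))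
          (integrable_chi_mul hΩ (V_integrable (Subtype.property _)))]
        congr 1
        ext z
        have : ((Qo hH k (J + 1) ^ 2) g - (Qo hH k J ^ 2) g).1 z =
          ((Qo hH k (J + 1) ^ 2) g).1 z - ((Qo hH k J ^ 2) g).1 z := rfl
        rw [this]
        ring
      rw [e1, Finset.sum_range_succ, ← add_assoc]
      exact (norm_add_le _ _).trans (add_le_add ih (high J))
  have hsum2 : ∀ J, ∑ j ∈ Finset.range J, (((1 / 2 : ℝ) ^ j) ^ α * Dj H Ω (j + 1) +
        ((1 / 2 : ℝ) ^ j) ^ α * Dj H Ω j) ≤ (2 ^ α + 1) * T := by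
    intro J
    rw [Finset.sum_add_distrib, add_mul, one_mul]
    refine add_le_add ?_ (hsum J)
    have h5 : ∀ j : ℕ, ((1 / 2 : ℝ) ^ j) ^ α = 2 ^ α * ((1 / 2 : ℝ) ^ (j + 1)) ^ α := by
      intro j
      rw [← Real.mul_rpow (by norm_num) (by positivity)]
      congr 1
      rw [pow_succ]
      ring
    calc ∑ j ∈ Finset.range J, ((1 / 2 : ℝ) ^ j) ^ α * Dj H Ω (j + 1) =
        2 ^ α * ∑ j ∈ Finset.range J, ((1 / 2 : ℝ) ^ (j + 1)) ^ α * Dj H Ω (j + 1) := by
          rw [Finset.mul_sum]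
          refine Finset.sum_congr rfl fun j _ => ?_
          rw [h5 j]; ring
      _ ≤ 2 ^ α * ∑ j ∈ Finset.range (J + 1), ((1 / 2 : ℝ) ^ j) ^ α * Dj H Ω j := by
          apply mul_le_mul_of_nonneg_left _ h2a
          rw [Finset.sum_range_succ']
          have := Dj_nonneg H Ω 0
          have h6 : 0 ≤ ((1 / 2 : ℝ) ^ 0) ^ α * Dj H Ω 0 := by positivity
          linarith
      _ ≤ 2 ^ α * T := mul_le_mul_of_nonneg_left (hsum (J + 1)) h2a
  have main : ∀ J, ‖∫ z, chi Ω z * g.1 z‖ ≤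
      l1N ((1 - (Qo hH k J) ^ 2 : Module.End ℂ V) g) +
        (T * (K0 * A) + K1 * B * ((2 ^ α + 1) * T)) := by
    intro J
    have e1 : ∫ z, chi Ω z * g.1 z =
        (∫ z, chi Ω z * ((1 - (Qo hH k J) ^ 2 : Module.End ℂ V) g).1 z) +
        ∫ z, chi Ω z * ((Qo hH k J ^ 2) g).1 z := by
      rw [← integral_add (integrable_chi_mul hΩ (V_integrable (Subtype.property _)))
          (integrable_chi_mul hΩ (V_integrable (Subtype.property _)))]
      congr 1
      ext z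
      have : ((1 - (Qo hH k J) ^ 2 : Module.End ℂ V) g).1 z = g.1 z - ((Qo hH k J ^ 2) g).1 z := rfl
      rw [this]
      ring
    rw [e1]
    refine (norm_add_le _ _).trans (add_le_add (chi_norm_le hΩ _) ((tel J).trans ?_))
    gcongr
    rw [← Finset.mul_sum]
    gcongr
    exact hsum2 J
  have lim : Tendsto (fun J => l1N ((1 - (Qo hH k J) ^ 2 : Module.End ℂ V) g) +
      (T * (K0 * A) + K1 * B * ((2 ^ α + 1) * T))) atTop
      (𝓝 (0 + (T * (K0 * A) + K1 * B * ((2 ^ α + 1) * T)))) :=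
    (approx_S hH k g).add_const _
  have fin := ge_of_tendsto' lim main
  calc ‖∫ z, chi Ω z * g.1 z‖ ≤ 0 + (T * (K0 * A) + K1 * B * ((2 ^ α + 1) * T)) := fin
    _ ≤ (T * K0 + K1 * ((2 ^ α + 1) * T)) * (A + B) := by
        have h7 : 0 ≤ T * K0 * B := by positivity
        have h8 : 0 ≤ K1 * ((2 ^ α + 1) * T) * A := by positivity
        nlinarith

/-- **The perimeter criterion**, for every `α > 0`. -/
theorem admissible_iff_perCrit (hH : IsProfile H) {α : ℝ} (hα : 0 < α) {k : ℕ} (hk : α < k)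
    {Ω : Set ℂ} (hΩ : MeasurableSet Ω) : Admissible α k Ω ↔ PerCrit H α Ω :=
  (adm_iff_admW (pos_of_lt hα hk) Ω).trans
    ⟨perCrit_of_adm hH hα hk hΩ, adm_of_perCrit hH hα hΩ⟩

/-! ### The global fractional perimeter -/

/-- The part of the kernel away from the diagonal. -/
noncomputable def farK (α : ℝ) (u : ℂ) : ℝ≥0∞ :=
  {u : ℂ | 1 ≤ ‖u‖}.indicator (fun u => ENNReal.ofReal (‖u‖ ^ (α - 3))) u

lemma farK_meas (α : ℝ) : Measurable (farK α) := by
  unfold farK
  apply Measurable.indicator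
  · exact (measurable_norm.pow_const _).ennreal_ofReal
  · exact measurableSet_le measurable_const measurable_norm

lemma farK_lt_top {α : ℝ} (hα1 : α < 1) : ∫⁻ u, farK α u < ⊤ := by
  have h1 : ∀ u : ℂ, farK α u ≤ ENNReal.ofReal (2 ^ (3 - α)) *
      ENNReal.ofReal ((1 + ‖u‖) ^ (-(3 - α))) := by
    intro u
    unfold farK
    by_cases hu : u ∈ {u : ℂ | 1 ≤ ‖u‖}
    · rw [indicator_of_mem hu, ← ENNReal.ofReal_mul (by positivity)]
      apply ENNReal.ofReal_le_ofReal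
      have hu1 : 1 ≤ ‖u‖ := hu
      have e1 : (2:ℝ) ^ (3 - α) = ((1 / 2 : ℝ)) ^ (-(3 - α)) := by
        rw [one_div, Real.inv_rpow (by norm_num), ← Real.rpow_neg (by norm_num), neg_neg]
      rw [e1, ← Real.mul_rpow (by norm_num) (by positivity),
        show α - 3 = -(3 - α) by ring]
      apply Real.rpow_le_rpow_of_nonpos (by positivity) (by linarith) (by linarith)
    · rw [indicator_of_notMem hu]
      exact bot_le
  refine lt_of_le_of_lt (lintegral_mono h1) ?_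
  rw [lintegral_const_mul _ (by fun_prop)]
  apply ENNReal.mul_lt_top ENNReal.ofReal_lt_top
  apply finite_integral_one_add_norm
  rw [Complex.finrank_real_complex]
  push_cast
  linarith

lemma global_le (α : ℝ) (Ω : Set ℂ) :
    (∫⁻ z in Ω, ∫⁻ w in Ωᶜ, ENNReal.ofReal (‖z - w‖ ^ (α - 3))) ≤
      fracPer α Ω + ∫⁻ z in Ω, ∫⁻ w in Ωᶜ, farK α (z - w) := by
  unfold fracPer
  have hm2 : Measurable (fun z : ℂ => ∫⁻ w in Ωᶜ, farK α (z - w)) := by
    apply Measurable.lintegral_prod_right' (f := fun p : ℂ × ℂ => farK α (p.1 - p.2))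
    exact (farK_meas α).comp (measurable_fst.sub measurable_snd)
  rw [← lintegral_add_right _ hm2]
  apply lintegral_mono
  intro z
  have hm3 : Measurable (fun w : ℂ => farK α (z - w)) :=
    (farK_meas α).comp (measurable_const.sub measurable_id)
  have e1 : ∫⁻ w in Ωᶜ ∩ ball z 1, ENNReal.ofReal (‖z - w‖ ^ (α - 3)) =
      ∫⁻ w in Ωᶜ, (ball z 1).indicator (fun w => ENNReal.ofReal (‖z - w‖ ^ (α - 3))) w := by
    rw [lintegral_indicator measurableSet_ball, Measure.restrict_restrict measurableSet_ball,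
      inter_comm]
  simp only
  rw [e1, ← lintegral_add_right _ hm3]
  apply lintegral_mono
  intro w
  by_cases hw : w ∈ ball z 1
  · simp only
    rw [indicator_of_mem hw]
    exact le_self_add
  · simp only
    rw [indicator_of_notMem hw, zero_add]
    unfold farK
    rw [indicator_of_mem]
    rw [mem_ball, not_lt, dist_comm, dist_eq_norm] at hw
    exact hw

lemma far_lt_top {α : ℝ} (hα1 : α < 1) {Ω : Set ℂ}
    (h : volume Ω < ⊤ ∨ volume Ωᶜ < ⊤) : ∫⁻ z in Ω, ∫⁻ w in Ωᶜ, farK α (z - w) < ⊤ := by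
  have hK := farK_lt_top hα1
  rcases h with h | h
  · have h1 : ∀ z : ℂ, ∫⁻ w in Ωᶜ, farK α (z - w) ≤ ∫⁻ u, farK α u := by
      intro z
      refine (setLIntegral_le_lintegral _ _).trans (le_of_eq ?_)
      exact lintegral_sub_left_eq_self (fun u => farK α u) z
    calc ∫⁻ z in Ω, ∫⁻ w in Ωᶜ, farK α (z - w) ≤ ∫⁻ z in Ω, ∫⁻ u, farK α u :=
          lintegral_mono h1
      _ = (∫⁻ u, farK α u) * volume Ω := by rw [setLIntegral_const]
      _ < ⊤ := ENNReal.mul_lt_top hK h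
  · have hm : Measurable (Function.uncurry fun z w : ℂ => farK α (z - w)) :=
      (farK_meas α).comp (measurable_fst.sub measurable_snd)
    rw [lintegral_lintegral_swap hm.aemeasurable]
    have h1 : ∀ w : ℂ, ∫⁻ z in Ω, farK α (z - w) ≤ ∫⁻ u, farK α u := by
      intro w
      refine (setLIntegral_le_lintegral _ _).trans (le_of_eq ?_)
      exact lintegral_sub_right_eq_self (fun u => farK α u) w
    calc ∫⁻ w in Ωᶜ, ∫⁻ z in Ω, farK α (z - w) ≤ ∫⁻ w in Ωᶜ, ∫⁻ u, farK α u :=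
          lintegral_mono h1
      _ = (∫⁻ u, farK α u) * volume Ωᶜ := by rw [setLIntegral_const]
      _ < ⊤ := ENNReal.mul_lt_top hK h

/-- For `α < 1`: `Ω` is `α`-admissible iff its fractional perimeter of order `1 - α` is finite. -/
theorem admissible_iff_fracPerimeter {α : ℝ} (hα : 0 < α) (hα1 : α < 1) {k : ℕ} (hk : α < k)
    {Ω : Set ℂ} (hΩ : MeasurableSet Ω) : Admissible α k Ω ↔
      (∫⁻ z in Ω, ∫⁻ w in Ωᶜ, ENNReal.ofReal (‖z - w‖ ^ (α - 3))) < ⊤ := by
  constructor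
  · intro h
    refine lt_of_le_of_lt (global_le α Ω) (ENNReal.add_lt_top.2 ⟨?_, ?_⟩)
    · exact (admissible_iff_fracPer hα hα1 hk hΩ).1 h
    · exact far_lt_top hα1 (area_of_admissible hα hα1.le hk hΩ h)
  · intro h
    refine (admissible_iff_fracPer hα hα1 hk hΩ).2 (lt_of_le_of_lt ?_ h)
    unfold fracPer
    apply lintegral_mono
    intro z
    exact lintegral_mono_set inter_subset_left

end H98.Dbar

end

section

/-!
# The density criterion
-/

open MeasureTheory Metric Set Filter Topology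
open scoped ContDiff ENNReal NNReal
open H98.Dbar (IsProfile moll bumpAt Crit chi Wf)

namespace H98.Dens

section transfer

variable {κ μ : ℕ → ℂ → ℝ} {C D : ℝ≥0∞}

lemma limit (hκ : Fam κ C) (hμ : Fam μ D) (hD : D < ⊤) (F : BM) (j : ℕ)
    (z : ℂ) : Tendsto (fun J => (((hμ.op (j + 1) - hμ.op j) * Kq (hκ.op J) ^ 2) • F).1 z) atTop
      (𝓝 (((hμ.op (j + 1) - hμ.op j) • F).1 z)) := by
  rw [tendsto_iff_edist_tendsto_0]
  have hb : ∀ J, edist ((((hμ.op (j + 1) - hμ.op j) * Kq (hκ.op J) ^ 2) • F).1 z)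
      (((hμ.op (j + 1) - hμ.op j) • F).1 z) ≤ (36 * (D * 2 ^ j) * SB F) * 2⁻¹ ^ J := by
    intro J
    have e : ((hμ.op (j + 1) - hμ.op j) * (1 - Kq (hκ.op J) ^ 2)) • F =
        (hμ.op (j + 1) - hμ.op j) • F - ((hμ.op (j + 1) - hμ.op j) * Kq (hκ.op J) ^ 2) • F := by
      rw [mul_sub, mul_one, sub_smul]
    have h1 := err SB_esn (hκ.op_le (Or.inr rfl) J) (b := hμ.op j) (b' := hμ.op (j + 1))
      (c := D * (2 ^ j * 2⁻¹ ^ J)) (hκ.mixed (Or.inr rfl) hμ J j)
      ((hκ.mixed (Or.inr rfl) hμ J (j + 1)).mono (le_of_eq (by rw [pow_succ]; ring))) F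
    rw [e] at h1
    rw [edist_comm, edist_eq_enorm_sub]
    refine (le_iSup (fun z => ‖((hμ.op (j + 1) - hμ.op j) • F -
      ((hμ.op (j + 1) - hμ.op j) * Kq (hκ.op J) ^ 2) • F).1 z‖ₑ) z).trans (h1.trans (le_of_eq ?_))
    ring
  have h0 : Tendsto (fun J : ℕ => (36 * (D * 2 ^ j) * SB F) * (2⁻¹ : ℝ≥0∞) ^ J) atTop (𝓝 0) := by
    have h2 : Tendsto (fun J : ℕ => (2⁻¹ : ℝ≥0∞) ^ J) atTop (𝓝 0) :=
      ENNReal.tendsto_pow_atTop_nhds_zero_of_lt_one (by
        rw [ENNReal.inv_lt_one]; norm_num)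
    have h3 : 36 * (D * 2 ^ j) * SB F ≠ ⊤ := by
      refine (ENNReal.mul_lt_top (ENNReal.mul_lt_top (by norm_num)
        (ENNReal.mul_lt_top hD (ENNReal.pow_lt_top (by norm_num)))) (SB_lt F)).ne
    have h4 := ENNReal.Tendsto.const_mul h2 (Or.inr h3)
    rwa [mul_zero] at h4
  exact tendsto_of_tendsto_of_tendsto_of_le_of_le tendsto_const_nhds h0 (fun _ => zero_le) hb

/-- The comparison at one scale. -/
lemma compare_one (hκ : Fam κ C) (hμ : Fam μ D) (hD : D < ⊤) (F : BM) (j : ℕ) :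
    NB ((hμ.op (j + 1) - hμ.op j) • F) ≤ 30 * max C D * 2⁻¹ ^ j * NB F +
      ∑' i, 72 * max C D * dec i j * NB ((hκ.op (i + 1) - hκ.op i) • F) := by
  have hJ : ∀ J, NB (((hμ.op (j + 1) - hμ.op j) * Kq (hκ.op J) ^ 2) • F) ≤
      30 * max C D * 2⁻¹ ^ j * NB F +
      ∑' i, 72 * max C D * dec i j * NB ((hκ.op (i + 1) - hκ.op i) • F) := by
    intro J
    have h1 := compare NB_esn hκ.op hμ.op (fun i => hκ.op_le (Or.inl rfl) i) (C := max C D)
      (fun i j => (hκ.mixed (Or.inl rfl) hμ i j).mono (mul_le_mul_left (le_max_right _ _) _))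
      (fun i j => (hμ.mixed (Or.inl rfl) hκ j i).mono (mul_le_mul_left (le_max_left _ _) _)) F J j
    refine h1.trans (add_le_add le_rfl ?_)
    exact ENNReal.sum_le_tsum _
  have hlim := limit hκ hμ hD F j
  calc NB ((hμ.op (j + 1) - hμ.op j) • F)
      = ∫⁻ z, liminf (fun J => ‖(((hμ.op (j + 1) - hμ.op j) * Kq (hκ.op J) ^ 2) • F).1 z‖ₑ)
          atTop := by
        unfold NB
        congr 1
        ext z
        exact ((continuous_enorm.tendsto _).comp (hlim z)).liminf_eq.symm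
    _ ≤ liminf (fun J => ∫⁻ z, ‖(((hμ.op (j + 1) - hμ.op j) * Kq (hκ.op J) ^ 2) • F).1 z‖ₑ)
          atTop := lintegral_liminf_le fun J => (_ : BM).2.1.enorm
    _ ≤ liminf (fun _ : ℕ => 30 * max C D * 2⁻¹ ^ j * NB F +
          ∑' i, 72 * max C D * dec i j * NB ((hκ.op (i + 1) - hκ.op i) • F)) atTop :=
        liminf_le_liminf (Eventually.of_forall hJ)
    _ = _ := by simp

/-- The sums of two families of averages are comparable. -/
theorem transfer (hκ : Fam κ C) (hμ : Fam μ D) (hC : C < ⊤) (hD : D < ⊤) {α : ℝ} (h0 : 0 < α)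
    (h2 : α < 2) (F : BM) (hF : NB F < ⊤)
    (hs : ∑' j, wt α j * NB ((hκ.op (j + 1) - hκ.op j) • F) < ⊤) :
    ∑' j, wt α j * NB ((hμ.op (j + 1) - hμ.op j) • F) < ⊤ := by
  obtain ⟨S, hS, hschur⟩ := schur h0 h2
  have hE : max C D < ⊤ := max_lt hC hD
  calc ∑' j, wt α j * NB ((hμ.op (j + 1) - hμ.op j) • F)
      ≤ ∑' j, (30 * max C D * NB F * (wt α j * 2⁻¹ ^ j) +
          ∑' i, 72 * max C D * NB ((hκ.op (i + 1) - hκ.op i) • F) * (wt α j * dec i j)) := by
        apply ENNReal.tsum_le_tsum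
        intro j
        refine (mul_le_mul_right (compare_one hκ hμ hD F j) _).trans (le_of_eq ?_)
        rw [mul_add, ← ENNReal.tsum_mul_left]
        congr 1
        · ring
        · congr 1
          ext i
          ring
    _ = 30 * max C D * NB F * (∑' j, wt α j * 2⁻¹ ^ j) +
          ∑' i, 72 * max C D * NB ((hκ.op (i + 1) - hκ.op i) • F) * ∑' j, wt α j * dec i j := by
        rw [ENNReal.tsum_add, ENNReal.tsum_mul_left, ENNReal.tsum_comm]
        congr 1
        congr 1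
        ext i
        rw [ENNReal.tsum_mul_left]
    _ ≤ 30 * max C D * NB F * (∑' j, wt α j * 2⁻¹ ^ j) +
          ∑' i, 72 * max C D * S * (wt α i * NB ((hκ.op (i + 1) - hκ.op i) • F)) := by
        apply add_le_add le_rfl
        apply ENNReal.tsum_le_tsum
        intro i
        refine (mul_le_mul_right (hschur i) _).trans (le_of_eq ?_)
        ring
    _ = 30 * max C D * NB F * (∑' j, wt α j * 2⁻¹ ^ j) +
          72 * max C D * S * ∑' i, wt α i * NB ((hκ.op (i + 1) - hκ.op i) • F) := by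
        rw [ENNReal.tsum_mul_left]
    _ < ⊤ := by
        apply ENNReal.add_lt_top.2
        constructor
        · apply ENNReal.mul_lt_top (ENNReal.mul_lt_top (ENNReal.mul_lt_top (by norm_num) hE) hF)
          simp_rw [wt_half]
          exact geom_fin (by positivity) (rpow_lt_one' h0)
        · exact ENNReal.mul_lt_top (ENNReal.mul_lt_top (ENNReal.mul_lt_top (by norm_num) hE) hS) hs

end transfer

/-! ### The two families -/

lemma dk_fam : Fam dk 6 where
  meas := dk_meas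
  int := dk_int
  one := dk_one
  nonneg := dk_nonneg
  supp j w hw := by
    unfold dk
    apply indicator_of_notMem
    rw [mem_ball, dist_zero_right]
    linarith
  lip := dk_lip

/-! ### The indicator -/

lemma NB_ind {Ω : Set ℂ} (hΩ : MeasurableSet Ω) : NB (ind hΩ) = volume Ω := by
  unfold NB ind
  have e : ∀ z, ‖Ω.indicator (fun _ => (1:ℝ)) z‖ₑ = Ω.indicator (fun _ => (1:ℝ≥0∞)) z := by
    intro z
    by_cases h : z ∈ Ω <;> simp [h]
  simp_rw [e]
  rw [lintegral_indicator hΩ, setLIntegral_const, one_mul]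

lemma cr_dens {Ω : Set ℂ} (hΩ : MeasurableSet Ω) (j : ℕ) (z : ℂ) :
    cr (dk j) (ind hΩ).1 z = dens Ω j z := by
  have hr : (0:ℝ) < (1 / 2) ^ j := by positivity
  unfold cr dens ind
  rw [← integral_sub_left_eq_self (fun w => dk j w * Ω.indicator (fun _ => (1:ℝ)) (z - w))
      volume z]
  have e : ∀ w, dk j (z - w) * Ω.indicator (fun _ => (1:ℝ)) (z - (z - w)) =
      (Ω ∩ ball z ((1 / 2) ^ j)).indicator (fun _ => (Real.pi * ((1 / 2) ^ j) ^ 2)⁻¹) w := by
    intro w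
    rw [sub_sub_cancel]
    unfold dk
    have hb : z - w ∈ ball (0:ℂ) ((1 / 2) ^ j) ↔ w ∈ ball z ((1 / 2) ^ j) := by
      rw [mem_ball, mem_ball, dist_zero_right, dist_comm, dist_eq_norm]
    by_cases h : w ∈ Ω
    · by_cases h' : w ∈ ball z ((1 / 2) ^ j)
      · rw [indicator_of_mem (hb.2 h'), indicator_of_mem h, indicator_of_mem (show w ∈ Ω ∩ ball z ((1 / 2) ^ j) from ⟨h, h'⟩),
          mul_one]
      · rw [indicator_of_notMem (fun hh => h' (hb.1 hh)),
          indicator_of_notMem (show w ∉ Ω ∩ ball z ((1 / 2) ^ j) from fun hh => h' hh.2), zero_mul]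
    · rw [indicator_of_notMem h,
        indicator_of_notMem (show w ∉ Ω ∩ ball z ((1 / 2) ^ j) from fun hh => h hh.1), mul_zero]
  simp_rw [e]
  rw [integral_indicator (hΩ.inter measurableSet_ball), setIntegral_const, smul_eq_mul,
    measureReal_def (s := ball z _), vol_ball z hr.le, ENNReal.toReal_ofReal (by positivity)]
  exact (div_eq_mul_inv _ _).symm

/-- The sum of the density criterion. -/
noncomputable def densSum (α : ℝ) (Ω : Set ℂ) : ℝ≥0∞ :=
  ∑' j : ℕ, ENNReal.ofReal ((2:ℝ) ^ ((1 - α) * j)) *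
    ∫⁻ z, ENNReal.ofReal |dens Ω (j + 1) z - dens Ω j z|

lemma densSum_eq (α : ℝ) {Ω : Set ℂ} (hΩ : MeasurableSet Ω) :
    densSum α Ω = ∑' j, wt α j * NB ((dk_fam.op (j + 1) - dk_fam.op j) • ind hΩ) := by
  unfold densSum wt
  congr 1
  ext j
  congr 1
  unfold NB
  congr 1
  ext z
  have e : ((dk_fam.op (j + 1) - dk_fam.op j) • ind hΩ).1 z = dens Ω (j + 1) z - dens Ω j z := by
    rw [← cr_dens hΩ, ← cr_dens hΩ]
    rfl
  rw [e, ← Real.norm_eq_abs, ofReal_norm]

lemma mollSum_eq {H : ℝ → ℝ} (α : ℝ) {C : ℝ≥0∞} (h : Fam (bumpAt H) C) {Ω : Set ℂ}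
    (hΩ : MeasurableSet Ω) :
    ∑' j : ℕ, ENNReal.ofReal ((2:ℝ) ^ ((1 - α) * j)) *
      ∫⁻ z, ‖moll H (j + 1) Ω z - moll H j Ω z‖ₑ =
      ∑' j, wt α j * NB ((h.op (j + 1) - h.op j) • ind hΩ) := by
  unfold wt
  congr 1
  ext j
  congr 1
  unfold NB
  congr 1
  ext z
  have e : ((h.op (j + 1) - h.op j) • ind hΩ).1 z = moll H (j + 1) Ω z - moll H j Ω z := by
    rw [← cr_moll hΩ, ← cr_moll hΩ]
    rfl
  rw [e]

/-- Complements. -/
lemma NB_compl {κ : ℕ → ℂ → ℝ} {C : ℝ≥0∞} (h : Fam κ C) {Ω : Set ℂ} (hΩ : MeasurableSet Ω)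
    (j : ℕ) : NB ((h.op (j + 1) - h.op j) • ind hΩ.compl) =
      NB ((h.op (j + 1) - h.op j) • ind hΩ) := by
  unfold NB
  congr 1
  ext z
  have key : ∀ i, (h.op i • ind hΩ.compl).1 z = 1 - (h.op i • ind hΩ).1 z := by
    intro i
    change cr (κ i) (ind hΩ.compl).1 z = 1 - cr (κ i) (ind hΩ).1 z
    rw [← h.one i]
    unfold cr
    rw [← integral_sub (h.int i) (cr_integrand (h.ik i) (ind hΩ).2 z)]
    congr 1
    ext w
    unfold ind
    by_cases hw : z - w ∈ Ω
    · simp [hw]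
    · simp [hw]
  have e : ((h.op (j + 1) - h.op j) • ind hΩ.compl).1 z =
      -((h.op (j + 1) - h.op j) • ind hΩ).1 z := by
    rw [sub_smul, sub_smul]
    change (h.op (j + 1) • ind hΩ.compl).1 z - (h.op j • ind hΩ.compl).1 z =
      -((h.op (j + 1) • ind hΩ).1 z - (h.op j • ind hΩ).1 z)
    rw [key, key]
    ring
  rw [e, enorm_neg]

lemma Wf_le_two {Ω : Set ℂ} (hΩ : MeasurableSet Ω) (h : ℂ) : Wf Ω h ≤ 2 * volume Ω := by
  have e : ∀ z, ‖chi Ω z‖ₑ = Ω.indicator (fun _ => (1:ℝ≥0∞)) z := by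
    intro z
    unfold chi
    by_cases h : z ∈ Ω <;> simp [h]
  have e2 : ∫⁻ z, ‖chi Ω z‖ₑ = volume Ω := by
    simp_rw [e]
    rw [lintegral_indicator hΩ, setLIntegral_const, one_mul]
  calc Wf Ω h ≤ ∫⁻ z, (‖chi Ω (z + h)‖ₑ + ‖chi Ω z‖ₑ) := lintegral_mono fun z => enorm_sub_le
    _ = 2 * volume Ω := by
        rw [lintegral_add_right _ (H98.Dbar.chi_meas hΩ).enorm, e2,
          lintegral_add_right_eq_self (fun z => ‖chi Ω z‖ₑ) h, e2, two_mul]

lemma Wf_compl {Ω : Set ℂ} (h : ℂ) : Wf Ωᶜ h = Wf Ω h := by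
  unfold Wf
  congr 1
  ext z
  have e : ∀ z, chi Ωᶜ z = 1 - chi Ω z := by
    intro z
    unfold chi
    by_cases h : z ∈ Ω <;> simp [h]
  rw [e, e, ← enorm_neg]
  congr 1
  ring

lemma Wf_fin {Ω : Set ℂ} (hΩ : MeasurableSet Ω) (h : volume Ω < ⊤ ∨ volume Ωᶜ < ⊤) :
    ∃ M : ℝ≥0∞, M < ⊤ ∧ ∀ w, Wf Ω w ≤ M := by
  rcases h with h | h
  · exact ⟨2 * volume Ω, ENNReal.mul_lt_top (by norm_num) h, Wf_le_two hΩ⟩
  · refine ⟨2 * volume Ωᶜ, ENNReal.mul_lt_top (by norm_num) h, fun w => ?_⟩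
    rw [← Wf_compl]
    exact Wf_le_two hΩ.compl w

lemma low_fin {H : ℝ → ℝ} (hH : IsProfile H) {Ω : Set ℂ} (hΩ : MeasurableSet Ω)
    (h : volume Ω < ⊤ ∨ volume Ωᶜ < ⊤) : (∫⁻ z, ‖fderiv ℝ (moll H 0 Ω) z‖ₑ) < ⊤ := by
  obtain ⟨M, hM, hW⟩ := Wf_fin hΩ h
  have hpart : ∀ v : ℂ, ∫⁻ z, ‖fderiv ℝ (moll H 0 Ω) z v‖ₑ < ⊤ := by
    intro v
    simp_rw [H98.Dbar.fderiv_moll_enorm hH hΩ]
    refine lt_of_le_of_lt (H98.Dbar.cv_chi_le (H98.Dbar.dk_mem hH v) (H98.Dbar.dk_int hH v) hΩ) ?_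
    refine lt_of_le_of_lt (lintegral_mono fun w => mul_le_mul_right (hW w) _) ?_
    rw [lintegral_mul_const _ (H98.Dbar.V_cont (H98.Dbar.dk_mem hH v)).measurable.enorm]
    exact ENNReal.mul_lt_top (H98.Dbar.V_integrable (H98.Dbar.dk_mem hH v)).2 hM
  calc ∫⁻ z, ‖fderiv ℝ (moll H 0 Ω) z‖ₑ
      ≤ ∫⁻ z, (‖fderiv ℝ (moll H 0 Ω) z 1‖ₑ + ‖fderiv ℝ (moll H 0 Ω) z Complex.I‖ₑ) := by
        apply lintegral_mono
        intro z
        have h1 := H98.Dbar.norm_le_parts (fderiv ℝ (moll H 0 Ω) z)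
        change ‖fderiv ℝ (moll H 0 Ω) z‖ₑ ≤ ‖fderiv ℝ (moll H 0 Ω) z 1‖ₑ +
          ‖fderiv ℝ (moll H 0 Ω) z Complex.I‖ₑ
        rw [← ofReal_norm, ← ofReal_norm, ← ofReal_norm,
          ← ENNReal.ofReal_add (norm_nonneg _) (norm_nonneg _)]
        exact ENNReal.ofReal_le_ofReal h1
    _ = (∫⁻ z, ‖fderiv ℝ (moll H 0 Ω) z 1‖ₑ) +
        ∫⁻ z, ‖fderiv ℝ (moll H 0 Ω) z Complex.I‖ₑ := by
        apply lintegral_add_left
        have hcd : Continuous (fun z => fderiv ℝ (moll H 0 Ω) z) :=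
          (H98.Dbar.moll_contDiff hH hΩ 0).continuous_fderiv (by simp)
        exact ((hcd.clm_apply continuous_const).measurable).enorm
    _ < ⊤ := ENNReal.add_lt_top.2 ⟨hpart 1, hpart Complex.I⟩

/-- The transfer between two families for a set of finite or cofinite area. -/
lemma transfer_set {κ μ : ℕ → ℂ → ℝ} {C D : ℝ≥0∞} (hκ : Fam κ C) (hμ : Fam μ D) (hC : C < ⊤)
    (hD : D < ⊤) {α : ℝ} (h0 : 0 < α) (h2 : α < 2) {Ω : Set ℂ} (hΩ : MeasurableSet Ω)
    (h : volume Ω < ⊤ ∨ volume Ωᶜ < ⊤)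
    (hs : ∑' j, wt α j * NB ((hκ.op (j + 1) - hκ.op j) • ind hΩ) < ⊤) :
    ∑' j, wt α j * NB ((hμ.op (j + 1) - hμ.op j) • ind hΩ) < ⊤ := by
  rcases h with h | h
  · exact transfer hκ hμ hC hD h0 h2 (ind hΩ) (by rwa [NB_ind]) hs
  · simp_rw [← NB_compl hκ hΩ] at hs
    simp_rw [← NB_compl hμ hΩ]
    exact transfer hκ hμ hC hD h0 h2 (ind hΩ.compl) (by rwa [NB_ind]) hs

/-- For sets of finite or cofinite area and `0 < α < 2`. -/
theorem crit_iff_dens {H : ℝ → ℝ} (hH : IsProfile H) {α : ℝ} (h0 : 0 < α) (h2 : α < 2) {Ω : Set ℂ}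
    (hΩ : MeasurableSet Ω) (h : volume Ω < ⊤ ∨ volume Ωᶜ < ⊤) :
    Crit H α Ω ↔ densSum α Ω < ⊤ := by
  obtain ⟨C, hC, hF⟩ := bump_fam hH
  unfold Crit
  rw [densSum_eq α hΩ, mollSum_eq α hF hΩ]
  constructor
  · rintro ⟨-, h1⟩
    exact transfer_set hF dk_fam hC (by norm_num) h0 h2 hΩ h h1
  · intro h1
    exact ⟨low_fin hH hΩ h, transfer_set dk_fam hF (by norm_num) hC h0 h2 hΩ h h1⟩

/-- The density criterion for `0 < α ≤ 1`. -/
theorem admissible_iff_dens {α : ℝ} (h0 : 0 < α) (h1 : α ≤ 1) {k : ℕ} (hk : α < k) {Ω : Set ℂ}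
    (hΩ : MeasurableSet Ω) : H98.Dbar.Admissible α k Ω ↔
      (volume Ω < ⊤ ∨ volume Ωᶜ < ⊤) ∧ densSum α Ω < ⊤ := by
  obtain ⟨H, hH⟩ := H98.Dbar.exists_profile
  constructor
  · intro h
    have ha := H98.Dbar.area_of_admissible h0 h1 hk hΩ h
    exact ⟨ha, (crit_iff_dens hH h0 (by linarith) hΩ ha).1
      ((H98.Dbar.admissible_iff_crit hH h0 hk hΩ).1 h)⟩
  · rintro ⟨ha, hd⟩
    exact (H98.Dbar.admissible_iff_crit hH h0 hk hΩ).2
      ((crit_iff_dens hH h0 (by linarith) hΩ ha).2 hd)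

end H98.Dens

end

section

/-!
# The density criterion without the area condition
-/

open MeasureTheory Metric Set Filter Topology
open scoped ContDiff ENNReal NNReal
open H98.Dbar (IsProfile moll bumpAt Crit chi Wf bump)

namespace H98.Dens

lemma dens_ball (Ω : Set ℂ) (j : ℕ) (z : ℂ) : dens Ω j z =
    (volume (Ω ∩ closedBall z ((1 / 2) ^ j)) / volume (closedBall z ((1 / 2) ^ j))).toReal := by
  unfold dens
  set r : ℝ := (1 / 2) ^ j with hr
  have h0 : volume (sphere z r) = 0 := Measure.addHaar_sphere _ _ _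
  have hcb : closedBall z r ⊆ ball z r ∪ sphere z r := (ball_union_sphere (x := z) (ε := r)).ge
  have h2 : ∀ S : Set ℂ, volume (S ∩ ball z r) = volume (S ∩ closedBall z r) := by
    intro S
    apply le_antisymm (measure_mono (inter_subset_inter_right _ ball_subset_closedBall))
    calc volume (S ∩ closedBall z r) ≤ volume ((S ∩ ball z r) ∪ sphere z r) := by
          apply measure_mono
          rintro w ⟨h3, h4⟩
          rcases hcb h4 with h5 | h5
          · exact Or.inl ⟨h3, h5⟩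
          · exact Or.inr h5
      _ ≤ volume (S ∩ ball z r) + volume (sphere z r) := measure_union_le _ _
      _ = _ := by rw [h0, add_zero]
  have h1 := h2 univ
  rw [univ_inter, univ_inter] at h1
  rw [ENNReal.toReal_div, measureReal_def, measureReal_def, h1, h2]

lemma dens_tendsto {Ω : Set ℂ} (hΩ : MeasurableSet Ω) : ∀ᵐ z : ℂ,
    Tendsto (fun j : ℕ => dens Ω j z) atTop (𝓝 (Ω.indicator (fun _ => (1:ℝ)) z)) := by
  filter_upwards [Besicovitch.ae_tendsto_measure_inter_div_of_measurableSet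
    (volume : Measure ℂ) hΩ] with z hz
  have h1 : Tendsto (fun j : ℕ => ((1:ℝ) / 2) ^ j) atTop (𝓝[>] 0) := by
    rw [tendsto_nhdsWithin_iff]
    refine ⟨tendsto_pow_atTop_nhds_zero_of_lt_one (by norm_num) (by norm_num),
      Eventually.of_forall fun j => ?_⟩
    rw [mem_Ioi]
    positivity
  have h3 : Ω.indicator (1 : ℂ → ℝ≥0∞) z ≠ ⊤ := by by_cases h : z ∈ Ω <;> simp [h]
  have h4 := (ENNReal.tendsto_toReal h3).comp (hz.comp h1)
  have h5 : (Ω.indicator (1 : ℂ → ℝ≥0∞) z).toReal = Ω.indicator (fun _ => (1:ℝ)) z := by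
    by_cases h : z ∈ Ω <;> simp [h]
  rw [h5] at h4
  refine h4.congr fun j => ?_
  exact (dens_ball Ω j z).symm

lemma dens_meas {Ω : Set ℂ} (hΩ : MeasurableSet Ω) (j : ℕ) : Measurable (dens Ω j) := by
  have e : dens Ω j = (crOp (dk_fam.ik j) (ind hΩ)).1 := by
    ext z
    exact (cr_dens hΩ j z).symm
  rw [e]
  exact (crOp (dk_fam.ik j) (ind hΩ)).2.1

lemma near_l1 {α : ℝ} (h1 : α ≤ 1) {Ω : Set ℂ} (hΩ : MeasurableSet Ω) :
    ∫⁻ z, ‖Ω.indicator (fun _ => (1:ℝ)) z - dens Ω 0 z‖ₑ ≤ densSum α Ω := by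
  have hm := dens_meas hΩ
  have hstep : ∀ J : ℕ, ∫⁻ z, ‖dens Ω J z - dens Ω 0 z‖ₑ ≤ densSum α Ω := by
    intro J
    calc ∫⁻ z, ‖dens Ω J z - dens Ω 0 z‖ₑ
        ≤ ∫⁻ z, ∑ i ∈ Finset.range J, ‖dens Ω (i + 1) z - dens Ω i z‖ₑ := by
          apply lintegral_mono
          intro z
          simp only
          rw [← Finset.sum_range_sub (fun i => dens Ω i z)]
          exact enorm_sum_le _ _
      _ = ∑ i ∈ Finset.range J, ∫⁻ z, ‖dens Ω (i + 1) z - dens Ω i z‖ₑ :=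
          lintegral_finsetSum _ fun i _ => ((hm (i + 1)).sub (hm i)).enorm
      _ ≤ ∑ i ∈ Finset.range J, ENNReal.ofReal ((2:ℝ) ^ ((1 - α) * i)) *
            ∫⁻ z, ENNReal.ofReal |dens Ω (i + 1) z - dens Ω i z| := by
          apply Finset.sum_le_sum
          intro i _
          have e : ∀ z, ‖dens Ω (i + 1) z - dens Ω i z‖ₑ =
              ENNReal.ofReal |dens Ω (i + 1) z - dens Ω i z| := by
            intro z
            rw [← ofReal_norm, Real.norm_eq_abs]
          simp_rw [e]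
          refine le_mul_of_one_le_left zero_le ?_
          rw [← ENNReal.ofReal_one]
          apply ENNReal.ofReal_le_ofReal
          apply Real.one_le_rpow (by norm_num)
          have : (0:ℝ) ≤ i := Nat.cast_nonneg i
          nlinarith
      _ ≤ _ := ENNReal.sum_le_tsum (Finset.range J)
  calc ∫⁻ z, ‖Ω.indicator (fun _ => (1:ℝ)) z - dens Ω 0 z‖ₑ
      = ∫⁻ z, liminf (fun J => ‖dens Ω J z - dens Ω 0 z‖ₑ) atTop := by
        apply lintegral_congr_ae
        filter_upwards [dens_tendsto hΩ] with z hz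
        exact ((continuous_enorm.tendsto _).comp (hz.sub_const _)).liminf_eq.symm
    _ ≤ liminf (fun J => ∫⁻ z, ‖dens Ω J z - dens Ω 0 z‖ₑ) atTop :=
        lintegral_liminf_le fun J => ((hm J).sub (hm 0)).enorm
    _ ≤ liminf (fun _ : ℕ => densSum α Ω) atTop := liminf_le_liminf (Eventually.of_forall hstep)
    _ = _ := by simp

lemma dens_mem (Ω : Set ℂ) (j : ℕ) (z : ℂ) : 0 ≤ dens Ω j z ∧ dens Ω j z ≤ 1 := by
  unfold dens
  refine ⟨div_nonneg measureReal_nonneg measureReal_nonneg, ?_⟩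
  apply div_le_one_of_le₀ _ measureReal_nonneg
  exact measureReal_mono inter_subset_right measure_ball_lt_top.ne

lemma SB_ind {Ω : Set ℂ} (hΩ : MeasurableSet Ω) : SB (ind hΩ) ≤ 1 := by
  apply iSup_le
  intro z
  change ‖Ω.indicator (fun _ => (1:ℝ)) z‖ₑ ≤ 1
  by_cases h : z ∈ Ω <;> simp [h]

lemma dens_lip (w : ℂ) :
    OP SB ((1 - top w) * kop (dk_fam.ik 0)) (6 * ‖w‖ₑ) := by
  intro F
  rw [one_sub_top, kop_smul]
  refine (shift (Or.inr rfl) (dk_fam.ik 0) w F).trans ?_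
  gcongr
  refine (dk_lip 0 w).trans (le_of_eq ?_)
  rw [pow_zero, one_mul]

lemma cr_smooth {κ F : ℂ → ℝ} (hκ : ContDiff ℝ ∞ κ) (hc : HasCompactSupport κ)
    (hF : LocallyIntegrable F) : ContDiff ℝ ∞ (cr κ F) := by
  rw [cr_eq_conv]
  exact hc.contDiff_convolution_left _ hκ hF

/-- A smooth step function. -/
noncomputable def stp (x : ℝ) : ℝ := Real.smoothTransition ((x - 5 / 16) * (8 / 3))

lemma stp_smooth : ContDiff ℝ ∞ stp := by
  unfold stp
  exact Real.smoothTransition.contDiff.comp ((contDiff_id.sub contDiff_const).mul contDiff_const)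

lemma stp_zero {x : ℝ} (h : x ≤ 5 / 16) : stp x = 0 := by
  unfold stp
  apply Real.smoothTransition.zero_of_nonpos
  nlinarith

lemma stp_one {x : ℝ} (h : 11 / 16 ≤ x) : stp x = 1 := by
  unfold stp
  apply Real.smoothTransition.one_of_one_le
  nlinarith

/-- For `α ≤ 1` the density sum decides the area. -/
theorem area_of_densSum {α : ℝ} (h1 : α ≤ 1) {Ω : Set ℂ} (hΩ : MeasurableSet Ω)
    (h : densSum α Ω < ⊤) : volume Ω < ⊤ ∨ volume Ωᶜ < ⊤ := by
  obtain ⟨H, hH⟩ := H98.Dbar.exists_profile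
  obtain ⟨C, hC, hF⟩ := bump_fam hH
  have hl1 := lt_of_le_of_lt (near_l1 h1 hΩ) h
  set E : Set ℂ := {z | ENNReal.ofReal (1 / 4) ≤
    ‖Ω.indicator (fun _ => (1:ℝ)) z - dens Ω 0 z‖ₑ} with hE
  have hmE : Measurable (fun z => ‖Ω.indicator (fun _ => (1:ℝ)) z - dens Ω 0 z‖ₑ) :=
    ((measurable_const.indicator hΩ).sub (dens_meas hΩ 0)).enorm
  have hEm : MeasurableSet E := measurableSet_le measurable_const hmE
  have hEv : volume E < ⊤ := by
    have h2 := meas_ge_le_lintegral_div (μ := volume) hmE.aemeasurable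
      (ε := ENNReal.ofReal (1 / 4)) (by simp) ENNReal.ofReal_ne_top
    exact lt_of_le_of_lt h2 (ENNReal.div_lt_top hl1.ne (by simp))
  have hout : ∀ z, z ∉ E → |Ω.indicator (fun _ => (1:ℝ)) z - dens Ω 0 z| < 1 / 4 := by
    intro z hz
    have hz' : ‖Ω.indicator (fun _ => (1:ℝ)) z - dens Ω 0 z‖ₑ < ENNReal.ofReal (1 / 4) :=
      not_le.1 hz
    rw [← ofReal_norm, ENNReal.ofReal_lt_ofReal_iff (by norm_num), Real.norm_eq_abs] at hz'
    exact hz'
  -- the smooth approximation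
  set D0 : BM := kop (dk_fam.ik 0) • ind hΩ with hD0
  have hD0z : ∀ z, D0.1 z = dens Ω 0 z := fun z => cr_dens hΩ 0 z
  set U : BM := kop (hF.ik 7) • D0 with hU
  have hUs : ContDiff ℝ ∞ U.1 := cr_smooth (H98.Dbar.bumpAt_contDiff hH 7)
    (H98.Dbar.bumpAt_hasCompactSupport hH 7) (bm_locInt D0)
  have hlipD : ∀ w, SB (D0 - tauB w D0) ≤ 6 * ‖w‖ₑ := by
    intro w
    have h2 := dens_lip w (ind hΩ)
    rw [one_sub_top] at h2
    refine h2.trans ?_
    calc 6 * ‖w‖ₑ * SB (ind hΩ) ≤ 6 * ‖w‖ₑ * 1 := by gcongr; exact SB_ind hΩ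
      _ = _ := mul_one _
  have hlipU : ∀ w, SB (U - tauB w U) ≤ 6 * ‖w‖ₑ := by
    intro w
    have e : U - tauB w U = kop (hF.ik 7) • (D0 - tauB w D0) := by
      have h2 := one_sub_top w (kop (hF.ik 7)) D0
      have h3 : ((1 - top w) * kop (hF.ik 7)) • D0 =
          kop (hF.ik 7) • ((1 - top w) • D0) := by
        rw [mul_comm, mul_smul]
      rw [h3, sub_smul, one_smul, top_smul] at h2
      exact h2.symm
    rw [e]
    refine (kop_bd (Or.inr rfl) (hF.ik 7) _).trans ?_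
    rw [hF.mass 7, one_mul]
    exact hlipD w
  have hpt : ∀ (w z : ℂ), |U.1 z - U.1 (z - w)| ≤ 6 * ‖w‖ := by
    intro w z
    have h2 := (le_iSup (fun z => ‖(U - tauB w U).1 z‖ₑ) z).trans (hlipU w)
    have h3 : (6:ℝ≥0∞) * ‖w‖ₑ = ENNReal.ofReal (6 * ‖w‖) := by
      rw [ENNReal.ofReal_mul (by norm_num), ofReal_norm]; norm_num
    rw [h3, ← ofReal_norm, ENNReal.ofReal_le_ofReal_iff (by positivity), Real.norm_eq_abs] at h2
    exact h2
  have hlip : LipschitzWith 6 U.1 := by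
    apply LipschitzWith.of_dist_le_mul
    intro z z'
    have h2 := hpt (z - z') z
    rw [sub_sub_cancel] at h2
    rw [Real.dist_eq, dist_eq_norm]
    exact h2
  have hclose : ∀ z, |dens Ω 0 z - U.1 z| ≤ 6 / 128 := by
    intro z
    have h2 := avg (Or.inr rfl) (hF.ik 7) (hF.one 7) (hF.nonneg 7) (hF.supp 7) D0
      (D := ENNReal.ofReal (6 / 128)) (fun w hw => by
        refine (hlipD w).trans ?_
        have h3 : (6:ℝ≥0∞) * ‖w‖ₑ = ENNReal.ofReal (6 * ‖w‖) := by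
          rw [ENNReal.ofReal_mul (by norm_num), ofReal_norm]; norm_num
        rw [h3]
        apply ENNReal.ofReal_le_ofReal
        norm_num at hw
        linarith)
    have h4 := (le_iSup (fun z => ‖((1 - crOp (hF.ik 7)) D0).1 z‖ₑ) z).trans h2
    rw [← ofReal_norm, ENNReal.ofReal_le_ofReal_iff (by norm_num), Real.norm_eq_abs] at h4
    rw [← hD0z]
    exact h4
  -- the step
  set v : ℂ → ℝ := fun z => stp (U.1 z) with hv
  have hvs : ContDiff ℝ ∞ v := stp_smooth.comp hUs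
  obtain ⟨K, hK⟩ := (isCompact_Icc (a := (-1:ℝ)) (b := 2)).exists_bound_of_continuousOn
    (stp_smooth.continuous_deriv (by simp)).continuousOn
  have hbound : ∀ z, ‖fderiv ℝ v z‖ₑ ≤ E.indicator (fun _ => ENNReal.ofReal (K * 6)) z := by
    intro z
    have hc := hclose z
    rw [abs_le] at hc
    by_cases hz : z ∈ E
    · rw [indicator_of_mem hz, ← ofReal_norm]
      apply ENNReal.ofReal_le_ofReal
      have h2 : HasFDerivAt v (deriv stp (U.1 z) • fderiv ℝ U.1 z) z :=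
        ((stp_smooth.differentiable (by simp)) (U.1 z)).hasDerivAt.comp_hasFDerivAt z
          ((hUs.differentiable (by simp)) z).hasFDerivAt
      rw [h2.fderiv, norm_smul]
      have h3 := norm_fderiv_le_of_lipschitz ℝ hlip (x₀ := z)
      have h4 := dens_mem Ω 0 z
      have h5 := hK (U.1 z) ⟨by linarith, by linarith⟩
      have h6 : ((6:ℝ≥0) : ℝ) = 6 := by norm_num
      rw [h6] at h3
      exact mul_le_mul h5 h3 (norm_nonneg _) ((norm_nonneg _).trans h5)
    · rw [indicator_of_notMem hz]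
      have h2 := hout z hz
      have hcU : ContinuousAt U.1 z := hUs.continuous.continuousAt
      have h3 : fderiv ℝ v z = 0 := by
        by_cases hzΩ : z ∈ Ω
        · rw [indicator_of_mem hzΩ, abs_lt] at h2
          have h4 : 11 / 16 < U.1 z := by linarith
          have h5 : v =ᶠ[𝓝 z] fun _ => (1:ℝ) := by
            filter_upwards [continuousAt_const.eventually_lt hcU h4] with y hy
            exact stp_one hy.le
          rw [h5.fderiv_eq]
          simp
        · rw [indicator_of_notMem hzΩ, abs_lt] at h2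
          have h4 : U.1 z < 5 / 16 := by linarith
          have h5 : v =ᶠ[𝓝 z] fun _ => (0:ℝ) := by
            filter_upwards [hcU.eventually_lt continuousAt_const h4] with y hy
            exact stp_zero hy.le
          rw [h5.fderiv_eq]
          simp
      rw [← ofReal_norm, h3, norm_zero, ENNReal.ofReal_zero]
  have hint : ∫⁻ z, ‖fderiv ℝ v z‖ₑ < ⊤ := by
    refine lt_of_le_of_lt (lintegral_mono hbound) ?_
    rw [lintegral_indicator hEm, setLIntegral_const]
    exact ENNReal.mul_lt_top ENNReal.ofReal_lt_top hEv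
  obtain ⟨c, hc⟩ := H98.Dbar.cross hvs hint (ε := 1 / 4) (by norm_num)
  rcases le_total c (1 / 2) with hc2 | hc2
  · left
    have hsub : Ω ⊆ E ∪ {z | 1 / 4 ≤ |v z - c|} := by
      intro z hz
      by_cases hzE : z ∈ E
      · exact Or.inl hzE
      · right
        have h2 := hout z hzE
        have h3 := hclose z
        rw [indicator_of_mem hz, abs_lt] at h2
        rw [abs_le] at h3
        have h4 : v z = 1 := stp_one (by linarith)
        rw [mem_ofPred_eq, h4, abs_of_nonneg (by linarith)]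
        linarith
    exact lt_of_le_of_lt ((measure_mono hsub).trans (measure_union_le _ _))
      (ENNReal.add_lt_top.2 ⟨hEv, hc⟩)
  · right
    have hsub : Ωᶜ ⊆ E ∪ {z | 1 / 4 ≤ |v z - c|} := by
      intro z hz
      by_cases hzE : z ∈ E
      · exact Or.inl hzE
      · right
        have h2 := hout z hzE
        have h3 := hclose z
        rw [indicator_of_notMem hz, abs_lt] at h2
        rw [abs_le] at h3
        have h4 : v z = 0 := stp_zero (by linarith)
        rw [mem_ofPred_eq, h4, abs_of_nonpos (by linarith)]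
        linarith
    exact lt_of_le_of_lt ((measure_mono hsub).trans (measure_union_le _ _))
      (ENNReal.add_lt_top.2 ⟨hEv, hc⟩)

/-- **The density criterion** for `0 < α ≤ 1`. -/
theorem admissible_iff_densSum {α : ℝ} (h0 : 0 < α) (h1 : α ≤ 1) {k : ℕ} (hk : α < k) {Ω : Set ℂ}
    (hΩ : MeasurableSet Ω) : H98.Dbar.Admissible α k Ω ↔ densSum α Ω < ⊤ :=
  (admissible_iff_dens h0 h1 hk hΩ).trans
    ⟨fun h => h.2, fun h => ⟨area_of_densSum h1 hΩ h, h⟩⟩

end H98.Dens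

end

section

/-!
# The moment criterion
-/

open MeasureTheory Metric Set Filter Topology
open scoped ContDiff ENNReal NNReal
open H98.Dbar (IsProfile moll bumpAt Crit chi Wf bump Admissible)

namespace H98.Dens

lemma mom_int (Ω : Set ℂ) (n j : ℕ) (z : ℂ) :
    IntegrableOn (fun w : ℂ => ((1 - (‖w - z‖ / (1 / 2) ^ j) ^ 2) ^ n : ℝ) •
      ((w - z) / (1 / 2) ^ j)) (Ω ∩ ball z ((1 / 2) ^ j)) := by
  have h1 : IntegrableOn (fun w : ℂ => ((1 - (‖w - z‖ / (1 / 2) ^ j) ^ 2) ^ n : ℝ) •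
      ((w - z) / (1 / 2) ^ j)) (closedBall z ((1 / 2) ^ j)) := by
    apply ContinuousOn.integrableOn_compact (isCompact_closedBall _ _)
    apply Continuous.continuousOn
    have h2 : Continuous (fun w : ℂ => (1 - (‖w - z‖ / (1 / 2) ^ j) ^ 2) ^ n) := by fun_prop
    have h3 : Continuous (fun w : ℂ => (w - z) / (1 / 2) ^ j) := by fun_prop
    exact h2.smul h3
  exact h1.mono_set (inter_subset_right.trans ball_subset_closedBall)

lemma mom_part (L : ℂ →L[ℝ] ℝ) {Ω : Set ℂ} (hΩ : MeasurableSet Ω) (n j : ℕ) (z : ℂ) :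
    (mop j (wP_ik (n := n) L.continuous) • ind hΩ).1 z = -Real.pi * L (mom Ω n j z) := by
  set r : ℝ := (1 / 2) ^ j with hr
  have hr0 : 0 < r := by positivity
  have hr2 : (2:ℝ) ^ j = r⁻¹ := by rw [hr, one_div, inv_pow, inv_inv]
  have hr2c : (2:ℂ) ^ j = (r⁻¹ : ℝ) := by rw [← hr2]; push_cast; rfl
  have h4 : (4:ℝ) ^ j = (r ^ 2)⁻¹ := by
    rw [show (4:ℝ) = 2 ^ 2 by norm_num, ← pow_mul, mul_comm, pow_mul, hr2, inv_pow]
  have hrc : ((1:ℂ) / 2) ^ j = (r : ℂ) := by rw [hr]; push_cast; rfl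
  have e : ∀ w, sc j (wP n L) (z - w) * Ω.indicator (fun _ => (1:ℝ)) (z - (z - w)) =
      (Ω ∩ ball z r).indicator (fun w => -(r ^ 2)⁻¹ *
        ((1 - (‖w - z‖ / r) ^ 2) ^ n * L ((w - z) / (1 / 2) ^ j))) w := by
    intro w
    rw [sub_sub_cancel]
    have hn : ‖(2:ℂ) ^ j * (z - w)‖ = ‖w - z‖ / r := by
      rw [hr2c, norm_mul, Complex.norm_real, Real.norm_of_nonneg (by positivity), norm_sub_rev]
      ring
    by_cases h : w ∈ Ω
    · by_cases h' : w ∈ ball z r
      · rw [indicator_of_mem h, indicator_of_mem (show w ∈ Ω ∩ ball z r from ⟨h, h'⟩), mul_one]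
        unfold sc
        have h5 : ‖(2:ℂ) ^ j * (z - w)‖ < 1 := by
          rw [hn, div_lt_one hr0, ← dist_eq_norm]
          exact h'
        rw [wP_in h5, hn, h4]
        have h6 : (2:ℂ) ^ j * (z - w) = -((w - z) / (1 / 2) ^ j) := by
          rw [hrc, hr2c]; push_cast; ring
        rw [h6, map_neg]
        ring
      · rw [indicator_of_notMem (show w ∉ Ω ∩ ball z r from fun hh => h' hh.2)]
        unfold sc
        rw [wP_out, mul_zero, zero_mul]
        rw [hn, le_div_iff₀ hr0, one_mul, ← dist_eq_norm]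
        exact not_lt.1 h'
    · rw [indicator_of_notMem h,
        indicator_of_notMem (show w ∉ Ω ∩ ball z r from fun hh => h hh.1), mul_zero]
  change ∫ v, sc j (wP n L) v * Ω.indicator (fun _ => (1:ℝ)) (z - v) = _
  rw [← integral_sub_left_eq_self (fun v => sc j (wP n L) v * Ω.indicator (fun _ => (1:ℝ)) (z - v))
    volume z]
  simp_rw [e]
  rw [integral_indicator (hΩ.inter measurableSet_ball), integral_const_mul]
  unfold mom
  rw [map_smul, ← L.integral_comp_comm (mom_int Ω n j z)]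
  have e2 : ∀ w : ℂ, L (((1 - (‖w - z‖ / (1 / 2) ^ j) ^ 2) ^ n : ℝ) • ((w - z) / (1 / 2) ^ j)) =
      (1 - (‖w - z‖ / r) ^ 2) ^ n * L ((w - z) / (1 / 2) ^ j) := by
    intro w
    rw [map_smul, smul_eq_mul]
  simp_rw [e2]
  rw [smul_eq_mul, ← hr]
  have hpi : Real.pi ≠ 0 := Real.pi_ne_zero
  generalize (∫ a in Ω ∩ ball z r, (1 - (‖a - z‖ / r) ^ 2) ^ n * L ((a - z) / (1 / 2) ^ j)) = I
  field_simp

lemma wP_odd (L : ℂ →L[ℝ] ℝ) (n : ℕ) : ∫ w, wP n L w = 0 := by
  have h1 : ∫ w, wP n L (-w) = ∫ w, wP n L w := integral_neg_eq_self _ _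
  have h2 : ∀ w, wP n L (-w) = -wP n L w := by
    intro w
    by_cases hw : ‖w‖ < 1
    · rw [wP_in (by rwa [norm_neg]), wP_in hw, norm_neg, map_neg]; ring
    · rw [wP_out (by rw [norm_neg]; exact not_lt.1 hw), wP_out (not_lt.1 hw), neg_zero]
  simp_rw [h2] at h1
  rw [integral_neg] at h1
  linarith

/-- The sum of the moment criterion. -/
noncomputable def momSum (α : ℝ) (n : ℕ) (Ω : Set ℂ) : ℝ≥0∞ :=
  ∑' j : ℕ, ENNReal.ofReal ((2:ℝ) ^ ((1 - α) * j)) * ∫⁻ z, ‖mom Ω n j z‖ₑ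

lemma part_le {L : ℂ →L[ℝ] ℝ} (hL : ∀ z, ‖L z‖ ≤ ‖z‖) {α : ℝ} {n : ℕ} {Ω : Set ℂ}
    (hΩ : MeasurableSet Ω) (h : momSum α n Ω < ⊤) :
    ∑' j, wb (1 - α) j * NB (mop j (wP_ik (n := n) L.continuous) • ind hΩ) < ⊤ := by
  have h1 : ∀ j, wb (1 - α) j * NB (mop j (wP_ik (n := n) L.continuous) • ind hΩ) ≤
      ‖Real.pi‖ₑ * (ENNReal.ofReal ((2:ℝ) ^ ((1 - α) * j)) * ∫⁻ z, ‖mom Ω n j z‖ₑ) := by
    intro j
    have h2 : NB (mop j (wP_ik (n := n) L.continuous) • ind hΩ) ≤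
        ‖Real.pi‖ₑ * ∫⁻ z, ‖mom Ω n j z‖ₑ := by
      unfold NB
      rw [← lintegral_const_mul' _ _ enorm_ne_top]
      apply lintegral_mono
      intro z
      simp only
      rw [mom_part L hΩ, enorm_mul, enorm_neg]
      gcongr
      rw [← ofReal_norm, ← ofReal_norm]
      exact ENNReal.ofReal_le_ofReal (hL _)
    refine (mul_le_mul_right h2 _).trans (le_of_eq ?_)
    unfold wb
    ring
  refine lt_of_le_of_lt (ENNReal.tsum_le_tsum h1) ?_
  rw [ENNReal.tsum_mul_left]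
  exact ENNReal.mul_lt_top enorm_lt_top h

/-- **The moment criterion**, for every `α > 0`. -/
theorem admissible_iff_mom {α : ℝ} (h0 : 0 < α) {n : ℕ} (hn : α < n + 2) {k : ℕ} (hk : α < k)
    {Ω : Set ℂ} (hΩ : MeasurableSet Ω) : Admissible α k Ω ↔ momSum α n Ω < ⊤ := by
  obtain ⟨H, hH⟩ := H98.Dbar.exists_profile
  have hre : ∀ z, ‖Complex.reCLM z‖ ≤ ‖z‖ := fun z => Complex.abs_re_le_norm z
  have him : ∀ z, ‖Complex.imCLM z‖ ≤ ‖z‖ := fun z => Complex.abs_im_le_norm z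
  constructor
  · intro h
    have hcrit := (H98.Dbar.admissible_iff_crit hH h0 hk hΩ).1 h
    have hone : ∀ L : ℂ →L[ℝ] ℝ,
        ∑' j, wb (1 - α) j * NB (mop j (wP_ik (n := n) L.continuous) • ind hΩ) < ⊤ := by
      intro L
      obtain ⟨B, hB, hR⟩ := rk_wP n (P := L) L.contDiff
      exact nec_mom hH h0 hn hΩ hcrit (wP_ik (n := n) L.continuous) hB hR (wP_odd L n)
        (fun w hw => wP_out hw)
    have h1 : ∀ j : ℕ, ENNReal.ofReal ((2:ℝ) ^ ((1 - α) * j)) * ∫⁻ z, ‖mom Ω n j z‖ₑ ≤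
        ‖Real.pi⁻¹‖ₑ * (wb (1 - α) j *
          NB (mop j (wP_ik (n := n) Complex.reCLM.continuous) • ind hΩ)) +
        ‖Real.pi⁻¹‖ₑ * (wb (1 - α) j *
          NB (mop j (wP_ik (n := n) Complex.imCLM.continuous) • ind hΩ)) := by
      intro j
      have h2 : ∫⁻ z, ‖mom Ω n j z‖ₑ ≤
          ‖Real.pi⁻¹‖ₑ * NB (mop j (wP_ik (n := n) Complex.reCLM.continuous) • ind hΩ) +
          ‖Real.pi⁻¹‖ₑ * NB (mop j (wP_ik (n := n) Complex.imCLM.continuous) • ind hΩ) := by
        unfold NB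
        rw [← lintegral_const_mul' _ _ enorm_ne_top, ← lintegral_const_mul' _ _ enorm_ne_top,
          ← lintegral_add_left (((mop j (wP_ik (n := n) Complex.reCLM.continuous) •
            ind hΩ : BM).2.1.enorm).const_mul _)]
        apply lintegral_mono
        intro z
        simp only
        rw [mom_part, mom_part, ← enorm_mul, ← enorm_mul]
        have hpi : Real.pi ≠ 0 := Real.pi_ne_zero
        have e1 : ∀ x : ℝ, Real.pi⁻¹ * (-Real.pi * x) = -x := by
          intro x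
          field_simp
        rw [e1, e1, enorm_neg, enorm_neg]
        rw [← ofReal_norm, ← ofReal_norm, ← ofReal_norm,
          ← ENNReal.ofReal_add (norm_nonneg _) (norm_nonneg _)]
        exact ENNReal.ofReal_le_ofReal (Complex.norm_le_abs_re_add_abs_im _)
      refine (mul_le_mul_right h2 _).trans (le_of_eq ?_)
      unfold wb
      ring
    unfold momSum
    refine lt_of_le_of_lt (ENNReal.tsum_le_tsum h1) ?_
    rw [ENNReal.tsum_add, ENNReal.tsum_mul_left, ENNReal.tsum_mul_left]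
    exact ENNReal.add_lt_top.2 ⟨ENNReal.mul_lt_top enorm_lt_top (hone _),
      ENNReal.mul_lt_top enorm_lt_top (hone _)⟩
  · intro h
    apply (H98.Dbar.admissible_iff_perCrit hH h0 hk hΩ).2
    have hrep := smooth_rep (H98.Dbar.bump_contDiff hH)
    have p1 := suf_one hH h0 hn hΩ Complex.reCLM.contDiff (q_one n) hrep.one (part_le hre hΩ h)
    have p2 := suf_one hH h0 hn hΩ Complex.imCLM.contDiff (q_I n) hrep.I (part_le him hΩ h)
    have h1 : ∀ j : ℕ, ENNReal.ofReal ((2:ℝ) ^ (-(α * j))) * ∫⁻ z, ‖fderiv ℝ (moll H j Ω) z‖ₑ ≤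
        wb (-α) j * (∫⁻ z, ‖fderiv ℝ (moll H j Ω) z 1‖ₑ) +
        wb (-α) j * ∫⁻ z, ‖fderiv ℝ (moll H j Ω) z Complex.I‖ₑ := by
      intro j
      have hcd : Continuous (fun z => fderiv ℝ (moll H j Ω) z) :=
        (H98.Dbar.moll_contDiff hH hΩ j).continuous_fderiv (by simp)
      have h2 : ∫⁻ z, ‖fderiv ℝ (moll H j Ω) z‖ₑ ≤
          (∫⁻ z, ‖fderiv ℝ (moll H j Ω) z 1‖ₑ) +
          ∫⁻ z, ‖fderiv ℝ (moll H j Ω) z Complex.I‖ₑ := by
        rw [← lintegral_add_left ((hcd.clm_apply continuous_const).measurable).enorm]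
        apply lintegral_mono
        intro z
        have h1 := H98.Dbar.norm_le_parts (fderiv ℝ (moll H j Ω) z)
        change ‖fderiv ℝ (moll H j Ω) z‖ₑ ≤ ‖fderiv ℝ (moll H j Ω) z 1‖ₑ +
          ‖fderiv ℝ (moll H j Ω) z Complex.I‖ₑ
        rw [← ofReal_norm, ← ofReal_norm, ← ofReal_norm,
          ← ENNReal.ofReal_add (norm_nonneg _) (norm_nonneg _)]
        exact ENNReal.ofReal_le_ofReal h1
      refine (mul_le_mul_right h2 _).trans (le_of_eq ?_)
      unfold wb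
      rw [neg_mul, mul_add]
    unfold H98.Dbar.PerCrit
    refine lt_of_le_of_lt (ENNReal.tsum_le_tsum h1) ?_
    rw [ENNReal.tsum_add]
    exact ENNReal.add_lt_top.2 ⟨p1, p2⟩

end H98.Dens

end
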